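import Pool.Agent.PT.Coded

/-! # Polynomial time functions as coded machines (package C2) -/

set_option autoImplicit false
set_option backward.isDefEq.respectTransparency false

namespace Pool.Agent.PCP

open Turing Computability
open Pool.Agent.PT

/-- Proof sketch: as `exists_cm` (file `Pool/Agent/PT/Coded.lean`), reading all cells of the output
stack: `dcd b` is `decS tm tm.k₁ b` mapped by `eout`, and the output stack of the halting configuration
is `List.map eout.invFun (eb (f a))`. -/
theorem exists_cm_out {α β A B : Type} (ea : α → List A) (eb : β → List B) (f : α → β)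
    (h : TM2ComputableInPolyTime ea eb f) :
    ∃ (C : CM) (ini ks ko : ℕ) (code : A → ℕ) (dcd : ℕ → Option B) (P : Polynomial ℕ),
      ini < C.M0 ∧ ks < C.κ ∧ ko < C.κ ∧ (∀ a, code a < C.M0) ∧
      ∀ a : α, ∀ T, P.eval (ea a).length ≤ T →
        ∀ i, dcd ((C.step^[T] (initc ini ks C.κ code (ea a))) (1 + i * C.κ + ko)) =
          (eb (f a))[i]? := by
  classical
  obtain ⟨⟨tm, ein, eout⟩, time, hout⟩ := h
  have hm0 : ∀ c, ctl tm c < m0 tm := fun c => by
    have := ctl_lt tm c
    unfold m0; omega
  refine ⟨cm tm, ctl tm (⟨some (tm.m tm.main), main_mem_FF tm tm.main⟩, tm.initialState),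
    (eK tm tm.k₀).val, (eK tm tm.k₁).val, fun a => inC tm (ein.symm a),
    fun b => (decS tm tm.k₁ b).map eout,
    time * Polynomial.C (letI := tm.ΛFin; bigsize tm.m), hm0 _, (eK tm _).isLt, (eK tm _).isLt, ?_,
    ?_⟩
  · intro a
    change inC tm _ < m0 tm
    have := (eG tm (ein.symm a)).isLt
    unfold inC m0
    omega
  · intro a T hT i
    let _ := tm.ΛFin
    obtain ⟨⟨n, hn⟩, hle⟩ := hout a
    obtain ⟨d, hd, hd'⟩ := msteps_run tm.m n _ _ hn
    set y := List.map ein.invFun (ea a) with hy
    have hinit : initc (ctl tm (⟨some (tm.m tm.main), main_mem_FF tm tm.main⟩, tm.initialState))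
        (eK tm tm.k₀).val (cm tm).κ (fun a => inC tm (ein.symm a)) (ea a) =
        initc (ctl tm (⟨some (tm.m tm.main), main_mem_FF tm tm.main⟩, tm.initialState))
        (eK tm tm.k₀).val (nK tm) (inC tm) y := by
      funext pos
      unfold initc
      congr 1
      change (if (pos - 1) % nK tm = _ then _ else _) = _
      congr 1
      rw [hy, List.getElem?_map]
      change (match (ea a)[(pos - 1) / nK tm]? with
        | some a => inC tm (ein.symm a)
        | none => 0) = _
      cases (ea a)[(pos - 1) / nK tm]? <;> rfl
    rw [hinit]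
    have hrel := rel_init tm y
    have hTd : d ≤ T := by
      refine hd.trans (le_trans ?_ hT)
      simp only [Polynomial.eval_mul, Polynomial.eval_C]
      exact Nat.mul_le_mul_right _ hle
    have hrelT := rel_iter tm _ (fun p => initc_lt (hm0 _) (fun g => by
      have := (eG tm g).isLt
      unfold inC m0
      omega) y p) _ hrel T
    have hT' : (mstep tm.m)^[T] (toM tm.m (initList tm y)) =
        toM tm.m (haltList tm (List.map eout.invFun (eb (f a)))) := by
      obtain ⟨e, rfl⟩ := Nat.exists_eq_add_of_le hTd
      rw [Nat.add_comm, Function.iterate_add_apply, hd']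
      exact msteps_halted _ _ _ _
    rw [hT'] at hrelT
    have h1 := hrelT.stk_eq tm.k₁ i
    have h2 : (toM tm.m (haltList tm (List.map eout.invFun (eb (f a))))).S tm.k₁ =
        List.map eout.invFun (eb (f a)) := by
      change (haltList tm (List.map eout.invFun (eb (f a)))).stk tm.k₁ = _
      simp [haltList]
    rw [h2] at h1
    change (decS tm tm.k₁ _).map eout = _
    change decS tm tm.k₁ ((cm tm).step^[T] _ (1 + i * (cm tm).κ + (eK tm tm.k₁).val)) = _ at h1
    rw [h1, List.getElem?_map, Option.map_map]
    have h3 : (⇑eout ∘ eout.invFun) = id := by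
      funext b
      exact eout.apply_symm_apply b
    rw [h3]
    simp

end Pool.Agent.PCP
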