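import Pool.Agent.PCP.WFComp
import Pool.Agent.PCP.CmOut
import Pool.Agent.Book19.ComapGen

/-! # Composition of polynomial time functions (packages C3, C4) -/

set_option autoImplicit false

namespace Pool.Agent.PCP

open Turing Computability
open Pool.Agent.PT Pool.Agent.Book19 Pool.Agent.B7219d
open Pool.Agent.Book19.ComapGen

/-- One step does not produce nonzero cells far away. -/
private theorem compPT_zero_step (C : CM) (c : ℕ → ℕ) (m : ℕ) (hc : ∀ p, C.κ * m < p → c p = 0) :
    ∀ p, C.κ * (m + 1) < p → C.step c p = 0 := by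
  intro p hp
  have e : C.κ * (m + 1) = C.κ * m + C.κ := by ring
  rw [e] at hp
  have hκ := C.κpos
  have h1 : ¬ ((p - 1) % C.κ = C.stk (c 0) ∧ 2 ≤ C.op (c 0) ∧ p - 1 < C.κ) := by
    rintro ⟨_, _, h⟩
    omega
  have h2 : C.κ * m < C.R p (c 0) := by
    unfold CM.R
    split_ifs <;> omega
  unfold CM.step CM.V
  rw [if_neg (by omega), if_neg h1]
  exact hc _ h2

private theorem compPT_zero (C : CM) (c : ℕ → ℕ) (m : ℕ) (hc : ∀ p, C.κ * m < p → c p = 0)
    (s : ℕ) : ∀ p, C.κ * (m + s) < p → C.step^[s] c p = 0 := by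
  induction s with
  | zero => simpa using hc
  | succ s ih =>
    intro p hp
    rw [Function.iterate_succ_apply']
    exact compPT_zero_step C _ (m + s) ih p (by rwa [add_assoc])

private theorem compPT_initc {A : Type} (C : CM) (ini ks : ℕ) (code : A → ℕ) (x : List A) :
    ∀ p, C.κ * x.length < p → initc ini ks C.κ code x p = 0 := by
  intro p hp
  unfold initc
  rw [if_neg (by omega)]
  split_ifs with h
  · have h1 : x[(p - 1) / C.κ]? = none := by
      rw [List.getElem?_eq_none_iff, Nat.le_div_iff_mul_le C.κpos, mul_comm]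
      omega
    rw [h1]
  · rfl

/-- (package C3) Proof sketch: with `exists_cm_out`; the words are words of cells with a time mark,
letters `Fin C.M0 × Bool`, exactly as in the proof of `polyTime_comap` (file
`Pool/Agent/Book19/ComapGen.lean`: `nxw`, `iter_spec`); the length of the output is the number of the
first cell of the output stack with `dcd = none`. -/
theorem iterRep_of_polyTime {α β A B : Type} [Fintype A] [Fintype B] [Nonempty B]
    {ea : α → List A} {eb : β → List B} {f : α → β}
    (h : Nonempty (TM2ComputableInPolyTime ea eb f)) : IterRep ea eb f := by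
  classical
  obtain ⟨h⟩ := h
  obtain ⟨C, ini, ks, ko, code, dcd, P, hini, hks, hko, hcode, hdcd⟩ := exists_cm_out ea eb f h
  have hM : 0 < C.M0 := by omega
  have hκ := C.κpos
  obtain ⟨b0⟩ := (inferInstance : Nonempty B)
  -- the coded functions
  have ustk : ∀ {Δ : Type} {f : List Δ → (ℕ → ℕ) → ℕ}, UF f → UF (fun x e => C.stk (f x e)) :=
    fun hf => UF.table' _ _ C.stk_zero hf
  have uop : ∀ {Δ : Type} {f : List Δ → (ℕ → ℕ) → ℕ}, UF f → UF (fun x e => C.op (f x e)) :=
    fun hf => UF.table' _ _ C.op_zero hf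
  have unx : ∀ {Δ : Type} {f g : List Δ → (ℕ → ℕ) → ℕ}, UF f → UF g →
      UF (fun x e => C.nx (f x e) (g x e)) :=
    fun {Δ} {f g} hf hg => (UF.table₂ C.nx C.M0 C.M0 hf hg).congr fun x e => by
      split_ifs with h
      · rfl
      · exact (C.nx_zero _ _ h).symm
  have uR : ∀ {Δ : Type} {f g : List Δ → (ℕ → ℕ) → ℕ}, UF f → UF g →
      UF (fun x e => C.R (f x e) (g x e)) := by
    intro Δ f g hf hg
    unfold CM.R
    exact UF.ite (UP.eq hf (UF.const 0)) ((UF.const 1).add (ustk hg))
      (UF.ite (UP.eq ((hf.sub (UF.const 1)).mod (UF.const _)) (ustk hg))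
        (UF.ite (UP.eq (uop hg) (UF.const 0)) hf
          (UF.ite (UP.eq (uop hg) (UF.const 1)) (hf.add (UF.const _))
            (UF.ite (UP.lt (hf.sub (UF.const 1)) (UF.const _)) hf (hf.sub (UF.const _))))) hf)
  have uV : ∀ {Δ : Type} {f g h : List Δ → (ℕ → ℕ) → ℕ}, UF f → UF g → UF h →
      UF (fun x e => C.V (f x e) (g x e) (h x e)) := by
    intro Δ f g h hf hg hh
    unfold CM.V
    exact UF.ite (UP.eq hf (UF.const 0)) (unx hg hh)
      (UF.ite ((UP.eq ((hf.sub (UF.const 1)).mod (UF.const _)) (ustk hg)).and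
        ((UP.le (UF.const 2) (uop hg)).and (UP.lt (hf.sub (UF.const 1)) (UF.const _))))
        ((uop hg).sub (UF.const 2)) hh)
  -- time and space
  set T : List A → ℕ := fun x => P.eval x.length with hT
  have uT : UF (fun x _ => T x) := UF.poly P UF.len
  set W : List A → ℕ := fun x => C.κ * (2 * T x + x.length + 3) with hW
  have uW : UF (fun x _ => W x) :=
    (UF.const _).mul ((((UF.const 2).mul uT).add UF.len).add (UF.const 3))
  have hTW : ∀ x, T x ≤ W x := fun x => by
    have : 1 * (2 * T x + x.length + 3) ≤ C.κ * (2 * T x + x.length + 3) :=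
      Nat.mul_le_mul_right _ hκ
    simp only [hW]
    omega
  -- the initial word
  have uiv : UF (fun (x : List A) e => initc ini ks C.κ code x (e 0)) := by
    have hi : UF (fun (x : List A) e => (e 0 - 1) / C.κ) :=
      ((UF.var 0).sub (UF.const 1)).div (UF.const _)
    unfold initc
    refine UF.ite (UP.eq (UF.var 0) (UF.const 0)) (UF.const _)
      (UF.ite (UP.eq (((UF.var 0).sub (UF.const 1)).mod (UF.const _)) (UF.const _))
        ?_ (UF.const 0))
    have h1 : UF (fun (x : List A) (e : ℕ → ℕ) => ∑ a ∈ (Finset.univ : Finset A),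
        (code a * (if x[(e 0 - 1) / C.κ]? = some a then 1 else 0))) := by
      refine UF.fsum (F := fun a x e => code a * (if x[(e 0 - 1) / C.κ]? = some a then 1 else 0)) _
        (fun a _ => (UF.const (code a)).mul (UF.congr (UP.sym a hi) fun x e => ?_))
      congr
    refine h1.congr fun x e => ?_
    cases hx : x[(e 0 - 1) / C.κ]? with
    | none => simp
    | some v =>
      rw [Finset.sum_eq_single v]
      · simp
      · intro b _ hb
        rw [if_neg (fun h' => hb (by simpa using h'.symm))]
        simp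
      · intro h; exact absurd (Finset.mem_univ _) h
  have iv_lt : ∀ x p, initc ini ks C.κ code x p < C.M0 := fun x p => initc_lt hini hcode x p
  let G₀ : List A → ℕ → Fin C.M0 × Bool := fun x p =>
    (⟨initc ini ks C.κ code x p, iv_lt x p⟩, decide (p < T x))
  have uG₀ : UD (fun x e => G₀ x (e 0)) := by
    rintro ⟨v, b⟩
    refine ((UP.eq uiv (UF.const (v : ℕ))).and
      ((UP.lt (UF.var 0) uT).iff (UP.const (b = true)))).congr fun x e => ?_
    simp only [G₀, Prod.mk.injEq, Fin.ext_iff]
    refine and_congr_right fun _ => ?_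
    cases b <;> simp
  have uG₁ : UD (fun y e => nxtL C hM y (e 0)) := by
    rintro ⟨v, b⟩
    have h0 : UF (fun (y : List (Fin C.M0 × Bool)) (_ : ℕ → ℕ) => val C y 0) := uval C (UF.const 0)
    have h1 : UF (fun (y : List (Fin C.M0 × Bool)) e => C.V (e 0) (val C y 0)
        (val C y (C.R (e 0) (val C y 0)))) :=
      uV (UF.var 0) h0 (uval C (uR (UF.var 0) h0))
    have h2 : UP (fun (y : List (Fin C.M0 × Bool)) e => ∃ v, y[e 0 + 1]? = some (v, true)) :=
      UP.fex (fun v => UP.sym (v, true) ((UF.var 0).add (UF.const 1)))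
    refine ((UP.eq h1 (UF.const (v : ℕ))).and (h2.iff (UP.const (b = true)))).congr
      fun x e => ?_
    simp only [nxtL, Prod.mk.injEq, Fin.ext_iff]
    refine and_congr_right fun _ => ?_
    cases b <;> simp
  have uQ : UP (fun (y : List (Fin C.M0 × Bool)) _ => ∃ v, y[0]? = some (v, true)) :=
    UP.fex (fun v => UP.sym (v, true) (UF.const 0))
  -- the output
  let D : List (Fin C.M0 × Bool) → ℕ → Option B := fun y i => dcd (val C y (1 + i * C.κ + ko))
  have uD : UD (fun y e => D y (e 0)) := by
    intro o
    have h1 : UF (fun (y : List (Fin C.M0 × Bool)) (e : ℕ → ℕ) => val C y (1 + e 0 * C.κ + ko)) :=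
      uval C (((UF.const 1).add ((UF.var 0).mul (UF.const _))).add (UF.const _))
    refine UP.of_ne_zero (UF.table (fun a => if dcd a = o then 1 else 0) C.M0 h1) fun x e => ?_
    rw [if_pos (val_lt C hM _ _)]
    by_cases h2 : dcd (val C x (1 + e 0 * C.κ + ko)) = o <;> simp [D, h2]
  let M₂ : List (Fin C.M0 × Bool) → ℕ := fun y =>
    ∑ i ∈ Finset.range y.length, if ∀ j, j < i + 1 → D y j ≠ none then 1 else 0
  have uM₂ : UF (fun y _ => M₂ y) := by
    refine UF.sum (f := fun y _ i => if ∀ j, j < i + 1 → D y j ≠ none then 1 else 0) UF.len ?_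
    have h1 : UP (fun (y : List (Fin C.M0 × Bool)) (e : ℕ → ℕ) =>
        ∀ j, j < e 0 + 1 → D y j ≠ none) :=
      UP.ball (P := fun y _ j => D y j ≠ none) ((UF.var 0).add (UF.const 1)) (uD none).not
    refine UF.congr h1 fun x e => ?_
    congr
  let G₂ : List (Fin C.M0 × Bool) → ℕ → B := fun y i => (D y i).getD b0
  have uG₂ : UD (fun y e => G₂ y (e 0)) := UD.map uD (fun o => o.getD b0)
  have hPB : PB (fun n => P.eval n) := PB.ofPoly P
  refine ⟨Fin C.M0 × Bool, inferInstance, fun x => (List.range (W x)).map (G₀ x), nxw C hM,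
    fun y => (List.range (M₂ y)).map (G₂ y), fun y => ∃ v, y[0]? = some (v, true),
    fun n => P.eval n, fun n => C.κ * (2 * P.eval n + n + 3),
    ⟨W, G₀, uW, uG₀, fun _ => rfl⟩, ⟨fun y => y.length, nxtL C hM, UF.len, uG₁, fun _ => rfl⟩,
    ⟨M₂, G₂, uM₂, uG₂, fun _ => rfl⟩, uQ, hPB,
    (PB.const _).mul ((((PB.const 2).mul hPB).add PB.id).add (PB.const 3)), fun a => ?_⟩
  set x := ea a with hx
  set y := (List.range (W x)).map (G₀ x) with hy
  have hyl : y.length = W x := by simp [hy]
  have hget : ∀ p < W x, y[p]? = some (G₀ x p) := fun p hp => by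
    simp [hy, List.getElem?_range hp]
  have key := iter_spec C hM (initc ini ks C.κ code x) (W x) (T x) (hTW x) y hyl
    (fun p hp => by unfold val; rw [hget p hp])
    (fun p hp => by
      rw [hget p hp]
      simp only [G₀, Option.some.injEq, Prod.mk.injEq, decide_eq_true_eq]
      constructor
      · rintro ⟨_, _, h⟩; exact h
      · intro h; exact ⟨_, rfl, h⟩)
  have hWpos : 0 < W x := by
    simp only [hW]
    positivity
  refine ⟨T x, le_rfl, fun i hi => ?_, ?_, fun i _ => ?_, ?_⟩
  · exact ((key i).2.2 0 hWpos).2 (by omega)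
  · intro hcon
    have := ((key (T x)).2.2 0 hWpos).1 hcon
    omega
  · rw [(key i).1]
  -- the output
  set z := (nxw C hM)^[T x] y with hz
  have hzl : z.length = W x := (key (T x)).1
  have hout := hdcd a (T x) le_rfl
  rw [← hx] at hout
  -- the length of the output
  have hfar : ∀ i, x.length + T x ≤ i → dcd 0 = (eb (f a))[i]? := by
    intro i hi
    have h1 : C.κ * (x.length + T x) ≤ i * C.κ := by
      rw [mul_comm]
      exact Nat.mul_le_mul_right _ hi
    have h2 := compPT_zero C _ _ (compPT_initc C ini ks code x) (T x) (1 + i * C.κ + ko) (by omega)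
    rw [← hout i, h2]
  have hd0 : dcd 0 = none := by
    rw [hfar (x.length + T x + (eb (f a)).length) (by omega)]
    rw [List.getElem?_eq_none_iff]
    omega
  have hlen : (eb (f a)).length ≤ x.length + T x := by
    have h1 := hfar (x.length + T x) le_rfl
    rw [hd0] at h1
    exact List.getElem?_eq_none_iff.1 h1.symm
  have hD : ∀ i, i ≤ x.length + T x → D z i = (eb (f a))[i]? := by
    intro i hi
    have h1 : i * C.κ ≤ C.κ * (x.length + T x) := by
      rw [mul_comm]
      exact Nat.mul_le_mul_left _ hi
    have h2 : 1 + i * C.κ + ko + C.κ * T x < W x := by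
      have e : C.κ * (2 * T x + x.length + 3) =
          C.κ * (x.length + T x) + C.κ * T x + C.κ * 3 := by ring
      simp only [hW]
      omega
    rw [← hout i, ← (key (T x)).2.1 _ h2]
  have hM₂ : M₂ z = (eb (f a)).length := by
    have h1 : ∀ i ∈ Finset.range z.length, (∀ j, j < i + 1 → D z j ≠ none) ↔
        i < (eb (f a)).length := by
      intro i _
      constructor
      · intro h2
        by_contra h3
        refine h2 (eb (f a)).length (by omega) ?_
        rw [hD _ hlen, List.getElem?_eq_none_iff]
      · intro h2 j hj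
        rw [hD j (by omega), Ne, List.getElem?_eq_none_iff]
        omega
    show (∑ i ∈ Finset.range z.length, if ∀ j, j < i + 1 → D z j ≠ none then 1 else 0) = _
    rw [Finset.sum_boole, Nat.cast_id]
    have h2 : (Finset.range z.length).filter (fun i => ∀ j, j < i + 1 → D z j ≠ none) =
        Finset.range (eb (f a)).length := by
      ext i
      rw [Finset.mem_filter, Finset.mem_range, Finset.mem_range]
      constructor
      · rintro ⟨h3, h4⟩
        exact (h1 i (Finset.mem_range.2 h3)).1 h4
      · intro h3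
        have h4 : i < z.length := by
          rw [hzl]
          have : 1 * (2 * T x + x.length + 3) ≤ C.κ * (2 * T x + x.length + 3) :=
            Nat.mul_le_mul_right _ hκ
          simp only [hW]
          omega
        exact ⟨h4, (h1 i (Finset.mem_range.2 h4)).2 h3⟩
    rw [h2, Finset.card_range]
  show eb (f a) = (List.range (M₂ z)).map (G₂ z)
  rw [hM₂]
  apply List.ext_getElem?
  intro i
  rw [List.getElem?_map]
  by_cases hi : i < (eb (f a)).length
  · rw [List.getElem?_range hi, List.getElem?_eq_getElem hi]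
    simp only [Option.map_some, G₂]
    rw [hD i (by omega), List.getElem?_eq_getElem hi]
    rfl
  · rw [List.getElem?_eq_none_iff.2 (not_lt.1 hi), List.getElem?_eq_none_iff.2]
    · rfl
    · rw [List.length_range]
      exact not_lt.1 hi

end Pool.Agent.PCP
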