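import Pool.Agent.PCP.IterOut

/-! # Word functions given by terms: composition (package C1) -/

set_option autoImplicit false

namespace Pool.Agent.PCP

open Turing Computability
open Pool.Agent.PT Pool.Agent.Book19 Pool.Agent.B7219d

variable {A B C : Type}

private theorem wfcomp_tm {F : List A → List B} (hF : WF F) :
    ∀ t : Tm B, UF fun x e => t.eval (F x) e := by
  obtain ⟨M, G, hM, hG, hFG⟩ := hF
  intro t
  induction t with
  | var i => exact UF.var i
  | const c => exact UF.const c
  | len =>
    refine hM.congr fun x e => ?_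
    simp only [Tm.eval]
    rw [hFG x, List.length_map, List.length_range]
  | sym b t ih =>
    have hM' : UF fun x (_ : ℕ → ℕ) => M x := hM
    have h1 : UP fun x e => G x (t.eval (F x) e) = b :=
      UP.comp₁ (P := fun x i => G x i = b) (hG b) ih
    have h0 : UP fun x e => t.eval (F x) e < M x ∧ G x (t.eval (F x) e) = b :=
      (UP.lt ih hM').and h1
    refine UF.congr h0 fun x e => ?_
    simp only [Tm.eval]
    have h2 : (F x)[t.eval (F x) e]? = some b ↔
        t.eval (F x) e < M x ∧ G x (t.eval (F x) e) = b := by
      generalize t.eval (F x) e = k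
      rw [hFG x, List.getElem?_map]
      by_cases hk : k < M x
      · rw [List.getElem?_range hk]
        simp [hk]
      · have h3 : (List.range (M x))[k]? = none := by
          rw [List.getElem?_eq_none_iff, List.length_range]
          exact not_lt.1 hk
        rw [h3]
        simp [hk]
    by_cases h : (F x)[t.eval (F x) e]? = some b
    · rw [if_pos h, if_pos (h2.1 h)]
    · rw [if_neg h, if_neg (fun h4 => h (h2.2 h4))]
  | add s t hs ht => exact hs.add ht
  | sub s t hs ht => exact hs.sub ht
  | sum b t hb ht => exact UF.sum' hb ht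
  | lett s t hs ht => exact UF.lett hs ht
  | ren σ t ht => exact UF.ren σ ht

/-- **Substitution of words.**  Proof sketch: induction on the term of `f`; `Tm.sym b t` at `F x` is
`t < M x ∧ G x t = b`, `Tm.len` is `M x`. -/
theorem UF.word {f : List B → (ℕ → ℕ) → ℕ} (hf : UF f) {F : List A → List B} (hF : WF F) :
    UF fun x e => f (F x) e := by
  obtain ⟨t, ht⟩ := hf
  exact (wfcomp_tm hF t).congr fun x e => ht _ _

theorem UP.word {P : List B → (ℕ → ℕ) → Prop} (hP : UP P) {F : List A → List B} (hF : WF F) :
    UP fun x e => P (F x) e := by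
  exact (UF.word hP hF).congr fun x e => rfl

theorem UD.word {T : Type} {f : List B → (ℕ → ℕ) → T} (hf : UD f) {F : List A → List B}
    (hF : WF F) : UD fun x e => f (F x) e := fun a => UP.word (hf a) hF

theorem WF.comp {F : List A → List B} {G : List B → List C} (hG : WF G) (hF : WF F) :
    WF fun x => G (F x) := by
  obtain ⟨M, g, hM, hg, hGM⟩ := hG
  exact ⟨fun x => M (F x), fun x i => g (F x) i, UF.word hM hF, UD.word hg hF,
    fun x => hGM (F x)⟩

/-- Concatenation. -/
theorem WF.append [Finite B] {F G : List A → List B} (hF : WF F) (hG : WF G) :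
    WF fun x => F x ++ G x := by
  classical
  obtain ⟨M, g, hM, hg, hFM⟩ := hF
  obtain ⟨N, k, hN, hk, hGN⟩ := hG
  have hM' : UF fun x (_ : ℕ → ℕ) => M x := hM
  refine ⟨fun x => M x + N x, fun x i => if i < M x then g x i else k x (i - M x), hM.add hN,
    ?_, fun x => ?_⟩
  · refine UD.ite (P := fun x e => e 0 < M x) (UP.lt (UF.var 0) hM') hg ?_
    exact UD.comp₁ (f := fun x i => k x i) hk ((UF.var 0).sub hM')
  · change F x ++ G x = (List.range (M x + N x)).map fun i => if i < M x then g x i else k x (i - M x)
    rw [List.range_add, List.map_append, hFM x, hGN x, List.map_map]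
    congr 1
    · refine List.map_congr_left fun i hi => ?_
      rw [if_pos (List.mem_range.1 hi)]
    · refine List.map_congr_left fun i _ => ?_
      simp

/-- Letter by letter (the empty word over an empty alphabet has to be excluded). -/
theorem WF.map [Finite A] [Nonempty B] (g : A → B) : WF fun x : List A => x.map g := by
  classical
  obtain ⟨b⟩ := ‹Nonempty B›
  refine ⟨fun x => x.length, fun x i => (x[i]?.map g).getD b, UF.len, ?_, fun x => ?_⟩
  · exact UD.map (f := fun x e => x[e 0]?) (UD.get (UF.var 0)) (fun o => (o.map g).getD b)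
  · refine List.ext_getElem ?_ fun i h1 h2 => ?_
    · simp
    · simp only [List.length_map] at h1
      simp [h1]

theorem WF.const (b : B) {n : List A → ℕ} (hn : UF fun x _ => n x) :
    WF fun x => List.replicate (n x) b := by
  refine ⟨n, fun _ _ => b, hn, UD.const b, fun x => ?_⟩
  rw [List.map_const', List.length_range]

/-- Case distinction. -/
theorem WF.ite [Finite B] {P : List A → Prop} {inst : ∀ x, Decidable (P x)}
    (hP : UP fun x _ => P x) {F G : List A → List B} (hF : WF F) (hG : WF G) :
    WF fun x => @_root_.ite _ (P x) (inst x) (F x) (G x) := by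
  obtain ⟨M, g, hM, hg, hFM⟩ := hF
  obtain ⟨N, k, hN, hk, hGN⟩ := hG
  refine ⟨fun x => @_root_.ite _ (P x) (inst x) (M x) (N x),
    fun x i => @_root_.ite _ (P x) (inst x) (g x i) (k x i),
    UF.ite (P := fun x _ => P x) (inst := fun x _ => inst x) hP hM hN,
    UD.ite (P := fun x _ => P x) (inst := fun x _ => inst x) hP hg hk, fun x => ?_⟩
  by_cases h : P x
  · simp only [if_pos h]
    exact hFM x
  · simp only [if_neg h]
    exact hGN x

end Pool.Agent.PCP
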