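import Pool.Agent.PCP.UD

/-! # Iteration with a word as output (package W9) -/

set_option autoImplicit false

namespace Pool.Agent.PCP

open Turing Computability
open Pool.Agent.PT Pool.Agent.Book19 Pool.Agent.B7219d

/-- Word functions whose length and letters are given by terms. -/
def WF {A B : Type} (F : List A → List B) : Prop :=
  ∃ (M : List A → ℕ) (G : List A → ℕ → B), (UF fun x _ => M x) ∧ (UD fun x e => G x (e 0)) ∧
    ∀ x, F x = (List.range (M x)).map (G x)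

/-- Functions (on encodings) which are computed by an initial word function, the iteration of a word
function while a condition holds, and a final word function, in polynomially many rounds and with
words of polynomial length. -/
def IterRep {α β A B : Type} (ea : α → List A) (eb : β → List B) (f : α → β) : Prop :=
  ∃ (Λ : Type) (_ : Fintype Λ) (F₀ : List A → List Λ) (F₁ : List Λ → List Λ)
    (F₂ : List Λ → List B) (Q : List Λ → Prop) (S L : ℕ → ℕ),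
    WF F₀ ∧ WF F₁ ∧ WF F₂ ∧ (UP fun x _ => Q x) ∧ PB S ∧ PB L ∧
    ∀ a, ∃ s ≤ S (ea a).length, (∀ i < s, Q (F₁^[i] (F₀ (ea a)))) ∧
      ¬ Q (F₁^[s] (F₀ (ea a))) ∧ (∀ i ≤ s, (F₁^[i] (F₀ (ea a))).length ≤ L (ea a).length) ∧
      eb (f a) = F₂ (F₁^[s] (F₀ (ea a)))

/-- **Iteration.** Compute an initial word, iterate a word function while a condition holds, and
compute a word from the last word.  Proof sketch: as `Pool.Agent.B7219d.polyTime_iter`,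
`polyTime_iterate` (file `Pool/Agent/B7219d/PTIter.lean`), with the last program replaced by
`outP` for the final word function (letters from `exists_letter`), cf. `polyTime_of_terms`. -/
theorem polyTime_of_iterRep {α β A B : Type} [Fintype A] [Fintype B] {ea : α → List A}
    {eb : β → List B} {f : α → β} (h : IterRep ea eb f) :
    Nonempty (TM2ComputableInPolyTime ea eb f) := by
  classical
  obtain ⟨Λ, hΛ, F₀, F₁, F₂, Q, S, L, ⟨M₀, G₀, hM₀, hG₀, hF₀⟩, ⟨M₁, G₁, hM₁, hG₁, hF₁⟩,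
    ⟨M₂, G₂, hM₂, hG₂, hF₂⟩, hQ, hS, hL, hrun⟩ := h
  obtain ⟨m₀, hm₀⟩ := hM₀
  obtain ⟨m₁, hm₁⟩ := hM₁
  obtain ⟨m₂, hm₂⟩ := hM₂
  obtain ⟨t₀, K₀, φ₀, h₀⟩ := exists_letter (G := G₀) hG₀
  obtain ⟨t₁, K₁, φ₁, h₁⟩ := exists_letter (G := G₁) hG₁
  obtain ⟨t₂, K₂, φ₂, h₂⟩ := exists_letter (G := G₂) hG₂
  obtain ⟨c, hc⟩ := hQ
  have e₀ : wf m₀ t₀ K₀ φ₀ = F₀ := by
    funext x
    rw [hF₀, wf, hm₀]
    exact List.map_congr_left fun i _ => h₀ x i
  have e₁ : wf m₁ t₁ K₁ φ₁ = F₁ := by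
    funext x
    rw [hF₁, wf, hm₁]
    exact List.map_congr_left fun i _ => h₁ x i
  have e₂ : wf m₂ t₂ K₂ φ₂ = F₂ := by
    funext x
    rw [hF₂, wf, hm₂]
    exact List.map_congr_left fun i _ => h₂ x i
  have hcv : ∀ x, c.eval x (fun _ => 0) = if Q x then 1 else 0 := fun x => hc x _
  let AA : Type := A ⊕ (Λ ⊕ B)
  let g₀ : A → AA := Sum.inl
  let g : Λ → AA := fun x => Sum.inr (Sum.inl x)
  let gb : B → AA := fun x => Sum.inr (Sum.inr x)
  have hg₀ : Function.Injective g₀ := Sum.inl_injective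
  have hg : Function.Injective g := fun a b h => Sum.inl_injective (Sum.inr_injective h)
  let u : AA := gb (G₂ [] 0)
  obtain ⟨T₀, hT₀, r₀⟩ := runs_step g₀ hg₀ u m₀ t₀ K₀ φ₀ g
  obtain ⟨T₁, hT₁, r₁⟩ := runs_step g hg u m₁ t₁ K₁ φ₁ g
  obtain ⟨T₂, hT₂, r₂⟩ := runs_flag g hg u c
  obtain ⟨T₃, hT₃, r₃⟩ := runs_outP g hg u m₂ t₂ K₂ (fun v => gb (φ₂ v))
  let prog : Prog AA := Prog.seq (stepP g₀ u m₀ t₀ K₀ (fun n => g (φ₀ n)))
    (Prog.seq (c.comp g u (fun _ => 3) 4)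
      (Prog.seq (Prog.loop 4 (fun _ => Prog.seq (stepP g u m₁ t₁ K₁ (fun n => g (φ₁ n)))
        (c.comp g u (fun _ => 3) 4)))
      (outP g u m₂ t₂ K₂ (fun v => gb (φ₂ v)))))
  let C : ℕ → ℕ := fun N => T₀ N + (T₂ (L N) + ((S N * (T₁ (L N) + T₂ (L N) + 1) + 1) +
    T₃ (L N)))
  have hC : PB C := hT₀.add ((hT₂.comp hL).add (((hS.mul (((hT₁.comp hL).add
    (hT₂.comp hL)).add (PB.const 1))).add (PB.const 1)).add (hT₃.comp hL)))
  obtain ⟨P, hP⟩ := hC.toPoly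
  obtain ⟨P', hP'⟩ := (hT₃.comp hL).toPoly
  let d : AA → B := Sum.elim (fun _ => G₂ [] 0) (Sum.elim (fun _ => G₂ [] 0) id)
  refine polyTime_of_prog ea eb f prog g₀ d u (fun a => (eb (f a)).map gb) (fun a => ?_) P P'
    (fun a => ?_) (fun a => ?_)
  · rw [List.map_map]
    have e : d ∘ gb = id := rfl
    rw [e, List.map_id]
  · obtain ⟨s, hs, hs1, hs0, hsL, hfin⟩ := hrun a
    have h1 := (r₃ (F₁^[s] (F₀ (ea a)))).1
    have h2 : T₃ (F₁^[s] (F₀ (ea a))).length ≤ T₃ (L (ea a).length) := hT₃.1 (hsL s le_rfl)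
    have h3 := hP' (ea a).length
    rw [List.length_map, hfin, hF₂, List.length_map, List.length_range]
    rw [hm₂] at h1
    exact h1.trans (h2.trans h3)
  · obtain ⟨s, hs, hs1, hs0, hsL, hfin⟩ := hrun a
    have hone : ∀ i < s, c.eval (F₁^[i] (F₀ (ea a))) (fun _ => 0) = 1 := fun i hi => by
      rw [hcv, if_pos (hs1 i hi)]
    have hzero : c.eval (F₁^[s] (F₀ (ea a))) (fun _ => 0) = 0 := by
      rw [hcv, if_neg hs0]
    have g0 := r₀ (ea a)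
    rw [e₀] at g0
    have g2 := r₂ (F₀ (ea a))
    have g3 := runs_iter g u F₁ c _ T₁ T₂ hT₁ hT₂ (by rw [← e₁]; exact r₁) r₂
      (L (ea a).length) s (F₀ (ea a)) hsL hone hzero
    have g4 := (r₃ (F₁^[s] (F₀ (ea a)))).2
    have e3 : (List.range (m₂.eval (F₁^[s] (F₀ (ea a))) (fun _ => 0))).map
        (fun i => (fun v => gb (φ₂ v))
          (min (t₂.eval (F₁^[s] (F₀ (ea a))) (cons i (fun _ => 0))) K₂)) =
        (eb (f a)).map gb := by
      rw [hfin, ← e₂, wf, List.map_map]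
      rfl
    rw [e3] at g4
    refine (g0.seq (g2.seq (g3.seq g4))).mono (le_trans ?_ (hP _))
    have i1 : T₂ (F₀ (ea a)).length ≤ T₂ (L (ea a).length) := hT₂.1 (hsL 0 (by omega))
    have i2 : T₃ (F₁^[s] (F₀ (ea a))).length ≤ T₃ (L (ea a).length) := hT₃.1 (hsL s le_rfl)
    have i3 : s * (T₁ (L (ea a).length) + T₂ (L (ea a).length) + 1) ≤
        S (ea a).length * (T₁ (L (ea a).length) + T₂ (L (ea a).length) + 1) :=
      Nat.mul_le_mul_right _ hs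
    simp only [C]
    omega

theorem polyTime_iterate_out {Γ₀ Γ Δ : Type} [Fintype Γ₀] [Fintype Γ] [Fintype Δ]
    {M₀ : List Γ₀ → ℕ} {G₀ : List Γ₀ → ℕ → Γ} (hM₀ : UF (fun x _ => M₀ x))
    (hG₀ : UD (fun x e => G₀ x (e 0)))
    {M₁ : List Γ → ℕ} {G₁ : List Γ → ℕ → Γ} (hM₁ : UF (fun x _ => M₁ x))
    (hG₁ : UD (fun x e => G₁ x (e 0)))
    {M₂ : List Γ → ℕ} {G₂ : List Γ → ℕ → Δ} (hM₂ : UF (fun x _ => M₂ x))
    (hG₂ : UD (fun x e => G₂ x (e 0)))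
    {Q : List Γ → Prop} (hQ : UP (fun x _ => Q x))
    (F₀ : List Γ₀ → List Γ) (hF₀ : ∀ x, F₀ x = (List.range (M₀ x)).map (G₀ x))
    (F₁ : List Γ → List Γ) (hF₁ : ∀ x, F₁ x = (List.range (M₁ x)).map (G₁ x))
    (F₂ : List Γ → List Δ) (hF₂ : ∀ x, F₂ x = (List.range (M₂ x)).map (G₂ x))
    (f : List Γ₀ → List Δ) (S L : ℕ → ℕ) (hS : PB S) (hL : PB L)
    (hrun : ∀ x, ∃ s ≤ S x.length, (∀ i < s, Q (F₁^[i] (F₀ x))) ∧
      ¬ Q (F₁^[s] (F₀ x)) ∧ (∀ i ≤ s, (F₁^[i] (F₀ x)).length ≤ L x.length) ∧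
      f x = F₂ (F₁^[s] (F₀ x))) :
    PolyTime f :=
  polyTime_of_iterRep ⟨Γ, inferInstance, F₀, F₁, F₂, Q, S, L, ⟨M₀, G₀, hM₀, hG₀, hF₀⟩,
    ⟨M₁, G₁, hM₁, hG₁, hF₁⟩, ⟨M₂, G₂, hM₂, hG₂, hF₂⟩, hQ, hS, hL, hrun⟩

end Pool.Agent.PCP
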