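import Pool.Agent.PCP.ARMatch

/-! # Clouds (package A2) -/

set_option autoImplicit false

namespace Pool.Agent.PCP

open Finset
open scoped Classical

/-! ### The clouds -/

section

variable (J X)

/-- Size of a cloud (number of ends of the variable). -/
noncomputable def fib [Fintype J] [Fintype X] (c : C0 J X) : ℕ :=
  (univ.filter fun u : U0 J X => cl u = c).card

/-- Side of the torus used for a cloud. -/
noncomputable def side [Fintype J] [Fintype X] (c : C0 J X) : ℕ := Nat.sqrt (fib J X c) + 1

instance [Fintype J] [Fintype X] (c : C0 J X) : NeZero (side J X c) := ⟨by unfold side; omega⟩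

/-- The vertices of all clouds of one old vertex. -/
abbrev W0 [Fintype J] [Fintype X] : Type :=
  Σ c : C0 J X, ZMod (side J X c) × ZMod (side J X c)

/-- Every end gets its own vertex in the cloud of its variable.  Proof sketch:
`fib c ≤ side² = card (ZMod side × ZMod side)`, so the fibre over `c` embeds. -/
theorem exists_emb [Fintype J] [Fintype X] :
    ∃ e : U0 J X → W0 J X, Function.Injective e ∧ ∀ u, (e u).1 = cl u := by
  have h : ∀ c : C0 J X, Nonempty ({u : U0 J X // cl u = c} ↪
      (ZMod (side J X c) × ZMod (side J X c))) := by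
    intro c
    refine Function.Embedding.nonempty_of_card_le ?_
    rw [Fintype.card_prod, ZMod.card, Fintype.card_subtype]
    have h1 : fib J X c < side J X c * side J X c := Nat.lt_succ_sqrt (fib J X c)
    unfold fib at h1
    exact h1.le
  let f : ∀ c : C0 J X, {u : U0 J X // cl u = c} ↪ (ZMod (side J X c) × ZMod (side J X c)) :=
    fun c => (h c).some
  refine ⟨fun u => ⟨cl u, f (cl u) ⟨u, rfl⟩⟩, ?_, fun u => rfl⟩
  have key : ∀ (c c' : C0 J X) (u u' : U0 J X) (hu : cl u = c) (hu' : cl u' = c'),
      (⟨c, f c ⟨u, hu⟩⟩ : W0 J X) = ⟨c', f c' ⟨u', hu'⟩⟩ → u = u' := by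
    intro c c' u u' hu hu' hh
    have hc : c = c' := congrArg Sigma.fst hh
    subst hc
    have h2 : f c ⟨u, hu⟩ = f c ⟨u', hu'⟩ := by
      simpa using hh
    have h3 := (f c).injective h2
    exact congrArg Subtype.val h3
  intro u u' hh
  exact key _ _ _ _ rfl rfl hh

/-- A fixed placement of the ends. -/
noncomputable def emb [Fintype J] [Fintype X] : U0 J X → W0 J X := (exists_emb J X).choose

theorem emb_injective [Fintype J] [Fintype X] : Function.Injective (emb J X) :=
  (exists_emb J X).choose_spec.1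

theorem emb_fst [Fintype J] [Fintype X] (u : U0 J X) : (emb J X u).1 = cl u :=
  (exists_emb J X).choose_spec.2 u

private theorem cloud_sqrt_aux {n : ℕ} (h : 0 < n) :
    (Nat.sqrt n + 1) * (Nat.sqrt n + 1) ≤ 4 * n := by
  have h1 : Nat.sqrt n * Nat.sqrt n ≤ n := Nat.sqrt_le n
  have h2 : 0 < Nat.sqrt n := Nat.sqrt_pos.mpr h
  nlinarith

private theorem cloud_fib_pos [Fintype J] [Nonempty J] [Fintype X] (c : C0 J X) :
    0 < fib J X c := by
  unfold fib
  rw [Finset.card_pos]
  obtain ⟨j0⟩ := (inferInstance : Nonempty J)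
  rcases c with ⟨j, ω⟩ | ⟨j, h⟩ | f
  · refine ⟨(true, j, ω, 0), ?_⟩
    simp [cl]
  · refine ⟨(false, j, (0, (h, 0, 0), 0), 0), ?_⟩
    simp [cl, isA, coord]
  · refine ⟨(false, j0, (3, (0, 0, 0), f), 0), ?_⟩
    simp [cl, isA]

/-- Proof sketch: `side² ≤ 4 fib` since every variable has an end (`Nonempty J`), and
`∑ c, fib c = card (U0 J X) = 8 |J| |Ω|`. -/
theorem card_W0_le [Fintype J] [Nonempty J] [Fintype X] :
    Fintype.card (W0 J X) ≤ 32 * (Fintype.card J * Fintype.card (Om X)) := by
  have h1 : ∀ c : C0 J X, Fintype.card (ZMod (side J X c) × ZMod (side J X c)) ≤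
      4 * fib J X c := by
    intro c
    rw [Fintype.card_prod, ZMod.card]
    exact cloud_sqrt_aux (cloud_fib_pos J X c)
  have h2 : ∑ c : C0 J X, fib J X c = Fintype.card (U0 J X) := by
    unfold fib
    have := Finset.card_eq_sum_card_fiberwise (f := (cl : U0 J X → C0 J X))
      (s := (univ : Finset (U0 J X))) (t := univ) (fun _ _ => by simp)
    rw [Finset.card_univ] at this
    exact this.symm
  have h3 : Fintype.card (U0 J X) = 8 * (Fintype.card J * Fintype.card (Om X)) := by
    rw [Fintype.card_prod, Fintype.card_prod, Fintype.card_prod, Fintype.card_bool,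
      Fintype.card_fin]
    ring
  calc Fintype.card (W0 J X) = ∑ c : C0 J X, Fintype.card (ZMod (side J X c) × ZMod (side J X c)) := by
        rw [Fintype.card_sigma]
    _ ≤ ∑ c : C0 J X, 4 * fib J X c := Finset.sum_le_sum fun c _ => h1 c
    _ = 4 * ∑ c : C0 J X, fib J X c := by rw [Finset.mul_sum]
    _ = 32 * (Fintype.card J * Fintype.card (Om X)) := by rw [h2, h3]; ring

/-- The number of new vertices for one old vertex is `(cs J X) ^ 2`. -/
noncomputable def cs [Fintype J] [Fintype X] : ℕ := Nat.sqrt (Fintype.card (W0 J X)) + 1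

/-- The new vertices over one old vertex: the clouds and some padding. -/
abbrev W1 [Fintype J] [Fintype X] : Type :=
  W0 J X ⊕ Fin (cs J X ^ 2 - Fintype.card (W0 J X))

theorem card_W1 [Fintype J] [Fintype X] : Fintype.card (W1 J X) = cs J X ^ 2 := by
  have h1 : Fintype.card (W0 J X) < cs J X * cs J X := Nat.lt_succ_sqrt _
  rw [Fintype.card_sum, Fintype.card_fin, sq]
  omega

/-- Proof sketch: `(√n + 1)² ≤ 4 n` for `n ≥ 1`, and `card_W0_le`. -/
theorem cs_sq_le [Fintype J] [Nonempty J] [Fintype X] :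
    cs J X ^ 2 ≤ 128 * (Fintype.card J * Fintype.card (Om X)) := by
  have h0 : 0 < Fintype.card (W0 J X) := by
    refine Fintype.card_pos_iff.mpr ?_
    obtain ⟨j0⟩ := (inferInstance : Nonempty J)
    exact ⟨⟨Sum.inl (j0, (0, (0, 0, 0), 0)), (0, 0)⟩⟩
  have h1 : cs J X * cs J X ≤ 4 * Fintype.card (W0 J X) := cloud_sqrt_aux h0
  have h2 := card_W0_le J X
  rw [sq]
  omega

theorem cs_pos [Fintype J] [Fintype X] : 0 < cs J X := by unfold cs; omega

end

end Pool.Agent.PCP
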