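import Pool.Agent.PCP.ARCloud

/-! # Alphabet reduction: the graph (package A3) -/

set_option autoImplicit false

namespace Pool.Agent.PCP

open Finset
open scoped Classical

variable {V J X : Type}

/-! ### The graph -/

section

variable [Fintype J] [Fintype X]

/-- The matching port. -/
noncomputable def PG.mport (G : PG V J X) (p : V × W1 J X) : V × W1 J X :=
  if h : ∃ u : U0 J X, p.2 = Sum.inl (emb J X u) then
    ((G.mt (p.1, h.choose)).1, Sum.inl (emb J X (G.mt (p.1, h.choose)).2))
  else p

theorem PG.mport_emb (G : PG V J X) (z : V) (u : U0 J X) :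
    G.mport (z, Sum.inl (emb J X u)) =
      ((G.mt (z, u)).1, Sum.inl (emb J X (G.mt (z, u)).2)) := by
  have h : ∃ u' : U0 J X, (z, (Sum.inl (emb J X u) : W1 J X)).2 = Sum.inl (emb J X u') := ⟨u, rfl⟩
  have h1 : h.choose = u := by
    have h2 := h.choose_spec
    exact (emb_injective J X (Sum.inl.inj h2)).symm
  unfold PG.mport
  rw [dif_pos h, h1]

theorem PG.mport_other (G : PG V J X) (p : V × W1 J X)
    (h : ¬ ∃ u : U0 J X, p.2 = Sum.inl (emb J X u)) : G.mport p = p := by
  unfold PG.mport; rw [dif_neg h]

/-- Proof sketch: by cases, `mport_emb`, `mport_other`, `mt_mt`. -/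
theorem PG.mport_mport (G : PG V J X) (p : V × W1 J X) : G.mport (G.mport p) = p := by
  by_cases h : ∃ u : U0 J X, p.2 = Sum.inl (emb J X u)
  · obtain ⟨z, w⟩ := p
    obtain ⟨u, hu⟩ := h
    have hu' : w = Sum.inl (emb J X u) := hu
    subst hu'
    rw [PG.mport_emb, PG.mport_emb]
    rw [Prod.mk.eta, PG.mt_mt]
  · rw [PG.mport_other G p h, PG.mport_other G p h]

/-- A cloud port. -/
noncomputable def cport (j : J8) : W1 J X → W1 J X
  | Sum.inl ⟨c, g⟩ => Sum.inl ⟨c, mg j g⟩
  | Sum.inr x => Sum.inr x

theorem cport_inv (j : J8) (w : W1 J X) : cport (mgInv j) (cport j w) = w := by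
  rcases w with ⟨c, g⟩ | x
  · simp [cport, mg_inv]
  · rfl

/-- The constraint on the matching port. -/
def mportRel (w : W1 J X) (a b : S0) : Prop :=
  ∀ u : U0 J X, w = Sum.inl (emb J X u) → PG.mrel u a b

/-- Proof sketch: by cases, `mport_emb`, `mport_other`, `mrel_symm`; for the padding and the unused
cloud vertices there is nothing to show. -/
theorem mportRel_symm (G : PG V J X) (p : V × W1 J X) (a b : S0) (h : mportRel p.2 a b) :
    mportRel (G.mport p).2 b a := by
  by_cases hp : ∃ u : U0 J X, p.2 = Sum.inl (emb J X u)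
  · obtain ⟨z, w⟩ := p
    obtain ⟨u, hu⟩ := hp
    have hu' : w = Sum.inl (emb J X u) := hu
    subst hu'
    rw [PG.mport_emb]
    intro u' hu'
    have h1 : (G.mt (z, u)).2 = u' := emb_injective J X (Sum.inl.inj hu')
    rw [← h1]
    exact PG.mrel_symm G (z, u) a b (h u rfl)
  · rw [PG.mport_other G p hp]
    intro u hu
    exact absurd ⟨u, hu⟩ hp

/-- **Alphabet reduction** with degree reduction (clouds) and a global expander, given an
identification of the new vertex set with a torus. -/
noncomputable def PG.AR (G : PG V J X) {M : ℕ} (e : V × W1 J X ≃ ZMod M × ZMod M) :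
    PG (V × W1 J X) J0 S0 where
  nb p j := match j with
    | Sum.inl j => (p.1, cport j p.2)
    | Sum.inr (Sum.inl _) => G.mport p
    | Sum.inr (Sum.inr j) => e.symm (mg j (e p))
  inv j := match j with
    | Sum.inl j => Sum.inl (mgInv j)
    | Sum.inr (Sum.inl _) => Sum.inr (Sum.inl ())
    | Sum.inr (Sum.inr j) => Sum.inr (Sum.inr (mgInv j))
  nb_inv p j := by
    rcases j with j | _ | j
    · simp [cport_inv]
    · simp [G.mport_mport]
    · simp [mg_inv]
  inv_inv j := by
    rcases j with j | _ | j <;> simp [mgInv_mgInv]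
  rel p j a b := match j with
    | Sum.inl _ => ∀ w, p.2 = Sum.inl w → a = b
    | Sum.inr (Sum.inl _) => mportRel p.2 a b
    | Sum.inr (Sum.inr _) => True
  rel_symm p j a b h := by
    rcases j with j | _ | j
    · rcases p with ⟨z, ⟨c, g⟩ | x⟩
      · intro w hw
        exact (h _ rfl).symm
      · intro w hw
        simp [cport] at hw
    · exact mportRel_symm G p a b h
    · trivial

end

end Pool.Agent.PCP
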