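import Pool.Agent.PCP.ARMatch

/-! # Completeness and soundness of the test at the ends (package A1) -/

set_option autoImplicit false

namespace Pool.Agent.PCP

open Finset
open scoped Classical

variable {V J X : Type}

namespace PG

private theorem end_mt_fst (G : PG V J X) (p : V × U0 J X) : (G.mt p).2.1 = !p.2.1 := by
  unfold mt
  split_ifs <;> rfl

/-- The answers read at the other ends of the four test ends. -/
private theorem end_answer (G : PG V J X) (ν : V → C0 J X → S0) (z : V) (j : J) (ω : Om X)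
    (i : Fin 4) :
    ν (G.mt (z, (true, j, ω, i))).1 (cl (G.mt (z, (true, j, ω, i))).2) 0 =
      ans (G.rel z j) (fun h => ν z (Sum.inr (Sum.inl (j, h))) 0)
        (fun f => ν z (Sum.inr (Sum.inr f)) 0)
        (fun f => ν (G.nb z j) (Sum.inr (Sum.inr f)) 0) ω i := by
  by_cases hA : isA ω.1 i
  · have h2 : ∀ j' : J, cl ((false, j', ω, i) : U0 J X) = Sum.inr (Sum.inr ω.2.2) := by
      intro j'
      simp [cl, hA]
    by_cases h3 : ω.1 = 3
    · have h1 : G.mt (z, (true, j, ω, i)) = (z, (false, j, ω, i)) := by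
        unfold mt
        rw [if_pos hA, if_pos h3]
        rfl
      rw [h1, h2]
      unfold ans
      rw [if_pos hA, if_pos h3]
    · have h1 : G.mt (z, (true, j, ω, i)) = (G.nb z j, (false, G.inv j, ω, i)) := by
        unfold mt
        rw [if_pos hA, if_neg h3]
        rfl
      rw [h1, h2]
      unfold ans
      rw [if_pos hA, if_neg h3]
  · have h1 : G.mt (z, (true, j, ω, i)) = (z, (false, j, twist (G.rel z j) ω i, i)) := by
      simp [mt, hA]
    have h2 : cl ((false, j, twist (G.rel z j) ω i, i) : U0 J X) =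
        Sum.inr (Sum.inl (j, coord (twist (G.rel z j) ω i) i)) := by
      have hA' : ¬ isA (twist (G.rel z j) ω i).1 i := by rw [twist_fst]; exact hA
      simp [cl, hA']
    rw [h1, h2]
    simp [ans, hA]

/-- Completeness.  Proof sketch: table of `z`: `f ↦ f (σ z)`, table of `(z, j)`:
`h ↦ h (σ z, σ (nb z j))`, symbol of a bit variable: any symbol with this lowest bit, symbol of a test:
the four answers; use `test_complete`. -/
theorem end_complete [Fintype V] [Fintype J] [Fintype X] (G : PG V J X) (h : G.Sat) :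
    ∃ ν : V → C0 J X → S0, ∀ p : V × U0 J X,
      mrel p.2 (ν p.1 (cl p.2)) (ν (G.mt p).1 (cl (G.mt p).2)) := by
  obtain ⟨σ, hσ⟩ := h
  let ν : V → C0 J X → S0 := fun z c =>
    match c with
    | Sum.inl (j, ω) => fun i => ans (G.rel z j) (fun h => h (σ z, σ (G.nb z j)))
        (fun f => f (σ z)) (fun f => f (σ (G.nb z j))) ω i
    | Sum.inr (Sum.inl (j, h)) => fun _ => h (σ z, σ (G.nb z j))
    | Sum.inr (Sum.inr f) => fun _ => f (σ z)
  have htest : ∀ (z : V) (j : J) (ω : Om X) (i : Fin 4),
      mrel ((true, j, ω, i) : U0 J X) (ν z (cl ((true, j, ω, i) : U0 J X)))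
        (ν (G.mt (z, (true, j, ω, i))).1 (cl (G.mt (z, (true, j, ω, i))).2)) := by
    intro z j ω i
    have h1 := end_answer G ν z j ω i
    have h2 := test_complete (G.rel z j) (hσ z j) ω
    have h3 : cl ((true, j, ω, i) : U0 J X) = Sum.inl (j, ω) := by simp [cl]
    rw [h3]
    unfold mrel
    rw [if_pos rfl]
    exact ⟨h2, h1.symm⟩
  refine ⟨ν, ?_⟩
  rintro ⟨z, b, j, ω, i⟩
  cases b with
  | true => exact htest z j ω i
  | false =>
    have h1 : G.mt (G.mt (z, (false, j, ω, i))) = (z, (false, j, ω, i)) := G.mt_mt _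
    obtain ⟨z', b', j', ω', i', hp'⟩ :
        ∃ z' b' j' ω' i', G.mt (z, (false, j, ω, i)) = (z', (b', j', ω', i')) :=
      ⟨_, _, _, _, _, rfl⟩
    have hb : b' = true := by
      have := end_mt_fst G (z, (false, j, ω, i))
      rw [hp'] at this
      simpa using this
    subst hb
    have h2 := htest z' j' ω' i'
    have h3 := G.mrel_symm (z', (true, j', ω', i')) _ _ h2
    rw [hp'] at h1
    rw [h1] at h3
    rw [hp']
    exact h3

/-- Soundness.  Proof sketch: `A_z f`, `B_{z,j} h` = lowest bits of `ν`; decode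
`σ z = dec A_z`.  If the port `(z, j)` is violated by `σ`, then by `test_sound` at least `|Ω|/100` of
the `ω` reject, and for each of them one of the four test ends `(true, j, ω, i)` at `z` is violated
(the answers read at the other ends are exactly `ans (rel z j) B_{z,j} A_z A_{nb z j} ω i`), together
with its other end. -/
theorem end_sound [Fintype V] [Fintype J] [Fintype X] [Nonempty X] (G : PG V J X) {γ : ℝ}
    (hγ : 0 ≤ γ) (hG : G.Gap γ) (ν : V → C0 J X → S0) :
    γ / 50 * ((Fintype.card V : ℝ) * Fintype.card J * Fintype.card (Om X)) ≤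
      ((G.endViol ν).card : ℝ) := by
  clear hγ
  let A : V → FX X → ZMod 2 := fun z f => ν z (Sum.inr (Sum.inr f)) 0
  let B : V → J → FY X → ZMod 2 := fun z j h => ν z (Sum.inr (Sum.inl (j, h))) 0
  let σ : V → X := fun z => dec (A z)
  let rej : V → J → Om X → Prop := fun z j ω =>
    ¬ acc ω.1 (fun i => ans (G.rel z j) (B z j) (A z) (A (G.nb z j)) ω i)
  -- a rejecting `ω` has a violated end
  have hrej : ∀ (z : V) (j : J) (ω : Om X), rej z j ω →
      ∃ i : Fin 4, ((z, (true, j, ω, i)) : V × U0 J X) ∈ G.endViol ν := by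
    intro z j ω hr
    by_contra hno
    apply hr
    have hall : ∀ i : Fin 4, acc ω.1 (ν z (Sum.inl (j, ω))) ∧
        ν z (Sum.inl (j, ω)) i =
          ans (G.rel z j) (B z j) (A z) (A (G.nb z j)) ω i := by
      intro i
      have h1 : ¬ ((z, (true, j, ω, i)) : V × U0 J X) ∈ G.endViol ν := fun h => hno ⟨i, h⟩
      unfold endViol at h1
      rw [mem_filter, not_and, not_not] at h1
      have h2 := h1 (mem_univ _)
      have h3 : cl ((true, j, ω, i) : U0 J X) = Sum.inl (j, ω) := by simp [cl]
      have h4 := end_answer G ν z j ω i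
      unfold mrel at h2
      rw [if_pos rfl] at h2
      refine ⟨?_, ?_⟩
      · have h5 := h2.1
        simpa [h3] using h5
      · have h5 := h2.2
        rw [h4] at h5
        simpa [h3] using h5
    have h6 : (fun i => ans (G.rel z j) (B z j) (A z) (A (G.nb z j)) ω i) =
        ν z (Sum.inl (j, ω)) := by
      funext i
      exact (hall i).2.symm
    rw [h6]
    exact (hall 0).1
  -- the rejecting triples
  let T : Finset (V × J × Om X) := univ.filter fun q => rej q.1 q.2.1 q.2.2
  have hT : ∀ q ∈ T, ∃ i : Fin 4,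
      ((q.1, (true, q.2.1, q.2.2, i)) : V × U0 J X) ∈ G.endViol ν := by
    intro q hq
    exact hrej q.1 q.2.1 q.2.2 (mem_filter.1 hq).2
  choose! ix hix using hT
  let e : V × J × Om X → V × U0 J X := fun q => (q.1, (true, q.2.1, q.2.2, ix q))
  have he : Function.Injective e := by
    rintro ⟨z, j, ω⟩ ⟨z', j', ω'⟩ h
    simp only [e, Prod.mk.injEq] at h
    obtain ⟨h1, _, h2, h3, _⟩ := h
    simp [h1, h2, h3]
  have hmtinj : Function.Injective (G.mt) := fun p q h => by
    rw [← G.mt_mt p, h, G.mt_mt]
  have hmtviol : ∀ p ∈ G.endViol ν, G.mt p ∈ G.endViol ν := by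
    intro p hp
    unfold endViol at hp ⊢
    rw [mem_filter] at hp ⊢
    refine ⟨mem_univ _, fun h => hp.2 ?_⟩
    have h1 := G.mrel_symm (G.mt p) _ _ h
    rw [G.mt_mt] at h1
    exact h1
  have hsub : T.image e ∪ T.image (fun q => G.mt (e q)) ⊆ G.endViol ν := by
    intro p hp
    rcases mem_union.1 hp with h | h
    · obtain ⟨q, hq, rfl⟩ := mem_image.1 h
      exact hix q hq
    · obtain ⟨q, hq, rfl⟩ := mem_image.1 h
      exact hmtviol _ (hix q hq)
  have hdisj : Disjoint (T.image e) (T.image fun q => G.mt (e q)) := by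
    rw [disjoint_left]
    intro p hp hp'
    obtain ⟨q, _, rfl⟩ := mem_image.1 hp
    obtain ⟨q', _, hq'⟩ := mem_image.1 hp'
    have h1 := end_mt_fst G (e q')
    rw [hq'] at h1
    simp [e] at h1
  have hcard : 2 * T.card ≤ (G.endViol ν).card := by
    have h1 := card_le_card hsub
    have h2 : (T.image fun q => G.mt (e q)).card = T.card :=
      card_image_of_injective _ (hmtinj.comp he)
    rw [card_union_of_disjoint hdisj, card_image_of_injective _ he, h2] at h1
    omega
  -- lower bound for the number of rejecting triples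
  have hT2 : (G.viol σ).card * Fintype.card (Om X) ≤ 100 * T.card := by
    have h1 : T.card = ∑ p : V × J, (univ.filter fun ω : Om X => rej p.1 p.2 ω).card := by
      rw [show T.card = ∑ q : V × J × Om X, if rej q.1 q.2.1 q.2.2 then 1 else 0 from
        card_filter _ _]
      rw [Fintype.sum_prod_type, Fintype.sum_prod_type]
      refine sum_congr rfl fun z _ => ?_
      rw [Fintype.sum_prod_type]
      refine sum_congr rfl fun j _ => ?_
      exact (card_filter _ _).symm
    have h2 : ∀ p ∈ G.viol σ, Fintype.card (Om X) ≤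
        100 * (univ.filter fun ω : Om X => rej p.1 p.2 ω).card := by
      intro p hp
      by_contra hlt
      have h3 := test_sound (G.rel p.1 p.2) (B p.1 p.2) (A p.1) (A (G.nb p.1 p.2)) (by
        convert not_le.1 hlt using 3)
      exact (mem_filter.1 hp).2 h3
    calc (G.viol σ).card * Fintype.card (Om X)
        = ∑ _p ∈ G.viol σ, Fintype.card (Om X) := by rw [sum_const, smul_eq_mul]
      _ ≤ ∑ p ∈ G.viol σ, 100 * (univ.filter fun ω : Om X => rej p.1 p.2 ω).card :=
          sum_le_sum h2
      _ ≤ ∑ p : V × J, 100 * (univ.filter fun ω : Om X => rej p.1 p.2 ω).card :=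
          sum_le_sum_of_subset (subset_univ _)
      _ = 100 * T.card := by rw [h1, mul_sum]
  have hG2 := hG σ
  have h3 : (((G.viol σ).card : ℕ) : ℝ) * (Fintype.card (Om X) : ℝ) ≤ 100 * (T.card : ℝ) := by
    exact_mod_cast hT2
  have h4 : 2 * (T.card : ℝ) ≤ ((G.endViol ν).card : ℝ) := by
    exact_mod_cast hcard
  have h5 : γ * ((Fintype.card V : ℝ) * Fintype.card J) * (Fintype.card (Om X) : ℝ) ≤
      (((G.viol σ).card : ℕ) : ℝ) * (Fintype.card (Om X) : ℝ) :=
    mul_le_mul_of_nonneg_right hG2 (Nat.cast_nonneg _)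
  nlinarith [h3, h4, h5]

end PG

end Pool.Agent.PCP
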