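import Pool.Agent.PCP.MG

/-! # Edge expansion of the Margulis-Gabber-Galil graph (package MG4) -/

set_option autoImplicit false

namespace Pool.Agent.PCP

open Finset

/-- the maps of the graph are bijections -/
private def mgE {M : ℕ} (j : J8) : ZMod M × ZMod M ≃ ZMod M × ZMod M where
  toFun := mg j
  invFun := mg (mgInv j)
  left_inv z := mg_inv j z
  right_inv z := by
    have h := mg_inv (mgInv j) z
    rwa [mgInv_mgInv] at h

private theorem mg_sum {M : ℕ} [NeZero M] (j : J8) (f : ZMod M × ZMod M → ℝ) :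
    ∑ z, f (mg j z) = ∑ z, f z :=
  Equiv.sum_comp (mgE j) f

/-- the quadratic form of the graph on functions of sum zero -/
private theorem mg_quad {M : ℕ} [NeZero M] (f : ZMod M × ZMod M → ℝ) (hf : ∑ z, f z = 0) :
    ∑ z, f z * ∑ j : J8, f (mg j z) ≤ 7.3 * ∑ z, f z ^ 2 := by
  have h1 := mg_norm M f hf
  set q := ∑ z, f z ^ 2 with hq
  have hq0 : 0 ≤ q := Finset.sum_nonneg fun z _ => sq_nonneg _
  have h2 : (∑ z, f z * ∑ j : J8, f (mg j z)) ^ 2 ≤ (7.3 * q) ^ 2 := by
    refine (Finset.sum_mul_sq_le_sq_mul_sq univ f fun z => ∑ j : J8, f (mg j z)).trans ?_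
    rw [← hq]
    calc q * ∑ z, (∑ j : J8, f (mg j z)) ^ 2 ≤ q * ((7.3 : ℝ) ^ 2 * q) :=
          mul_le_mul_of_nonneg_left h1 hq0
      _ = (7.3 * q) ^ 2 := by ring
  exact le_of_sq_le_sq h2 (by positivity)

open Classical in
/-- the ports leaving a set -/
private theorem mg_out {M : ℕ} [NeZero M] (A : Finset (ZMod M × ZMod M)) :
    (0.7 : ℝ) * A.card * (1 - A.card / Fintype.card (ZMod M × ZMod M)) ≤
      ((univ.filter fun p : (ZMod M × ZMod M) × J8 => p.1 ∈ A ∧ mg p.2 p.1 ∉ A).card : ℝ) := by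
  set N : ℝ := ((Fintype.card (ZMod M × ZMod M) : ℕ) : ℝ) with hN
  have hN0 : 0 < N := by
    rw [hN]
    exact_mod_cast Fintype.card_pos
  set a : ℝ := ((A.card : ℕ) : ℝ) with ha
  set χ : ZMod M × ZMod M → ℝ := fun z => if z ∈ A then 1 else 0 with hχ
  have hχs : ∑ z, χ z = a := by
    rw [hχ, Finset.sum_boole]
    simp [ha]
  have hχ2 : ∀ z, χ z * χ z = χ z := by
    intro z
    simp only [hχ]
    split_ifs <;> ring
  have hcard : ((univ.filter fun p : (ZMod M × ZMod M) × J8 => p.1 ∈ A ∧ mg p.2 p.1 ∉ A).card : ℝ)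
      = 8 * a - ∑ z, χ z * ∑ j : J8, χ (mg j z) := by
    rw [Finset.card_filter]
    push_cast
    rw [Fintype.sum_prod_type]
    have h1 : ∀ z, ∑ j : J8, (if z ∈ A ∧ mg j z ∉ A then (1 : ℝ) else 0)
        = 8 * χ z - χ z * ∑ j : J8, χ (mg j z) := by
      intro z
      rw [Finset.mul_sum]
      have h2 : (8 : ℝ) * χ z = ∑ _j : J8, χ z := by
        rw [Finset.sum_const, Finset.card_univ, card_J8, nsmul_eq_mul]
        norm_num
      rw [h2, ← Finset.sum_sub_distrib]
      refine Finset.sum_congr rfl fun j _ => ?_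
      simp only [hχ]
      by_cases h3 : z ∈ A <;> by_cases h4 : mg j z ∈ A <;> simp [h3, h4]
    rw [Finset.sum_congr rfl fun z _ => h1 z, Finset.sum_sub_distrib, ← Finset.mul_sum, hχs]
  rw [hcard]
  set f : ZMod M × ZMod M → ℝ := fun z => χ z - a / N with hf
  have hf0 : ∑ z, f z = 0 := by
    rw [hf, Finset.sum_sub_distrib, hχs, Finset.sum_const, Finset.card_univ, nsmul_eq_mul, ← hN]
    field_simp
    ring
  have hf2 : ∑ z, f z ^ 2 = a * (1 - a / N) := by
    have h1 : ∀ z, f z ^ 2 = χ z - 2 * (a / N) * χ z + (a / N) ^ 2 := by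
      intro z
      have h2 := hχ2 z
      simp only [hf]
      linear_combination h2
    rw [Finset.sum_congr rfl fun z _ => h1 z, Finset.sum_add_distrib, Finset.sum_sub_distrib,
      ← Finset.mul_sum, hχs, Finset.sum_const, Finset.card_univ, nsmul_eq_mul, ← hN]
    field_simp
    ring
  have hAf : ∑ z, ∑ j : J8, f (mg j z) = 0 := by
    rw [Finset.sum_comm]
    refine Finset.sum_eq_zero fun j _ => ?_
    rw [mg_sum j f, hf0]
  have hmain : ∑ z, χ z * ∑ j : J8, χ (mg j z)
      = (∑ z, f z * ∑ j : J8, f (mg j z)) + 8 * (a / N) * a := by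
    have h1 : ∀ z, χ z * ∑ j : J8, χ (mg j z)
        = f z * (∑ j : J8, f (mg j z)) + (a / N) * (∑ j : J8, f (mg j z))
          + 8 * (a / N) * χ z := by
      intro z
      have h2 : ∑ j : J8, χ (mg j z) = (∑ j : J8, f (mg j z)) + 8 * (a / N) := by
        have h3 : (8 : ℝ) * (a / N) = ∑ _j : J8, a / N := by
          rw [Finset.sum_const, Finset.card_univ, card_J8, nsmul_eq_mul]
          norm_num
        rw [h3, ← Finset.sum_add_distrib]
        refine Finset.sum_congr rfl fun j _ => ?_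
        simp only [hf]
        ring
      have h4 : f z = χ z - a / N := rfl
      rw [h2, h4]
      ring
    rw [Finset.sum_congr rfl fun z _ => h1 z, Finset.sum_add_distrib, Finset.sum_add_distrib,
      ← Finset.mul_sum, ← Finset.mul_sum, hAf, hχs]
    ring
  have hq := mg_quad f hf0
  rw [hf2] at hq
  rw [hmain]
  have h5 : 0.7 * a * (1 - a / N) = 8 * a - (7.3 * (a * (1 - a / N)) + 8 * (a / N) * a) := by ring
  rw [h5]
  linarith

open Classical in
/-- Proof sketch.  For a set `A` of size `a` apply `mg_norm` to `1_A - a/M²` and Cauchy-Schwarz: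
`#{(z,j) : z ∈ A, mg j z ∈ A} ≤ 8a²/M² + 7.3 a (1 - a/M²)`, so the number of ports leaving `A` is at
least `0.7 a (1 - a/M²)`.  Apply this to the classes `A_s = {σ = s}`; for `s ≠ s₀` one has
`2 |A_s| ≤ |A_s| + |A_{s₀}| ≤ M²`, so class `s` contributes at least `0.35 |A_s|`. -/
theorem mg_plurality {S : Type} [Fintype S] (M : ℕ) [NeZero M] (σ : ZMod M × ZMod M → S) (s₀ : S)
    (h : ∀ s, (univ.filter fun z => σ z = s).card ≤ (univ.filter fun z => σ z = s₀).card) :
    (0.35 : ℝ) * (univ.filter fun z => σ z ≠ s₀).card ≤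
      ((univ.filter fun p : (ZMod M × ZMod M) × J8 => σ p.1 ≠ σ (mg p.2 p.1)).card : ℝ) := by
  set N : ℝ := ((Fintype.card (ZMod M × ZMod M) : ℕ) : ℝ) with hN
  have hN0 : 0 < N := by
    rw [hN]
    exact_mod_cast Fintype.card_pos
  -- one class
  have hcl : ∀ s ∈ (univ : Finset S).erase s₀, (0.35 : ℝ) * (univ.filter fun z => σ z = s).card ≤
      ((univ.filter fun p : (ZMod M × ZMod M) × J8 => σ p.1 = s ∧ σ (mg p.2 p.1) ≠ s).card : ℝ) := by
    intro s hs
    have hne : s ≠ s₀ := Finset.ne_of_mem_erase hs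
    have h1 := mg_out (univ.filter fun z => σ z = s)
    simp only [Finset.mem_filter, Finset.mem_univ, true_and] at h1
    refine le_trans ?_ h1
    have h2 : (univ.filter fun z => σ z = s).card + (univ.filter fun z => σ z = s₀).card
        ≤ Fintype.card (ZMod M × ZMod M) := by
      rw [← Finset.card_union_of_disjoint]
      · exact Finset.card_le_univ _
      · rw [Finset.disjoint_filter]
        intro z _ h3 h4
        exact hne (h3.symm.trans h4)
    have h3 : 2 * (((univ.filter fun z => σ z = s).card : ℕ) : ℝ) ≤ N := by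
      have h4 := h s
      rw [hN]
      exact_mod_cast (by omega : 2 * (univ.filter fun z => σ z = s).card
        ≤ Fintype.card (ZMod M × ZMod M))
    have h5 : (((univ.filter fun z => σ z = s).card : ℕ) : ℝ) / N ≤ 1 / 2 := by
      rw [div_le_iff₀ hN0]
      linarith
    have h6 : (0 : ℝ) ≤ ((univ.filter fun z => σ z = s).card : ℕ) := Nat.cast_nonneg _
    rw [← hN]
    nlinarith
  have h1 := Finset.sum_le_sum hcl
  rw [← Finset.mul_sum] at h1
  have h2 : ∑ s ∈ (univ : Finset S).erase s₀, (((univ.filter fun z => σ z = s).card : ℕ) : ℝ)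
      = (univ.filter fun z => σ z ≠ s₀).card := by
    norm_cast
    rw [Finset.card_eq_sum_card_fiberwise (f := σ) (t := (univ : Finset S).erase s₀)
      (s := univ.filter fun z => σ z ≠ s₀)]
    · refine Finset.sum_congr rfl fun s hs => ?_
      congr 1
      ext z
      simp only [Finset.mem_filter, Finset.mem_univ, true_and]
      constructor
      · intro h3
        exact ⟨by rw [h3]; exact Finset.ne_of_mem_erase hs, h3⟩
      · exact fun h3 => h3.2
    · intro z hz
      simp only [Finset.coe_filter, Finset.mem_univ, true_and, Set.mem_ofPred_eq] at hz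
      simp [hz]
  have h3 : ∑ s ∈ (univ : Finset S).erase s₀,
      (((univ.filter fun p : (ZMod M × ZMod M) × J8 => σ p.1 = s ∧ σ (mg p.2 p.1) ≠ s).card : ℕ) : ℝ)
      ≤ (univ.filter fun p : (ZMod M × ZMod M) × J8 => σ p.1 ≠ σ (mg p.2 p.1)).card := by
    norm_cast
    rw [← Finset.card_biUnion]
    · apply Finset.card_le_card
      intro p hp
      simp only [Finset.mem_biUnion, Finset.mem_filter, Finset.mem_univ, true_and] at hp ⊢
      obtain ⟨s, _, h4, h5⟩ := hp
      rw [h4]
      exact fun h6 => h5 h6.symm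
    · intro s _ s' _ hss
      rw [Function.onFun, Finset.disjoint_filter]
      rintro p _ ⟨h4, _⟩ ⟨h5, _⟩
      exact hss (h4.symm.trans h5)
  rw [h2] at h1
  exact h1.trans h3

end Pool.Agent.PCP
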