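import Pool.Agent.PCP.ARDefs
import Pool.Agent.PCP.MGExp

/-! # The reduced graph is an expander (package A4) -/

set_option autoImplicit false

namespace Pool.Agent.PCP

open Finset
open scoped Classical

variable {V J X : Type}

/-- Minkowski's inequality for two functions. -/
private theorem arexp_mink {W : Type} [Fintype W] {g h : W → ℝ} {A B N : ℝ} (hA : 0 < A)
    (hB : 0 < B) (hg : ∑ v, g v ^ 2 ≤ A ^ 2 * N) (hh : ∑ v, h v ^ 2 ≤ B ^ 2 * N) :
    ∑ v, (g v + h v) ^ 2 ≤ (A + B) ^ 2 * N := by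
  have h1 : ∀ v, (g v + h v) ^ 2 ≤ (1 + B / A) * g v ^ 2 + (1 + A / B) * h v ^ 2 := by
    intro v
    have h2 : (1 + B / A) * g v ^ 2 + (1 + A / B) * h v ^ 2 - (g v + h v) ^ 2 =
        (B * g v - A * h v) ^ 2 / (A * B) := by
      field_simp
      ring
    have h3 : 0 ≤ (B * g v - A * h v) ^ 2 / (A * B) := by positivity
    linarith
  calc ∑ v, (g v + h v) ^ 2 ≤ ∑ v, ((1 + B / A) * g v ^ 2 + (1 + A / B) * h v ^ 2) :=
        Finset.sum_le_sum fun v _ => h1 v
    _ = (1 + B / A) * ∑ v, g v ^ 2 + (1 + A / B) * ∑ v, h v ^ 2 := by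
        rw [Finset.sum_add_distrib, Finset.mul_sum, Finset.mul_sum]
    _ ≤ (1 + B / A) * (A ^ 2 * N) + (1 + A / B) * (B ^ 2 * N) := by
        gcongr
    _ = (A + B) ^ 2 * N := by
        field_simp
        ring

/-- Cauchy-Schwarz for a family of rearrangements. -/
private theorem arexp_perm {W K : Type} [Fintype W] [Fintype K] (f : W → ℝ) (π : K → W ≃ W) :
    ∑ v, (∑ j, f (π j v)) ^ 2 ≤ (Fintype.card K : ℝ) ^ 2 * ∑ v, f v ^ 2 := by
  have h1 : ∀ v, (∑ j, f (π j v)) ^ 2 ≤ (Fintype.card K : ℝ) * ∑ j, f (π j v) ^ 2 := by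
    intro v
    have := sq_sum_le_card_mul_sum_sq (s := (univ : Finset K)) (f := fun j => f (π j v))
    simpa using this
  calc ∑ v, (∑ j, f (π j v)) ^ 2 ≤ ∑ v, (Fintype.card K : ℝ) * ∑ j, f (π j v) ^ 2 :=
        Finset.sum_le_sum fun v _ => h1 v
    _ = (Fintype.card K : ℝ) * ∑ j, ∑ v, f (π j v) ^ 2 := by
        rw [← Finset.mul_sum, Finset.sum_comm]
    _ = (Fintype.card K : ℝ) * ∑ j : K, ∑ v, f v ^ 2 := by
        congr 1
        exact Finset.sum_congr rfl fun j _ => Equiv.sum_comp (π j) fun v => f v ^ 2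
    _ = (Fintype.card K : ℝ) ^ 2 * ∑ v, f v ^ 2 := by
        rw [Finset.sum_const, card_univ, nsmul_eq_mul]
        ring

/-- Proof sketch.  `∑_{j : J0} f (nb v j) = (cloud ports) + (matching port) + (global ports)`.
Every port permutes the vertices, so by Minkowski the first sum has `L²`-norm `≤ 8 ‖f‖`, the second
`≤ ‖f‖`; the third is `≤ 7.3 ‖f‖` by `mg_norm` transported along `e`.  Total `16.3 = (16.3/17) · 17`. -/
theorem AR_expander [Fintype J] [Fintype X] [Fintype V] (G : PG V J X) {M : ℕ} [NeZero M]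
    (e : V × W1 J X ≃ ZMod M × ZMod M) : (G.AR e).Expander (16.3 / 17) := by
  intro f hf
  set N := ∑ v, f v ^ 2 with hN
  -- the three parts
  have hsum : ∀ v, ∑ j, f ((G.AR e).nb v j) =
      (∑ j : J8, f ((G.AR e).nb v (Sum.inl j)) + f ((G.AR e).nb v (Sum.inr (Sum.inl ())))) +
        ∑ j : J8, f (e.symm (mg j (e v))) := by
    intro v
    rw [Fintype.sum_sum_type, Fintype.sum_sum_type, Fintype.sum_unique (fun _ : Unit => _),
      ← add_assoc]
    rfl
  have h1 : ∑ v, (∑ j : J8, f ((G.AR e).nb v (Sum.inl j))) ^ 2 ≤ (8 : ℝ) ^ 2 * N := by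
    have := arexp_perm f fun j : J8 => (G.AR e).perm (Sum.inl j)
    rw [card_J8] at this
    simpa using this
  have h2 : ∑ v, f ((G.AR e).nb v (Sum.inr (Sum.inl ()))) ^ 2 ≤ (1 : ℝ) ^ 2 * N := by
    rw [one_pow, one_mul]
    exact le_of_eq (Equiv.sum_comp ((G.AR e).perm (Sum.inr (Sum.inl ()))) fun v => f v ^ 2)
  have h3 : ∑ v, (∑ j : J8, f (e.symm (mg j (e v)))) ^ 2 ≤ (7.3 : ℝ) ^ 2 * N := by
    have h4 : ∑ z, f (e.symm z) = 0 := by rw [Equiv.sum_comp e.symm f]; exact hf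
    have h5 := mg_norm M (fun z => f (e.symm z)) h4
    rw [Equiv.sum_comp e.symm fun v => f v ^ 2] at h5
    rw [Equiv.sum_comp e fun z => (∑ j : J8, f (e.symm (mg j z))) ^ 2]
    exact h5
  have h6 := arexp_mink (by norm_num) (by norm_num) (arexp_mink (by norm_num) (by norm_num) h1 h2) h3
  have h7 : ((16.3 / 17 : ℝ) * Fintype.card J0) ^ 2 = (8 + 1 + 7.3) ^ 2 := by
    rw [card_J0]
    norm_num
  rw [h7]
  refine le_trans (le_of_eq ?_) h6
  exact Finset.sum_congr rfl fun v _ => by rw [hsum]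

end Pool.Agent.PCP
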