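import Pool.Agent.PCP.TestSound

/-!
# Alphabet reduction: the constraint ends, and their clouds

For a graph `G : PG V J X` the new constraints are `(z, j, ω, i)`: the symbol of the test `(z, j, ω)`
satisfies the acceptance predicate and its bit `i` is the lowest bit of the symbol of the variable
read by query `i`.  Every constraint has two ends, the test end `(z, (true, j, ω, i))` and the bit end
`(z', (false, j', ω', i))`; `mt` exchanges them.  The variables are `(z, c)` with `c : C0 J X`; `cl`
gives the variable of an end.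
-/

set_option autoImplicit false

namespace Pool.Agent.PCP

open Finset
open scoped Classical

variable {V J X : Type}

/-- The ends of constraints at a vertex. -/
abbrev U0 (J X : Type) : Type := Bool × J × Om X × Fin 4

/-- The variables at a vertex: tests, points of the tables of the ports, points of the table of the
vertex. -/
abbrev C0 (J X : Type) : Type := (J × Om X) ⊕ ((J × FY X) ⊕ FX X)

/-- The variable of an end. -/
def cl (u : U0 J X) : C0 J X :=
  if u.1 then Sum.inl (u.2.1, u.2.2.1)
  else if isA u.2.2.1.1 u.2.2.2 then Sum.inr (Sum.inr u.2.2.1.2.2)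
  else Sum.inr (Sum.inl (u.2.1, coord u.2.2.1 u.2.2.2))

namespace PG

/-- The other end of a constraint. -/
noncomputable def mt (G : PG V J X) (p : V × U0 J X) : V × U0 J X :=
  if isA p.2.2.2.1.1 p.2.2.2.2 then
    (if p.2.2.2.1.1 = 3 then (p.1, (!p.2.1, p.2.2))
      else (G.nb p.1 p.2.2.1, (!p.2.1, G.inv p.2.2.1, p.2.2.2)))
  else (p.1, (!p.2.1, p.2.2.1, twist (G.rel p.1 p.2.2.1) p.2.2.2.1 p.2.2.2.2, p.2.2.2.2))

/-- The constraint at an end. -/
def mrel (u : U0 J X) (a b : S0) : Prop :=
  if u.1 then acc u.2.2.1.1 a ∧ a u.2.2.2 = b 0 else acc u.2.2.1.1 b ∧ b u.2.2.2 = a 0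

theorem mt_mt (G : PG V J X) (p : V × U0 J X) : G.mt (G.mt p) = p := by
  obtain ⟨z, b, j, ω, i⟩ := p
  by_cases h : isA ω.1 i
  · by_cases h3 : ω.1 = 3
    · have h' : isA 3 i := h3 ▸ h
      simp [mt, h', h3]
    · simp [mt, h, h3, G.nb_inv, G.inv_inv]
  · simp [mt, h, twist_fst, twist_twist]

theorem mrel_symm (G : PG V J X) (p : V × U0 J X) (a b : S0) (h : mrel p.2 a b) :
    mrel (G.mt p).2 b a := by
  obtain ⟨z, c, j, ω, i⟩ := p
  by_cases hA : isA ω.1 i
  · by_cases h3 : ω.1 = 3
    · have h' : isA 3 i := h3 ▸ hA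
      cases c <;> simpa [mt, h', h3, mrel] using h
    · cases c <;> simpa [mt, hA, h3, mrel] using h
  · cases c <;> simpa [mt, hA, mrel, twist_fst] using h

/-- The ends violated by an assignment of the variables. -/
noncomputable def endViol [Fintype V] [Fintype J] [Fintype X] (G : PG V J X)
    (ν : V → C0 J X → S0) : Finset (V × U0 J X) :=
  univ.filter fun p => ¬ mrel p.2 (ν p.1 (cl p.2)) (ν (G.mt p).1 (cl (G.mt p).2))

end PG

end Pool.Agent.PCP
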