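import Pool.Agent.PCP.ARDefs
import Pool.Agent.PCP.AREnd
import Pool.Agent.PCP.MGExp

/-! # Completeness and soundness of the alphabet reduction with clouds (package A5) -/

set_option autoImplicit false

namespace Pool.Agent.PCP

open Finset
open scoped Classical

variable {V J X : Type}

/-- Proof sketch: `end_complete`; the symbol of a cloud vertex `(z, ⟨c, g⟩)` is `ν z c`. -/
theorem AR_sat [Fintype J] [Fintype X] [Fintype V] (G : PG V J X) {M : ℕ} [NeZero M]
    (e : V × W1 J X ≃ ZMod M × ZMod M) (h : G.Sat) : (G.AR e).Sat := by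
  obtain ⟨ν, hν⟩ := G.end_complete h
  let σ : V × W1 J X → S0 := fun p => match p.2 with
    | Sum.inl w => ν p.1 w.1
    | Sum.inr _ => 0
  refine ⟨σ, ?_⟩
  rintro ⟨z, w⟩ j
  rcases j with j | _ | j
  · show ∀ w', w = Sum.inl w' → σ (z, w) = σ (z, cport j w)
    rintro ⟨c, g⟩ rfl
    rfl
  · show mportRel w (σ (z, w)) (σ (G.mport (z, w)))
    intro u hu
    subst hu
    rw [G.mport_emb]
    have h1 := hν (z, u)
    have e1 : σ (z, Sum.inl (emb J X u)) = ν z (cl u) := by
      show ν z (emb J X u).1 = _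
      rw [emb_fst]
    have e2 : σ ((G.mt (z, u)).1, Sum.inl (emb J X (G.mt (z, u)).2)) =
        ν (G.mt (z, u)).1 (cl (G.mt (z, u)).2) := by
      show ν (G.mt (z, u)).1 (emb J X (G.mt (z, u)).2).1 = _
      rw [emb_fst]
    rw [e1, e2]
    exact h1
  · trivial

section

variable [Fintype J] [Fintype X]

/-- the violated cloud ports -/
private noncomputable def arS1 [Fintype V] (σ : V × W1 J X → S0) : Finset ((V × W0 J X) × J8) :=
  univ.filter fun q => σ (q.1.1, Sum.inl q.1.2) ≠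
    σ (q.1.1, Sum.inl ⟨q.1.2.1, mg q.2 q.1.2.2⟩)

/-- the deviating cloud vertices -/
private noncomputable def arK [Fintype V] (σ : V × W1 J X → S0) (ν : V → C0 J X → S0) :
    Finset (V × W0 J X) :=
  univ.filter fun q => σ (q.1, Sum.inl q.2) ≠ ν q.1 q.2.1

/-- the violated matching ports -/
private noncomputable def arS2 [Fintype V] (G : PG V J X) (σ : V × W1 J X → S0) :
    Finset (V × U0 J X) :=
  univ.filter fun p => ¬ mportRel (J := J) (X := X) (Sum.inl (emb J X p.2))
    (σ (p.1, Sum.inl (emb J X p.2))) (σ (G.mport (p.1, Sum.inl (emb J X p.2))))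

private theorem ar_card [Fintype V] (G : PG V J X) {M : ℕ} [NeZero M]
    (e : V × W1 J X ≃ ZMod M × ZMod M) (σ : V × W1 J X → S0) :
    (arS1 σ).card + (arS2 G σ).card ≤ ((G.AR e).viol σ).card := by
  let f1 : (V × W0 J X) × J8 → (V × W1 J X) × J0 := fun q =>
    ((q.1.1, Sum.inl q.1.2), Sum.inl q.2)
  let f2 : V × U0 J X → (V × W1 J X) × J0 := fun p =>
    ((p.1, Sum.inl (emb J X p.2)), Sum.inr (Sum.inl ()))
  have hf1 : Function.Injective f1 := by
    rintro ⟨⟨z, w⟩, j⟩ ⟨⟨z', w'⟩, j'⟩ h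
    simp only [f1, Prod.mk.injEq, Sum.inl.injEq] at h
    obtain ⟨⟨h1, h2⟩, h3⟩ := h
    simp [h1, h2, h3]
  have hf2 : Function.Injective f2 := by
    rintro ⟨z, u⟩ ⟨z', u'⟩ h
    simp only [f2, Prod.mk.injEq, Sum.inl.injEq, and_true] at h
    obtain ⟨h1, h2⟩ := h
    rw [h1, emb_injective J X h2]
  have h1 : (arS1 σ).image f1 ∪ (arS2 G σ).image f2 ⊆ (G.AR e).viol σ := by
    intro p hp
    unfold PG.viol
    rw [mem_filter]
    refine ⟨mem_univ _, ?_⟩
    rcases mem_union.1 hp with hp | hp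
    · obtain ⟨⟨⟨z, ⟨c, g⟩⟩, j⟩, hq, rfl⟩ := mem_image.1 hp
      intro hrel
      exact (mem_filter.1 hq).2 (hrel _ rfl)
    · obtain ⟨⟨z, u⟩, hq, rfl⟩ := mem_image.1 hp
      intro hrel
      exact (mem_filter.1 hq).2 hrel
  have h2 : Disjoint ((arS1 σ).image f1) ((arS2 G σ).image f2) := by
    rw [disjoint_left]
    intro p hp hp'
    obtain ⟨q, _, rfl⟩ := mem_image.1 hp
    obtain ⟨q', _, hq'⟩ := mem_image.1 hp'
    simp [f1, f2] at hq'
  have h3 := card_le_card h1
  rw [card_union_of_disjoint h2, card_image_of_injective _ hf1,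
    card_image_of_injective _ hf2] at h3
  exact h3

private theorem ar_cloud [Fintype V] (σ : V × W1 J X → S0) (ν : V → C0 J X → S0)
    (hν : ∀ z c s, (univ.filter fun g : ZMod (side J X c) × ZMod (side J X c) =>
      σ (z, Sum.inl ⟨c, g⟩) = s).card ≤ (univ.filter fun g => σ (z, Sum.inl ⟨c, g⟩) = ν z c).card) :
    (0.35 : ℝ) * (arK σ ν).card ≤ (arS1 σ).card := by
  have e1 : (arK σ ν).card = ∑ z : V, ∑ c : C0 J X,
      (univ.filter fun g : ZMod (side J X c) × ZMod (side J X c) =>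
        σ (z, Sum.inl ⟨c, g⟩) ≠ ν z c).card := by
    unfold arK
    rw [card_filter, Fintype.sum_prod_type]
    refine sum_congr rfl fun z _ => ?_
    rw [Fintype.sum_sigma]
    refine sum_congr rfl fun c _ => ?_
    rw [card_filter]
  have e2 : (arS1 σ).card = ∑ z : V, ∑ c : C0 J X,
      (univ.filter fun p : (ZMod (side J X c) × ZMod (side J X c)) × J8 =>
        σ (z, Sum.inl ⟨c, p.1⟩) ≠ σ (z, Sum.inl ⟨c, mg p.2 p.1⟩)).card := by
    unfold arS1
    rw [card_filter, Fintype.sum_prod_type, Fintype.sum_prod_type]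
    refine sum_congr rfl fun z _ => ?_
    rw [Fintype.sum_sigma]
    refine sum_congr rfl fun c _ => ?_
    rw [card_filter]
    symm
    exact Fintype.sum_prod_type
      (f := fun p : (ZMod (side J X c) × ZMod (side J X c)) × J8 =>
        if σ (z, Sum.inl ⟨c, p.1⟩) ≠ σ (z, Sum.inl ⟨c, mg p.2 p.1⟩) then 1 else 0)
  rw [e1, e2]
  push_cast
  rw [mul_sum]
  refine sum_le_sum fun z _ => ?_
  rw [mul_sum]
  refine sum_le_sum fun c _ => ?_
  have h := mg_plurality (side J X c) (fun g => σ (z, Sum.inl ⟨c, g⟩)) (ν z c) (by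
    intro s
    convert hν z c s)
  convert h using 3 <;> first | rfl | (apply congrArg Finset.card; ext g; simp only [mem_filter]) |
    (ext g; simp only [mem_filter])

private theorem ar_match [Fintype V] (G : PG V J X) (σ : V × W1 J X → S0)
    (ν : V → C0 J X → S0) :
    (G.endViol ν).card ≤ (arS2 G σ).card + 2 * (arK σ ν).card := by
  let D1 : Finset (V × U0 J X) := univ.filter fun p => (p.1, emb J X p.2) ∈ arK σ ν
  let D2 : Finset (V × U0 J X) := univ.filter fun p => G.mt p ∈ D1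
  have hD1 : D1.card ≤ (arK σ ν).card := by
    apply card_le_card_of_injOn (fun p => (p.1, emb J X p.2))
    · intro p hp
      exact (mem_filter.1 hp).2
    · rintro ⟨z, u⟩ _ ⟨z', u'⟩ _ h
      simp only [Prod.mk.injEq] at h
      rw [h.1, emb_injective J X h.2]
  have hD2 : D2.card ≤ D1.card := by
    apply card_le_card_of_injOn G.mt
    · intro p hp
      exact (mem_filter.1 hp).2
    · intro p _ q _ h
      rw [← G.mt_mt p, h, G.mt_mt]
  have hsub : G.endViol ν ⊆ arS2 G σ ∪ (D1 ∪ D2) := by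
    intro p hp
    rw [mem_union, mem_union]
    by_contra hcon
    push Not at hcon
    obtain ⟨h1, h2, h3⟩ := hcon
    have k1 : σ (p.1, Sum.inl (emb J X p.2)) = ν p.1 (cl p.2) := by
      by_contra h
      apply h2
      refine mem_filter.2 ⟨mem_univ _, mem_filter.2 ⟨mem_univ _, ?_⟩⟩
      show σ (p.1, Sum.inl (emb J X p.2)) ≠ ν p.1 (emb J X p.2).1
      rw [emb_fst]
      exact h
    have k2 : σ ((G.mt p).1, Sum.inl (emb J X (G.mt p).2)) =
        ν (G.mt p).1 (cl (G.mt p).2) := by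
      by_contra h
      apply h3
      refine mem_filter.2 ⟨mem_univ _, mem_filter.2 ⟨mem_univ _, mem_filter.2 ⟨mem_univ _, ?_⟩⟩⟩
      show σ ((G.mt p).1, Sum.inl (emb J X (G.mt p).2)) ≠ ν (G.mt p).1 (emb J X (G.mt p).2).1
      rw [emb_fst]
      exact h
    have h4 : mportRel (J := J) (X := X) (Sum.inl (emb J X p.2))
        (σ (p.1, Sum.inl (emb J X p.2))) (σ (G.mport (p.1, Sum.inl (emb J X p.2)))) := by
      by_contra h
      exact h1 (mem_filter.2 ⟨mem_univ _, h⟩)
    have h5 := h4 p.2 rfl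
    rw [G.mport_emb] at h5
    have k3 : ((G.mt (p.1, p.2)).1, (Sum.inl (emb J X (G.mt (p.1, p.2)).2) : W1 J X)) =
        ((G.mt p).1, Sum.inl (emb J X (G.mt p).2)) := rfl
    rw [k3, k1, k2] at h5
    exact (mem_filter.1 hp).2 h5
  have h6 := card_le_card hsub
  have h7 := card_union_le (arS2 G σ) (D1 ∪ D2)
  have h8 := card_union_le D1 D2
  omega

end

/-- Proof sketch.  Let `σ` be an assignment, `ν z c` a most frequent symbol of the cloud `(z, c)`, `k`
the number of cloud vertices `(z, ⟨c, g⟩)` whose symbol is not `ν z c`.  By `mg_plurality` (with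
`M = side`) at least `0.35 k` cloud ports are violated.  By `end_sound` at least
`a = γ/50 |V| |J| |Ω|` ends `p` are violated by `ν`; the matching port of the vertex of `p` is violated
by `σ` unless the vertex of `p` or of `mt p` deviates from `ν`, which happens for at most `2k` ends.  So
the number of violated ports is at least `max 0 (a - 2k) + 0.35 k ≥ 0.175 a`.  Number of ports:
`17 |V| cs² ≤ 17 · 128 |V| |J| |Ω|` (`card_W1`, `cs_sq_le`), and `0.175 / 50 / 2176 ≥ 10⁻⁶`. -/
theorem AR_gap [Fintype J] [Nonempty J] [Fintype X] [Nonempty X] [Fintype V] (G : PG V J X)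
    {M : ℕ} [NeZero M] (e : V × W1 J X ≃ ZMod M × ZMod M) {γ : ℝ} (hγ : 0 ≤ γ) (hG : G.Gap γ) :
    (G.AR e).Gap (γ / 1000000) := by
  intro σ
  have hex : ∀ (z : V) (c : C0 J X), ∃ s₀ : S0, ∀ s,
      (univ.filter fun g : ZMod (side J X c) × ZMod (side J X c) =>
        σ (z, Sum.inl ⟨c, g⟩) = s).card ≤
      (univ.filter fun g => σ (z, Sum.inl ⟨c, g⟩) = s₀).card := by
    intro z c
    obtain ⟨s₀, _, h⟩ := exists_max_image (univ : Finset S0)
      (fun s => (univ.filter fun g : ZMod (side J X c) × ZMod (side J X c) =>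
        σ (z, Sum.inl ⟨c, g⟩) = s).card) univ_nonempty
    exact ⟨s₀, fun s => h s (mem_univ s)⟩
  choose ν hν using hex
  have h1 := ar_card G e σ
  have h2 := ar_cloud σ ν hν
  have h3 := ar_match G σ ν
  have h4 := G.end_sound hγ hG ν
  have h5 := cs_sq_le J X
  have h1' : ((arS1 σ).card : ℝ) + (arS2 G σ).card ≤ (((G.AR e).viol σ).card : ℝ) := by
    exact_mod_cast h1
  have h3' : ((G.endViol ν).card : ℝ) ≤ (arS2 G σ).card + 2 * (arK σ ν).card := by
    exact_mod_cast h3
  have h5' : ((cs J X : ℝ)) ^ 2 ≤ 128 * ((Fintype.card J : ℝ) * Fintype.card (Om X)) := by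
    exact_mod_cast h5
  have hV : (0 : ℝ) ≤ Fintype.card V := Nat.cast_nonneg _
  have h6 : ((Fintype.card (V × W1 J X) : ℕ) : ℝ) * ((Fintype.card J0 : ℕ) : ℝ) ≤
      17 * (128 * ((Fintype.card V : ℝ) * Fintype.card J * Fintype.card (Om X))) := by
    rw [Fintype.card_prod, card_W1, card_J0]
    push_cast
    nlinarith [mul_le_mul_of_nonneg_left h5' hV]
  have h7 : γ / 1000000 * (((Fintype.card (V × W1 J X) : ℕ) : ℝ) * ((Fintype.card J0 : ℕ) : ℝ)) ≤
      γ / 1000000 * (17 * (128 * ((Fintype.card V : ℝ) * Fintype.card J * Fintype.card (Om X)))) :=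
    mul_le_mul_of_nonneg_left h6 (by positivity)
  refine h7.trans ?_
  set A : ℝ := (Fintype.card V : ℝ) * Fintype.card J * Fintype.card (Om X) with hA
  have hA0 : 0 ≤ A := by positivity
  have hγA : 0 ≤ γ * A := mul_nonneg hγ hA0
  have hk : (0 : ℝ) ≤ (arK σ ν).card := Nat.cast_nonneg _
  have hs2 : (0 : ℝ) ≤ (arS2 G σ).card := Nat.cast_nonneg _
  have h8 : γ / 50 * A ≤ (arS2 G σ).card + 2 * (arK σ ν).card := h4.trans h3'
  have h9 : 0.175 * (γ / 50 * A) ≤ (((G.AR e).viol σ).card : ℝ) := by linarith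
  refine le_trans ?_ h9
  have e1 : γ / 1000000 * (17 * (128 * A)) = 0.002176 * (γ * A) := by ring
  have e2 : 0.175 * (γ / 50 * A) = 0.0035 * (γ * A) := by ring
  rw [e1, e2]
  linarith

end Pool.Agent.PCP
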