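import Pool.Agent.PCP.Raw
import Pool.Agent.PT.CookLevin

/-!
# Satisfiability as a ported constraint graph (package W7)

The vertices are the pairs `(c, c')` of clause numbers below `m = n + 2`, number `c * m + c'`; the
symbol is an assignment of truth values to the three literals of clause `c`.  Ports `0`, `1` go to the
right and to the left in the cyclic row of `c` and check equality and the clause `c`, port `2` goes
to `(c', c)` and checks the consistency of the values for the clauses `c` and `c'`.
-/

set_option autoImplicit false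

namespace Pool.Agent.PCP

open Pool.Agent.PT Pool.Agent.Book19 Finset

variable {Γ : Type}

/-- Satisfiability of the clauses given by their literals. -/
def CSat (n : ℕ) (lit : ℕ → ℕ → ℕ) : Prop :=
  ∃ α : ℕ → Prop, ∀ c, c < n → ∃ j, j < 3 ∧ lholds α (lit c j)

/-- Clause `c` holds (there is no condition for `n ≤ c`). -/
def clauseOk (n c : ℕ) (a : Fin 3 → Bool) : Prop := c < n → ∃ j, a j = true

/-- The truth values of the literals of two clauses are consistent. -/
def consis (n : ℕ) (lit : ℕ → ℕ → ℕ) (c c' : ℕ) (a b : Fin 3 → Bool) : Prop :=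
  c < n → c' < n → ∀ j j' : Fin 3, (lit c j = lit c' j' → a j = b j') ∧
    (lit c j / 2 = lit c' j' / 2 → lit c j ≠ lit c' j' → a j ≠ b j')

theorem consis_symm {n : ℕ} {lit : ℕ → ℕ → ℕ} {c c' : ℕ} {a b : Fin 3 → Bool}
    (h : consis n lit c c' a b) : consis n lit c' c b a := by
  intro h1 h2 j j'
  obtain ⟨h3, h4⟩ := h h2 h1 j' j
  exact ⟨fun h5 => (h3 h5.symm).symm, fun h5 h6 => (h4 h5.symm h6.symm).symm⟩

/-- The constraint graph on pairs. -/
def base2 (n : ℕ) (lit : ℕ → ℕ → ℕ) : PG (Fin (n + 2) × Fin (n + 2)) (Fin 3) (Fin 3 → Bool) where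
  nb z j := if j = 0 then (z.1, z.2 + 1) else if j = 1 then (z.1, z.2 - 1) else (z.2, z.1)
  inv j := if j = 0 then 1 else if j = 1 then 0 else 2
  nb_inv z j := by
    fin_cases j <;> simp
  inv_inv j := by fin_cases j <;> simp
  rel z j a b := if j = 2 then consis n lit z.1 z.2 a b else a = b ∧ clauseOk n z.1 a
  rel_symm z j a b := by
    fin_cases j
    · simp only [Fin.zero_eta, Fin.isValue, Fin.reduceEq, if_false, if_true]
      rintro ⟨rfl, h⟩; exact ⟨rfl, h⟩
    · simp only [Fin.mk_one, Fin.isValue, Fin.reduceEq, if_false, if_true]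
      rintro ⟨rfl, h⟩; exact ⟨rfl, h⟩
    · simp only [Fin.reduceFinMk, Fin.isValue, Fin.reduceEq, if_false, if_true]
      exact consis_symm

/-- The constraint graph on numbers. -/
def base (n : ℕ) (lit : ℕ → ℕ → ℕ) : PG (Fin ((n + 2) * (n + 2))) (Fin 3) (Fin 3 → Bool) :=
  (base2 n lit).map finProdFinEquiv

/-- The inverse ports. -/
def invB : Fin 3 → Fin 3 := fun j => if j = 0 then 1 else if j = 1 then 0 else 2

theorem base_inv (n : ℕ) (lit : ℕ → ℕ → ℕ) : (base n lit).inv = invB := rfl

private theorem pbase_lholds_iff {n : ℕ} {lit : ℕ → ℕ → ℕ} {τ : ℕ → Fin 3 → Bool}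
    (h : ∀ c, c < n → ∀ c', c' < n → consis n lit c c' (τ c) (τ c')) (c : ℕ) (hc : c < n)
    (j : Fin 3) :
    lholds (fun v => ∃ c', c' < n ∧ ∃ j' : Fin 3, lit c' j' / 2 = v ∧
      (τ c' j' = true ↔ lit c' j' % 2 = 0)) (lit c j) ↔ τ c j = true := by
  unfold lholds
  split_ifs with hpar
  · constructor
    · rintro ⟨c', hc', j', h1, h2⟩
      obtain ⟨h3, h4⟩ := h c hc c' hc' hc hc' j j'
      by_cases he : lit c j = lit c' j'
      · rw [h3 he, h2, ← he]
        exact hpar
      · have h5 := h4 h1.symm he
        have h6 : ¬ τ c' j' = true := by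
          rw [h2]
          omega
        cases h7 : τ c j
        · rw [h7] at h5
          cases h8 : τ c' j'
          · exact absurd h8.symm h5
          · exact absurd h8 h6
        · rfl
    · intro h1
      exact ⟨c, hc, j, rfl, by simp [h1, hpar]⟩
  · constructor
    · intro h1
      by_contra h2
      exact h1 ⟨c, hc, j, rfl, by simp [h2, hpar]⟩
    · rintro h1 ⟨c', hc', j', h2, h3⟩
      obtain ⟨h4, h5⟩ := h c hc c' hc' hc hc' j j'
      by_cases he : lit c j = lit c' j'
      · rw [← h4 he, ← he] at h3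
        exact hpar (h3.mp h1)
      · have h6 := h5 h2.symm he
        have h7 : τ c' j' = true := by
          rw [h3]
          omega
        rw [h1, h7] at h6
        exact h6 rfl

theorem base_sat (n : ℕ) (lit : ℕ → ℕ → ℕ) : (base n lit).Sat ↔ CSat n lit := by
  unfold base
  rw [PG.map_sat]
  constructor
  · rintro ⟨σ, hσ⟩
    have h0 : ∀ z, σ z = σ (z.1, z.2 + 1) ∧ clauseOk n z.1 (σ z) := by
      intro z
      have := hσ z 0
      simpa [base2] using this
    have h2 : ∀ z, consis n lit z.1 z.2 (σ z) (σ (z.2, z.1)) := by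
      intro z
      have := hσ z 2
      simpa [base2] using this
    have hcon' : ∀ c c' : Fin (n + 2), σ (c, c') = σ (c, 0) := by
      intro c c'
      induction c' using Fin.induction with
      | zero => rfl
      | succ i ih =>
        rw [← ih, (h0 (c, i.castSucc)).1]
        simp only [Fin.coeSucc_eq_succ]
    set τ : ℕ → Fin 3 → Bool := fun c => if h : c < n + 2 then σ (⟨c, h⟩, 0) else fun _ => false
      with hτ
    have hτc : ∀ c (h : c < n + 2), τ c = σ (⟨c, h⟩, 0) := fun c h => by
      simp only [hτ, h, dif_pos]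
    have hcs : ∀ c, c < n → ∀ c', c' < n → consis n lit c c' (τ c) (τ c') := by
      intro c hc c' hc'
      have h := h2 (⟨c, by omega⟩, ⟨c', by omega⟩)
      rw [hcon', hcon' ⟨c', by omega⟩ ⟨c, by omega⟩] at h
      rw [hτc c (by omega), hτc c' (by omega)]
      exact h
    refine ⟨fun v => ∃ c', c' < n ∧ ∃ j' : Fin 3, lit c' j' / 2 = v ∧
      (τ c' j' = true ↔ lit c' j' % 2 = 0), fun c hc => ?_⟩
    obtain ⟨j, hj⟩ := (h0 (⟨c, by omega⟩, 0)).2 hc
    rw [← hτc] at hj
    exact ⟨j, j.2, (pbase_lholds_iff hcs c hc j).mpr hj⟩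
  · rintro ⟨α, hα⟩
    classical
    refine ⟨fun z j => decide (lholds α (lit z.1 j)), ?_⟩
    have hcl : ∀ z : Fin (n + 2) × Fin (n + 2),
        clauseOk n z.1 (fun j => decide (lholds α (lit z.1 j))) := by
      intro z hz
      obtain ⟨j, hj, h⟩ := hα z.1 hz
      exact ⟨⟨j, hj⟩, by simpa using h⟩
    intro z j
    fin_cases j
    · simp only [base2, Fin.zero_eta, Fin.isValue, Fin.reduceEq, if_false, if_true]
      exact ⟨trivial, hcl z⟩
    · simp only [base2, Fin.mk_one, Fin.isValue, Fin.reduceEq, if_false, if_true]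
      exact ⟨by simp, hcl z⟩
    · simp only [base2, Fin.reduceFinMk, Fin.isValue, Fin.reduceEq, if_false, if_true]
      intro _ _ j j'
      refine ⟨fun h => by simp only [h], fun h h' h3 => ?_⟩
      have h4 : lholds α (lit z.1 j) ↔ lholds α (lit z.2 j') := by
        simpa using h3
      unfold lholds at h4
      rw [h] at h4
      have h5 : lit z.1 j % 2 ≠ lit z.2 j' % 2 := by
        intro h6
        apply h'
        omega
      by_cases h6 : lit z.1 j % 2 = 0
      · rw [if_pos h6, if_neg (by omega)] at h4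
        exact iff_not_self h4
      · rw [if_neg h6, if_pos (by omega)] at h4
        exact iff_not_self h4.symm

/-- Proof sketch: an assignment of an unsatisfiable graph violates at least one port. -/
theorem base_gap (n : ℕ) (lit : ℕ → ℕ → ℕ) (h : ¬ CSat n lit) :
    (base n lit).Gap (1 / (3 * ((n : ℝ) + 2) ^ 2)) := by
  intro σ
  have h1 : ((base n lit).viol σ).Nonempty := by
    by_contra h2
    rw [Finset.not_nonempty_iff_eq_empty] at h2
    apply h
    rw [← base_sat]
    refine ⟨σ, fun z j => ?_⟩
    by_contra h3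
    have h4 : (z, j) ∈ (base n lit).viol σ := by
      simp only [PG.viol, Finset.mem_filter, Finset.mem_univ, true_and]
      exact h3
    rw [h2] at h4
    exact Finset.notMem_empty _ h4
  have h2 : (1 : ℝ) ≤ ((base n lit).viol σ).card := by
    exact_mod_cast h1.card_pos
  refine le_trans (le_of_eq ?_) h2
  rw [Fintype.card_fin, Fintype.card_fin]
  push_cast
  have h3 : ((n : ℝ) + 2) ≠ 0 := by positivity
  field_simp

end Pool.Agent.PCP
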