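import Pool.Agent.PCP.Base

/-! # The base graph is definable (package W8) -/

set_option autoImplicit false

namespace Pool.Agent.PCP

open Pool.Agent.PT Pool.Agent.Book19

variable {Γ : Type}

private theorem base_nb (n : ℕ) (lit : ℕ → ℕ → ℕ) (u : ℕ) (j : Fin 3) :
    (base n lit).raw.nb u j = if u < (n + 2) * (n + 2) then
      (if j = 0 then (u % (n + 2) + 1) % (n + 2) + (n + 2) * (u / (n + 2))
      else if j = 1 then ((n + 2) - 1 + u % (n + 2)) % (n + 2) + (n + 2) * (u / (n + 2))
      else u / (n + 2) + (n + 2) * (u % (n + 2))) else 0 := by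
  by_cases h : u < (n + 2) * (n + 2)
  · rw [if_pos h]
    change (if h : u < (n + 2) * (n + 2) then _ else 0) = _
    rw [dif_pos h]
    fin_cases j
    · change (finProdFinEquiv (((finProdFinEquiv (m := n + 2) (n := n + 2)).symm ⟨u, h⟩).1,
        ((finProdFinEquiv (m := n + 2) (n := n + 2)).symm ⟨u, h⟩).2 + 1)).val = _
      simp [finProdFinEquiv, Fin.val_add, Fin.modNat, Fin.divNat]
    · change (finProdFinEquiv (((finProdFinEquiv (m := n + 2) (n := n + 2)).symm ⟨u, h⟩).1,
        ((finProdFinEquiv (m := n + 2) (n := n + 2)).symm ⟨u, h⟩).2 - 1)).val = _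
      simp [finProdFinEquiv, Fin.sub_def, Fin.modNat, Fin.divNat]
    · change (finProdFinEquiv (((finProdFinEquiv (m := n + 2) (n := n + 2)).symm ⟨u, h⟩).2,
        ((finProdFinEquiv (m := n + 2) (n := n + 2)).symm ⟨u, h⟩).1)).val = _
      simp [finProdFinEquiv, Fin.modNat, Fin.divNat]
  · rw [if_neg h]
    change (if h : u < (n + 2) * (n + 2) then _ else 0) = _
    rw [dif_neg h]

private theorem base_rel (n : ℕ) (lit : ℕ → ℕ → ℕ) (u : ℕ) (j : Fin 3) (a b : Fin 3 → Bool) :
    (base n lit).raw.rel u j a b ↔ (u < (n + 2) * (n + 2) →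
      if j = 2 then consis n lit (u / (n + 2)) (u % (n + 2)) a b
      else a = b ∧ clauseOk n (u / (n + 2)) a) := Iff.rfl

private theorem up_consis {n : List Γ → ℕ} {lit : List Γ → ℕ → ℕ → ℕ} (hn : UF fun x _ => n x)
    (hlit : UF fun x e => lit x (e 0) (e 1)) {f g : List Γ → (ℕ → ℕ) → ℕ} (hf : UF f) (hg : UF g)
    (a b : Fin 3 → Bool) : UP fun x e => consis (n x) (lit x) (f x e) (g x e) a b := by
  have hl : ∀ j : ℕ, UF fun x e => lit x (f x e) j := fun j => UF.comp₂ hlit hf (UF.const j)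
  have hl' : ∀ j : ℕ, UF fun x e => lit x (g x e) j := fun j => UF.comp₂ hlit hg (UF.const j)
  refine (UP.lt hf hn).imp ((UP.lt hg hn).imp (UP.fall fun j => UP.fall fun j' => ?_))
  refine UP.and ((UP.eq (hl j) (hl' j')).imp (UP.const _)) ?_
  exact (UP.eq ((hl j).div (UF.const 2)) ((hl' j').div (UF.const 2))).imp
    ((UP.ne (hl j) (hl' j')).imp (UP.const _))

/-- For `u < m²`, `m = n + 2`: `nb u 0 = u / m * m + (u % m + 1) % m`,
`nb u 1 = u / m * m + (u % m + m - 1) % m`, `nb u 2 = u % m * m + u / m`; the relations are given by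
the comparisons of `lit (u / m) j`, `lit (u % m) j'`, `u / m`, `u % m` and `n`. -/
theorem dfn_base {n : List Γ → ℕ} {lit : List Γ → ℕ → ℕ → ℕ} (hn : UF fun x _ => n x)
    (hlit : UF fun x e => lit x (e 0) (e 1)) : Dfn fun x => (base (n x) (lit x)).raw := by
  have hm : UF fun x (_ : ℕ → ℕ) => n x + 2 := hn.add (UF.const 2)
  have hq : UF fun x (e : ℕ → ℕ) => e 0 / (n x + 2) := (UF.var 0).div hm
  have hr : UF fun x (e : ℕ → ℕ) => e 0 % (n x + 2) := (UF.var 0).mod hm
  have hlt : UP fun x (e : ℕ → ℕ) => e 0 < (n x + 2) * (n x + 2) :=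
    UP.lt (UF.var 0) (hm.mul hm)
  refine ⟨hm.mul hm, fun j => ?_, fun j => UD.pi fun a => UD.pi fun b => UP.toUD ?_⟩
  · refine UF.congr ?_ fun x e => (base_nb (n x) (lit x) (e 0) j).symm
    refine UF.ite (inst := fun x e => Nat.decLt _ _) hlt ?_ (UF.const 0)
    fin_cases j
    · exact ((hr.add (UF.const 1)).mod hm).add (hm.mul hq)
    · exact (((hm.sub (UF.const 1)).add hr).mod hm).add (hm.mul hq)
    · exact hq.add (hm.mul hr)
  · refine UP.congr ?_ fun x e => (base_rel (n x) (lit x) (e 0) j a b).symm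
    refine hlt.imp ?_
    by_cases hj : j = 2
    · simp only [hj, if_true]
      exact up_consis hn hlit hq hr a b
    · simp only [hj, if_false]
      exact (UP.const _).and ((UP.lt hq hn).imp (UP.const _))

end Pool.Agent.PCP
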