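import Pool.Agent.PCP.CompIter
import Pool.Agent.PCP.CompPT

/-! # Composition of polynomial time functions -/

set_option autoImplicit false

namespace Pool.Agent.PCP

open Turing Computability

/-- **Composition of functions computable in polynomial time** (Mathlib's `TM2` machines). -/
theorem polyTime_comp {α β γ A B C : Type} [Fintype A] [Fintype B] [Fintype C] [Nonempty B]
    [Nonempty C] {ea : α → List A} {eb : β → List B} {ec : γ → List C} {f : α → β} {g : β → γ}
    (hg : Nonempty (TM2ComputableInPolyTime eb ec g))
    (hf : Nonempty (TM2ComputableInPolyTime ea eb f)) :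
    Nonempty (TM2ComputableInPolyTime ea ec (fun a => g (f a))) :=
  polyTime_of_iterRep ((iterRep_of_polyTime hg).comp (iterRep_of_polyTime hf))

end Pool.Agent.PCP
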