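import Pool.Agent.PCP.WFComp

/-! # Composition of functions computed by iteration (package C4) -/

set_option autoImplicit false

namespace Pool.Agent.PCP

open Turing Computability
open Pool.Agent.PT Pool.Agent.Book19 Pool.Agent.B7219d

section CompIter

variable {Λ Λ' : Type}

/-- words of the first phase -/
private def ciE (y : List Λ) : List (Option (Λ ⊕ Λ')) := none :: y.map (fun a => some (Sum.inl a))

/-- words of the second phase -/
private def ciE' (y : List Λ') : List (Option (Λ ⊕ Λ')) := y.map (fun a => some (Sum.inr a))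

private def ciL (a₀ : Λ) : Option (Option (Λ ⊕ Λ')) → Λ
  | some (some (Sum.inl a)) => a
  | _ => a₀

private def ciL' (a₀ : Λ') : Option (Option (Λ ⊕ Λ')) → Λ'
  | some (some (Sum.inr a)) => a
  | _ => a₀

private def ciD (a₀ : Λ) (w : List (Option (Λ ⊕ Λ'))) : List Λ :=
  (List.range (w.length - 1)).map fun i => ciL a₀ w[i + 1]?

private def ciD' (a₀ : Λ') (w : List (Option (Λ ⊕ Λ'))) : List Λ' :=
  (List.range w.length).map fun i => ciL' a₀ w[i]?

private lemma ciD_ciE (a₀ : Λ) (y : List Λ) : ciD a₀ (ciE (Λ' := Λ') y) = y := by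
  apply List.ext_getElem
  · simp [ciD, ciE]
  · intro i h1 h2
    simp [ciD, ciE, ciL, h2]

private lemma ciD'_ciE' (a₀ : Λ') (y : List Λ') : ciD' a₀ (ciE' (Λ := Λ) y) = y := by
  apply List.ext_getElem
  · simp [ciD', ciE']
  · intro i h1 h2
    simp [ciD', ciE', ciL', h2]

private lemma ciE_head (y : List Λ) : (ciE (Λ' := Λ') y)[0]? = some none := rfl

private lemma ciE'_head (y : List Λ') : (ciE' (Λ := Λ) y)[0]? ≠ some none := by
  cases y <;> simp [ciE']

variable [Finite Λ] [Finite Λ']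

private lemma ciD_wf (a₀ : Λ) : WF (ciD (Λ' := Λ') a₀) :=
  ⟨fun w => w.length - 1, fun w i => ciL a₀ w[i + 1]?, UF.len.sub (UF.const 1),
    (UD.get ((UF.var 0).add (UF.const 1))).map (ciL a₀), fun _ => rfl⟩

private lemma ciD'_wf (a₀ : Λ') : WF (ciD' (Λ := Λ) a₀) :=
  ⟨fun w => w.length, fun w i => ciL' a₀ w[i]?, UF.len,
    (UD.get (UF.var 0)).map (ciL' a₀), fun _ => rfl⟩

private lemma ciE_wf {A : Type} [Finite A] {F : List A → List Λ} (hF : WF F) :
    WF fun x => ciE (Λ' := Λ') (F x) :=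
  WF.append (F := fun _ : List A => List.replicate 1 (none : Option (Λ ⊕ Λ')))
    (G := fun x => (F x).map (fun a => some (Sum.inl a)))
    (WF.const none (UF.const 1)) ((WF.map (fun a : Λ => (some (Sum.inl a) : Option (Λ ⊕ Λ')))).comp hF)

omit [Finite Λ] in
private lemma ciE'_wf {A : Type} [Finite A] {F : List A → List Λ'} (hF : WF F) :
    WF fun x => ciE' (Λ := Λ) (F x) :=
  (WF.map (fun a : Λ' => (some (Sum.inr a) : Option (Λ ⊕ Λ')))).comp hF

end CompIter

/-- the length of a word function is polynomially bounded -/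
private lemma ci_bound {A B : Type} {F : List A → List B} (hF : WF F) :
    ∃ T : ℕ → ℕ, PB T ∧ ∀ x, (F x).length ≤ T x.length := by
  obtain ⟨M, G, hM, _, hMG⟩ := hF
  obtain ⟨T, hT, h⟩ := UF.bound hM
  refine ⟨T, hT, fun x => ?_⟩
  rw [hMG, List.length_map, List.length_range]
  exact h x

/-- Proof sketch: alphabet `Option (Λ ⊕ Λ')`; the words are `none :: y.map (some ∘ inl)` in the
first phase and `y.map (some ∘ inr)` (without the letter `none`) in the second phase.  One round: in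
the first phase, if `Q` holds for the word behind the first letter apply `F₁` to it, otherwise pass to
the second phase by `F₀'` after `F₂`; in the second phase apply `F₁'`.  Condition: first letter `none`
or `Q'`.  All word functions are built with `WF.comp`, `WF.append`, `WF.map`, `WF.ite` and the word
functions `List.tail`, `filterMap` of this shape.  Rounds: `s + 1 + s'`. -/
theorem IterRep.comp {α β γ A B C : Type} [Fintype A] [Fintype B] [Fintype C] {ea : α → List A}
    {eb : β → List B} {ec : γ → List C} {f : α → β} {g : β → γ} (hg : IterRep eb ec g)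
    (hf : IterRep ea eb f) : IterRep ea ec (fun a => g (f a)) := by
  classical
  obtain ⟨Λ, _, F₀, F₁, F₂, Q, S, L, hF₀, hF₁, hF₂, hQ, hS, hL, hrun⟩ := hf
  obtain ⟨Λ', _, F₀', F₁', F₂', Q', S', L', hF₀', hF₁', hF₂', hQ', hS', hL', hrun'⟩ := hg
  obtain ⟨a₀⟩ : Nonempty Λ := by
    obtain ⟨_, G₀, _, _, _⟩ := hF₀
    exact ⟨G₀ [] 0⟩
  obtain ⟨a₀'⟩ : Nonempty Λ' := by
    obtain ⟨_, G₀', _, _, _⟩ := hF₀'
    exact ⟨G₀' [] 0⟩
  obtain ⟨T, hT, hTb⟩ := ci_bound hF₂
  -- one round
  let R : List (Option (Λ ⊕ Λ')) → List (Option (Λ ⊕ Λ')) := fun w =>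
    if w[0]? = some none then
      (if Q (ciD a₀ w) then ciE (F₁ (ciD a₀ w)) else ciE' (F₀' (F₂ (ciD a₀ w))))
    else ciE' (F₁' (ciD' a₀' w))
  have hR1 : ∀ y, Q y → R (ciE y) = ciE (F₁ y) := by
    intro y hy
    simp only [R]
    rw [if_pos (ciE_head y), ciD_ciE, if_pos hy]
  have hR2 : ∀ y, ¬ Q y → R (ciE y) = ciE' (F₀' (F₂ y)) := by
    intro y hy
    simp only [R]
    rw [if_pos (ciE_head y), ciD_ciE, if_neg hy]
  have hR3 : ∀ z, R (ciE' z) = ciE' (F₁' z) := by
    intro z
    simp only [R]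
    rw [if_neg (ciE'_head z), ciD'_ciE']
  have hRwf : WF R := by
    refine WF.ite (P := fun w : List (Option (Λ ⊕ Λ')) => w[0]? = some none)
      (UP.sym none (UF.const 0)) (WF.ite (UP.word hQ (ciD_wf a₀)) (ciE_wf (hF₁.comp (ciD_wf a₀)))
        (ciE'_wf (hF₀'.comp (hF₂.comp (ciD_wf a₀))))) (ciE'_wf (hF₁'.comp (ciD'_wf a₀')))
  refine ⟨Option (Λ ⊕ Λ'), inferInstance, fun x => ciE (F₀ x), R, fun w => F₂' (ciD' a₀' w),
    fun w => w[0]? = some none ∨ Q' (ciD' a₀' w), fun N => S N + 1 + S' (T (L N)),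
    fun N => L N + 1 + L' (T (L N)), ciE_wf hF₀, hRwf, hF₂'.comp (ciD'_wf a₀'),
    (UP.sym none (UF.const 0)).or (UP.word hQ' (ciD'_wf a₀')),
    (hS.add (PB.const 1)).add (hS'.comp (hT.comp hL)),
    (hL.add (PB.const 1)).add (hL'.comp (hT.comp hL)), ?_⟩
  intro a
  obtain ⟨s, hs, hs1, hs2, hs3, hs4⟩ := hrun a
  obtain ⟨s', hs', hs1', hs2', hs3', hs4'⟩ := hrun' (f a)
  rw [hs4] at hs' hs1' hs2' hs3' hs4'
  -- the iterates
  have hit1 : ∀ i, i ≤ s → R^[i] (ciE (F₀ (ea a))) = ciE (F₁^[i] (F₀ (ea a))) := by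
    intro i
    induction i with
    | zero => intro _; rfl
    | succ i ih =>
      intro hi
      rw [Function.iterate_succ_apply', ih (by omega), hR1 _ (hs1 i (by omega)),
        Function.iterate_succ_apply']
  have hit2 : ∀ i, R^[s + 1 + i] (ciE (F₀ (ea a))) =
      ciE' (F₁'^[i] (F₀' (F₂ (F₁^[s] (F₀ (ea a)))))) := by
    intro i
    induction i with
    | zero =>
      rw [Nat.add_zero, Function.iterate_succ_apply', hit1 s le_rfl, hR2 _ hs2]
      rfl
    | succ i ih =>
      rw [← Nat.add_assoc, Function.iterate_succ_apply', ih, hR3, Function.iterate_succ_apply']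
  -- sizes
  have hlen : (F₂ (F₁^[s] (F₀ (ea a)))).length ≤ T (L (ea a).length) :=
    (hTb _).trans (hT.1 (hs3 s le_rfl))
  refine ⟨s + 1 + s', ?_, ?_, ?_, ?_, ?_⟩
  · have := hs'.trans (hS'.1 hlen)
    show s + 1 + s' ≤ S (ea a).length + 1 + S' (T (L (ea a).length))
    omega
  · intro i hi
    rcases Nat.lt_or_ge s i with h | h
    · right
      obtain ⟨j, rfl⟩ := Nat.exists_eq_add_of_le (show s + 1 ≤ i from h)
      beta_reduce
      rw [hit2, ciD'_ciE']
      exact hs1' j (by omega)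
    · left
      beta_reduce
      rw [hit1 i h]
      exact ciE_head _
  · beta_reduce
    rw [hit2, ciD'_ciE']
    rintro (h | h)
    · exact ciE'_head _ h
    · exact hs2' h
  · intro i hi
    rcases Nat.lt_or_ge s i with h | h
    · obtain ⟨j, rfl⟩ := Nat.exists_eq_add_of_le (show s + 1 ≤ i from h)
      rw [hit2]
      have h1 := hs3' j (by omega)
      have h2 := hL'.1 hlen
      have h3 : (ciE' (Λ := Λ) (F₁'^[j] (F₀' (F₂ (F₁^[s] (F₀ (ea a))))))).length =
          (F₁'^[j] (F₀' (F₂ (F₁^[s] (F₀ (ea a)))))).length := by simp [ciE']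
      rw [h3]
      show _ ≤ L (ea a).length + 1 + L' (T (L (ea a).length))
      omega
    · beta_reduce
      rw [hit1 i h]
      have h1 := hs3 i h
      have h3 : (ciE (Λ' := Λ') (F₁^[i] (F₀ (ea a)))).length =
          (F₁^[i] (F₀ (ea a))).length + 1 := by simp [ciE]
      rw [h3]
      show _ ≤ L (ea a).length + 1 + L' (T (L (ea a).length))
      omega
  · show ec (g (f a)) = F₂' (ciD' a₀' (R^[s + 1 + s'] (ciE (F₀ (ea a)))))
    rw [hit2, ciD'_ciE']
    exact hs4'

end Pool.Agent.PCP
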