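import Mathlib

/-!
# Ported constraint graphs

A `PG V J S` is a regular (multi)graph on the vertex type `V` in which every vertex has the ports
`j : J`, together with a binary constraint over the alphabet `S` on every port.
-/

set_option autoImplicit false

namespace Pool.Agent.PCP

open Finset

/-- Ported constraint graph.  The port `j` of the vertex `z` leads to `nb z j`, whose port `inv j`
leads back to `z`; `rel z j` is the constraint between the symbols of `z` and of `nb z j`. -/
structure PG (V J S : Type) where
  nb : V → J → V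
  inv : J → J
  nb_inv : ∀ z j, nb (nb z j) (inv j) = z
  inv_inv : ∀ j, inv (inv j) = j
  rel : V → J → S → S → Prop
  rel_symm : ∀ z j a b, rel z j a b → rel (nb z j) (inv j) b a

variable {V J S : Type}

namespace PG

/-- The graph has an assignment satisfying all constraints. -/
def Sat (G : PG V J S) : Prop := ∃ σ : V → S, ∀ z j, G.rel z j (σ z) (σ (G.nb z j))

open Classical in
/-- The violated ports of an assignment. -/
noncomputable def viol [Fintype V] [Fintype J] (G : PG V J S) (σ : V → S) : Finset (V × J) :=
  univ.filter fun p => ¬ G.rel p.1 p.2 (σ p.1) (σ (G.nb p.1 p.2))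

/-- Every assignment violates at least a fraction `γ` of the ports. -/
def Gap [Fintype V] [Fintype J] (G : PG V J S) (γ : ℝ) : Prop :=
  ∀ σ : V → S, γ * ((Fintype.card V : ℝ) * Fintype.card J) ≤ ((G.viol σ).card : ℝ)

/-- The (unnormalised) adjacency operator has norm at most `r * |J|` on functions of sum zero. -/
def Expander [Fintype V] [Fintype J] (G : PG V J S) (r : ℝ) : Prop :=
  ∀ f : V → ℝ, ∑ v, f v = 0 →
    ∑ v, (∑ j, f (G.nb v j)) ^ 2 ≤ (r * Fintype.card J) ^ 2 * ∑ v, f v ^ 2

/-- The port `j` permutes the vertices. -/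
def perm (G : PG V J S) (j : J) : V ≃ V where
  toFun z := G.nb z j
  invFun z := G.nb z (G.inv j)
  left_inv z := G.nb_inv z j
  right_inv z := by
    have := G.nb_inv z (G.inv j)
    rwa [G.inv_inv] at this

@[simp] theorem perm_apply (G : PG V J S) (j : J) (z : V) : G.perm j z = G.nb z j := rfl

theorem rel_symm_iff (G : PG V J S) (z : V) (j : J) (a b : S) :
    G.rel (G.nb z j) (G.inv j) b a ↔ G.rel z j a b := by
  constructor
  · intro h
    have := G.rel_symm _ _ _ _ h
    rwa [G.nb_inv, G.inv_inv] at this
  · exact G.rel_symm z j a b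

/-- Relabelling the vertices. -/
def map {V' : Type} (G : PG V J S) (e : V ≃ V') : PG V' J S where
  nb z j := e (G.nb (e.symm z) j)
  inv := G.inv
  nb_inv z j := by simp [G.nb_inv]
  inv_inv := G.inv_inv
  rel z j := G.rel (e.symm z) j
  rel_symm z j a b h := by simpa using G.rel_symm _ _ _ _ h

theorem map_sat {V' : Type} (G : PG V J S) (e : V ≃ V') : (G.map e).Sat ↔ G.Sat := by
  constructor
  · rintro ⟨σ, h⟩
    refine ⟨fun z => σ (e z), fun z j => ?_⟩
    have := h (e z) j
    simpa [map] using this
  · rintro ⟨σ, h⟩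
    refine ⟨fun z => σ (e.symm z), fun z j => ?_⟩
    have := h (e.symm z) j
    simpa [map] using this

theorem map_gap {V' : Type} [Fintype V] [Fintype V'] [Fintype J] (G : PG V J S) (e : V ≃ V')
    {γ : ℝ} (h : G.Gap γ) : (G.map e).Gap γ := by
  classical
  intro σ
  have h1 := h (fun z => σ (e z))
  rw [Fintype.card_congr e] at h1
  refine h1.trans (le_of_eq ?_)
  norm_cast
  refine Finset.card_bij (fun p _ => (e p.1, p.2)) ?_ ?_ ?_
  · rintro ⟨z, j⟩ hp
    simpa [viol, map] using hp
  · rintro ⟨z, j⟩ _ ⟨z', j'⟩ _ h
    simpa using h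
  · rintro ⟨z, j⟩ hp
    refine ⟨(e.symm z, j), ?_, by simp⟩
    simpa [viol, map] using hp

theorem map_expander {V' : Type} [Fintype V] [Fintype V'] [Fintype J] (G : PG V J S) (e : V ≃ V')
    {r : ℝ} (h : G.Expander r) : (G.map e).Expander r := by
  intro f hf
  have h0 : ∑ v, f (e v) = 0 := by rw [Equiv.sum_comp e f]; exact hf
  have h1 := h (fun z => f (e z)) h0
  rw [Equiv.sum_comp e (fun v => f v ^ 2)] at h1
  refine le_trans (le_of_eq ?_) h1
  rw [← Equiv.sum_comp e]
  simp [map]

end PG

/-- The four bits of a symbol. -/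
abbrev S0 : Type := Fin 4 → ZMod 2

/-- The eight ports of the Margulis–Gabber–Galil graph: (which matrix, shift, direction). -/
abbrev J8 : Type := Bool × Bool × Bool

/-- The ports used throughout: eight for the clouds, one for the constraints, eight for the global
expander. -/
abbrev J0 : Type := J8 ⊕ (Unit ⊕ J8)

instance instDecidableEqJ0 : DecidableEq J0 := inferInstance

instance instFintypeJ0 : Fintype J0 := inferInstance

instance instDecidableEqS0 : DecidableEq S0 := inferInstance

instance instFintypeS0 : Fintype S0 := inferInstance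

/-- The shift of a port. -/
def sh {M : ℕ} (b : Bool) : ZMod M := if b then 1 else 0

/-- The Margulis–Gabber–Galil maps of the torus. -/
def mg {M : ℕ} : J8 → ZMod M × ZMod M → ZMod M × ZMod M
  | (true, s, true), z => (z.1 + 2 * z.2 + sh s, z.2)
  | (true, s, false), z => (z.1 - sh s - 2 * z.2, z.2)
  | (false, s, true), z => (z.1, z.2 + 2 * z.1 + sh s)
  | (false, s, false), z => (z.1, z.2 - sh s - 2 * z.1)

/-- The inverse port. -/
def mgInv : J8 → J8 := fun j => (j.1, j.2.1, !j.2.2)

theorem mgInv_mgInv (j : J8) : mgInv (mgInv j) = j := by simp [mgInv]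

theorem mg_inv {M : ℕ} (j : J8) (z : ZMod M × ZMod M) : mg (mgInv j) (mg j z) = z := by
  obtain ⟨a, s, d⟩ := j
  cases a <;> cases d <;> simp [mg, mgInv]

theorem card_J8 : Fintype.card J8 = 8 := by decide

theorem card_J0 : Fintype.card J0 = 17 := by decide

end Pool.Agent.PCP
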