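import Pool.Agent.PCP.Hyp

/-!
# The hypergraph of a constraint graph: completeness and soundness (package H3)

For a ported graph `G` on `Fin N` the elements of `fgl G.raw` are the numbers `z * K0 + cde (j, a, b)`,
`z < N`; a set of elements hits all edges iff its complement contains no contradiction, i.e.
describes a partial assignment together with some satisfied ports.
-/

set_option autoImplicit false

namespace Pool.Agent.PCP

open scoped Classical

/-- The hypergraph of a raw graph. -/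
noncomputable def fgl (r : Raw J0 S0) : Hyp :=
  Hyp.ofEl (r.N * K0) (r.N * K0 * (r.N * K0)) (fel r)

private theorem fgl_lof_cde (z : ℕ) (l : LV) : lof (z * K0 + (cde l).val) = l := by
  unfold lof
  have h1 : (z * K0 + (cde l).val) % K0 = (cde l).val := by
    rw [Nat.mul_comm, Nat.mul_add_mod]
    exact Nat.mod_eq_of_lt (cde l).2
  have h2 : (⟨(z * K0 + (cde l).val) % K0, Nat.mod_lt _ K0_pos⟩ : Fin K0) = cde l :=
    Fin.ext h1
  rw [h2, Equiv.symm_apply_apply]

private theorem fgl_div_cde (z : ℕ) (l : LV) : (z * K0 + (cde l).val) / K0 = z := by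
  rw [Nat.mul_comm, Nat.mul_add_div K0_pos, Nat.div_eq_of_lt (cde l).2, Nat.add_zero]

private theorem fgl_eq_of {u u' : ℕ} (h1 : u / K0 = u' / K0) (h2 : lof u = lof u') : u = u' := by
  unfold lof at h2
  have h3 := cde.symm.injective h2
  have h4 : u % K0 = u' % K0 := congrArg Fin.val h3
  rw [← Nat.div_add_mod u K0, ← Nat.div_add_mod u' K0, h1, h4]

private theorem fgl_div_lt {N u : ℕ} (h : u < N * K0) : u / K0 < N :=
  (Nat.div_lt_iff_lt_mul K0_pos).2 h

private theorem fgl_raw_nb {N : ℕ} (G : PG (Fin N) J0 S0) {u : ℕ} (h : u < N) (j : J0) :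
    G.raw.nb u j = (G.nb ⟨u, h⟩ j).val := by
  simp only [PG.raw, dif_pos h]

private theorem fgl_idx_div {n u u' : ℕ} (h : u' < n) : (u * n + u') / n = u := by
  have hn : 0 < n := lt_of_le_of_lt (Nat.zero_le _) h
  rw [Nat.mul_comm, Nat.mul_add_div hn, Nat.div_eq_of_lt h, Nat.add_zero]

private theorem fgl_idx_mod {n u u' : ℕ} (h : u' < n) : (u * n + u') % n = u' := by
  rw [Nat.mul_comm, Nat.mul_add_mod]
  exact Nat.mod_eq_of_lt h

private theorem fgl_idx_lt {n u u' : ℕ} (h : u < n) (h' : u' < n) : u * n + u' < n * n := by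
  calc u * n + u' < u * n + n := by omega
    _ = (u + 1) * n := by ring
    _ ≤ n * n := Nat.mul_le_mul_right n h

private theorem fgl_e0_lt (b : Bool) : e0 b < K0 := (cde _).2

theorem fel_lt {N : ℕ} (hN : 0 < N) (G : PG (Fin N) J0 S0) (i : ℕ)
    (hi : i < N * K0 * (N * K0)) (b : Bool) : fel G.raw i b < N * K0 := by
  have hn : 0 < N * K0 := Nat.mul_pos hN K0_pos
  have hr : G.raw.N = N := rfl
  unfold fel
  rw [hr]
  split_ifs with h1 h2
  · exact Nat.mod_lt _ hn
  · exact (Nat.div_lt_iff_lt_mul hn).2 hi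
  · exact lt_of_lt_of_le (fgl_e0_lt b) (Nat.le_mul_of_pos_left _ hN)

private theorem fgl_lof_e0 (b : Bool) :
    lof (e0 b) = (default, (fun _ => 0), (fun _ => if b then 1 else 0)) := by
  have h := fgl_lof_cde 0 (default, (fun _ => 0), (fun _ => if b then 1 else 0))
  rw [Nat.zero_mul, Nat.zero_add] at h
  exact h

private theorem fgl_div_e0 (b : Bool) : e0 b / K0 = 0 := Nat.div_eq_of_lt (fgl_e0_lt b)

/-- `e0 false` and `e0 true` contradict each other. -/
theorem conf_e0 {N : ℕ} (hN : 0 < N) (G : PG (Fin N) J0 S0) :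
    conf G.raw (e0 false) (e0 true) := by
  right; right; right; right
  rw [fgl_lof_e0, fgl_lof_e0, fgl_div_e0, fgl_div_e0]
  refine ⟨rfl, fun h => ?_⟩
  have h1 := congrFun h 0
  simp at h1

/-- Proof sketch: all elements except `(z, (j, σ z, σ (nb z j)))`, of which there are `17 N`. -/
theorem fgl_complete {N : ℕ} (hN : 0 < N) (G : PG (Fin N) J0 S0) (h : G.Sat) :
    ∃ T, (fgl G.raw).Hits T ∧ T.card ≤ (K0 - 17) * N := by
  obtain ⟨σ, hσ⟩ := h
  set n := N * K0 with hn
  have hr : G.raw.N = N := rfl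
  set f : Fin N × J0 → ℕ := fun p =>
    p.1.val * K0 + (cde (p.2, σ p.1, σ (G.nb p.1 p.2))).val with hf
  set C : Finset ℕ := Finset.univ.image f with hC
  have hfinj : Function.Injective f := by
    rintro ⟨z, j⟩ ⟨z', j'⟩ h1
    have h2 : z.val = z'.val := by
      have := congrArg (fun u => u / K0) h1
      simp only [hf] at this
      rw [fgl_div_cde, fgl_div_cde] at this
      exact this
    have h3 : lof (f (z, j)) = lof (f (z', j')) := by rw [h1]
    simp only [hf] at h3
    rw [fgl_lof_cde, fgl_lof_cde] at h3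
    have h4 : j = j' := congrArg Prod.fst h3
    exact Prod.ext (Fin.ext h2) h4
  have hCcard : C.card = N * 17 := by
    rw [hC, Finset.card_image_of_injective _ hfinj, Finset.card_univ, Fintype.card_prod,
      Fintype.card_fin, card_J0]
  have hCsub : C ⊆ Finset.range n := by
    intro u hu
    rw [hC, Finset.mem_image] at hu
    obtain ⟨⟨z, j⟩, -, rfl⟩ := hu
    rw [Finset.mem_range, hn]
    calc z.val * K0 + (cde (j, σ z, σ (G.nb z j))).val < z.val * K0 + K0 := by
          have := (cde (j, σ z, σ (G.nb z j))).2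
          omega
      _ = (z.val + 1) * K0 := by ring
      _ ≤ N * K0 := Nat.mul_le_mul_right _ z.2
  have hspec : ∀ u ∈ C, ∃ z : Fin N, u / K0 = z.val ∧ (lof u).2.1 = σ z ∧
      (lof u).2.2 = σ (G.nb z (lof u).1) := by
    intro u hu
    rw [hC, Finset.mem_image] at hu
    obtain ⟨⟨z, j⟩, -, rfl⟩ := hu
    refine ⟨z, ?_, ?_, ?_⟩
    · simp only [hf]; rw [fgl_div_cde]
    · simp only [hf]; rw [fgl_lof_cde]
    · simp only [hf]; rw [fgl_lof_cde]
  have hnc : ∀ u ∈ C, ∀ u' ∈ C, ¬ conf G.raw u u' := by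
    intro u hu u' hu' hc
    obtain ⟨z, h1, h2, h3⟩ := hspec u hu
    obtain ⟨z', h1', h2', h3'⟩ := hspec u' hu'
    have hnb : ∀ (w : Fin N) (j : J0), G.raw.nb w.val j = (G.nb w j).val := fun w j =>
      fgl_raw_nb G w.2 j
    rcases hc with ⟨-, h4⟩ | ⟨h4, h5⟩ | ⟨h4, h5⟩ | ⟨h4, h5⟩ | ⟨h4, h5⟩
    · apply h4
      rw [h1, h2, h3]
      intro _
      exact hσ z _
    · apply h5
      rw [h1, h1'] at h4
      rw [h2, h2', Fin.ext h4]
    · apply h5
      rw [h1, h1', hnb] at h4
      rw [h2, h3', Fin.ext h4]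
    · apply h5
      rw [h1, h1', hnb] at h4
      rw [h3, h2', Fin.ext h4]
    · apply h5
      rw [h1, h1', hnb, hnb] at h4
      rw [h3, h3', Fin.ext h4]
  refine ⟨Finset.range n \ C, ⟨?_, ?_⟩, ?_⟩
  · intro j hj
    rw [Finset.mem_sdiff, Finset.mem_range] at hj
    exact hj.1
  · intro i hi
    have hi' : i < n * n := hi
    have key : ∃ b, fel G.raw i b ∉ C := by
      by_contra hcon
      push Not at hcon
      have hf0 := hcon false
      have hf1 := hcon true
      unfold fel at hf0 hf1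
      by_cases h1 : conf G.raw (i / (G.raw.N * K0)) (i % (G.raw.N * K0))
      · rw [if_pos h1] at hf0 hf1
        simp only [Bool.false_eq_true, if_false, if_true] at hf0 hf1
        exact hnc _ hf0 _ hf1 h1
      · rw [if_neg h1] at hf0 hf1
        exact hnc _ hf0 _ hf1 (conf_e0 hN G)
    obtain ⟨b, hb⟩ := key
    refine ⟨fel G.raw i b, ?_, b, rfl⟩
    rw [Finset.mem_sdiff, Finset.mem_range]
    exact ⟨fel_lt hN G i hi' b, hb⟩
  · rw [Finset.card_sdiff_of_subset hCsub, Finset.card_range, hCcard, hn, Nat.sub_mul,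
      Nat.mul_comm N K0, Nat.mul_comm N 17]

/-- Proof sketch: let `C` be the complement of `T` in the elements.  Any two members of `C` (also
equal ones) do not contradict each other: the edge `u * n + u'` would not be hit.  So `σ z` = the
symbol given to `z` by any member of `C` is well defined, `C` contains at most one element for each
port `(z, j)`, and then the port is satisfied by `σ`; `|C| ≤ 17 N - |viol σ| ≤ 17 N (1 - γ)`. -/
theorem fgl_sound {N : ℕ} (hN : 0 < N) (G : PG (Fin N) J0 S0) {γ : ℝ} (hγ : 0 ≤ γ)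
    (h : G.Gap γ) {T : Finset ℕ} (hT : (fgl G.raw).Hits T) :
    ((K0 : ℝ) - 17 + 17 * γ) * N ≤ T.card := by
  set n := N * K0 with hn
  have hr : G.raw.N = N := rfl
  set C : Finset ℕ := Finset.range n \ T with hC
  have hTsub : T ⊆ Finset.range n := by
    intro j hj
    rw [Finset.mem_range]
    exact hT.1 j hj
  have hCcard : (C.card : ℝ) = (N : ℝ) * K0 - T.card := by
    have h1 : C.card = n - T.card := by
      rw [hC, Finset.card_sdiff_of_subset hTsub, Finset.card_range]
    have h2 : T.card ≤ n := by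
      have := Finset.card_le_card hTsub
      rwa [Finset.card_range] at this
    rw [h1, Nat.cast_sub h2, hn]
    push_cast
    ring
  have hCmem : ∀ u ∈ C, u < n ∧ u ∉ T := by
    intro u hu
    rw [hC, Finset.mem_sdiff, Finset.mem_range] at hu
    exact hu
  have hnc : ∀ u ∈ C, ∀ u' ∈ C, ¬ conf G.raw u u' := by
    intro u hu u' hu' hc
    obtain ⟨h1, h2⟩ := hCmem u hu
    obtain ⟨h1', h2'⟩ := hCmem u' hu'
    obtain ⟨j, hj, b, hb⟩ := hT.2 (u * n + u') (fgl_idx_lt h1 h1')
    have h3 : fel G.raw (u * n + u') b = if b then u' else u := by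
      unfold fel
      rw [hr, ← hn, fgl_idx_div h1', fgl_idx_mod h1', if_pos hc]
    rw [hb, h3] at hj
    cases b
    · exact h2 (by simpa using hj)
    · exact h2' (by simpa using hj)
  -- the partial assignment
  let A : ℕ → S0 → Prop := fun z a =>
    (∃ u ∈ C, u / K0 = z ∧ (lof u).2.1 = a) ∨
      (∃ u ∈ C, G.raw.nb (u / K0) (lof u).1 = z ∧ (lof u).2.2 = a)
  have hA : ∀ z a a', A z a → A z a' → a = a' := by
    intro z a a' h1 h2
    by_contra hne
    rcases h1 with ⟨u, hu, h3, h4⟩ | ⟨u, hu, h3, h4⟩ <;>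
      rcases h2 with ⟨u', hu', h3', h4'⟩ | ⟨u', hu', h3', h4'⟩
    · exact hnc u hu u' hu' (Or.inr (Or.inl ⟨h3.trans h3'.symm, by rwa [h4, h4']⟩))
    · exact hnc u hu u' hu' (Or.inr (Or.inr (Or.inl ⟨h3.trans h3'.symm, by rwa [h4, h4']⟩)))
    · exact hnc u hu u' hu' (Or.inr (Or.inr (Or.inr (Or.inl ⟨h3.trans h3'.symm, by rwa [h4, h4']⟩))))
    · exact hnc u hu u' hu' (Or.inr (Or.inr (Or.inr (Or.inr ⟨h3.trans h3'.symm, by rwa [h4, h4']⟩))))
  let σ : Fin N → S0 := fun z => if hz : ∃ a, A z.val a then hz.choose else default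
  have hσ : ∀ (z : Fin N) (a : S0), A z.val a → σ z = a := by
    intro z a ha
    have hex : ∃ a, A z.val a := ⟨a, ha⟩
    have h1 : σ z = hex.choose := dif_pos hex
    rw [h1]
    exact hA _ _ _ hex.choose_spec ha
  have hport : ∀ u (hu : u ∈ C), ((⟨u / K0, fgl_div_lt (hCmem u hu).1⟩, (lof u).1) : Fin N × J0) ∉
      G.viol σ := by
    intro u hu hmem
    simp only [PG.viol, Finset.mem_filter, Finset.mem_univ, true_and] at hmem
    apply hmem
    have hz := fgl_div_lt (hCmem u hu).1
    have h1 : σ ⟨u / K0, hz⟩ = (lof u).2.1 := hσ _ _ (Or.inl ⟨u, hu, rfl, rfl⟩)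
    have h2 : σ (G.nb ⟨u / K0, hz⟩ (lof u).1) = (lof u).2.2 :=
      hσ _ _ (Or.inr ⟨u, hu, fgl_raw_nb G hz _, rfl⟩)
    rw [h1, h2]
    by_contra h3
    exact hnc u hu u hu (Or.inl ⟨rfl, fun h4 => h3 (h4 hz)⟩)
  have hcard : C.card ≤ (Finset.univ \ G.viol σ).card := by
    refine Finset.card_le_card_of_injOn
      (fun u => if hu : u ∈ C then
        ((⟨u / K0, fgl_div_lt (hCmem u hu).1⟩, (lof u).1) : Fin N × J0) else (⟨0, hN⟩, default)) ?_ ?_
    · intro u hu
      have hu' : u ∈ C := hu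
      simp only [dif_pos hu']
      rw [Finset.mem_coe, Finset.mem_sdiff]
      exact ⟨Finset.mem_univ _, hport u hu'⟩
    · intro u hu u' hu' heq
      have hu1 : u ∈ C := hu
      have hu1' : u' ∈ C := hu'
      simp only [dif_pos hu1, dif_pos hu1'] at heq
      have h1 : u / K0 = u' / K0 := congrArg (fun p : Fin N × J0 => p.1.val) heq
      have h2 : (lof u).1 = (lof u').1 := congrArg Prod.snd heq
      refine fgl_eq_of h1 (Prod.ext h2 (Prod.ext ?_ ?_))
      · by_contra h3
        exact hnc u hu1 u' hu1' (Or.inr (Or.inl ⟨h1, h3⟩))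
      · by_contra h3
        exact hnc u hu1 u' hu1' (Or.inr (Or.inr (Or.inr (Or.inr ⟨by rw [h1, h2], h3⟩))))
  have h1 := h σ
  rw [Fintype.card_fin, card_J0] at h1
  have h2 : ((Finset.univ \ G.viol σ).card : ℝ) = (N : ℝ) * 17 - (G.viol σ).card := by
    have h3 : (Finset.univ \ G.viol σ).card = N * 17 - (G.viol σ).card := by
      rw [Finset.card_sdiff_of_subset (Finset.subset_univ _), Finset.card_univ, Fintype.card_prod,
        Fintype.card_fin, card_J0]
    have h4 : (G.viol σ).card ≤ N * 17 := by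
      have := Finset.card_le_univ (G.viol σ)
      rwa [Fintype.card_prod, Fintype.card_fin, card_J0] at this
    rw [h3, Nat.cast_sub h4]
    push_cast
    ring
  have h3 : (C.card : ℝ) ≤ (N : ℝ) * 17 - (G.viol σ).card := by
    rw [← h2]
    exact_mod_cast hcard
  have h1' : γ * ((N : ℝ) * 17) ≤ ((G.viol σ).card : ℝ) := by
    have h5 : ((17 : ℕ) : ℝ) = 17 := by norm_num
    rw [h5] at h1
    exact h1
  clear_value C
  have h6 : ∀ v t c k M : ℝ, γ * (M * 17) ≤ v → c ≤ M * 17 - v → c = M * k - t →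
      (k - 17 + 17 * γ) * M ≤ t := by
    intro v t c k M a1 a2 a3
    have a4 : (k - 17 + 17 * γ) * M = M * k - M * 17 + γ * (M * 17) := by ring
    rw [a4]
    linarith
  exact h6 _ _ _ _ _ h1' h3 hCcard

/-- Every element lies in an edge.  Proof sketch: `(z, (j, a, b))` and `(z, (j, a', b))` contradict
each other for `a ≠ a'`. -/
theorem fel_used {N : ℕ} (G : PG (Fin N) J0 S0) :
    ∀ u < N * K0, ∃ i < N * K0 * (N * K0), ∃ b, u = fel G.raw i b := by
  intro u hu
  have hr : G.raw.N = N := rfl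
  obtain ⟨l, hl⟩ : ∃ l : LV, l = ((lof u).1, (fun i => (lof u).2.1 i + 1), (lof u).2.2) :=
    ⟨_, rfl⟩
  obtain ⟨u', hu'⟩ : ∃ u' : ℕ, u' = u / K0 * K0 + (cde l).val := ⟨_, rfl⟩
  have hlt : u' < N * K0 := by
    have h1 := fgl_div_lt hu
    have h2 : (cde l).val < K0 := (cde l).2
    have h3 : u' < u / K0 * K0 + K0 := by omega
    have h4 : u / K0 * K0 + K0 = (u / K0 + 1) * K0 := by ring
    have h5 : (u / K0 + 1) * K0 ≤ N * K0 := Nat.mul_le_mul_right _ h1
    omega
  have hne : (lof u).2.1 ≠ (lof u').2.1 := by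
    intro h
    rw [hu', fgl_lof_cde, hl] at h
    have h1 := congrFun h 0
    simp at h1
  have hdiv : u / K0 = u' / K0 := by
    rw [hu', fgl_div_cde]
  have hconf : conf G.raw u u' := Or.inr (Or.inl ⟨hdiv, hne⟩)
  refine ⟨u * (N * K0) + u', fgl_idx_lt hu hlt, false, ?_⟩
  unfold fel
  rw [hr, fgl_idx_div hlt, fgl_idx_mod hlt, if_pos hconf]
  simp

theorem K0_eq : K0 = 17 * 256 := by
  unfold K0
  rw [Fintype.card_prod, Fintype.card_prod, card_J0, card_S0]

end Pool.Agent.PCP
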