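import Pool.Agent.PCP.FinSearch

/-!
# The main theorem (package F5)
-/

set_option autoImplicit false

namespace Pool.Agent.PCP

open Turing Computability
open Pool.Agent.PT Pool.Agent.Book19 Pool.Agent.MMD Pool.Agent.WC2
open scoped Classical

/-- Word functions given by terms are computable in polynomial time. -/
theorem polyTime_of_WF {α β A B : Type} [Fintype A] [Fintype B] (ea : α → List A)
    (eb : β → List B) (f : α → β) {F : List A → List B} (hF : WF F)
    (h : ∀ a, eb (f a) = F (ea a)) : Nonempty (TM2ComputableInPolyTime ea eb f) := by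
  obtain ⟨M, G, ⟨m, hm⟩, hG, hMG⟩ := hF
  obtain ⟨t, K, φ, ht⟩ := Pool.Agent.B7219d.exists_letter hG
  refine polyTime_of_terms ea eb f m t K φ fun a => ?_
  rw [h a, hMG, hm]
  exact List.map_congr_left fun i _ => (ht (ea a) i).symm

/-- The gap problem is NP-hard. -/
theorem gap_hard (c : ℝ) {Γ : Type} [Fintype Γ] (L : Set (List Γ)) (hL : InNP L) :
    ∃ f : List Γ → GraphNum,
      Nonempty (TM2ComputableInPolyTime (encodingList Γ).encode GraphNum.enc f) ∧
      ∀ x, (f x).G.Connected ∧ (x ∈ L → mdim (f x).G ≤ (f x).K) ∧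
        (x ∉ L → c * (f x).K < mdim (f x).G) := by
  obtain ⟨st, l, _, h1, h2, h3⟩ := pcp_red L hL (max c 0) (le_max_right _ _)
  refine ⟨_, h3, fun x => ⟨(red_spec _).1, h1 x, fun hx => lt_of_le_of_lt ?_ (h2 x hx)⟩⟩
  exact mul_le_mul_of_nonneg_right (le_max_left _ _) (Nat.cast_nonneg _)

theorem count_indBits {n : ℕ} (S : Finset (Fin n)) :
    (indBits S).countP (· == true) = S.card := by
  unfold indBits
  rw [List.ofFn_eq_map, List.countP_map, List.countP_eq_length_filter]
  have h1 : S = Finset.univ.filter fun v => v ∈ S := by simp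
  conv_rhs => rw [h1]
  rw [Finset.card_def, Finset.filter_val, Fin.univ_def]
  change _ = Multiset.card (Multiset.filter (fun v => v ∈ S) (List.finRange n : Multiset (Fin n)))
  rw [Multiset.filter_coe, Multiset.coe_card]
  congr 2
  funext v
  simp

theorem length_indBits {n : ℕ} (S : Finset (Fin n)) : (indBits S).length = n := by
  simp [indBits]

/-- The approximation problem is NP-hard: every language in NP is reduced to it with one query.
Proof sketch: `pcp_red` for a natural number `c' ≥ c`, `g x` = the adjacency matrix (`wf_adjBits`,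
`polyTime_comp`), `D = {w | count of true in w ≤ c' * κ |w|}` (`uf_threshold`, `UF.countP`,
`polyTime_bool`). -/
theorem search_hard (c : ℝ) {Γ : Type} [Fintype Γ] (L : Set (List Γ)) (hL : InNP L) :
    ∃ (g : List Γ → List Bool) (D : Set (List Bool)), PolyTime g ∧ InP Bool D ∧
      (∀ x, ∃ (n : ℕ) (G : SimpleGraph (Fin n)), G.Connected ∧ g x = adjBits G) ∧
      ∀ A : List Bool → List Bool, Approx c A → ∀ x, x ∈ L ↔ A (g x) ∈ D := by
  obtain ⟨c', hc'⟩ := exists_nat_ge (max c 0)
  obtain ⟨st, l, hl, h1, h2, h3⟩ := pcp_red L hL (c' : ℝ) (Nat.cast_nonneg _)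
  obtain ⟨F, hF, hFJ⟩ := wf_adjBits
  obtain ⟨κ, hκ, hκs⟩ := uf_threshold l hl
  have hP : UP (Γ := Bool) fun w _ => w.countP (· == true) ≤ c' * κ w.length :=
    UP.le (UF.countP _) ((UF.const c').mul hκ)
  refine ⟨fun x => adjBits (red (scI l (st x))).G,
    {w | w.countP (· == true) ≤ c' * κ w.length}, ?_, ?_, fun x => ⟨_, _, (red_spec _).1, rfl⟩,
    fun A hA x => ?_⟩
  · have : Nonempty Letter := ⟨Letter.node⟩
    exact polyTime_comp (polyTime_of_WF GraphNum.enc (encodingList Bool).encode
      (fun J => adjBits J.G) hF fun J => (hFJ J).symm) h3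
  · exact ⟨fun w => decide (w.countP (· == true) ≤ c' * κ w.length),
      polyTime_bool _ hP _ fun w => decide_eq_true_iff, fun w => decide_eq_true_iff.symm⟩
  · obtain ⟨S, hS, hres, hcard⟩ := hA _ _ (red_spec (scI l (st x))).1
    have hcnt : (indBits S).countP (· == true) = S.card := count_indBits S
    have hlen : (indBits S).length = (red (scI l (st x))).n := length_indBits S
    change _ ↔ (A (adjBits (red (scI l (st x))).G)).countP (· == true) ≤
      c' * κ (A (adjBits (red (scI l (st x))).G)).length
    rw [hS, hcnt, hlen, hκs]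
    constructor
    · intro hx
      have h4 : (mdim (red (scI l (st x))).G : ℝ) ≤ (red (scI l (st x))).K := by
        exact_mod_cast h1 x hx
      have h5 : (S.card : ℝ) ≤ c' * (red (scI l (st x))).K := by
        refine hcard.trans ?_
        refine (mul_le_mul_of_nonneg_right ((le_max_left c 0).trans hc') (Nat.cast_nonneg _)).trans ?_
        exact mul_le_mul_of_nonneg_left h4 (Nat.cast_nonneg _)
      exact_mod_cast h5
    · intro h4
      by_contra hx
      have h5 := h2 x hx
      have h6 : (mdim (red (scI l (st x))).G : ℝ) ≤ S.card := by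
        exact_mod_cast mdim_le hres
      have h7 : (S.card : ℝ) ≤ c' * (red (scI l (st x))).K := by exact_mod_cast h4
      exact absurd (lt_of_lt_of_le h5 h6) (not_lt.2 h7)

/-- If there is a polynomial time algorithm with a constant factor then P = NP. -/
theorem approx_imp (c : ℝ) (A : List Bool → List Bool) (hA : PolyTime A) (h : Approx c A)
    {Γ : Type} [Fintype Γ] (L : Set (List Γ)) (hL : InNP L) : InP Γ L := by
  obtain ⟨g, D, hg, ⟨f, hf, hfD⟩, _, hD⟩ := search_hard c L hL
  have h1 : Nonempty (TM2ComputableInPolyTime (encodingList Γ).encode (encodingList Bool).encode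
      fun x => A (g x)) := polyTime_comp (f := g) (g := A) hA hg
  exact ⟨fun x => f (A (g x)), polyTime_comp (f := fun x => A (g x)) (g := f) hf h1,
    fun x => (hD A h x).trans (hfD _)⟩

end Pool.Agent.PCP
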