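import Pool.Agent.MMD.Inst
import Pool.Agent.WC2.Defs
import Pool.Agent.Book19.Defs

/-!
# Approximation of the mixed metric dimension: definitions
-/

set_option autoImplicit false

namespace Pool.Agent.PCP

open Pool.Agent.MMD Pool.Agent.WC2

open Classical in
/-- A set of vertices as a word of length `n`. -/
noncomputable def indBits {n : ℕ} (S : Finset (Fin n)) : List Bool :=
  List.ofFn fun v => decide (v ∈ S)

/-- `A` solves the approximation problem within the factor `c`: given the adjacency matrix of a
connected graph `G` it puts out a mixed resolving set of size at most `c * mdim G`. -/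
def Approx (c : ℝ) (A : List Bool → List Bool) : Prop :=
  ∀ (n : ℕ) (G : SimpleGraph (Fin n)), G.Connected → ∃ S : Finset (Fin n),
    A (adjBits G) = indBits S ∧ MixedResolving G S ∧ (S.card : ℝ) ≤ c * mdim G

end Pool.Agent.PCP
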