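import Pool.Agent.PCP.WordStep
import Pool.Agent.PCP.IterOut

/-!
# The PCP theorem (package W12)
-/

set_option autoImplicit false

namespace Pool.Agent.PCP

open Pool.Agent.PT Pool.Agent.Book19

private theorem pcp_PB_pow {T : ℕ → ℕ} (hT : PB T) (k : ℕ) : PB (fun N => T N ^ k) := by
  induction k with
  | zero => simpa using PB.const 1
  | succ k ih => simpa only [pow_succ] using ih.mul hT

private theorem pcp_length_enc (r : Raw J0 S0) (c : ℕ) : (r.enc c).length = r.N * r.N := by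
  simp [Raw.enc]

/-- Powers of a constant, up to the logarithm. -/
private theorem pcp_pow_size (C c i : ℕ) (hc : 0 < c) (hC : 0 < C) (hi : i ≤ Nat.size c) :
    C ^ i ≤ (2 * c) ^ C := by
  have hs : 0 < Nat.size c := Nat.size_pos.2 hc
  have h1 : 2 ^ (Nat.size c - 1) ≤ c := Nat.lt_size.1 (by omega)
  have h2 : 2 ^ Nat.size c ≤ 2 * c := by
    calc 2 ^ Nat.size c = 2 ^ (Nat.size c - 1 + 1) := by congr 1; omega
      _ = 2 * 2 ^ (Nat.size c - 1) := by rw [pow_succ]; ring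
      _ ≤ 2 * c := Nat.mul_le_mul_left _ h1
  calc C ^ i ≤ C ^ Nat.size c := Nat.pow_le_pow_right hC hi
    _ ≤ (2 ^ C) ^ Nat.size c := Nat.pow_le_pow_left Nat.lt_two_pow_self.le _
    _ = (2 ^ Nat.size c) ^ C := by rw [← pow_mul, ← pow_mul, mul_comm]
    _ ≤ (2 * c) ^ C := Nat.pow_le_pow_left h2 _

private theorem pcp_lt {m M : ℕ} (hm : 2 ≤ m) (hM : m ≤ M) : m * m < M * M * (M * M) := by
  have h1 : m * m ≤ M * M := Nat.mul_le_mul hM hM
  have h2 : 2 ≤ M := hm.trans hM
  have h3 : 1 < M * M := by nlinarith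
  calc m * m ≤ M * M := h1
    _ = M * M * 1 := by ring
    _ < M * M * (M * M) := Nat.mul_lt_mul_of_pos_left h3 (by omega)

private theorem pcp_le {a K : ℕ} (hK : 0 < K) {C : ℕ} (hC : 0 < C) (i : ℕ) : a ≤ a * K * C ^ i := by
  rw [mul_assoc]
  exact Nat.le_mul_of_pos_right _ (Nat.mul_pos hK (Nat.pow_pos hC))

/-- **The PCP theorem**: for a language in NP the ported constraint graphs `(st x).G` (17 ports,
16 symbols) are satisfiable for `x ∈ L` and every assignment violates at least a fraction `εc` of the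
ports for `x ∉ L`; every word function given by terms in the word of the graph is computable in
polynomial time.  Proof sketch: `cook_levin`; `polyTime_iterate_out` with
`F₀ x = (initR (n x) (lit x)).enc ((n x + 2) * (n x + 2))`, `F₁ = F1 t`, `Q y = (decC y ≠ 0)`,
`s = Nat.size ((n x + 2)²)`; `F1_iter`, `St.final_gap`.  Lengths: `M_s = M_0 * cs ^ s`, and
`cs ^ s ≤ (2 ^ q) ^ s = (2 ^ s) ^ q ≤ (2 (n x + 2)²) ^ q` for `cs ≤ 2 ^ q`. -/
theorem pcp {Γ : Type} [Fintype Γ] (L : Set (List Γ)) (hL : InNP L) :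
    ∃ st : List Γ → St, (∀ x ∈ L, (st x).G.Sat) ∧ (∀ x, x ∉ L → (st x).G.Gap εc) ∧
      ∀ (Δ : Type) [Fintype Δ] (M₂ : List Lt → ℕ) (G₂ : List Lt → ℕ → Δ),
        (UF fun y _ => M₂ y) → (UD fun y e => G₂ y (e 0)) →
        PolyTime fun x => (List.range (M₂ ((st x).G.raw.enc 0))).map
          (G₂ ((st x).G.raw.enc 0)) := by
  obtain ⟨n, lit, hn, hlit, hnl⟩ := cook_levin L hL
  obtain ⟨t, ht⟩ := exists_tt
  obtain ⟨B, hB, hnB⟩ := UF.bound hn
  set c0 : List Γ → ℕ := fun x => (n x + 2) * (n x + 2) with hc0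
  refine ⟨fun x => (St.next t)^[Nat.size (c0 x)] (St.init (n x) (lit x)), fun x hx => ?_,
    fun x hx => ?_, ?_⟩
  · exact St.iter_sat t (St.init_sat ((hnl x).1 hx)) _
  · exact St.final_gap t ht fun h => hx ((hnl x).2 h)
  intro Δ _ M₂ G₂ hM₂ hG₂
  have uc0 : UF fun x _ => c0 x := (hn.add (UF.const 2)).mul (hn.add (UF.const 2))
  obtain ⟨K, hK⟩ : ∃ K, cs (Fin 3) (Fin 3 → Bool) = K := ⟨_, rfl⟩
  obtain ⟨C, hC⟩ : ∃ C, cs (J1 J0 t) (X1 J0 S0 t) = C := ⟨_, rfl⟩
  have hK0 : 0 < K := hK ▸ cs_pos _ _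
  have hC0 : 0 < C := hC ▸ cs_pos _ _
  have hi0 := dfn_initR hn hlit
  have hi1 := dfn_nextR t
  have hB2 : PB fun N => B N + 2 := hB.add (PB.const 2)
  have hS : PB fun N => (B N + 2) * (B N + 2) := hB2.mul hB2
  have hL : PB fun N => (((B N + 2) * K) * (2 * ((B N + 2) * (B N + 2))) ^ C) ^ 4 :=
    pcp_PB_pow ((hB2.mul (PB.const K)).mul (pcp_PB_pow ((PB.const 2).mul hS) C)) 4
  refine polyTime_iterate_out
    (M₀ := fun x => (initR (n x) (lit x)).N * (initR (n x) (lit x)).N)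
    (G₀ := fun x p => (initR (n x) (lit x)).letter (c0 x) p)
    (hi0.N.mul hi0.N) (ud_letter hi0 uc0)
    (M₁ := fun y => (nextR t (decRaw y)).N * (nextR t (decRaw y)).N)
    (G₁ := fun y p => (nextR t (decRaw y)).letter (decC y / 2) p)
    (hi1.N.mul hi1.N) (ud_letter hi1 (uf_decC.div (UF.const 2)))
    hM₂ hG₂ (Q := fun y => decC y ≠ 0) (UP.ne uf_decC (UF.const 0))
    (fun x => (initR (n x) (lit x)).enc (c0 x)) (fun _ => rfl) (F1 t) (fun _ => rfl)
    (fun y => (List.range (M₂ y)).map (G₂ y)) (fun _ => rfl) _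
    (fun N => (B N + 2) * (B N + 2))
    (fun N => (((B N + 2) * K) * (2 * ((B N + 2) * (B N + 2))) ^ C) ^ 4) hS hL ?_
  intro x
  have hM0 : (St.init (n x) (lit x)).M = (n x + 2) * K := by rw [← hK]; rfl
  have hn2 : 2 ≤ n x + 2 := by omega
  have hc0x : c0 x = (n x + 2) * (n x + 2) := rfl
  have hc0pos : 0 < c0 x := by
    rw [hc0x]
    exact Nat.mul_pos (Nat.succ_pos _) (Nat.succ_pos _)
  have hc0B : c0 x ≤ (B x.length + 2) * (B x.length + 2) := by
    have := hnB x
    rw [hc0x]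
    exact Nat.mul_le_mul (by omega) (by omega)
  have hMi : ∀ i, ((St.next t)^[i] (St.init (n x) (lit x))).M = (n x + 2) * K * C ^ i := fun i => by
    rw [St.iter_M, hM0, hC]
  have hlow : ∀ i, n x + 2 ≤ ((St.next t)^[i] (St.init (n x) (lit x))).M := fun i => by
    rw [hMi]
    exact pcp_le hK0 hC0 i
  have hcl : ∀ i, c0 x < ((St.next t)^[i] (St.init (n x) (lit x))).M *
      ((St.next t)^[i] (St.init (n x) (lit x))).M *
      (((St.next t)^[i] (St.init (n x) (lit x))).M *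
      ((St.next t)^[i] (St.init (n x) (lit x))).M) := fun i => by
    exact pcp_lt hn2 (hlow i)
  have hit : ∀ i, (F1 t)^[i] ((initR (n x) (lit x)).enc (c0 x)) =
      ((St.next t)^[i] (St.init (n x) (lit x))).G.raw.enc (c0 x / 2 ^ i) := fun i => by
    rw [initR_raw]
    exact F1_iter t _ (hcl 0) i
  have hdec : ∀ i, decC ((F1 t)^[i] ((initR (n x) (lit x)).enc (c0 x))) = c0 x / 2 ^ i := fun i => by
    rw [hit]
    exact decC_enc _ _ (lt_of_le_of_lt (Nat.div_le_self _ _) (hcl i))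
  have hlast : c0 x / 2 ^ Nat.size (c0 x) = 0 := Nat.div_eq_of_lt (Nat.lt_size_self _)
  refine ⟨Nat.size (c0 x), ?_, ?_, ?_, ?_, ?_⟩
  · exact (Nat.size_le.2 Nat.lt_two_pow_self).trans hc0B
  · intro i hi
    rw [hdec]
    exact (Nat.div_pos (Nat.lt_size.1 hi) (Nat.pow_pos (by decide))).ne'
  · rw [hdec, hlast]
    exact fun h => h rfl
  · intro i hi
    rw [hit, pcp_length_enc]
    have h1 : ((St.next t)^[i] (St.init (n x) (lit x))).M ≤
        ((B x.length + 2) * K) * (2 * ((B x.length + 2) * (B x.length + 2))) ^ C := by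
      rw [hMi]
      have h2 : C ^ i ≤ (2 * c0 x) ^ C := pcp_pow_size C (c0 x) i hc0pos hC0 hi
      have h3 := hnB x
      refine Nat.mul_le_mul (Nat.mul_le_mul_right _ (by omega)) (h2.trans ?_)
      exact Nat.pow_le_pow_left (Nat.mul_le_mul_left _ hc0B) _
    calc _ = ((St.next t)^[i] (St.init (n x) (lit x))).M ^ 4 := by
          show ((St.next t)^[i] (St.init (n x) (lit x))).M *
            ((St.next t)^[i] (St.init (n x) (lit x))).M *
            (((St.next t)^[i] (St.init (n x) (lit x))).M *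
            ((St.next t)^[i] (St.init (n x) (lit x))).M) = _
          ring
      _ ≤ _ := Nat.pow_le_pow_left h1 4
  · simp only [hit, hlast]

end Pool.Agent.PCP
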