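import Pool.Agent.PCP.ScInst

/-!
# The words of the set cover instances (package F2)
-/

set_option autoImplicit false

namespace Pool.Agent.PCP

open Pool.Agent.PT Pool.Agent.Book19 Pool.Agent.MMD
open scoped Classical

private noncomputable def scw (L : ℕ) (y : List Lt) : Hyp := scH L (decRaw y)

private theorem scw_dfn (L : ℕ) : DfnH (scw L) := by
  have hN : UF fun (x : List Lt) _ => (decRaw x).N := dfn_decRaw.N
  exact DfnH.pw (n := fun x => (decRaw x).N * K0)
    (m := fun x => (decRaw x).N * K0 * ((decRaw x).N * K0)) (el := fun x => fel (decRaw x))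
    (hN.mul (UF.const K0)) ((hN.mul (UF.const K0)).mul (hN.mul (UF.const K0)))
    (fun b => uf_fel dfn_decRaw b) L

private noncomputable def scwMat (L : ℕ) (y : List Lt) : List Letter :=
  (List.range ((scw L y).n * (scw L y).m)).map fun p =>
    Letter.bit (decide ((scw L y).inc (p % (scw L y).m) (p / (scw L y).m)))

private theorem scw_mat (L : ℕ) : WF (scwMat L) := by
  have hd := scw_dfn L
  refine ⟨fun y => (scw L y).n * (scw L y).m, fun y p =>
    Letter.bit (decide ((scw L y).inc (p % (scw L y).m) (p / (scw L y).m))),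
    hd.n.mul hd.m, ?_, fun y => rfl⟩
  have h1 : UP fun (x : List Lt) (e : ℕ → ℕ) =>
      (scw L x).inc (e 0 % (scw L x).m) (e 0 / (scw L x).m) :=
    UP.comp₂ (P := fun x i j => (scw L x).inc i j) hd.inc
      ((UF.var 0).mod hd.m) ((UF.var 0).div hd.m)
  have h2 := (UP.toUD h1).map fun p => Letter.bit (decide p)
  exact h2

/-- The word of the instance is a word function of the word of the graph.  Proof sketch:
`F y = ` the word of the instance with `r = decRaw y` (`decRaw_enc`, `PG.raw_good`); `dfn_decRaw`,
`uf_fel`, `DfnH.pw`; four parts joined by `WF.append`. -/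
theorem wf_scI (L : ℕ) : ∃ F : List Lt → List Letter, WF F ∧
    ∀ s : St, F (s.G.raw.enc 0) = (scI L s).enc := by
  have hd := scw_dfn L
  refine ⟨fun y => List.replicate (scw L y).m Letter.node ++
    (List.replicate (scw L y).n Letter.set ++ (scwMat L y ++
      List.replicate (((K0 - 17) * (decRaw y).N) ^ L) Letter.num)),
    WF.append (WF.const _ hd.m) (WF.append (WF.const _ hd.n) (WF.append (scw_mat L)
      (WF.const _ (((UF.const (K0 - 17)).mul dfn_decRaw.N).pow L)))), fun s => ?_⟩
  have h1 : decRaw (s.G.raw.enc 0) = s.G.raw := decRaw_enc _ (PG.raw_good _) 0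
  have h2 : scw L (s.G.raw.enc 0) = scH L s.G.raw := by
    unfold scw
    rw [h1]
  have h3 : scwMat L (s.G.raw.enc 0) = List.ofFn fun p : Fin ((scI L s).m * (scI L s).u) =>
      Letter.bit (decide ((scI L s).inc p.divNat p.modNat)) := by
    unfold scwMat
    rw [h2]
    refine List.ext_getElem ?_ fun i hi hi' => ?_
    · rw [List.length_map, List.length_range, List.length_ofFn]
      rfl
    · rw [List.getElem_map, List.getElem_range, List.getElem_ofFn]
      rfl
  change List.replicate (scw L (s.G.raw.enc 0)).m Letter.node ++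
    (List.replicate (scw L (s.G.raw.enc 0)).n Letter.set ++ (scwMat L (s.G.raw.enc 0) ++
      List.replicate (((K0 - 17) * (decRaw (s.G.raw.enc 0)).N) ^ L) Letter.num)) = _
  rw [h3, h2, h1]
  unfold SetCover.enc
  congr!

end Pool.Agent.PCP
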