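import Pool.Agent.PCP.FinDefs
import Pool.Agent.PCP.ScWord
import Pool.Agent.PCP.Comp
import Pool.Agent.PCP.Pcp
import Pool.Agent.MMD.Bounds
import Pool.Agent.MMD.Lower
import Pool.Agent.MMD.Transport
import Pool.Agent.MMD.Poly

/-!
# The gap problem is NP-hard (package F3)
-/

set_option autoImplicit false

namespace Pool.Agent.PCP

open Turing Computability
open Pool.Agent.PT Pool.Agent.Book19 Pool.Agent.MMD Pool.Agent.WC2
open scoped Classical

/-- The properties of the reduction `red` (see the hand-in `MP_a6fb51_lc.SetCoverGap`, whose proof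
can be copied). -/
theorem red_spec (I : SetCover) : (red I).G.Connected ∧
    (I.tau ≤ I.k → mdim (red I).G ≤ (red I).K) ∧
    ∀ c : ℝ, 0 ≤ c → 1 ≤ I.k → 4 * c * I.k < I.tau → c * (red I).K < mdim (red I).G := by
  set t := I.u + I.m + 2 with ht
  -- the isomorphism with the graph of the construction
  have φ : Vx.gr t I.inc ≃g (red I).G :=
    (SimpleGraph.Iso.comap (Vx.eqv t I.u I.m).symm (Vx.gr t I.inc)).symm
  have hcon : (Vx.gr t I.inc).Connected := Vx.connected (by omega) I.pos
  have hcon' : (red I).G.Connected := φ.connected_iff.1 hcon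
  have hmd : mdim (red I).G = mdim (Vx.gr t I.inc) := mdim_iso hcon φ
  -- covers from mixed resolving sets
  have hlow : ∀ S : Finset (Vx t I.u I.m), MixedResolving (Vx.gr t I.inc) S →
      ∃ C : Finset (Fin I.m), I.IsCover C ∧ t * C.card ≤ S.card := fun S hS =>
    Vx.exists_cover (by omega) I.pos I.covered hS
  -- mixed resolving sets from covers
  have hup : ∀ C : Finset (Fin I.m), I.IsCover C →
      MixedResolving (Vx.gr t I.inc) (Vx.rset t I.u C) ∧
      (Vx.rset t I.u C).card ≤ t * (C.card + 3) := fun C hC =>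
    ⟨Vx.rset_resolving (by omega) I.pos I.nonempty hC, by
      refine (Vx.card_rset C).trans ?_
      have e : t * (C.card + 3) = t * C.card + 3 * t := by ring
      rw [e]
      omega⟩
  obtain ⟨C₀, hC₀, hτ⟩ : ∃ C : Finset (Fin I.m), I.IsCover C ∧ C.card = I.tau :=
    Nat.sInf_mem (s := {n | ∃ C : Finset (Fin I.m), I.IsCover C ∧ C.card = n})
      ⟨_, Finset.univ, fun e => (I.covered e).imp fun i hi => ⟨Finset.mem_univ i, hi⟩, rfl⟩
  have hle : ∀ C : Finset (Fin I.m), I.IsCover C → I.tau ≤ C.card := fun C hC =>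
    Nat.sInf_le ⟨C, hC, rfl⟩
  have h1 : mdim (red I).G ≤ t * (I.tau + 3) := by
    rw [hmd, ← hτ]
    exact (mdim_le (hup C₀ hC₀).1).trans (hup C₀ hC₀).2
  have h2 : t * I.tau ≤ mdim (red I).G := by
    rw [hmd]
    obtain ⟨S, hS, hc⟩ := exists_mdim (hup C₀ hC₀).1
    obtain ⟨C, hC, hC'⟩ := hlow S hS
    rw [← hc]
    exact (Nat.mul_le_mul_left t (hle C hC)).trans hC'
  refine ⟨hcon', ?_, ?_⟩
  · intro hk
    refine h1.trans ?_
    change t * (I.tau + 3) ≤ t * (I.k + 3)
    exact Nat.mul_le_mul_left t (by omega)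
  · intro c hc hk hlt
    have hK : ((red I).K : ℝ) = (t : ℝ) * (I.k + 3) := by
      change ((t * (I.k + 3) : ℕ) : ℝ) = _
      push_cast
      ring
    have ht0 : (0 : ℝ) < t := by
      have : 0 < t := by omega
      exact_mod_cast this
    have hk' : (1 : ℝ) ≤ I.k := by exact_mod_cast hk
    have h3 : (t : ℝ) * I.tau ≤ mdim (red I).G := by exact_mod_cast h2
    refine lt_of_lt_of_le ?_ h3
    rw [hK]
    have h4 : c * ((t : ℝ) * (I.k + 3)) ≤ t * (4 * c * I.k) := by
      have : c * ((t : ℝ) * (I.k + 3)) = t * (c * (I.k + 3)) := by ring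
      rw [this]
      refine mul_le_mul_of_nonneg_left ?_ ht0.le
      nlinarith
    exact lt_of_le_of_lt h4 (mul_lt_mul_of_pos_left hlt ht0)

/-- A word function which puts out the words of instances. -/
private theorem fingap_recode {α β A B : Type} {ea : α → List A} (eb : β → List B) (f : α → β)
    (h : Nonempty (TM2ComputableInPolyTime ea (encodingList B).encode fun a => eb (f a))) :
    Nonempty (TM2ComputableInPolyTime ea eb f) := by
  obtain ⟨h⟩ := h
  exact ⟨⟨h.toTM2ComputableAux, h.time, h.outputsFun⟩⟩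

/-- For a language in NP and a constant: the stages and the exponent, with polynomial time
computability of the instances. -/
theorem pcp_red {Γ : Type} [Fintype Γ] (L : Set (List Γ)) (hL : InNP L) (c : ℝ) (hc : 0 ≤ c) :
    ∃ (st : List Γ → St) (l : ℕ), 1 ≤ l ∧
      (∀ x ∈ L, mdim (red (scI l (st x))).G ≤ (red (scI l (st x))).K) ∧
      (∀ x, x ∉ L → c * (red (scI l (st x))).K < mdim (red (scI l (st x))).G) ∧
      Nonempty (TM2ComputableInPolyTime (encodingList Γ).encode GraphNum.enc
        fun x => red (scI l (st x))) := by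
  obtain ⟨st, hsat, hgap, hpoly⟩ := pcp L hL
  obtain ⟨l, hl, hl'⟩ := exists_L c
  refine ⟨st, l, hl, fun x hx => ?_, fun x hx => ?_, ?_⟩
  · exact (red_spec _).2.1 (scI_complete l (st x) (hsat x hx))
  · exact (red_spec _).2.2 c hc (scI_k_pos l (st x)) (hl' (st x) (hgap x hx))
  · obtain ⟨F, ⟨M, G, hM, hG, hF⟩, hFe⟩ := wf_scI l
    have h1 := hpoly MMD.Letter M G hM hG
    have h2 : (fun x => (List.range (M ((st x).G.raw.enc 0))).map (G ((st x).G.raw.enc 0))) =
        fun x => SetCover.enc (scI l (st x)) := by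
      funext x
      rw [← hF, hFe]
    rw [h2] at h1
    have h3 : Nonempty (TM2ComputableInPolyTime (encodingList Γ).encode SetCover.enc
        fun x => scI l (st x)) := fingap_recode SetCover.enc _ h1
    have : Nonempty MMD.Letter := ⟨MMD.Letter.node⟩
    exact polyTime_comp red_polyTime h3

end Pool.Agent.PCP
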