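import Pool.Agent.PCP.FinGap

/-!
# The search problem is NP-hard (packages F4, F5)
-/

set_option autoImplicit false

namespace Pool.Agent.PCP

open Turing Computability
open Pool.Agent.PT Pool.Agent.Book19 Pool.Agent.MMD Pool.Agent.WC2
open scoped Classical

private theorem fs_count (J : GraphNum) : J.enc.count Letter.node = J.n := by
  classical
  unfold GraphNum.enc
  simp only [List.count_append, List.count_replicate]
  rw [List.count_eq_zero.2]
  · simp
  · simp

private theorem fs_get (J : GraphNum) (i : ℕ) (hi : i < J.n * J.n) :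
    J.enc[J.n + i]? = some (Letter.bit (decide (J.G.Adj (Fin.divNat ⟨i, hi⟩) (Fin.modNat ⟨i, hi⟩)))) := by
  unfold GraphNum.enc
  rw [List.getElem?_append_right (by simp), List.length_replicate, Nat.add_sub_cancel_left,
    List.getElem?_append_left (by simpa using hi), List.getElem?_ofFn, dif_pos hi]

/-- (package F4) From the word of a graph with a number to the adjacency matrix.  Proof sketch:
`GraphNum.enc` is `n` letters `node`, `n²` bits, `K` letters `num`; count the letters. -/
theorem wf_adjBits : ∃ F : List Letter → List Bool, WF F ∧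
    ∀ J : GraphNum, F J.enc = adjBits J.G := by
  refine ⟨fun x => (List.range (x.count Letter.node * x.count Letter.node)).map
    (fun i => decide (x[x.count Letter.node + i]? = some (Letter.bit true))),
    ⟨fun x => x.count Letter.node * x.count Letter.node,
      fun x i => decide (x[x.count Letter.node + i]? = some (Letter.bit true)), ?_, ?_,
      fun x => rfl⟩, fun J => ?_⟩
  · exact (RedPoly.UF_count _).mul (RedPoly.UF_count _)
  · have h : UP (fun (x : List Letter) e =>
        x[x.count Letter.node + e 0]? = some (Letter.bit true)) :=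
      UP.sym _ ((RedPoly.UF_count _).add (UF.var 0))
    refine UD.congr ((UP.toUD h).map (fun p => decide p)) fun x e => ?_
    exact decide_eq_decide.2 Iff.rfl
  · unfold adjBits
    simp only [fs_count]
    refine List.map_congr_left fun i hi => ?_
    have hi' : i < J.n * J.n := List.mem_range.1 hi
    have hn : 0 < J.n := by
      rcases Nat.eq_zero_or_pos J.n with h | h
      · rw [h] at hi'
        simp at hi'
      · exact h
    rw [fs_get J i hi']
    have h1 : i / J.n < J.n := Nat.div_lt_of_lt_mul hi'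
    have h2 : i % J.n < J.n := Nat.mod_lt _ hn
    have e1 : (Fin.divNat ⟨i, hi'⟩ : Fin J.n) = ⟨i / J.n, h1⟩ := by
      ext
      simp [Fin.coe_divNat]
    have e2 : (Fin.modNat ⟨i, hi'⟩ : Fin J.n) = ⟨i % J.n, h2⟩ := by
      ext
      simp [Fin.coe_modNat]
    rw [e1, e2]
    by_cases h : J.G.Adj ⟨i / J.n, h1⟩ ⟨i % J.n, h2⟩
    · simp [h, h1, h2]
    · simp [h, h1, h2]

/-! ### The threshold -/

/-- the number of edges of the power -/
private def fsM (m : ℕ) : ℕ → ℕ
  | 0 => 1
  | L + 1 => m * (fsM m L * fsM m L)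

private theorem fs_pw_n (n m : ℕ) (el : ℕ → Bool → ℕ) (L : ℕ) : (Hyp.pw n m el L).n = n ^ L := by
  induction L with
  | zero => rfl
  | succ L ih =>
    show n * (Hyp.pw n m el L).n = n ^ (L + 1)
    rw [ih, pow_succ, mul_comm]

private theorem fs_pw_m (n m : ℕ) (el : ℕ → Bool → ℕ) (L : ℕ) : (Hyp.pw n m el L).m = fsM m L := by
  induction L with
  | zero => rfl
  | succ L ih =>
    show m * ((Hyp.pw n m el L).m * (Hyp.pw n m el L).m) = _
    rw [ih, fsM]

private theorem fsM_mono {m m' : ℕ} (h : m ≤ m') (L : ℕ) : fsM m L ≤ fsM m' L := by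
  induction L with
  | zero => exact le_rfl
  | succ L ih => exact Nat.mul_le_mul h (Nat.mul_le_mul ih ih)

private theorem fsM_uf {Γ : Type} {f : List Γ → (ℕ → ℕ) → ℕ} (hf : UF f) (L : ℕ) :
    UF fun x e => fsM (f x e) L := by
  induction L with
  | zero => exact UF.const 1
  | succ L ih => exact hf.mul (ih.mul ih)

/-- elements, sets, copies, vertices, threshold as functions of the number of vertices of the
constraint graph -/
private noncomputable def fsu (l N : ℕ) : ℕ := fsM (N * K0 * (N * K0)) l
private noncomputable def fsm (l N : ℕ) : ℕ := (N * K0) ^ l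
private noncomputable def fst' (l N : ℕ) : ℕ := fsu l N + fsm l N + 2
private noncomputable def fsn (l N : ℕ) : ℕ := Vx.nV (fst' l N) (fsu l N) (fsm l N)
private noncomputable def fsK (l N : ℕ) : ℕ := fst' l N * (((K0 - 17) * N) ^ l + 3)

private theorem fs_n (l : ℕ) (s : St) : (red (scI l s)).n = fsn l (s.M * s.M) := by
  have h1 : (scI l s).u = fsu l (s.M * s.M) := fs_pw_m _ _ _ _
  have h2 : (scI l s).m = fsm l (s.M * s.M) := fs_pw_n _ _ _ _
  show Vx.nV ((scI l s).u + (scI l s).m + 2) (scI l s).u (scI l s).m = _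
  rw [h1, h2]
  rfl

private theorem fs_K (l : ℕ) (s : St) : (red (scI l s)).K = fsK l (s.M * s.M) := by
  have h1 : (scI l s).u = fsu l (s.M * s.M) := fs_pw_m _ _ _ _
  have h2 : (scI l s).m = fsm l (s.M * s.M) := fs_pw_n _ _ _ _
  show ((scI l s).u + (scI l s).m + 2) * ((scI l s).k + 3) = _
  rw [h1, h2]
  rfl

private theorem fsn_lt {l : ℕ} (hl : 1 ≤ l) {N N' : ℕ} (h : N < N') : fsn l N < fsn l N' := by
  have h0 : N * K0 < N' * K0 := Nat.mul_lt_mul_of_pos_right h K0_pos
  have hm : fsm l N < fsm l N' := Nat.pow_lt_pow_left h0 (by omega)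
  have hu : fsu l N ≤ fsu l N' := fsM_mono (Nat.mul_le_mul h0.le h0.le) l
  have ht : fst' l N ≤ fst' l N' := by
    unfold fst'
    omega
  have e1 : fst' l N * fsm l N ≤ fst' l N' * fsm l N' := Nat.mul_le_mul ht hm.le
  have e2 : fst' l N * fsu l N ≤ fst' l N' * fsu l N' := Nat.mul_le_mul ht hu
  unfold fsn Vx.nV Vx.oB Vx.oX Vx.oT
  omega

private theorem fsn_ge {l : ℕ} (hl : 1 ≤ l) (N : ℕ) : N ≤ fsn l N := by
  induction N with
  | zero => exact Nat.zero_le _
  | succ N ih => exact Nat.succ_le_of_lt (lt_of_le_of_lt ih (fsn_lt hl (Nat.lt_succ_self N)))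

private theorem fsn_inj {l : ℕ} (hl : 1 ≤ l) {N N' : ℕ} (h : fsn l N = fsn l N') : N = N' := by
  rcases lt_trichotomy N N' with h1 | h1 | h1
  · exact absurd h (fsn_lt hl h1).ne
  · exact h1
  · exact absurd h (fsn_lt hl h1).ne'

/-- (package F4) The number is determined by the number of vertices.  Proof sketch: the numbers of
elements and edges of `scH l r` depend only on `N = r.N`, the number of vertices is strictly
increasing in `N` (for `l ≥ 1`), so `κ n` = the number for the `N ≤ n` with `n` vertices (bounded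
search). -/
theorem uf_threshold (l : ℕ) (hl : 1 ≤ l) : ∃ κ : ℕ → ℕ,
    (UF (Γ := Bool) fun w _ => κ w.length) ∧
    ∀ s : St, κ (red (scI l s)).n = (red (scI l s)).K := by
  refine ⟨fun n => ∑ N ∈ Finset.range (n + 1), if fsn l N = n then fsK l N else 0, ?_, fun s => ?_⟩
  · have hu : UF (Γ := Bool) fun _ e => fsu l (e 0) :=
      fsM_uf (((UF.var 0).mul (UF.const K0)).mul ((UF.var 0).mul (UF.const K0))) l
    have hm : UF (Γ := Bool) fun _ e => fsm l (e 0) := ((UF.var 0).mul (UF.const K0)).pow l
    have ht : UF (Γ := Bool) fun _ e => fst' l (e 0) := (hu.add hm).add (UF.const 2)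
    have hT : UF (Γ := Bool) fun _ e => Vx.oT (fst' l (e 0)) (fsm l (e 0)) :=
      ((UF.const 3).add ht).add hm
    have hX : UF (Γ := Bool) fun _ e => Vx.oX (fst' l (e 0)) (fsm l (e 0)) := hT.add (ht.mul hm)
    have hB : UF (Γ := Bool) fun _ e => Vx.oB (fst' l (e 0)) (fsu l (e 0)) (fsm l (e 0)) :=
      hX.add ((UF.const 2).mul (ht.mul hu))
    have hn : UF (Γ := Bool) fun _ e => fsn l (e 0) := (hB.add ht).add hu
    have hK : UF (Γ := Bool) fun _ e => fsK l (e 0) :=
      ht.mul ((((UF.const (K0 - 17)).mul (UF.var 0)).pow l).add (UF.const 3))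
    exact UF.sum (f := fun (x : List Bool) _ N => if fsn l N = x.length then fsK l N else 0)
      (UF.len.add (UF.const 1)) (UF.ite (UP.eq hn UF.len) hK (UF.const 0))
  · rw [fs_n, fs_K]
    show ∑ N ∈ Finset.range (fsn l (s.M * s.M) + 1),
      (if fsn l N = fsn l (s.M * s.M) then fsK l N else 0) = _
    rw [Finset.sum_eq_single (s.M * s.M)]
    · rw [if_pos rfl]
    · intro N _ hN
      rw [if_neg fun h => hN (fsn_inj hl h)]
    · intro h
      rw [Finset.mem_range] at h
      have := fsn_ge hl (s.M * s.M)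
      omega

end Pool.Agent.PCP
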