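import Pool.Agent.PCP.Raw

/-!
# Hypergraphs on numbers, their products, and the hypergraph of a constraint graph
-/

set_option autoImplicit false

namespace Pool.Agent.PCP

open Pool.Agent.PT Pool.Agent.Book19
open scoped Classical

variable {Γ : Type}

/-- A hypergraph: `n` elements, `m` edges, `inc i j` means that edge `i` contains the element `j`. -/
structure Hyp where
  n : ℕ
  m : ℕ
  inc : ℕ → ℕ → Prop

namespace Hyp

/-- Hitting sets. -/
def Hits (H : Hyp) (T : Finset ℕ) : Prop :=
  (∀ j ∈ T, j < H.n) ∧ ∀ i < H.m, ∃ j ∈ T, H.inc i j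

/-- The edges are not empty. -/
def Ne (H : Hyp) : Prop := ∀ i < H.m, ∃ j < H.n, H.inc i j

/-- The hypergraph with `n` elements and the `m` edges `{el i false, el i true}`. -/
def ofEl (n m : ℕ) (el : ℕ → Bool → ℕ) : Hyp where
  n := n
  m := m
  inc i j := ∃ b : Bool, j = el i b

/-- The product.  Elements are pairs `(j, j')`, number `j * H.n + j'`; an edge is an edge `i` of the
first factor together with edges `c₀`, `c₁` of the second factor for its two elements, number
`i * H.m² + c₀ * H.m + c₁`. -/
def tens (n m : ℕ) (el : ℕ → Bool → ℕ) (H : Hyp) : Hyp where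
  n := n * H.n
  m := m * (H.m * H.m)
  inc c d := ∃ b : Bool, d / H.n = el (c / (H.m * H.m)) b ∧
    H.inc (if b then c % H.m else c / H.m % H.m) (d % H.n)

/-- The powers. -/
def pw (n m : ℕ) (el : ℕ → Bool → ℕ) : ℕ → Hyp
  | 0 => ⟨1, 1, fun _ _ => True⟩
  | L + 1 => tens n m el (pw n m el L)

end Hyp

/-- Definable families of hypergraphs. -/
structure DfnH (H : List Γ → Hyp) : Prop where
  n : UF fun x _ => (H x).n
  m : UF fun x _ => (H x).m
  inc : UP fun x e => (H x).inc (e 0) (e 1)

/-! ### The hypergraph of a constraint graph -/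

/-- Local views: a port and two symbols. -/
abbrev LV : Type := J0 × S0 × S0

/-- The number of local views. -/
noncomputable def K0 : ℕ := Fintype.card LV

/-- A numbering of the local views. -/
noncomputable def cde : LV ≃ Fin K0 := Fintype.equivFin LV

theorem K0_pos : 0 < K0 := Fintype.card_pos

/-- The local view of an element. -/
noncomputable def lof (u : ℕ) : LV := cde.symm ⟨u % K0, Nat.mod_lt _ K0_pos⟩

/-- Two elements (vertex with local view) contradict each other (for `u = u'`: the view is
forbidden). -/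
def conf (r : Raw J0 S0) (u u' : ℕ) : Prop :=
  (u = u' ∧ ¬ r.rel (u / K0) (lof u).1 (lof u).2.1 (lof u).2.2) ∨
  (u / K0 = u' / K0 ∧ (lof u).2.1 ≠ (lof u').2.1) ∨
  (u / K0 = r.nb (u' / K0) (lof u').1 ∧ (lof u).2.1 ≠ (lof u').2.2) ∨
  (r.nb (u / K0) (lof u).1 = u' / K0 ∧ (lof u).2.2 ≠ (lof u').2.1) ∨
  (r.nb (u / K0) (lof u).1 = r.nb (u' / K0) (lof u').1 ∧ (lof u).2.2 ≠ (lof u').2.2)

/-- Two contradicting elements. -/
noncomputable def e0 (b : Bool) : ℕ := (cde (default, (fun _ => 0), (fun _ => if b then 1 else 0))).val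

/-- The elements of the edge `i = u * n + u'`, where `n = N * K0`: `u`, `u'` if they contradict each
other. -/
noncomputable def fel (r : Raw J0 S0) (i : ℕ) (b : Bool) : ℕ :=
  if conf r (i / (r.N * K0)) (i % (r.N * K0)) then
    (if b then i % (r.N * K0) else i / (r.N * K0)) else e0 b

end Pool.Agent.PCP
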