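import Pool.Agent.PCP.Hyp

/-!
# Definability of hypergraphs (package H2)
-/

set_option autoImplicit false

namespace Pool.Agent.PCP

open Pool.Agent.PT Pool.Agent.Book19

variable {Γ : Type}

/-- Proof sketch: induction on `L`. -/
theorem DfnH.pw {n m : List Γ → ℕ} {el : List Γ → ℕ → Bool → ℕ} (hn : UF fun x _ => n x)
    (hm : UF fun x _ => m x) (hel : ∀ b, UF fun x e => el x (e 0) b) (L : ℕ) :
    DfnH fun x => Hyp.pw (n x) (m x) (el x) L := by
  induction L with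
  | zero => exact ⟨UF.const 1, UF.const 1, UP.true⟩
  | succ L ih =>
    refine ⟨hn.mul ih.n, hm.mul (ih.m.mul ih.m), ?_⟩
    refine UP.fex (ι := Bool) fun b => ?_
    refine UP.and (UP.eq ((UF.var 1).div ih.n)
      (UF.comp₁ (f := fun x i => el x i b) (hel b) ((UF.var 0).div (ih.m.mul ih.m)))) ?_
    refine UP.comp₂ (P := fun x i j => (Hyp.pw (n x) (m x) (el x) L).inc i j) ih.inc ?_
      ((UF.var 1).mod ih.n)
    cases b
    · exact ((UF.var 0).div ih.m).mod ih.m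
    · exact (UF.var 0).mod ih.m

private theorem hypdfn_lof {f : List Γ → (ℕ → ℕ) → ℕ} (hf : UF f) :
    UD fun x e => lof (f x e) :=
  (UF.toFin hf K0 K0_pos).map cde.symm

private theorem hypdfn_conf {r : List Γ → Raw J0 S0} (hr : Dfn r) :
    UP fun x e => conf (r x) (e 0) (e 1) := by
  have hnb : ∀ (j : J0) {f : List Γ → (ℕ → ℕ) → ℕ}, UF f → UF fun x e => (r x).nb (f x e) j :=
    fun j _ hf => UF.comp₁ (f := fun x z => (r x).nb z j) (hr.nb j) hf
  have h0 : UF (Γ := Γ) fun _ e => e 0 / K0 := (UF.var 0).div (UF.const K0)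
  have h1 : UF (Γ := Γ) fun _ e => e 1 / K0 := (UF.var 1).div (UF.const K0)
  refine (UP.case (UD.pair (hypdfn_lof (UF.var 0)) (hypdfn_lof (UF.var 1)))
    (F := fun v x e =>
      (e 0 = e 1 ∧ ¬ (r x).rel (e 0 / K0) v.1.1 v.1.2.1 v.1.2.2) ∨
      (e 0 / K0 = e 1 / K0 ∧ v.1.2.1 ≠ v.2.2.1) ∨
      (e 0 / K0 = (r x).nb (e 1 / K0) v.2.1 ∧ v.1.2.1 ≠ v.2.2.2) ∨
      ((r x).nb (e 0 / K0) v.1.1 = e 1 / K0 ∧ v.1.2.2 ≠ v.2.2.1) ∨
      ((r x).nb (e 0 / K0) v.1.1 = (r x).nb (e 1 / K0) v.2.1 ∧ v.1.2.2 ≠ v.2.2.2))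
    fun v => ?_).congr fun x e => Iff.rfl
  refine UP.or (UP.and (UP.eq (UF.var 0) (UF.var 1)) ?_)
    (UP.or (UP.and (UP.eq h0 h1) (UP.const _))
    (UP.or (UP.and (UP.eq h0 (hnb _ h1)) (UP.const _))
    (UP.or (UP.and (UP.eq (hnb _ h0) h1) (UP.const _))
    (UP.and (UP.eq (hnb _ h0) (hnb _ h1)) (UP.const _)))))
  exact (UD.comp₁ (f := fun x z => (r x).rel z v.1.1) (hr.rel v.1.1) h0).pred
    fun R => ¬ R v.1.2.1 v.1.2.2

/-- Proof sketch: `lof u` is a fixed function of the residue of `u` modulo `K0` (`UF.toFin`). -/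
theorem uf_fel {r : List Γ → Raw J0 S0} (hr : Dfn r) (b : Bool) :
    UF fun x e => fel (r x) (e 0) b := by
  have hN : UF fun x (_ : ℕ → ℕ) => (r x).N * K0 := hr.N.mul (UF.const K0)
  have hd : UF fun x (e : ℕ → ℕ) => e 0 / ((r x).N * K0) := (UF.var 0).div hN
  have hm : UF fun x (e : ℕ → ℕ) => e 0 % ((r x).N * K0) := (UF.var 0).mod hN
  unfold fel
  refine UF.ite (inst := fun _ _ => _) (UP.comp₂ (P := fun x u u' => conf (r x) u u')
    (hypdfn_conf hr) hd hm) ?_ (UF.const _)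
  cases b
  · exact hd
  · exact hm

end Pool.Agent.PCP
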