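import Pool.Agent.PCP.Hyp

/-!
# Hitting sets of products (package H1)
-/

set_option autoImplicit false

namespace Pool.Agent.PCP

namespace Hyp

private theorem hp_lt {a b x n : ℕ} (ha : a < n) (hx : x < b) : a * b + x < n * b := by
  calc a * b + x < a * b + b := by omega
    _ = (a + 1) * b := by ring
    _ ≤ n * b := Nat.mul_le_mul_right b ha

private theorem hp_div {a b x : ℕ} (hx : x < b) : (a * b + x) / b = a := by
  rw [mul_comm, Nat.mul_add_div (by omega), Nat.div_eq_of_lt hx, add_zero]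

private theorem hp_mod {a b x : ℕ} (hx : x < b) : (a * b + x) % b = x := by
  rw [mul_comm, Nat.mul_add_mod, Nat.mod_eq_of_lt hx]

/-- The number of an edge of the product. -/
private theorem hp_code {m M i a b : ℕ} (hi : i < m) (ha : a < M) (hb : b < M) :
    (i * (M * M) + (a * M + b)) < m * (M * M) ∧ (i * (M * M) + (a * M + b)) / (M * M) = i ∧
      (i * (M * M) + (a * M + b)) % M = b ∧ (i * (M * M) + (a * M + b)) / M % M = a := by
  have h1 : a * M + b < M * M := hp_lt ha hb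
  refine ⟨hp_lt hi h1, hp_div h1, ?_, ?_⟩
  · have : i * (M * M) + (a * M + b) = (i * M + a) * M + b := by ring
    rw [this, hp_mod hb]
  · have : i * (M * M) + (a * M + b) = (i * M + a) * M + b := by ring
    rw [this, hp_div hb, hp_mod ha]

private theorem hp_edge {m M c : ℕ} (hc : c < m * (M * M)) :
    c / (M * M) < m ∧ c % M < M ∧ c / M % M < M := by
  have hM : 0 < M := by
    rcases Nat.eq_zero_or_pos M with h | h
    · subst h; simp at hc
    · exact h
  refine ⟨?_, Nat.mod_lt _ hM, Nat.mod_lt _ hM⟩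
  rw [Nat.div_lt_iff_lt_mul (Nat.mul_pos hM hM)]
  exact hc

/-- Proof sketch: `T × T'`. -/
theorem tens_hits {n m : ℕ} {el : ℕ → Bool → ℕ} {H : Hyp} {T T' : Finset ℕ}
    (hT : (ofEl n m el).Hits T) (hT' : H.Hits T') :
    ∃ U, (tens n m el H).Hits U ∧ U.card ≤ T.card * T'.card := by
  classical
  refine ⟨(T ×ˢ T').image fun p => p.1 * H.n + p.2, ⟨?_, ?_⟩, ?_⟩
  · intro d hd
    rw [Finset.mem_image] at hd
    obtain ⟨⟨j, j'⟩, hp, rfl⟩ := hd
    rw [Finset.mem_product] at hp
    exact hp_lt (hT.1 j hp.1) (hT'.1 j' hp.2)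
  · intro c hc
    obtain ⟨h1, h2, h3⟩ := hp_edge (m := m) (M := H.m) hc
    obtain ⟨j, hj, b, hjb⟩ := hT.2 _ h1
    have hk : (if b then c % H.m else c / H.m % H.m) < H.m := by
      cases b <;> simpa
    obtain ⟨j', hj', hinc⟩ := hT'.2 _ hk
    have hlt : j' < H.n := hT'.1 j' hj'
    refine ⟨j * H.n + j', Finset.mem_image.mpr ⟨(j, j'), Finset.mem_product.mpr ⟨hj, hj'⟩, rfl⟩,
      b, ?_, ?_⟩
    · rw [hp_div hlt]; exact hjb
    · rw [hp_mod hlt]; exact hinc
  · exact Finset.card_image_le.trans (le_of_eq (Finset.card_product T T'))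

/-- Proof sketch: let `U` be a hitting set of the product, `U_j = {j' | j * H.n + j' ∈ U}`,
`A = {j < n | U_j hits H}`.  `A` hits the first factor: otherwise `el i b ∉ A` for `b = false, true`,
so there are `c_b < H.m` not hit by `U_(el i b)`, and the edge `(i, c_false, c_true)` is not hit.
Hence `|U| ≥ ∑_(j ∈ A) |U_j| ≥ κ κ'`. -/
theorem tens_ge {n m : ℕ} {el : ℕ → Bool → ℕ} (hel : ∀ i < m, ∀ b, el i b < n) {H : Hyp}
    {κ κ' : ℝ} (hκ : 0 ≤ κ) (hκ' : 0 ≤ κ')
    (h : ∀ T, (ofEl n m el).Hits T → κ ≤ T.card) (h' : ∀ T, H.Hits T → κ' ≤ T.card)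
    {U : Finset ℕ} (hU : (tens n m el H).Hits U) : κ * κ' ≤ U.card := by
  classical
  let V : ℕ → Finset ℕ := fun j => (Finset.range H.n).filter fun j' => j * H.n + j' ∈ U
  let A : Finset ℕ := (Finset.range n).filter fun j => H.Hits (V j)
  have hVlt : ∀ j, ∀ j' ∈ V j, j' < H.n := by
    intro j j' hj'
    exact Finset.mem_range.mp (Finset.mem_filter.mp hj').1
  have hA : (ofEl n m el).Hits A := by
    refine ⟨fun j hj => Finset.mem_range.mp (Finset.mem_filter.mp hj).1, ?_⟩
    intro i hi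
    have hi' : i < m := hi
    by_contra hcon
    have hno : ∀ b, el i b ∉ A := fun b hb => hcon ⟨el i b, hb, b, rfl⟩
    have hc : ∀ b, ∃ c < H.m, ∀ j' ∈ V (el i b), ¬ H.inc c j' := by
      intro b
      by_contra hb
      apply hno b
      refine Finset.mem_filter.mpr ⟨Finset.mem_range.mpr (hel i hi' b), hVlt _, ?_⟩
      intro c hc
      by_contra hcc
      exact hb ⟨c, hc, fun j' hj' hinc => hcc ⟨j', hj', hinc⟩⟩
    choose cc hcc hcn using hc
    obtain ⟨g1, g2, g3, g4⟩ := hp_code hi' (hcc false) (hcc true)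
    obtain ⟨d, hd, b, hb1, hb2⟩ := hU.2 _ g1
    have hdlt : d < n * H.n := hU.1 d hd
    have hHn : 0 < H.n := by
      rcases Nat.eq_zero_or_pos H.n with hz | hz
      · rw [hz] at hdlt; simp at hdlt
      · exact hz
    rw [g2] at hb1
    rw [g3, g4] at hb2
    have hmem : d % H.n ∈ V (el i b) := by
      refine Finset.mem_filter.mpr ⟨Finset.mem_range.mpr (Nat.mod_lt _ hHn), ?_⟩
      rw [← hb1, mul_comm, Nat.div_add_mod]
      exact hd
    refine hcn b _ hmem ?_
    cases b <;> simpa using hb2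
  have h1 : κ ≤ (A.card : ℝ) := h A hA
  have h2 : ∀ j ∈ A, κ' ≤ ((V j).card : ℝ) := fun j hj => h' _ (Finset.mem_filter.mp hj).2
  have h3 : ∑ j ∈ A, (V j).card ≤ U.card := by
    rw [← Finset.card_sigma]
    refine Finset.card_le_card_of_injOn (fun p => p.1 * H.n + p.2) ?_ ?_
    · rintro ⟨j, j'⟩ hp
      have hp' := Finset.mem_sigma.mp hp
      exact (Finset.mem_filter.mp hp'.2).2
    · rintro ⟨j, j'⟩ hp ⟨i, i'⟩ hq hpq
      have hp' : j' < H.n := hVlt _ _ (Finset.mem_sigma.mp hp).2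
      have hq' : i' < H.n := hVlt _ _ (Finset.mem_sigma.mp hq).2
      have hpq' : j * H.n + j' = i * H.n + i' := hpq
      have e1 : j = i := by
        rw [← hp_div (a := j) hp', hpq', hp_div hq']
      have e2 : j' = i' := by
        rw [← hp_mod (a := j) hp', hpq', hp_mod hq']
      subst e1
      subst e2
      rfl
  calc κ * κ' ≤ (A.card : ℝ) * κ' := mul_le_mul_of_nonneg_right h1 hκ'
    _ = ∑ j ∈ A, κ' := by rw [Finset.sum_const, nsmul_eq_mul]
    _ ≤ ∑ j ∈ A, ((V j).card : ℝ) := Finset.sum_le_sum h2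
    _ = ((∑ j ∈ A, (V j).card : ℕ) : ℝ) := by push_cast; rfl
    _ ≤ U.card := by exact_mod_cast h3

theorem pw_hits {n m : ℕ} {el : ℕ → Bool → ℕ} {T : Finset ℕ} (hT : (ofEl n m el).Hits T)
    (L : ℕ) : ∃ U, (pw n m el L).Hits U ∧ U.card ≤ T.card ^ L := by
  induction L with
  | zero =>
    refine ⟨{0}, ⟨?_, ?_⟩, by simp⟩
    · intro j hj
      rw [Finset.mem_singleton] at hj
      subst hj
      exact Nat.one_pos
    · intro i _
      exact ⟨0, Finset.mem_singleton_self 0, trivial⟩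
  | succ L ih =>
    obtain ⟨U', hU', hc⟩ := ih
    obtain ⟨U, hU, hcU⟩ := tens_hits hT hU'
    refine ⟨U, hU, hcU.trans ?_⟩
    rw [pow_succ']
    exact Nat.mul_le_mul_left _ hc

theorem pw_ge {n m : ℕ} {el : ℕ → Bool → ℕ} (hel : ∀ i < m, ∀ b, el i b < n) {κ : ℝ}
    (hκ : 0 ≤ κ) (h : ∀ T, (ofEl n m el).Hits T → κ ≤ T.card) (L : ℕ) {U : Finset ℕ}
    (hU : (pw n m el L).Hits U) : κ ^ L ≤ U.card := by
  induction L generalizing U with
  | zero =>
    obtain ⟨j, hj, _⟩ := hU.2 0 Nat.one_pos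
    have : 0 < U.card := Finset.card_pos.mpr ⟨j, hj⟩
    rw [pow_zero]
    exact_mod_cast this
  | succ L ih =>
    rw [pow_succ']
    exact tens_ge hel hκ (pow_nonneg hκ L) h (fun T hT => ih hT) hU

theorem pw_n (n m : ℕ) (el : ℕ → Bool → ℕ) (L : ℕ) : (pw n m el L).n = n ^ L := by
  induction L with
  | zero => rfl
  | succ L ih =>
    rw [pow_succ', ← ih]
    rfl

theorem pw_ne {n m : ℕ} {el : ℕ → Bool → ℕ} (hel : ∀ i < m, ∀ b, el i b < n) (L : ℕ) :
    (pw n m el L).Ne := by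
  induction L with
  | zero =>
    intro i _
    exact ⟨0, Nat.one_pos, trivial⟩
  | succ L ih =>
    intro c hc
    obtain ⟨h1, h2, h3⟩ := hp_edge (m := m) (M := (pw n m el L).m) hc
    obtain ⟨j', hj', hinc⟩ := ih _ h2
    refine ⟨el (c / ((pw n m el L).m * (pw n m el L).m)) true * (pw n m el L).n + j',
      hp_lt (hel _ h1 true) hj', true, ?_, ?_⟩
    · rw [hp_div hj']
    · rw [hp_mod hj']
      simpa using hinc

/-- If every element lies in an edge, the same holds for the powers. -/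
theorem pw_used {n m : ℕ} {el : ℕ → Bool → ℕ} (h : ∀ j < n, ∃ i < m, ∃ b, j = el i b) (L : ℕ) :
    ∀ j < (pw n m el L).n, ∃ i < (pw n m el L).m, (pw n m el L).inc i j := by
  induction L with
  | zero =>
    intro j _
    exact ⟨0, Nat.one_pos, trivial⟩
  | succ L ih =>
    intro d hd
    have hd' : d < n * (pw n m el L).n := hd
    have hn : 0 < (pw n m el L).n := by
      rcases Nat.eq_zero_or_pos (pw n m el L).n with hz | hz
      · rw [hz] at hd'; simp at hd'
      · exact hz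
    have h1 : d / (pw n m el L).n < n := by
      rw [Nat.div_lt_iff_lt_mul hn]
      exact hd'
    obtain ⟨i, hi, b, hib⟩ := h _ h1
    obtain ⟨k, hk, hinc⟩ := ih _ (Nat.mod_lt d hn)
    obtain ⟨g1, g2, g3, g4⟩ := hp_code hi hk hk
    refine ⟨_, g1, b, ?_, ?_⟩
    · rw [g2]; exact hib
    · rw [g3, g4]
      cases b <;> simpa using hinc

end Hyp

end Pool.Agent.PCP
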