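import Pool.Agent.PCP.Defs

/-! # Linearity test and product test (package L1) -/

set_option autoImplicit false

namespace Pool.Agent.PCP

open Finset

/-- The sign of a bit. -/
private noncomputable def linSgn (a : ZMod 2) : ℝ := if a = 0 then 1 else -1

private lemma linSgn_zero : linSgn 0 = 1 := by simp [linSgn]

private lemma linSgn_of_ne {a : ZMod 2} (h : a ≠ 0) : linSgn a = -1 := by simp [linSgn, h]

private lemma linSgn_add (a b : ZMod 2) : linSgn (a + b) = linSgn a * linSgn b := by
  have h : ∀ a b : ZMod 2, (a = 0 ∧ a + b = b) ∨ (b = 0 ∧ a + b = a) ∨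
      (a ≠ 0 ∧ b ≠ 0 ∧ a + b = 0) := by decide
  rcases h a b with ⟨h1, h2⟩ | ⟨h1, h2⟩ | ⟨h1, h2, h3⟩
  · rw [h2, h1, linSgn_zero, one_mul]
  · rw [h2, h1, linSgn_zero, mul_one]
  · rw [h3, linSgn_zero, linSgn_of_ne h1, linSgn_of_ne h2]
    norm_num

private lemma linSgn_sq (a : ZMod 2) : linSgn a * linSgn a = 1 := by
  unfold linSgn
  split_ifs <;> norm_num

private lemma linSgn_sum {Y : Type} (T : Finset Y) (x : Y → ZMod 2) :
    linSgn (∑ y ∈ T, x y) = ∏ y ∈ T, linSgn (x y) := by
  classical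
  induction T using Finset.induction_on with
  | empty => simp [linSgn_zero]
  | insert a T ha ih => rw [Finset.sum_insert ha, Finset.prod_insert ha, linSgn_add, ih]

open Classical in
private lemma lin_dual {Y : Type} [Fintype Y] (x : Y → ZMod 2) :
    ∑ T : Finset Y, linSgn (∑ y ∈ T, x y) =
      if x = 0 then (Fintype.card (Y → ZMod 2) : ℝ) else 0 := by
  have h1 : ∑ T : Finset Y, linSgn (∑ y ∈ T, x y) = ∏ y : Y, (1 + linSgn (x y)) := by
    rw [Finset.prod_one_add, Finset.powerset_univ]
    exact Finset.sum_congr rfl fun T _ => linSgn_sum T x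
  rw [h1]
  split_ifs with hx
  · subst hx
    simp only [Pi.zero_apply, linSgn_zero]
    rw [Finset.prod_const, Finset.card_univ, Fintype.card_fun, ZMod.card]
    push_cast
    norm_num
  · obtain ⟨y, hy⟩ := Function.ne_iff.1 hx
    refine Finset.prod_eq_zero (Finset.mem_univ y) ?_
    rw [linSgn_of_ne hy]
    norm_num

private lemma lin_add {Y : Type} (T : Finset Y) (x x' : Y → ZMod 2) :
    ∑ y ∈ T, (x + x') y = ∑ y ∈ T, x y + ∑ y ∈ T, x' y := by
  simp [Finset.sum_add_distrib]

private lemma lin_add_eq_zero {Y : Type} (x x' : Y → ZMod 2) : x + x' = 0 ↔ x' = x := by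
  constructor
  · intro h
    funext y
    have h1 := congrFun h y
    have h2 : ∀ a b : ZMod 2, a + b = 0 → b = a := by decide
    exact h2 _ _ h1
  · rintro rfl
    funext y
    have h2 : ∀ a : ZMod 2, a + a = 0 := by decide
    exact h2 _

/-- sum of signs and number of non-zero values -/
private lemma lin_count {X : Type} [Fintype X] (f : X → ZMod 2) [DecidablePred fun x => f x ≠ 0] :
    ∑ x, linSgn (f x) = (Fintype.card X : ℝ) - 2 * ((univ.filter fun x => f x ≠ 0).card : ℝ) := by
  have h1 : ∀ x, linSgn (f x) = 1 - 2 * (if f x ≠ 0 then (1 : ℝ) else 0) := by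
    intro x
    by_cases h : f x = 0
    · simp [linSgn, h]
    · simp [linSgn, h]
      norm_num
  rw [Finset.sum_congr rfl fun x _ => h1 x, Finset.sum_sub_distrib, Finset.sum_const,
    Finset.card_univ, nsmul_eq_mul, mul_one, ← Finset.mul_sum, Finset.sum_boole]

private lemma lin_ne_iff (a b : ZMod 2) : a + b ≠ 0 ↔ a ≠ b := by
  revert a b
  decide

open Classical in
/-- The Blum-Luby-Rubinfeld test.  Proof sketch: for `F = (-1)^B` and the characters
`χ_T h = (-1)^(∑_{y ∈ T} h y)`, `1 - 2 Pr[reject] = E F(h) F(h') F(h + h') = ∑_T F̂(T)³ ≤ max F̂(T)`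
by Parseval `∑ F̂(T)² = 1`; and `F̂(T) = 1 - 2 Pr[B ≠ ∑_T]`. -/
theorem blr {Y : Type} [Fintype Y] (B : (Y → ZMod 2) → ZMod 2) (η : ℝ)
    (h : ((univ.filter fun p : (Y → ZMod 2) × (Y → ZMod 2) =>
      B p.1 + B p.2 + B (p.1 + p.2) ≠ 0).card : ℝ) ≤ η * (Fintype.card (Y → ZMod 2)) ^ 2) :
    ∃ T : Finset Y, ((univ.filter fun x : Y → ZMod 2 => B x ≠ ∑ y ∈ T, x y).card : ℝ) ≤
      η * Fintype.card (Y → ZMod 2) := by
  set N : ℝ := (Fintype.card (Y → ZMod 2) : ℝ) with hN
  have hNpos : 0 < N := by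
    rw [hN]
    exact_mod_cast Fintype.card_pos
  set F : (Y → ZMod 2) → ℝ := fun x => linSgn (B x) with hF
  set χ : Finset Y → (Y → ZMod 2) → ℝ := fun T x => linSgn (∑ y ∈ T, x y) with hχ
  have hχadd : ∀ T x x', χ T (x + x') = χ T x * χ T x' := by
    intro T x x'
    simp only [hχ]
    rw [lin_add, linSgn_add]
  set S : Finset Y → ℝ := fun T => ∑ x, F x * χ T x with hS
  have hdual : ∀ x, ∑ T, χ T x = if x = 0 then N else 0 := fun x => lin_dual x
  -- Parseval
  have h2 : ∑ T, S T ^ 2 = N ^ 2 := by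
    calc ∑ T, S T ^ 2 = ∑ T, ∑ x, ∑ x', F x * F x' * χ T (x + x') := by
          refine Finset.sum_congr rfl fun T _ => ?_
          rw [sq, hS, Finset.sum_mul_sum]
          refine Finset.sum_congr rfl fun x _ => Finset.sum_congr rfl fun x' _ => ?_
          rw [hχadd]
          ring
      _ = ∑ x, ∑ x', F x * F x' * ∑ T, χ T (x + x') := by
          rw [Finset.sum_comm]
          refine Finset.sum_congr rfl fun x _ => ?_
          rw [Finset.sum_comm]
          refine Finset.sum_congr rfl fun x' _ => ?_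
          rw [Finset.mul_sum]
      _ = ∑ x : Y → ZMod 2, N := by
          refine Finset.sum_congr rfl fun x _ => ?_
          have : ∀ x', F x * F x' * ∑ T, χ T (x + x') = if x' = x then N else 0 := by
            intro x'
            rw [hdual]
            simp only [lin_add_eq_zero]
            split_ifs with hx
            · subst hx
              simp only [hF]
              rw [linSgn_sq, one_mul]
            · rw [mul_zero]
          rw [Finset.sum_congr rfl fun x' _ => this x']
          simp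
      _ = N ^ 2 := by
          rw [Finset.sum_const, Finset.card_univ, nsmul_eq_mul, ← hN, sq]
  -- the third moment
  have h3 : ∑ T, S T ^ 3 = N * ∑ x, ∑ x', F x * F x' * F (x + x') := by
    calc ∑ T, S T ^ 3 = ∑ T, ∑ x, ∑ x', ∑ x'', F x * F x' * F x'' * χ T (x + x' + x'') := by
          refine Finset.sum_congr rfl fun T _ => ?_
          have : S T ^ 3 = (S T * S T) * S T := by ring
          rw [this, hS, Finset.sum_mul_sum, Finset.sum_mul]
          refine Finset.sum_congr rfl fun x _ => ?_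
          rw [Finset.sum_mul]
          refine Finset.sum_congr rfl fun x' _ => ?_
          rw [Finset.mul_sum]
          refine Finset.sum_congr rfl fun x'' _ => ?_
          rw [hχadd, hχadd]
          ring
      _ = ∑ x, ∑ x', ∑ x'', F x * F x' * F x'' * ∑ T, χ T (x + x' + x'') := by
          rw [Finset.sum_comm]
          refine Finset.sum_congr rfl fun x _ => ?_
          rw [Finset.sum_comm]
          refine Finset.sum_congr rfl fun x' _ => ?_
          rw [Finset.sum_comm]
          refine Finset.sum_congr rfl fun x'' _ => ?_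
          rw [Finset.mul_sum]
      _ = ∑ x, ∑ x', N * (F x * F x' * F (x + x')) := by
          refine Finset.sum_congr rfl fun x _ => Finset.sum_congr rfl fun x' _ => ?_
          have : ∀ x'', F x * F x' * F x'' * ∑ T, χ T (x + x' + x'') =
              if x'' = x + x' then N * (F x * F x' * F (x + x')) else 0 := by
            intro x''
            rw [hdual]
            simp only [lin_add_eq_zero]
            split_ifs with hx
            · rw [hx]
              ring
            · rw [mul_zero]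
          rw [Finset.sum_congr rfl fun x'' _ => this x'']
          simp
      _ = N * ∑ x, ∑ x', F x * F x' * F (x + x') := by
          rw [Finset.mul_sum]
          refine Finset.sum_congr rfl fun x _ => ?_
          rw [Finset.mul_sum]
  -- the sums count
  have h4 : ∑ x, ∑ x', F x * F x' * F (x + x') =
      N ^ 2 - 2 * ((univ.filter fun p : (Y → ZMod 2) × (Y → ZMod 2) =>
      B p.1 + B p.2 + B (p.1 + p.2) ≠ 0).card : ℝ) := by
    have h5 := lin_count (fun p : (Y → ZMod 2) × (Y → ZMod 2) => B p.1 + B p.2 + B (p.1 + p.2))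
    have h6 : (Fintype.card ((Y → ZMod 2) × (Y → ZMod 2)) : ℝ) = N ^ 2 := by
      rw [Fintype.card_prod]
      push_cast
      rw [sq]
    rw [h6] at h5
    rw [← h5, Fintype.sum_prod_type]
    refine Finset.sum_congr rfl fun x _ => Finset.sum_congr rfl fun x' _ => ?_
    simp only [hF]
    rw [linSgn_add, linSgn_add]
  have h7 : ∀ T, S T = N - 2 * ((univ.filter fun x : Y → ZMod 2 => B x ≠ ∑ y ∈ T, x y).card : ℝ) := by
    intro T
    have h8 := lin_count (fun x : Y → ZMod 2 => B x + ∑ y ∈ T, x y)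
    have h9 : (univ.filter fun x : Y → ZMod 2 => B x + ∑ y ∈ T, x y ≠ 0) =
        (univ.filter fun x : Y → ZMod 2 => B x ≠ ∑ y ∈ T, x y) := by
      ext x
      simp only [Finset.mem_filter, Finset.mem_univ, true_and]
      exact lin_ne_iff _ _
    rw [h9] at h8
    rw [← hN] at h8
    rw [← h8]
    simp only [hS, hF, hχ]
    exact Finset.sum_congr rfl fun x _ => (linSgn_add _ _).symm
  by_contra hcon
  have hcon' : ∀ T : Finset Y, η * N <
      ((univ.filter fun x : Y → ZMod 2 => B x ≠ ∑ y ∈ T, x y).card : ℝ) := by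
    intro T
    by_contra h10
    exact hcon ⟨T, not_lt.1 h10⟩
  have h11 : ∀ T, S T < N - 2 * (η * N) := by
    intro T
    rw [h7 T]
    have := hcon' T
    linarith
  have h12 : ∑ T, S T ^ 3 < (N - 2 * (η * N)) * N ^ 2 := by
    rw [← h2, Finset.mul_sum]
    have hex : ∃ T ∈ (univ : Finset (Finset Y)), 0 < S T ^ 2 := by
      by_contra h13
      have h14 : ∀ T, S T ^ 2 ≤ 0 := by
        intro T
        by_contra h15
        exact h13 ⟨T, Finset.mem_univ _, not_le.1 h15⟩
      have h16 : ∑ T, S T ^ 2 ≤ 0 := Finset.sum_nonpos fun T _ => h14 T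
      rw [h2] at h16
      have : 0 < N ^ 2 := by positivity
      linarith
    obtain ⟨T₀, hT₀, hpos⟩ := hex
    refine Finset.sum_lt_sum (fun T _ => ?_) ⟨T₀, hT₀, ?_⟩
    · have h17 : S T ^ 3 = S T * S T ^ 2 := by ring
      rw [h17]
      exact mul_le_mul_of_nonneg_right (h11 T).le (sq_nonneg _)
    · have h17 : S T₀ ^ 3 = S T₀ * S T₀ ^ 2 := by ring
      rw [h17]
      exact mul_lt_mul_of_pos_right (h11 T₀) hpos
  rw [h3, h4] at h12
  have h18 : N ^ 2 - 2 * ((univ.filter fun p : (Y → ZMod 2) × (Y → ZMod 2) =>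
      B p.1 + B p.2 + B (p.1 + p.2) ≠ 0).card : ℝ) < (1 - 2 * η) * N ^ 2 := by
    have h19 : (N - 2 * (η * N)) * N ^ 2 = N * ((1 - 2 * η) * N ^ 2) := by ring
    rw [h19] at h12
    exact lt_of_mul_lt_mul_left h12 hNpos.le
  linarith

open Classical in
/-- Proof sketch: take `a ≠ b` in `T`; `φ(x, y) = (∑_T x)(∑_T y) + ∑_T x y` satisfies
`φ(x,y) + φ(x+e_a,y) + φ(x,y+e_b) + φ(x+e_a,y+e_b) = 1`, so at least one of four values is not `0`. -/
theorem product_test {Y : Type} [Fintype Y] (T : Finset Y) (hT : 2 ≤ T.card) :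
    (Fintype.card (Y → ZMod 2)) ^ 2 ≤ 4 * (univ.filter fun p : (Y → ZMod 2) × (Y → ZMod 2) =>
      (∑ y ∈ T, p.1 y) * (∑ y ∈ T, p.2 y) ≠ ∑ y ∈ T, p.1 y * p.2 y).card := by
  obtain ⟨a, ha, b, hb, hab⟩ := Finset.one_lt_card.1 (show 1 < T.card from hT)
  set G := (univ.filter fun p : (Y → ZMod 2) × (Y → ZMod 2) =>
      (∑ y ∈ T, p.1 y) * (∑ y ∈ T, p.2 y) ≠ ∑ y ∈ T, p.1 y * p.2 y) with hG
  set i : (Y → ZMod 2) × (Y → ZMod 2) → ℕ := fun p => if p ∈ G then 1 else 0 with hi
  have hshift : ∀ u : (Y → ZMod 2) × (Y → ZMod 2), ∑ p, i (p + u) = G.card := by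
    intro u
    have h1 := Equiv.sum_comp (Equiv.addRight u) i
    simp only [Equiv.coe_addRight] at h1
    rw [h1]
    simp only [hi]
    rw [Finset.sum_boole]
    simp
  set u₁ : (Y → ZMod 2) × (Y → ZMod 2) := (Pi.single a 1, 0) with hu₁
  set u₂ : (Y → ZMod 2) × (Y → ZMod 2) := (0, Pi.single b 1) with hu₂
  have hkey : ∀ p : (Y → ZMod 2) × (Y → ZMod 2),
      1 ≤ i (p + 0) + i (p + u₁) + i (p + u₂) + i (p + (u₁ + u₂)) := by
    intro p
    by_contra hcon
    have hz : i (p + 0) = 0 ∧ i (p + u₁) = 0 ∧ i (p + u₂) = 0 ∧ i (p + (u₁ + u₂)) = 0 := by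
      omega
    have hout : ∀ q, i q = 0 →
        (∑ y ∈ T, q.1 y) * (∑ y ∈ T, q.2 y) = ∑ y ∈ T, q.1 y * q.2 y := by
      intro q hq
      by_contra h2
      have : q ∈ G := by
        rw [hG, Finset.mem_filter]
        exact ⟨Finset.mem_univ _, h2⟩
      simp [hi, this] at hq
    obtain ⟨h0, h1, h2, h3⟩ := hz
    have e0 := hout _ h0
    have e1 := hout _ h1
    have e2 := hout _ h2
    have e3 := hout _ h3
    have sa : ∑ y ∈ T, (Pi.single a 1 : Y → ZMod 2) y = 1 := by
      rw [Finset.sum_pi_single']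
      simp [ha]
    have sb : ∑ y ∈ T, (Pi.single b 1 : Y → ZMod 2) y = 1 := by
      rw [Finset.sum_pi_single']
      simp [hb]
    have sab : ∑ y ∈ T, (Pi.single a 1 : Y → ZMod 2) y * (Pi.single b 1 : Y → ZMod 2) y = 0 := by
      refine Finset.sum_eq_zero fun y _ => ?_
      by_cases hy : y = a
      · subst hy
        rw [Pi.single_eq_of_ne hab, mul_zero]
      · rw [Pi.single_eq_of_ne hy, zero_mul]
    simp only [hu₁, hu₂, Prod.fst_add, Prod.snd_add, Prod.mk_add_mk, Pi.zero_apply,

      add_zero, zero_add, Pi.add_apply, Finset.sum_add_distrib, sa, sb, sab, add_mul, mul_add,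
      mul_one, one_mul] at e0 e1 e2 e3
    have h5 : (1 : ZMod 2) = 0 := by
      linear_combination e3 - e2 - e1 + e0
    exact absurd h5 (by decide)
  have htot : ∑ p : (Y → ZMod 2) × (Y → ZMod 2), 1 ≤
      ∑ p, (i (p + 0) + i (p + u₁) + i (p + u₂) + i (p + (u₁ + u₂))) :=
    Finset.sum_le_sum fun p _ => hkey p
  rw [Finset.sum_add_distrib, Finset.sum_add_distrib, Finset.sum_add_distrib, hshift, hshift,
    hshift, hshift, Finset.sum_const, Finset.card_univ, Fintype.card_prod, smul_eq_mul,
    mul_one] at htot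
  calc (Fintype.card (Y → ZMod 2)) ^ 2 =
        Fintype.card (Y → ZMod 2) * Fintype.card (Y → ZMod 2) := sq _
    _ ≤ G.card + G.card + G.card + G.card := htot
    _ = 4 * G.card := by ring

end Pool.Agent.PCP
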