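import Pool.Agent.PCP.MGDiamond

/-! # The Margulis-Gabber-Galil graph is an expander (package MG3) -/

set_option autoImplicit false

namespace Pool.Agent.PCP

open Finset

private theorem mg_shift1 {M : ℕ} [NeZero M] (b : ZMod M) (h : ZMod M × ZMod M → ℝ) :
    ∑ ξ : ZMod M × ZMod M, h (ξ.1, ξ.2 + b * ξ.1) = ∑ ξ, h ξ := by
  refine Fintype.sum_equiv
    { toFun := fun ξ => (ξ.1, ξ.2 + b * ξ.1)
      invFun := fun ξ => (ξ.1, ξ.2 - b * ξ.1)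
      left_inv := fun ξ => by simp
      right_inv := fun ξ => by simp } _ _ fun ξ => rfl

private theorem mg_shift2 {M : ℕ} [NeZero M] (b : ZMod M) (h : ZMod M × ZMod M → ℝ) :
    ∑ ξ : ZMod M × ZMod M, h (ξ.1 + b * ξ.2, ξ.2) = ∑ ξ, h ξ := by
  refine Fintype.sum_equiv
    { toFun := fun ξ => (ξ.1 + b * ξ.2, ξ.2)
      invFun := fun ξ => (ξ.1 - b * ξ.2, ξ.2)
      left_inv := fun ξ => by simp
      right_inv := fun ξ => by simp } _ _ fun ξ => rfl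

private theorem mg_amgm {a b x y : ℝ} (ha : 0 < a) (hab : a * b = 1) :
    x * y ≤ 1 / 2 * (a * x ^ 2 + b * y ^ 2) := by
  have hb : b = a⁻¹ := eq_inv_of_mul_eq_one_right hab
  have h1 : 0 ≤ a⁻¹ * (a * x - y) ^ 2 := by positivity
  have h2 : a⁻¹ * (a * x - y) ^ 2 = a * x ^ 2 + b * y ^ 2 - 2 * (x * y) := by
    rw [hb]
    field_simp
    ring
  linarith

private theorem mg_sumzero {M : ℕ} [NeZero M] (f : ZMod M × ZMod M → ℝ) (hf : ∑ z, f z = 0) :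
    ∑ z, ∑ j : J8, f (mg j z) = 0 := by
  rw [Finset.sum_comm]
  refine Finset.sum_eq_zero fun j _ => ?_
  rw [← hf]
  refine Fintype.sum_equiv
    { toFun := mg j
      invFun := mg (mgInv j)
      left_inv := fun z => mg_inv j z
      right_inv := fun z => by
        have := mg_inv (mgInv j) z
        rwa [mgInv_mgInv] at this } _ _ fun z => rfl

/-- the bilinear form -/
private theorem mg_bil (M : ℕ) [NeZero M] (f g : ZMod M × ZMod M → ℝ) (hf : ∑ z, f z = 0)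
    (hg : ∑ z, g z = 0) :
    |∑ z, g z * ∑ j : J8, f (mg j z)| ≤ 3.65 * (∑ z, f z ^ 2 + ∑ z, g z ^ 2) := by
  obtain ⟨F, G, hF0, hG0, hF2, hG2, hF, hG, hFG⟩ := mg_bilinear M f g
  obtain ⟨γ, hγ0, hγ1, hγ⟩ := mg_weights M
  have hFz := hF hf
  have hGz := hG hg
  have hcc : ∀ a : ZMod M, 0 ≤ cc a := fun a => norm_nonneg _
  set W : ZMod M × ZMod M → ℝ := fun ξ =>
    cc ξ.1 * (γ ξ (ξ.1, ξ.2 + 2 * ξ.1) + γ ξ (ξ.1, ξ.2 - 2 * ξ.1)) +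
      cc ξ.2 * (γ ξ (ξ.1 + 2 * ξ.2, ξ.2) + γ ξ (ξ.1 - 2 * ξ.2, ξ.2)) with hW
  have key : ∀ H : ZMod M × ZMod M → ℝ, H 0 = 0 → ∑ ξ, H ξ ^ 2 * W ξ ≤ 7.3 * ∑ ξ, H ξ ^ 2 := by
    intro H hH
    rw [Finset.mul_sum]
    refine Finset.sum_le_sum fun ξ _ => ?_
    by_cases hξ : ξ = 0
    · rw [hξ, hH]
      simp
    · have h1 := hγ ξ hξ
      have h2 : H ξ ^ 2 * W ξ ≤ H ξ ^ 2 * 7.3 := mul_le_mul_of_nonneg_left h1 (sq_nonneg _)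
      linarith
  -- the termwise estimate
  have hterm : ∀ ξ : ZMod M × ZMod M,
      G ξ * (cc ξ.1 * (F (ξ.1, ξ.2 + 2 * ξ.1) + F (ξ.1, ξ.2 - 2 * ξ.1)) +
        cc ξ.2 * (F (ξ.1 + 2 * ξ.2, ξ.2) + F (ξ.1 - 2 * ξ.2, ξ.2))) ≤
      1 / 2 * (G ξ ^ 2 * W ξ) + 1 / 2 *
        (cc ξ.1 * (γ (ξ.1, ξ.2 + 2 * ξ.1) ξ * F (ξ.1, ξ.2 + 2 * ξ.1) ^ 2) +
          cc ξ.1 * (γ (ξ.1, ξ.2 - 2 * ξ.1) ξ * F (ξ.1, ξ.2 - 2 * ξ.1) ^ 2) +
          cc ξ.2 * (γ (ξ.1 + 2 * ξ.2, ξ.2) ξ * F (ξ.1 + 2 * ξ.2, ξ.2) ^ 2) +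
          cc ξ.2 * (γ (ξ.1 - 2 * ξ.2, ξ.2) ξ * F (ξ.1 - 2 * ξ.2, ξ.2) ^ 2)) := by
    intro ξ
    have h1 := mul_le_mul_of_nonneg_left
      (mg_amgm (x := G ξ) (y := F (ξ.1, ξ.2 + 2 * ξ.1)) (hγ0 ξ (ξ.1, ξ.2 + 2 * ξ.1)) (hγ1 _ _))
      (hcc ξ.1)
    have h2 := mul_le_mul_of_nonneg_left
      (mg_amgm (x := G ξ) (y := F (ξ.1, ξ.2 - 2 * ξ.1)) (hγ0 ξ (ξ.1, ξ.2 - 2 * ξ.1)) (hγ1 _ _))
      (hcc ξ.1)
    have h3 := mul_le_mul_of_nonneg_left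
      (mg_amgm (x := G ξ) (y := F (ξ.1 + 2 * ξ.2, ξ.2)) (hγ0 ξ (ξ.1 + 2 * ξ.2, ξ.2)) (hγ1 _ _))
      (hcc ξ.2)
    have h4 := mul_le_mul_of_nonneg_left
      (mg_amgm (x := G ξ) (y := F (ξ.1 - 2 * ξ.2, ξ.2)) (hγ0 ξ (ξ.1 - 2 * ξ.2, ξ.2)) (hγ1 _ _))
      (hcc ξ.2)
    simp only [hW]
    linarith
  have hsum := Finset.sum_le_sum fun ξ (_ : ξ ∈ (Finset.univ : Finset (ZMod M × ZMod M))) => hterm ξ
  rw [Finset.sum_add_distrib, ← Finset.mul_sum, ← Finset.mul_sum, Finset.sum_add_distrib,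
    Finset.sum_add_distrib, Finset.sum_add_distrib] at hsum
  -- reindexing
  have e1 := mg_shift1 (M := M) 2 fun η => cc η.1 * (γ η (η.1, η.2 - 2 * η.1) * F η ^ 2)
  have e2 := mg_shift1 (M := M) (-2) fun η => cc η.1 * (γ η (η.1, η.2 + 2 * η.1) * F η ^ 2)
  have e3 := mg_shift2 (M := M) 2 fun η => cc η.2 * (γ η (η.1 - 2 * η.2, η.2) * F η ^ 2)
  have e4 := mg_shift2 (M := M) (-2) fun η => cc η.2 * (γ η (η.1 + 2 * η.2, η.2) * F η ^ 2)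
  simp only [add_sub_cancel_right, neg_mul, ← sub_eq_add_neg, sub_add_cancel, Prod.mk.eta]
    at e1 e2 e3 e4
  rw [e1, e2, e3, e4] at hsum
  have e5 : ∑ η, cc η.1 * (γ η (η.1, η.2 - 2 * η.1) * F η ^ 2) +
      ∑ η, cc η.1 * (γ η (η.1, η.2 + 2 * η.1) * F η ^ 2) +
      ∑ η, cc η.2 * (γ η (η.1 - 2 * η.2, η.2) * F η ^ 2) +
      ∑ η, cc η.2 * (γ η (η.1 + 2 * η.2, η.2) * F η ^ 2) = ∑ η, F η ^ 2 * W η := by
    rw [← Finset.sum_add_distrib, ← Finset.sum_add_distrib, ← Finset.sum_add_distrib]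
    refine Finset.sum_congr rfl fun η _ => ?_
    simp only [hW]
    ring
  rw [e5] at hsum
  have k1 := key F hFz
  have k2 := key G hGz
  rw [hF2] at k1
  rw [hG2] at k2
  have hM : (0 : ℝ) < (M : ℝ) ^ 2 := by
    have : (0 : ℝ) < M := by exact_mod_cast Nat.pos_of_ne_zero (NeZero.ne M)
    positivity
  have hfin : (M : ℝ) ^ 2 * |∑ z, g z * ∑ j : J8, f (mg j z)| ≤
      (M : ℝ) ^ 2 * (3.65 * (∑ z, f z ^ 2 + ∑ z, g z ^ 2)) := by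
    nlinarith [hFG, hsum, k1, k2]
  exact le_of_mul_le_mul_left hfin hM

/-- Proof sketch.  From `mg_bilinear`, `mg_weights` and `2 G(ξ) F(η) ≤ γ ξ η G(ξ)² + γ η ξ F(η)²`
(the terms with `ξ = 0` or `η = 0` vanish): `|⟨g, A f⟩| ≤ 3.65 (‖f‖² + ‖g‖²)` for `f, g` of sum zero;
replace `f, g` by `t f, g / t` and take the best `t`: `|⟨g, A f⟩| ≤ 7.3 ‖f‖ ‖g‖`; take `g = A f`
(`A f` has sum zero since every `mg j` is a bijection with inverse `mg (mgInv j)`). -/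
theorem mg_norm (M : ℕ) [NeZero M] (f : ZMod M × ZMod M → ℝ) (hf : ∑ z, f z = 0) :
    ∑ z, (∑ j : J8, f (mg j z)) ^ 2 ≤ (7.3 : ℝ) ^ 2 * ∑ z, f z ^ 2 := by
  have hg : ∑ z, (∑ j : J8, f (mg j z)) / 7.3 = 0 := by
    rw [← Finset.sum_div, mg_sumzero f hf, zero_div]
  have h := mg_bil M f (fun z => (∑ j : J8, f (mg j z)) / 7.3) hf hg
  have h1 : ∑ z, (∑ j : J8, f (mg j z)) / 7.3 * ∑ j : J8, f (mg j z) =
      (∑ z, (∑ j : J8, f (mg j z)) ^ 2) / 7.3 := by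
    rw [Finset.sum_div]
    refine Finset.sum_congr rfl fun z _ => ?_
    ring
  have h2 : ∑ z, ((∑ j : J8, f (mg j z)) / 7.3) ^ 2 =
      (∑ z, (∑ j : J8, f (mg j z)) ^ 2) / 7.3 ^ 2 := by
    rw [Finset.sum_div]
    refine Finset.sum_congr rfl fun z _ => ?_
    ring
  rw [h1, h2] at h
  have h3 := (le_abs_self _).trans h
  set b := ∑ z, (∑ j : J8, f (mg j z)) ^ 2
  set a := ∑ z, f z ^ 2
  norm_num at h3 ⊢
  linarith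

end Pool.Agent.PCP
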