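import Pool.Agent.PCP.MGFour

/-! # The weights for the Margulis-Gabber-Galil graph (package MG2) -/

set_option autoImplicit false

namespace Pool.Agent.PCP

open Finset

private theorem mgd_cc {M : ℕ} [NeZero M] (a : ZMod M) :
    cc a = 2 * Real.cos (Real.pi * |((a.valMinAbs : ℤ) : ℝ)| / M) := by
  have hM : (0 : ℝ) < M := by exact_mod_cast Nat.pos_of_ne_zero (NeZero.ne M)
  set x : ℤ := a.valMinAbs with hx
  have h1 : ZMod.stdAddChar a = Complex.exp (2 * Real.pi * Complex.I * x / M) := by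
    rw [← ZMod.stdAddChar_coe, hx, ZMod.coe_valMinAbs]
  have h2 : (1 : ℂ) + Complex.exp (2 * Real.pi * Complex.I * x / M) =
      Complex.exp ((Real.pi * x / M : ℝ) * Complex.I) *
        ((2 * Real.cos (Real.pi * x / M) : ℝ) : ℂ) := by
    have h3 : (2 * Real.pi * Complex.I * x / M : ℂ) =
        ((Real.pi * x / M : ℝ) * Complex.I) + ((Real.pi * x / M : ℝ) * Complex.I) := by
      push_cast
      ring
    rw [h3, Complex.exp_add]
    push_cast
    rw [Complex.two_cos, mul_add, ← Complex.exp_add, ← Complex.exp_add]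
    have h4 : (Real.pi * x / M : ℂ) * Complex.I + -(Real.pi * x / M : ℂ) * Complex.I = 0 := by
      ring
    rw [h4, Complex.exp_zero, Complex.exp_add]
    ring
  unfold cc
  rw [h1, h2, norm_mul, Complex.norm_exp_ofReal_mul_I, one_mul, Complex.norm_real,
    Real.norm_eq_abs, abs_mul, abs_two]
  congr 1
  have h5 : |Real.cos (Real.pi * x / M)| = |Real.cos (Real.pi * |(x : ℝ)| / M)| := by
    rcases abs_choice (x : ℝ) with h | h
    · rw [h]
    · rw [h, mul_neg, neg_div, Real.cos_neg]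
  rw [h5, abs_of_nonneg]
  apply Real.cos_nonneg_of_mem_Icc
  have h6 : (2 : ℝ) * |(x : ℝ)| ≤ M := by
    have h7 := ZMod.natAbs_valMinAbs_le a
    have h8 : (2 : ℤ) * |x| ≤ M := by
      rw [Int.abs_eq_natAbs]
      omega
    exact_mod_cast h8
  have hpi := Real.pi_pos
  constructor
  · have : 0 ≤ Real.pi * |(x : ℝ)| / M := by positivity
    linarith
  · rw [div_le_div_iff₀ hM two_pos]
    nlinarith

private theorem mgd_half {M : ℕ} [NeZero M] (a : ZMod M) : 2 * |a.valMinAbs| ≤ (M : ℤ) := by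
  have h7 := ZMod.natAbs_valMinAbs_le a
  rw [Int.abs_eq_natAbs]
  omega

private theorem mgd_upp {M : ℕ} [NeZero M] (y : ℤ) : |((y : ZMod M)).valMinAbs| ≤ |y| := by
  have h := ZMod.natAbs_min_of_le_div_two M ((y : ZMod M)).valMinAbs y
    (ZMod.coe_valMinAbs _) (ZMod.natAbs_valMinAbs_le _)
  rw [Int.abs_eq_natAbs, Int.abs_eq_natAbs]
  exact_mod_cast h

private theorem mgd_low {M : ℕ} [NeZero M] (y q : ℤ) (h1 : q < |y|) (h2 : |y| + q < M) :
    q < |((y : ZMod M)).valMinAbs| := by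
  have hM : (0 : ℤ) < M := by exact_mod_cast Nat.pos_of_ne_zero (NeZero.ne M)
  set v : ℤ := ((y : ZMod M)).valMinAbs with hv
  have h3 : ((v : ℤ) : ZMod M) = (y : ZMod M) := ZMod.coe_valMinAbs _
  obtain ⟨k, hk⟩ := (ZMod.intCast_eq_intCast_iff_dvd_sub _ _ _).1 h3
  rcases lt_trichotomy k 0 with h | h | h
  · have h4 : (M : ℤ) * k ≤ -M := by nlinarith
    have h5 := neg_abs_le y
    have h6 := le_abs_self v
    omega
  · rw [h, mul_zero] at hk
    have : v = y := by omega
    rw [this]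
    exact h1
  · have h4 : (M : ℤ) ≤ M * k := by nlinarith
    have h5 := le_abs_self y
    have h6 := neg_abs_le v
    omega

/-- comparison weight -/
private noncomputable def mgdPhi (b q : ℤ) : ℝ := if q < b then 4 / 5 else if b < q then 5 / 4 else 1

private theorem mgdPhi_le (b q : ℤ) : mgdPhi b q ≤ 5 / 4 := by
  unfold mgdPhi
  split_ifs <;> norm_num

private theorem mgd_pair {M : ℕ} [NeZero M] (u w : ℤ) (h : 2 * (|u| + |w|) < M)
    (h0 : u ≠ 0 ∨ w ≠ 0) :
    mgdPhi |((w + 2 * u : ℤ) : ZMod M).valMinAbs| |w| +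
      mgdPhi |((w - 2 * u : ℤ) : ZMod M).valMinAbs| |w| ≤
        if |w| < |u| then 8 / 5 else if |u| = |w| then 9 / 5 else 41 / 20 := by
  have a1 := le_abs_self u
  have a2 := neg_abs_le u
  have a3 := le_abs_self w
  have a4 := neg_abs_le w
  have key : ∀ y : ℤ, |w| < |y| → |y| + |w| < M → |w| < |(y : ZMod M).valMinAbs| :=
    fun y h1 h2 => mgd_low y _ h1 h2
  split_ifs with c1 c2
  · -- both are larger
    have h1 : |w| < |((w + 2 * u : ℤ) : ZMod M).valMinAbs| := by
      apply key <;> (rcases abs_cases u with ⟨e1, e2⟩ | ⟨e1, e2⟩ <;>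
        rcases abs_cases w with ⟨e3, e4⟩ | ⟨e3, e4⟩ <;>
        rcases abs_cases (w + 2 * u) with ⟨e5, e6⟩ | ⟨e5, e6⟩ <;> omega)
    have h2 : |w| < |((w - 2 * u : ℤ) : ZMod M).valMinAbs| := by
      apply key <;> (rcases abs_cases u with ⟨e1, e2⟩ | ⟨e1, e2⟩ <;>
        rcases abs_cases w with ⟨e3, e4⟩ | ⟨e3, e4⟩ <;>
        rcases abs_cases (w - 2 * u) with ⟨e5, e6⟩ | ⟨e5, e6⟩ <;> omega)
    rw [mgdPhi, mgdPhi, if_pos h1, if_pos h2]
    norm_num
  · -- equal absolute values
    have hpos : 0 < |w| := by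
      rcases h0 with h0 | h0
      · rw [← c2]
        exact abs_pos.2 h0
      · exact abs_pos.2 h0
    have hsame : ∀ y : ℤ, |y| = |w| → |(y : ZMod M).valMinAbs| = |w| := by
      intro y hy
      have h1 := mgd_upp (M := M) y
      have h2 := mgd_low (M := M) y (|w| - 1) (by omega) (by omega)
      omega
    rcases (abs_eq_abs.1 c2) with e | e
    · subst e
      have h1 : |u| < |((u + 2 * u : ℤ) : ZMod M).valMinAbs| := by
        apply key <;> (rcases abs_cases u with ⟨e1, e2⟩ | ⟨e1, e2⟩ <;>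
        rcases abs_cases (u + 2 * u) with ⟨e5, e6⟩ | ⟨e5, e6⟩ <;> omega)
      have h2 : |((u - 2 * u : ℤ) : ZMod M).valMinAbs| = |u| := by
        apply hsame
        rw [show u - 2 * u = -u by ring, abs_neg]
      rw [mgdPhi, mgdPhi, if_pos h1, h2, if_neg (lt_irrefl _), if_neg (lt_irrefl _)]
      norm_num
    · have e' : w = -u := by omega
      subst e'
      have h1 : |-u| < |((-u - 2 * u : ℤ) : ZMod M).valMinAbs| := by
        apply key <;> (rcases abs_cases u with ⟨e1, e2⟩ | ⟨e1, e2⟩ <;>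
        rcases abs_cases (-u) with ⟨e3, e4⟩ | ⟨e3, e4⟩ <;>
        rcases abs_cases (-u - 2 * u) with ⟨e5, e6⟩ | ⟨e5, e6⟩ <;> omega)
      have h2 : |((-u + 2 * u : ℤ) : ZMod M).valMinAbs| = |-u| := by
        apply hsame
        rw [show -u + 2 * u = u by ring, abs_neg]
      rw [mgdPhi, mgdPhi, if_pos h1, h2, if_neg (lt_irrefl _), if_neg (lt_irrefl _)]
      norm_num
  · -- `|u| < |w|`
    have c3 : |u| < |w| := by omega
    by_cases hu : u = 0
    · subst hu
      have h2 : |((w : ℤ) : ZMod M).valMinAbs| = |w| := by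
        have h1 := mgd_upp (M := M) w
        have h2 := mgd_low (M := M) w (|w| - 1) (by omega) (by omega)
        omega
      rw [mul_zero, add_zero, sub_zero, h2, mgdPhi, if_neg (lt_irrefl _), if_neg (lt_irrefl _)]
      norm_num
    · have hup : 0 < |u| := abs_pos.2 hu
      have hsum : mgdPhi |((w + 2 * u : ℤ) : ZMod M).valMinAbs| |w| = 4 / 5 ∨
          mgdPhi |((w - 2 * u : ℤ) : ZMod M).valMinAbs| |w| = 4 / 5 := by
        by_cases hs : |w| < |w + 2 * u|
        · left
          rw [mgdPhi, if_pos (key _ hs ?_)]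
          rcases abs_cases u with ⟨e1, e2⟩ | ⟨e1, e2⟩ <;>
          rcases abs_cases w with ⟨e3, e4⟩ | ⟨e3, e4⟩ <;>
          rcases abs_cases (w + 2 * u) with ⟨e5, e6⟩ | ⟨e5, e6⟩ <;> omega
        · right
          rw [mgdPhi, if_pos (key _ ?_ ?_)]
          · rcases abs_cases u with ⟨e1, e2⟩ | ⟨e1, e2⟩ <;>
            rcases abs_cases w with ⟨e3, e4⟩ | ⟨e3, e4⟩ <;>
            rcases abs_cases (w + 2 * u) with ⟨e5, e6⟩ | ⟨e5, e6⟩ <;>
            rcases abs_cases (w - 2 * u) with ⟨e7, e8⟩ | ⟨e7, e8⟩ <;> omega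
          · rcases abs_cases u with ⟨e1, e2⟩ | ⟨e1, e2⟩ <;>
            rcases abs_cases w with ⟨e3, e4⟩ | ⟨e3, e4⟩ <;>
            rcases abs_cases (w - 2 * u) with ⟨e7, e8⟩ | ⟨e7, e8⟩ <;> omega
      rcases hsum with h1 | h1
      · rw [h1]
        have := mgdPhi_le |((w - 2 * u : ℤ) : ZMod M).valMinAbs| |w|
        linarith
      · rw [h1]
        have := mgdPhi_le |((w + 2 * u : ℤ) : ZMod M).valMinAbs| |w|
        linarith

/-- `x` is larger than `y` -/
private def mgdGt {M : ℕ} (x y : ZMod M × ZMod M) : Prop :=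
  (|y.1.valMinAbs| < |x.1.valMinAbs| ∧ |y.2.valMinAbs| ≤ |x.2.valMinAbs|) ∨
    (|y.1.valMinAbs| ≤ |x.1.valMinAbs| ∧ |y.2.valMinAbs| < |x.2.valMinAbs|)

open Classical in
/-- the weight -/
private noncomputable def mgdGam {M : ℕ} (x y : ZMod M × ZMod M) : ℝ :=
  if mgdGt x y then 5 / 4 else if mgdGt y x then 4 / 5 else 1

/-- Proof sketch (Hoory-Linial-Wigderson, Section 8.2).  Write `|a|` for `(ZMod.valMinAbs a).natAbs`
(so `2|a| ≤ M`), `cc a = 2 |cos (π |a| / M)| = 2 cos (π |a| / M)`.  Put `x > y` if (`|x₁| > |y₁|` and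
`|x₂| ≥ |y₂|`) or (`|x₁| ≥ |y₁|` and `|x₂| > |y₂|`); `γ x y = 5/4` if `x > y`, `4/5` if `y > x`, `1`
otherwise (`x > y` and `y > x` exclude each other).
Case A, `M ≤ 2(|ξ₁| + |ξ₂|)`: `cos (π|ξ₁|/M) + cos (π|ξ₂|/M) ≤ √2`, all four `γ ≤ 5/4`, so the left
side is at most `2 · √2 · 5/2 < 7.08`.
Case B, `2(|ξ₁| + |ξ₂|) < M`: the two cosines are at most `1`, so bound by twice the sum of the
four `γ ξ η`, `η` the four neighbours.  `|ξ₁| > |ξ₂| > 0` (or symmetric): both `(ξ₁, ξ₂ ± 2ξ₁) > ξ`;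
one of `(ξ₁ ± 2ξ₂, ξ₂)` is `> ξ`, the other `< ξ`: sum `≤ 3·4/5 + 5/4 = 3.65`.
`|ξ₁| = |ξ₂| ≠ 0`: in each pair one neighbour is `> ξ`, the other has equal absolute values
(`γ = 1`): `3.6`.  `ξ₂ = 0 ≠ ξ₁`: `(ξ₁ ± 2·0, 0) = ξ` (`γ = 1`), `(ξ₁, ±2ξ₁) > ξ`: `3.6`. -/
theorem mg_weights (M : ℕ) [NeZero M] :
    ∃ γ : (ZMod M × ZMod M) → (ZMod M × ZMod M) → ℝ, (∀ x y, 0 < γ x y) ∧
      (∀ x y, γ x y * γ y x = 1) ∧
      ∀ ξ : ZMod M × ZMod M, ξ ≠ 0 →
        cc ξ.1 * (γ ξ (ξ.1, ξ.2 + 2 * ξ.1) + γ ξ (ξ.1, ξ.2 - 2 * ξ.1)) +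
          cc ξ.2 * (γ ξ (ξ.1 + 2 * ξ.2, ξ.2) + γ ξ (ξ.1 - 2 * ξ.2, ξ.2)) ≤ 7.3 := by
  have hM : (0 : ℝ) < M := by exact_mod_cast Nat.pos_of_ne_zero (NeZero.ne M)
  have hpi := Real.pi_pos
  have hex : ∀ x y : ZMod M × ZMod M, mgdGt x y → ¬ mgdGt y x := by
    intro x y h h'
    unfold mgdGt at h h'
    omega
  refine ⟨mgdGam, fun x y => ?_, fun x y => ?_, fun ξ hξ => ?_⟩
  · unfold mgdGam
    split_ifs <;> norm_num
  · unfold mgdGam
    by_cases h1 : mgdGt x y
    · rw [if_pos h1, if_neg (hex _ _ h1), if_pos h1]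
      norm_num
    · by_cases h2 : mgdGt y x
      · rw [if_neg h1, if_pos h2, if_pos h2]
        norm_num
      · rw [if_neg h1, if_neg h2, if_neg h2, if_neg h1]
        norm_num
  · obtain ⟨a, b⟩ := ξ
    simp only
    have hg1 : ∀ c : ZMod M, mgdGam (a, b) (a, c) = mgdPhi |c.valMinAbs| |b.valMinAbs| := by
      intro c
      unfold mgdGam mgdPhi mgdGt
      simp only
      by_cases h1 : |b.valMinAbs| < |c.valMinAbs|
      · rw [if_neg (by omega), if_pos (by omega), if_pos h1]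
      · by_cases h2 : |c.valMinAbs| < |b.valMinAbs|
        · rw [if_pos (by omega), if_neg h1, if_pos h2]
        · rw [if_neg (by omega), if_neg (by omega), if_neg h1, if_neg h2]
    have hg2 : ∀ c : ZMod M, mgdGam (a, b) (c, b) = mgdPhi |c.valMinAbs| |a.valMinAbs| := by
      intro c
      unfold mgdGam mgdPhi mgdGt
      simp only
      by_cases h1 : |a.valMinAbs| < |c.valMinAbs|
      · rw [if_neg (by omega), if_pos (by omega), if_pos h1]
      · by_cases h2 : |c.valMinAbs| < |a.valMinAbs|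
        · rw [if_pos (by omega), if_neg h1, if_pos h2]
        · rw [if_neg (by omega), if_neg (by omega), if_neg h1, if_neg h2]
    rw [hg1, hg1, hg2, hg2, mgd_cc, mgd_cc]
    set u : ℤ := a.valMinAbs with hu
    set w : ℤ := b.valMinAbs with hw
    have hua : ((u : ℤ) : ZMod M) = a := ZMod.coe_valMinAbs a
    have hwb : ((w : ℤ) : ZMod M) = b := ZMod.coe_valMinAbs b
    have e1 : b + 2 * a = ((w + 2 * u : ℤ) : ZMod M) := by
      push_cast
      rw [hua, hwb]
    have e2 : b - 2 * a = ((w - 2 * u : ℤ) : ZMod M) := by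
      push_cast
      rw [hua, hwb]
    have e3 : a + 2 * b = ((u + 2 * w : ℤ) : ZMod M) := by
      push_cast
      rw [hua, hwb]
    have e4 : a - 2 * b = ((u - 2 * w : ℤ) : ZMod M) := by
      push_cast
      rw [hua, hwb]
    have h0 : u ≠ 0 ∨ w ≠ 0 := by
      by_contra hcon
      push Not at hcon
      apply hξ
      rw [← hua, ← hwb, hcon.1, hcon.2]
      simp
    have hu2 : 2 * |u| ≤ (M : ℤ) := mgd_half a
    have hw2 : 2 * |w| ≤ (M : ℤ) := mgd_half b
    have hu2' : (2 : ℝ) * |(u : ℝ)| ≤ M := by exact_mod_cast hu2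
    have hw2' : (2 : ℝ) * |(w : ℝ)| ≤ M := by exact_mod_cast hw2
    have hcu : 0 ≤ Real.cos (Real.pi * |(u : ℝ)| / M) := by
      apply Real.cos_nonneg_of_mem_Icc
      constructor
      · have : 0 ≤ Real.pi * |(u : ℝ)| / M := by positivity
        linarith
      · rw [div_le_div_iff₀ hM two_pos]
        nlinarith
    have hcw : 0 ≤ Real.cos (Real.pi * |(w : ℝ)| / M) := by
      apply Real.cos_nonneg_of_mem_Icc
      constructor
      · have : 0 ≤ Real.pi * |(w : ℝ)| / M := by positivity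
        linarith
      · rw [div_le_div_iff₀ hM two_pos]
        nlinarith
    rw [e1, e2, e3, e4]
    by_cases hB : 2 * (|u| + |w|) < (M : ℤ)
    · have p1 := mgd_pair (M := M) u w hB h0
      have p2 := mgd_pair (M := M) w u (by omega) h0.symm
      set P := mgdPhi |((w + 2 * u : ℤ) : ZMod M).valMinAbs| |w| +
        mgdPhi |((w - 2 * u : ℤ) : ZMod M).valMinAbs| |w| with hP
      set Q := mgdPhi |((u + 2 * w : ℤ) : ZMod M).valMinAbs| |u| +
        mgdPhi |((u - 2 * w : ℤ) : ZMod M).valMinAbs| |u| with hQ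
      have pos : ∀ x y : ℤ, 0 ≤ mgdPhi x y := by
        intro x y
        unfold mgdPhi
        split_ifs <;> norm_num
      have hP0 : 0 ≤ P := add_nonneg (pos _ _) (pos _ _)
      have hQ0 : 0 ≤ Q := add_nonneg (pos _ _) (pos _ _)
      have hPQ : P + Q ≤ 73 / 20 := by
        rcases lt_trichotomy |u| |w| with h | h | h
        · rw [if_neg (by omega), if_neg (by omega)] at p1
          rw [if_pos h] at p2
          linarith
        · rw [if_neg (by omega), if_pos h] at p1
          rw [if_neg (by omega), if_pos h.symm] at p2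
          linarith
        · rw [if_pos h] at p1
          rw [if_neg (by omega), if_neg (by omega)] at p2
          linarith
      have c1 := Real.cos_le_one (Real.pi * |(u : ℝ)| / M)
      have c2 := Real.cos_le_one (Real.pi * |(w : ℝ)| / M)
      have d1 : 2 * Real.cos (Real.pi * |(u : ℝ)| / M) * P ≤ 2 * P := by nlinarith
      have d2 : 2 * Real.cos (Real.pi * |(w : ℝ)| / M) * Q ≤ 2 * Q := by nlinarith
      norm_num
      linarith
    · have hB' : (M : ℤ) ≤ 2 * (|u| + |w|) := by omega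
      have hB2 : (M : ℝ) ≤ 2 * (|(u : ℝ)| + |(w : ℝ)|) := by exact_mod_cast hB'
      have q1 := mgdPhi_le |((w + 2 * u : ℤ) : ZMod M).valMinAbs| |w|
      have q2 := mgdPhi_le |((w - 2 * u : ℤ) : ZMod M).valMinAbs| |w|
      have q3 := mgdPhi_le |((u + 2 * w : ℤ) : ZMod M).valMinAbs| |u|
      have q4 := mgdPhi_le |((u - 2 * w : ℤ) : ZMod M).valMinAbs| |u|
      have hsum : Real.cos (Real.pi * |(u : ℝ)| / M) + Real.cos (Real.pi * |(w : ℝ)| / M) ≤
          √2 := by
        rw [Real.cos_add_cos]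
        have s1 : Real.cos ((Real.pi * |(u : ℝ)| / M + Real.pi * |(w : ℝ)| / M) / 2) ≤
            Real.cos (Real.pi / 4) := by
          apply Real.cos_le_cos_of_nonneg_of_le_pi
          · positivity
          · rw [← add_div, div_div, div_le_iff₀ (by positivity)]
            nlinarith
          · rw [← add_div, div_div, div_le_div_iff₀ (by norm_num) (by positivity)]
            nlinarith
        have s2 := Real.cos_le_one ((Real.pi * |(u : ℝ)| / M - Real.pi * |(w : ℝ)| / M) / 2)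
        have s3 : 0 ≤ Real.cos ((Real.pi * |(u : ℝ)| / M + Real.pi * |(w : ℝ)| / M) / 2) := by
          apply Real.cos_nonneg_of_mem_Icc
          constructor
          · have : 0 ≤ (Real.pi * |(u : ℝ)| / M + Real.pi * |(w : ℝ)| / M) / 2 := by positivity
            linarith
          · rw [← add_div, div_div, div_le_div_iff₀ (by positivity) two_pos]
            nlinarith
        rw [Real.cos_pi_div_four] at s1
        nlinarith
      have hsq : √2 ≤ 142 / 100 := by
        rw [Real.sqrt_le_left (by norm_num)]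
        norm_num
      have t1 : 2 * Real.cos (Real.pi * |(u : ℝ)| / M) *
          (mgdPhi |((w + 2 * u : ℤ) : ZMod M).valMinAbs| |w| +
            mgdPhi |((w - 2 * u : ℤ) : ZMod M).valMinAbs| |w|) ≤
          2 * Real.cos (Real.pi * |(u : ℝ)| / M) * (5 / 2) :=
        mul_le_mul_of_nonneg_left (by linarith) (by linarith)
      have t2 : 2 * Real.cos (Real.pi * |(w : ℝ)| / M) *
          (mgdPhi |((u + 2 * w : ℤ) : ZMod M).valMinAbs| |u| +
            mgdPhi |((u - 2 * w : ℤ) : ZMod M).valMinAbs| |u|) ≤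
          2 * Real.cos (Real.pi * |(w : ℝ)| / M) * (5 / 2) :=
        mul_le_mul_of_nonneg_left (by linarith) (by linarith)
      have e73 : (7.3 : ℝ) = 73 / 10 := by norm_num
      rw [e73]
      linarith

end Pool.Agent.PCP
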