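import Pool.Agent.PCP.Defs

/-! # Fourier form of the Margulis-Gabber-Galil operator (package MG1) -/

set_option autoImplicit false

namespace Pool.Agent.PCP

open Finset

/-- `‖1 + e(a)‖`, which is `2 |cos (π a / M)|` -/
noncomputable def cc {M : ℕ} [NeZero M] (a : ZMod M) : ℝ := ‖1 + (ZMod.stdAddChar a : ℂ)‖

/-- The Fourier transform on the torus. -/
private noncomputable def mgf_ft {M : ℕ} [NeZero M] (f : ZMod M × ZMod M → ℂ)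
    (ξ : ZMod M × ZMod M) : ℂ :=
  ∑ z : ZMod M × ZMod M, f z * (ZMod.stdAddChar (-(ξ.1 * z.1 + ξ.2 * z.2)) : ℂ)

private theorem mgf_orth {M : ℕ} [NeZero M] (d : ZMod M × ZMod M) :
    ∑ ξ : ZMod M × ZMod M, (ZMod.stdAddChar (ξ.1 * d.1 + ξ.2 * d.2) : ℂ) =
      if d = 0 then (M : ℂ) ^ 2 else 0 := by
  have h := fun b : ZMod M => AddChar.sum_mulShift b (ZMod.isPrimitive_stdAddChar M)
  rw [Fintype.sum_prod_type]
  have h1 : ∀ x y : ZMod M, (ZMod.stdAddChar (x * d.1 + y * d.2) : ℂ) =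
      ZMod.stdAddChar (x * d.1) * ZMod.stdAddChar (y * d.2) := fun x y =>
    AddChar.map_add_eq_mul _ _ _
  simp only [h1]
  rw [← Finset.sum_mul_sum, h, h]
  obtain ⟨a, b⟩ := d
  by_cases ha : a = 0 <;> by_cases hb : b = 0 <;> simp [ha, hb, Prod.ext_iff, ZMod.card, sq]

private theorem mgf_parseval {M : ℕ} [NeZero M] (f g : ZMod M × ZMod M → ℂ) :
    ∑ ξ, (starRingEnd ℂ) (mgf_ft g ξ) * mgf_ft f ξ =
      (M : ℂ) ^ 2 * ∑ z, (starRingEnd ℂ) (g z) * f z := by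
  have h1 : ∀ ξ : ZMod M × ZMod M, (starRingEnd ℂ) (mgf_ft g ξ) * mgf_ft f ξ =
      ∑ z : ZMod M × ZMod M, ∑ w : ZMod M × ZMod M, ((starRingEnd ℂ) (g z) * f w) *
        (ZMod.stdAddChar (ξ.1 * (z - w).1 + ξ.2 * (z - w).2) : ℂ) := by
    intro ξ
    unfold mgf_ft
    rw [map_sum, Finset.sum_mul_sum]
    refine Finset.sum_congr rfl fun z _ => Finset.sum_congr rfl fun w _ => ?_
    have h2 : (starRingEnd ℂ) (ZMod.stdAddChar (-(ξ.1 * z.1 + ξ.2 * z.2)) : ℂ) =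
        ZMod.stdAddChar (ξ.1 * z.1 + ξ.2 * z.2) := by
      rw [← AddChar.map_neg_eq_conj, neg_neg]
    rw [map_mul, h2]
    have h3 : (ZMod.stdAddChar (ξ.1 * (z - w).1 + ξ.2 * (z - w).2) : ℂ) =
        ZMod.stdAddChar (ξ.1 * z.1 + ξ.2 * z.2) * ZMod.stdAddChar (-(ξ.1 * w.1 + ξ.2 * w.2)) := by
      rw [← AddChar.map_add_eq_mul]
      congr 1
      simp only [Prod.fst_sub, Prod.snd_sub]
      ring
    rw [h3]
    ring
  simp only [h1]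
  rw [Finset.sum_comm]
  rw [Finset.mul_sum]
  refine Finset.sum_congr rfl fun z _ => ?_
  rw [Finset.sum_comm]
  simp only [← Finset.mul_sum, mgf_orth]
  rw [Finset.sum_eq_single z]
  · simp
    ring
  · intro w _ hw
    rw [if_neg (sub_ne_zero.2 (Ne.symm hw)), mul_zero]
  · intro h
    exact absurd (Finset.mem_univ _) h

private theorem mgf_subst {M : ℕ} [NeZero M] (j : J8) (f : ZMod M × ZMod M → ℂ)
    (ξ : ZMod M × ZMod M) :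
    mgf_ft (fun z => f (mg j z)) ξ =
      ∑ y : ZMod M × ZMod M, f y *
        (ZMod.stdAddChar (-(ξ.1 * (mg (mgInv j) y).1 + ξ.2 * (mg (mgInv j) y).2)) : ℂ) := by
  unfold mgf_ft
  refine Fintype.sum_equiv
    { toFun := mg j
      invFun := mg (mgInv j)
      left_inv := fun z => mg_inv j z
      right_inv := fun z => by
        have := mg_inv (mgInv j) z
        rwa [mgInv_mgInv] at this } _ _ fun z => ?_
  simp only [Equiv.coe_fn_mk, mg_inv]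

private theorem mgf_tt {M : ℕ} [NeZero M] (s : Bool) (f : ZMod M × ZMod M → ℂ)
    (ξ : ZMod M × ZMod M) :
    mgf_ft (fun z => f (mg (true, s, true) z)) ξ =
      (ZMod.stdAddChar (ξ.1 * sh s) : ℂ) * mgf_ft f (ξ.1, ξ.2 - 2 * ξ.1) := by
  rw [mgf_subst]
  unfold mgf_ft
  rw [Finset.mul_sum]
  refine Finset.sum_congr rfl fun y _ => ?_
  rw [mul_left_comm, ← AddChar.map_add_eq_mul]
  congr 2
  simp only [mg, mgInv, Bool.not_true]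
  ring

private theorem mgf_tf {M : ℕ} [NeZero M] (s : Bool) (f : ZMod M × ZMod M → ℂ)
    (ξ : ZMod M × ZMod M) :
    mgf_ft (fun z => f (mg (true, s, false) z)) ξ =
      (ZMod.stdAddChar (-(ξ.1 * sh s)) : ℂ) * mgf_ft f (ξ.1, ξ.2 + 2 * ξ.1) := by
  rw [mgf_subst]
  unfold mgf_ft
  rw [Finset.mul_sum]
  refine Finset.sum_congr rfl fun y _ => ?_
  rw [mul_left_comm, ← AddChar.map_add_eq_mul]
  congr 2
  simp only [mg, mgInv, Bool.not_false]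
  ring

private theorem mgf_ft' {M : ℕ} [NeZero M] (s : Bool) (f : ZMod M × ZMod M → ℂ)
    (ξ : ZMod M × ZMod M) :
    mgf_ft (fun z => f (mg (false, s, true) z)) ξ =
      (ZMod.stdAddChar (ξ.2 * sh s) : ℂ) * mgf_ft f (ξ.1 - 2 * ξ.2, ξ.2) := by
  rw [mgf_subst]
  unfold mgf_ft
  rw [Finset.mul_sum]
  refine Finset.sum_congr rfl fun y _ => ?_
  rw [mul_left_comm, ← AddChar.map_add_eq_mul]
  congr 2
  simp only [mg, mgInv, Bool.not_true]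
  ring

private theorem mgf_ff {M : ℕ} [NeZero M] (s : Bool) (f : ZMod M × ZMod M → ℂ)
    (ξ : ZMod M × ZMod M) :
    mgf_ft (fun z => f (mg (false, s, false) z)) ξ =
      (ZMod.stdAddChar (-(ξ.2 * sh s)) : ℂ) * mgf_ft f (ξ.1 + 2 * ξ.2, ξ.2) := by
  rw [mgf_subst]
  unfold mgf_ft
  rw [Finset.mul_sum]
  refine Finset.sum_congr rfl fun y _ => ?_
  rw [mul_left_comm, ← AddChar.map_add_eq_mul]
  congr 2
  simp only [mg, mgInv, Bool.not_false]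
  ring

private theorem mgf_cc_neg {M : ℕ} [NeZero M] (a : ZMod M) :
    ‖1 + (ZMod.stdAddChar (-a) : ℂ)‖ = cc a := by
  unfold cc
  rw [AddChar.map_neg_eq_conj, ← Complex.norm_conj (1 + (ZMod.stdAddChar a : ℂ))]
  simp

private theorem mgf_op {M : ℕ} [NeZero M] (f : ZMod M × ZMod M → ℂ) (ξ : ZMod M × ZMod M) :
    mgf_ft (fun z => ∑ j : J8, f (mg j z)) ξ =
      ((1 + (ZMod.stdAddChar ξ.1 : ℂ)) * mgf_ft f (ξ.1, ξ.2 - 2 * ξ.1) +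
        (1 + (ZMod.stdAddChar (-ξ.1) : ℂ)) * mgf_ft f (ξ.1, ξ.2 + 2 * ξ.1)) +
      ((1 + (ZMod.stdAddChar ξ.2 : ℂ)) * mgf_ft f (ξ.1 - 2 * ξ.2, ξ.2) +
        (1 + (ZMod.stdAddChar (-ξ.2) : ℂ)) * mgf_ft f (ξ.1 + 2 * ξ.2, ξ.2)) := by
  have h1 : mgf_ft (fun z => ∑ j : J8, f (mg j z)) ξ =
      ∑ j : J8, mgf_ft (fun z => f (mg j z)) ξ := by
    unfold mgf_ft
    rw [Finset.sum_comm]
    exact Finset.sum_congr rfl fun z _ => Finset.sum_mul _ _ _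
  rw [h1]
  simp only [Fintype.sum_prod_type, Fintype.sum_bool, mgf_tt, mgf_tf, mgf_ft', mgf_ff, sh]
  simp only [if_true, Bool.false_eq_true, if_false, mul_zero, neg_zero, AddChar.map_zero_eq_one,
    mul_one, one_mul]
  ring

/-- Proof sketch.  `F ξ = ‖∑ z, f z e(-(ξ₁ z₁ + ξ₂ z₂))‖`, same for `G`.  Parseval gives the second
and third clauses and `⟨g, A f⟩ M² = ∑ conj ĝ (A f)^`.  Substituting `y = mg j z`:
ports `(true,s,true)`: `(f ∘ mg j)^ ξ = e(ξ₁ s) f̂ (ξ₁, ξ₂ - 2 ξ₁)`;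
`(true,s,false)`: `e(-ξ₁ s) f̂ (ξ₁, ξ₂ + 2 ξ₁)`; `(false,s,true)`: `e(ξ₂ s) f̂ (ξ₁ - 2 ξ₂, ξ₂)`;
`(false,s,false)`: `e(-ξ₂ s) f̂ (ξ₁ + 2 ξ₂, ξ₂)`; add over `s` (`‖1 + e(-a)‖ = ‖1 + e(a)‖`). -/
theorem mg_bilinear (M : ℕ) [NeZero M] (f g : ZMod M × ZMod M → ℝ) :
    ∃ F G : ZMod M × ZMod M → ℝ, (∀ ξ, 0 ≤ F ξ) ∧ (∀ ξ, 0 ≤ G ξ) ∧
      ∑ ξ, F ξ ^ 2 = (M : ℝ) ^ 2 * ∑ z, f z ^ 2 ∧ ∑ ξ, G ξ ^ 2 = (M : ℝ) ^ 2 * ∑ z, g z ^ 2 ∧
      (∑ z, f z = 0 → F 0 = 0) ∧ (∑ z, g z = 0 → G 0 = 0) ∧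
      (M : ℝ) ^ 2 * |∑ z, g z * ∑ j : J8, f (mg j z)| ≤
        ∑ ξ, G ξ * (cc ξ.1 * (F (ξ.1, ξ.2 + 2 * ξ.1) + F (ξ.1, ξ.2 - 2 * ξ.1)) +
          cc ξ.2 * (F (ξ.1 + 2 * ξ.2, ξ.2) + F (ξ.1 - 2 * ξ.2, ξ.2))) := by
  have hpars : ∀ u : ZMod M × ZMod M → ℝ,
      ∑ ξ, ‖mgf_ft (fun z => (u z : ℂ)) ξ‖ ^ 2 = (M : ℝ) ^ 2 * ∑ z, u z ^ 2 := by
    intro u
    have h := mgf_parseval (fun z => (u z : ℂ)) (fun z => (u z : ℂ))
    have h2 : ((∑ ξ, ‖mgf_ft (fun z => (u z : ℂ)) ξ‖ ^ 2 : ℝ) : ℂ) =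
        (((M : ℝ) ^ 2 * ∑ z, u z ^ 2 : ℝ) : ℂ) := by
      push_cast
      simp only [Complex.conj_mul', Complex.conj_ofReal] at h
      rw [h]
      congr 1
      exact Finset.sum_congr rfl fun z _ => (sq _).symm
    exact_mod_cast h2
  have hzero : ∀ u : ZMod M × ZMod M → ℝ, ∑ z, u z = 0 →
      ‖mgf_ft (fun z => (u z : ℂ)) 0‖ = 0 := by
    intro u hu
    rw [norm_eq_zero]
    unfold mgf_ft
    simp only [Prod.fst_zero, Prod.snd_zero, zero_mul, add_zero, neg_zero,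
      AddChar.map_zero_eq_one, mul_one]
    rw [← Complex.ofReal_sum, hu, Complex.ofReal_zero]
  refine ⟨fun ξ => ‖mgf_ft (fun z => (f z : ℂ)) ξ‖, fun ξ => ‖mgf_ft (fun z => (g z : ℂ)) ξ‖,
    fun ξ => norm_nonneg _, fun ξ => norm_nonneg _, hpars f, hpars g, hzero f, hzero g, ?_⟩
  have hmain := mgf_parseval (fun z => ∑ j : J8, (f (mg j z) : ℂ)) (fun z => (g z : ℂ))
  have h1 : (M : ℝ) ^ 2 * |∑ z, g z * ∑ j : J8, f (mg j z)| =
      ‖∑ ξ, (starRingEnd ℂ) (mgf_ft (fun z => (g z : ℂ)) ξ) *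
        mgf_ft (fun z => ∑ j : J8, (f (mg j z) : ℂ)) ξ‖ := by
    rw [hmain]
    have h2 : (M : ℂ) ^ 2 * ∑ z, (starRingEnd ℂ) (g z : ℂ) * ∑ j : J8, (f (mg j z) : ℂ) =
        (((M : ℝ) ^ 2 * ∑ z, g z * ∑ j : J8, f (mg j z) : ℝ) : ℂ) := by
      push_cast
      simp only [Complex.conj_ofReal]
    rw [h2, Complex.norm_real, Real.norm_eq_abs, abs_mul, abs_of_nonneg (sq_nonneg (M : ℝ))]
  rw [h1]
  refine (norm_sum_le _ _).trans (Finset.sum_le_sum fun ξ _ => ?_)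
  rw [norm_mul, Complex.norm_conj]
  refine mul_le_mul_of_nonneg_left ?_ (norm_nonneg _)
  rw [mgf_op (fun z => (f z : ℂ)) ξ]
  refine (norm_add_le _ _).trans (add_le_add ?_ ?_)
  · refine (norm_add_le _ _).trans (le_of_eq ?_)
    rw [norm_mul, norm_mul, mgf_cc_neg]
    unfold cc
    ring
  · refine (norm_add_le _ _).trans (le_of_eq ?_)
    rw [norm_mul, norm_mul, mgf_cc_neg]
    unfold cc
    ring

end Pool.Agent.PCP
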