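import Pool.Agent.PCP.Defs

/-!
# Powering of ported constraint graphs: definitions

`T = t + 1`.  Words have `2 T` letters.  The ports of the power are the pairs (word, length), and the
new symbols are the opinions: for each distance `i < T` and word `W` (only the first `i` letters
matter) an old symbol for the vertex reached by the first `i` steps of `W`.
-/

set_option autoImplicit false

namespace Pool.Agent.PCP

open Finset

/-- Words of length `2 (t + 1)`. -/
abbrev Wd (J : Type) (t : ℕ) : Type := Fin (2 * t + 2) → J

/-- The ports of the power: the first `ℓ + 1` letters of the word are used. -/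
abbrev J1 (J : Type) (t : ℕ) : Type := Wd J t × Fin (2 * t + 2)

/-- The symbols of the power. -/
abbrev X1 (J S : Type) (t : ℕ) : Type := Fin (t + 1) → Wd J t → S

variable {V J S : Type} {t : ℕ}

/-- Indices of letters, modulo `2 t + 2`. -/
def ix {t : ℕ} (k : ℕ) : Fin (2 * t + 2) := ⟨k % (2 * t + 2), Nat.mod_lt _ (by omega)⟩

/-- Reverse (and invert) the first `k` letters. -/
def rev (inv : J → J) (k : ℕ) (W : Wd J t) : Wd J t :=
  fun i => if i.val < k then inv (W (ix (k - 1 - i.val))) else W i

/-- Forget all but the first `k` letters. -/
def mask [Inhabited J] (k : ℕ) (W : Wd J t) : Wd J t := fun i => if i.val < k then W i else default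

namespace PG

/-- The vertex after `k` steps. -/
def walk (G : PG V J S) (z : V) (W : Wd J t) : ℕ → V
  | 0 => z
  | k + 1 => G.nb (G.walk z W k) (W (ix k))

end PG

end Pool.Agent.PCP
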