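import Pool.Agent.PCP.PowRev

/-! # Soundness of powering, first moment (package P2) -/

set_option autoImplicit false

namespace Pool.Agent.PCP

open Finset

variable {V J S : Type} {t : ℕ}

namespace PG

/-- The opinion on `u` of the vertex reached from `u` by the first `i` letters of `W`. -/
def vote [Inhabited J] (G : PG V J S) (A : V → X1 J S t) (i : Fin (t + 1)) (u : V)
    (W : Wd J t) : S :=
  A (G.walk u W i.val) i (mask i.val (rev G.inv i.val W))

open Classical in
/-- The number of words for which the vote on `u` is `s u`. -/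
noncomputable def cnt [Inhabited J] [Fintype J] (G : PG V J S) (A : V → X1 J S t) (s : V → S)
    (i : Fin (t + 1)) (u : V) : ℕ :=
  (univ.filter fun W : Wd J t => G.vote A i u W = s u).card

/-- Plurality: every vertex has a symbol which gets at least a fraction `1/|S|` of its votes. -/
theorem exists_plurality [Inhabited J] [Fintype J] [Fintype S] [Nonempty S] (G : PG V J S)
    (A : V → X1 J S t) : ∃ s : V → S, ∀ u,
      (t + 1) * Fintype.card (Wd J t) ≤ Fintype.card S * ∑ i, G.cnt A s i u := by
  classical
  have key : ∀ u, ∃ a : S, (t + 1) * Fintype.card (Wd J t) ≤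
      Fintype.card S * ∑ i, (univ.filter fun W : Wd J t => G.vote A i u W = a).card := by
    intro u
    by_contra hcon
    push Not at hcon
    have h1 : ∑ a : S, Fintype.card S *
        ∑ i, (univ.filter fun W : Wd J t => G.vote A i u W = a).card <
        ∑ _a : S, (t + 1) * Fintype.card (Wd J t) :=
      Finset.sum_lt_sum_of_nonempty univ_nonempty fun a _ => hcon a
    have h2 : ∀ i : Fin (t + 1), ∑ a : S, (univ.filter fun W : Wd J t =>
        G.vote A i u W = a).card = Fintype.card (Wd J t) := by
      intro i
      rw [← Finset.card_univ, Finset.card_eq_sum_card_fiberwise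
        (f := fun W : Wd J t => G.vote A i u W) (t := univ) (fun _ _ => by simp)]
    rw [← Finset.mul_sum, Finset.sum_comm, Finset.sum_congr rfl fun i _ => h2 i] at h1
    simp only [Finset.sum_const, Finset.card_univ, Fintype.card_fin, smul_eq_mul] at h1
    exact lt_irrefl _ h1
  choose s hs using key
  exact ⟨s, hs⟩

/-- words depending on disjoint sets of letters are independent -/
private theorem indep {ι J : Type} [Fintype ι] [DecidableEq ι] [Fintype J] (I : ι → Prop)
    [DecidablePred I] (P Q : (ι → J) → Prop) [DecidablePred P] [DecidablePred Q]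
    (hP : ∀ W W' : ι → J, (∀ x, I x → W x = W' x) → P W → P W')
    (hQ : ∀ W W' : ι → J, (∀ x, ¬ I x → W x = W' x) → Q W → Q W') :
    Fintype.card (ι → J) * (univ.filter fun W : ι → J => P W ∧ Q W).card =
      (univ.filter fun W : ι → J => P W).card * (univ.filter fun W : ι → J => Q W).card := by
  rw [← Finset.card_univ, mul_comm, ← Finset.card_product, ← Finset.card_product]
  refine Finset.card_nbij'
    (fun p => (fun x => if I x then p.1 x else p.2 x, fun x => if I x then p.2 x else p.1 x))
    (fun p => (fun x => if I x then p.1 x else p.2 x, fun x => if I x then p.2 x else p.1 x))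
    ?_ ?_ ?_ ?_
  · rintro ⟨W, W'⟩ h
    simp only [coe_product, Set.mem_prod, coe_filter, mem_univ, true_and,
      Set.mem_ofPred_eq, coe_univ, Set.mem_univ, and_true] at h ⊢
    refine ⟨hP W _ (fun x hx => by simp [hx]) h.1, hQ W _ (fun x hx => by simp [hx]) h.2⟩
  · rintro ⟨W, W'⟩ h
    simp only [coe_product, Set.mem_prod, coe_filter, mem_univ, true_and,
      Set.mem_ofPred_eq, coe_univ, Set.mem_univ, and_true] at h ⊢
    refine ⟨hP W _ (fun x hx => by simp [hx]) h.1, hQ W' _ (fun x hx => by simp [hx]) h.2⟩
  · rintro ⟨W, W'⟩ _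
    ext x <;> by_cases hx : I x <;> simp [hx]
  · rintro ⟨W, W'⟩ _
    ext x <;> by_cases hx : I x <;> simp [hx]

private theorem card_letter {ι J : Type} [Fintype ι] [DecidableEq ι] [Fintype J] [DecidableEq J]
    (x : ι) (j : J) :
    Fintype.card J * (univ.filter fun W : ι → J => W x = j).card = Fintype.card (ι → J) := by
  have h1 : ∀ j' : J, (univ.filter fun W : ι → J => W x = j').card =
      (univ.filter fun W : ι → J => W x = j).card := by
    intro j'
    refine Finset.card_nbij' (fun W => Function.update W x j) (fun W => Function.update W x j')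
      ?_ ?_ ?_ ?_
    · intro W _
      simp
    · intro W _
      simp
    · intro W hW
      simp only [coe_filter, mem_univ, true_and, Set.mem_ofPred_eq] at hW
      simp only [Function.update_idem, ← hW, Function.update_eq_self]
    · intro W hW
      simp only [coe_filter, mem_univ, true_and, Set.mem_ofPred_eq] at hW
      simp only [Function.update_idem, ← hW, Function.update_eq_self]
  have h2 : ∑ j' : J, (univ.filter fun W : ι → J => W x = j').card = Fintype.card (ι → J) := by
    rw [← Finset.card_univ, Finset.card_eq_sum_card_fiberwise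
      (f := fun W : ι → J => W x) (t := univ) (fun _ _ => by simp)]
  rw [← h2, Finset.sum_congr rfl fun j' _ => h1 j']
  simp

/-- the three events are independent -/
private theorem indep3 {ι J : Type} [Fintype ι] [DecidableEq ι] [Fintype J] [DecidableEq J]
    [Nonempty J] (x : ι) (j : J) (I : ι → Prop) [DecidablePred I] (I' : ι → Prop)
    [DecidablePred I'] (hx : ¬ I x) (hx' : I' x) (hI : ∀ y, I y → I' y)
    (P Q : (ι → J) → Prop) [DecidablePred P] [DecidablePred Q]
    (hP : ∀ W W' : ι → J, (∀ y, I y → W y = W' y) → P W → P W')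
    (hQ : ∀ W W' : ι → J, (∀ y, ¬ I' y → W y = W' y) → Q W → Q W') :
    Fintype.card J * Fintype.card (ι → J) *
        (univ.filter fun W : ι → J => W x = j ∧ P W ∧ Q W).card =
      (univ.filter fun W : ι → J => P W).card * (univ.filter fun W : ι → J => Q W).card := by
  have h1 := indep I P (fun W => W x = j ∧ Q W) hP
    (fun W W' h hW => ⟨by rw [← h x hx]; exact hW.1,
      hQ W W' (fun y hy => h y fun hy' => hy (hI y hy')) hW.2⟩)
  have h2 := indep I' (fun W => W x = j) Q (fun W W' h hW => by rw [← h x hx']; exact hW) hQ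
  have h3 := card_letter (ι := ι) x j
  have h4 : (univ.filter fun W : ι → J => P W ∧ W x = j ∧ Q W) =
      (univ.filter fun W : ι → J => W x = j ∧ P W ∧ Q W) := by
    ext W
    simp only [mem_filter, mem_univ, true_and]
    tauto
  rw [h4] at h1
  have h5 : 0 < Fintype.card (ι → J) := Fintype.card_pos
  apply Nat.eq_of_mul_eq_mul_right h5
  calc Fintype.card J * Fintype.card (ι → J) *
        (univ.filter fun W : ι → J => W x = j ∧ P W ∧ Q W).card * Fintype.card (ι → J)
      = Fintype.card J * Fintype.card (ι → J) * (Fintype.card (ι → J) *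
        (univ.filter fun W : ι → J => W x = j ∧ P W ∧ Q W).card) := by ring
    _ = (univ.filter fun W : ι → J => P W).card * (Fintype.card J * (Fintype.card (ι → J) *
        (univ.filter fun W : ι → J => W x = j ∧ Q W).card)) := by rw [h1]; ring
    _ = (univ.filter fun W : ι → J => P W).card * (Fintype.card J *
        (univ.filter fun W : ι → J => W x = j).card *
        (univ.filter fun W : ι → J => Q W).card) := by rw [h2]; ring
    _ = _ := by rw [h3]; ring

/-- the cyclic shift of the words -/
private def pfShift (a : ℕ) (W : Wd J t) : Wd J t := fun x => W (ix (x.val + a))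

private theorem pfIx (k a : ℕ) : (ix (k % (2 * t + 2) + a) : Fin (2 * t + 2)) = ix (k + a) := by
  apply Fin.ext
  simp [ix, Nat.add_mod]

private theorem pfIx' (x : Fin (2 * t + 2)) : (ix x.val : Fin (2 * t + 2)) = x := by
  apply Fin.ext
  simp [ix, Nat.mod_eq_of_lt x.2]

private theorem pfIx_val {k : ℕ} (hk : k < 2 * t + 2) : (ix k : Fin (2 * t + 2)).val = k := by
  simp [ix, Nat.mod_eq_of_lt hk]

private theorem pfShift_shift (a b : ℕ) (hab : a + b = 2 * t + 2) (W : Wd J t) :
    pfShift a (pfShift b W) = W := by
  funext x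
  have h1 : (ix (x.val + a) : Fin (2 * t + 2)).val = (x.val + a) % (2 * t + 2) := rfl
  simp only [pfShift, h1]
  rw [pfIx]
  congr 1
  apply Fin.ext
  have h2 : x.val + a + b = x.val + (2 * t + 2) := by omega
  simp [ix, h2, Nat.mod_eq_of_lt x.2]

private theorem walk_add (G : PG V J S) (z : V) (W : Wd J t) (a b : ℕ) :
    G.walk z W (a + b) = G.walk (G.walk z W a) (pfShift a W) b := by
  induction b with
  | zero => rfl
  | succ b ih =>
    rw [← add_assoc]
    simp only [walk]
    rw [ih]
    congr 1
    have h1 : (ix b : Fin (2 * t + 2)).val = b % (2 * t + 2) := rfl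
    simp only [pfShift, h1]
    rw [pfIx, add_comm]

private theorem vote_congr [Inhabited J] (G : PG V J S) (A : V → X1 J S t) (i : Fin (t + 1))
    (u : V) (W W' : Wd J t) (h : ∀ x : Fin (2 * t + 2), x.val < i.val → W x = W' x) :
    G.vote A i u W = G.vote A i u W' := by
  have hi := i.2
  have h1 : G.walk u W i.val = G.walk u W' i.val := G.walk_congr u W W' i.val (by omega) h
  have h2 : mask i.val (rev G.inv i.val W) = mask i.val (rev G.inv i.val W') := by
    funext x
    simp only [mask, rev]
    by_cases hx : x.val < i.val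
    · rw [if_pos hx, if_pos hx, if_pos hx, if_pos hx]
      rw [h]
      rw [pfIx_val (by omega)]
      omega
    · rw [if_neg hx, if_neg hx]
  rw [vote, vote, h1, h2]

open Classical in
/-- Proof sketch.  For fixed `W` the map `z ↦ walk z W i` is a bijection of `V`, so the count is
`∑_{(u,j) ∈ F} #{W | W_i = j, L, R}`, where with `u = walk z W i`:
`L: vote A i u (rev i W) = s u` (by `walk_rev`, `rev_rev`) depends only on the letters `< i`,
`R: vote A i' (nb u j) (shift W) = s (nb u j)`, `shift W = fun x => W (x + (i+1))` (cyclic), depends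
only on the letters `i+1, …, i+i'`.  The three events depend on disjoint sets of letters, hence
`|J| |Wd| #{W_i = j, L, R} = #L #R`, and `#L = cnt i u`, `#R = cnt i' (nb u j)` because `rev i` and
`shift` are bijections of the words. -/
theorem first_count [Inhabited J] [Fintype V] [Fintype J] (G : PG V J S) (A : V → X1 J S t)
    (s : V → S) (i i' : Fin (t + 1)) (F : Finset (V × J)) :
    Fintype.card J * Fintype.card (Wd J t) *
      (univ.filter fun p : V × Wd J t =>
        (G.walk p.1 p.2 i.val, p.2 (ix i.val)) ∈ F ∧
        A p.1 i (mask i.val p.2) = s (G.walk p.1 p.2 i.val) ∧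
        A (G.walk p.1 p.2 (i.val + i'.val + 1)) i'
          (mask i'.val (rev G.inv (i.val + i'.val + 1) p.2)) =
          s (G.walk p.1 p.2 (i.val + 1))).card =
      ∑ q ∈ F, G.cnt A s i q.1 * G.cnt A s i' (G.nb q.1 q.2) := by
  have hi := i.2
  have hi' := i'.2
  -- the events in terms of the middle vertex
  have hE3 : ∀ (z : V) (W : Wd J t),
      A (G.walk z W (i.val + i'.val + 1)) i' (mask i'.val (rev G.inv (i.val + i'.val + 1) W)) =
        G.vote A i' (G.walk z W (i.val + 1)) (pfShift (i.val + 1) W) := by
    intro z W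
    have h1 : G.walk z W (i.val + i'.val + 1) =
        G.walk (G.walk z W (i.val + 1)) (pfShift (i.val + 1) W) i'.val := by
      rw [← walk_add]
      congr 1
      omega
    have h2 : mask i'.val (rev G.inv (i.val + i'.val + 1) W) =
        mask i'.val (rev G.inv i'.val (pfShift (i.val + 1) W)) := by
      funext x
      simp only [mask, rev]
      by_cases hx : x.val < i'.val
      · rw [if_pos hx, if_pos hx, if_pos (by omega), if_pos hx]
        congr 1
        have h3 : (ix (i'.val - 1 - x.val) : Fin (2 * t + 2)).val = i'.val - 1 - x.val :=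
          pfIx_val (by omega)
        simp only [pfShift, h3]
        congr 2
        omega
      · rw [if_neg hx, if_neg hx]
    rw [vote, h1, h2]
  have hE2 : ∀ (u : V) (W : Wd J t), G.vote A i u (rev G.inv i.val W) =
      A (G.walk u (rev G.inv i.val W) i.val) i (mask i.val W) := by
    intro u W
    rw [vote, rev_rev G.inv_inv (by omega)]
  -- change of variables
  have hcount : (univ.filter fun p : V × Wd J t =>
        (G.walk p.1 p.2 i.val, p.2 (ix i.val)) ∈ F ∧
        A p.1 i (mask i.val p.2) = s (G.walk p.1 p.2 i.val) ∧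
        A (G.walk p.1 p.2 (i.val + i'.val + 1)) i'
          (mask i'.val (rev G.inv (i.val + i'.val + 1) p.2)) =
          s (G.walk p.1 p.2 (i.val + 1))).card =
      (univ.filter fun p : V × Wd J t => (p.1, p.2 (ix i.val)) ∈ F ∧
        G.vote A i p.1 (rev G.inv i.val p.2) = s p.1 ∧
        G.vote A i' (G.nb p.1 (p.2 (ix i.val))) (pfShift (i.val + 1) p.2) =
          s (G.nb p.1 (p.2 (ix i.val)))).card := by
    refine Finset.card_nbij' (fun p => (G.walk p.1 p.2 i.val, p.2))
      (fun p => (G.walk p.1 (rev G.inv i.val p.2) i.val, p.2)) ?_ ?_ ?_ ?_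
    · rintro ⟨z, W⟩ h
      simp only [coe_filter, mem_univ, true_and, Set.mem_ofPred_eq] at h ⊢
      obtain ⟨h1, h2, h3⟩ := h
      refine ⟨h1, ?_, ?_⟩
      · rw [hE2, G.walk_rev z W (by omega) le_rfl]
        simpa [walk] using h2
      · rw [hE3] at h3
        exact h3
    · rintro ⟨u, W⟩ h
      simp only [coe_filter, mem_univ, true_and, Set.mem_ofPred_eq] at h ⊢
      obtain ⟨h1, h2, h3⟩ := h
      have h4 : G.walk (G.walk u (rev G.inv i.val W) i.val) W i.val = u := by
        have h5 := G.walk_rev u (rev G.inv i.val W) (k := i.val) (i := i.val) (by omega) le_rfl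
        rw [rev_rev G.inv_inv (by omega)] at h5
        simpa [walk] using h5
      have h6 : G.walk (G.walk u (rev G.inv i.val W) i.val) W (i.val + 1) =
          G.nb u (W (ix i.val)) := by
        simp only [walk]
        rw [h4]
      rw [hE3, h4, h6]
      rw [hE2] at h2
      exact ⟨h1, h2, h3⟩
    · rintro ⟨z, W⟩ _
      have h5 := G.walk_rev z W (k := i.val) (i := i.val) (by omega) le_rfl
      simp only [Nat.sub_self, walk] at h5
      simp only [h5]
    · rintro ⟨u, W⟩ _
      have h5 := G.walk_rev u (rev G.inv i.val W) (k := i.val) (i := i.val) (by omega) le_rfl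
      rw [rev_rev G.inv_inv (by omega)] at h5
      simp only [Nat.sub_self, walk] at h5
      simp only [h5]
  rw [hcount]
  -- the fibres
  rw [Finset.card_eq_sum_card_fiberwise (f := fun p : V × Wd J t => (p.1, p.2 (ix i.val)))
    (t := F) (fun p hp => by
      simp only [coe_filter, mem_univ, true_and, Set.mem_ofPred_eq] at hp
      exact hp.1)]
  rw [Finset.mul_sum]
  refine Finset.sum_congr rfl fun q hq => ?_
  obtain ⟨u, j⟩ := q
  have hfib : (((univ.filter fun p : V × Wd J t => (p.1, p.2 (ix i.val)) ∈ F ∧
        G.vote A i p.1 (rev G.inv i.val p.2) = s p.1 ∧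
        G.vote A i' (G.nb p.1 (p.2 (ix i.val))) (pfShift (i.val + 1) p.2) =
          s (G.nb p.1 (p.2 (ix i.val)))).filter
            fun p : V × Wd J t => (p.1, p.2 (ix i.val)) = (u, j))).card =
      (univ.filter fun W : Wd J t => W (ix i.val) = j ∧
        G.vote A i u (rev G.inv i.val W) = s u ∧
        G.vote A i' (G.nb u j) (pfShift (i.val + 1) W) = s (G.nb u j)).card := by
    refine Finset.card_nbij' (fun p => p.2) (fun W => (u, W)) ?_ ?_ ?_ ?_
    · rintro ⟨z, W⟩ h
      simp only [coe_filter, mem_filter, mem_univ, true_and, Set.mem_ofPred_eq, Prod.mk.injEq] at h ⊢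
      obtain ⟨⟨h1, h2, h3⟩, rfl, rfl⟩ := h
      exact ⟨rfl, h2, h3⟩
    · rintro W h
      simp only [coe_filter, mem_filter, mem_univ, true_and, Set.mem_ofPred_eq, Prod.mk.injEq] at h ⊢
      obtain ⟨rfl, h2, h3⟩ := h
      exact ⟨⟨hq, h2, h3⟩, rfl⟩
    · rintro ⟨z, W⟩ h
      simp only [coe_filter, mem_filter, mem_univ, true_and, Set.mem_ofPred_eq, Prod.mk.injEq] at h ⊢
      obtain ⟨_, rfl, rfl⟩ := h
      trivial
    · rintro W _
      rfl
  rw [hfib]
  have hind := indep3 (ι := Fin (2 * t + 2)) (ix i.val) j (fun x => x.val < i.val)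
    (fun x => x.val ≤ i.val) (by rw [pfIx_val (by omega)]; omega)
    (by rw [pfIx_val (by omega)]) (fun y hy => le_of_lt hy)
    (fun W => G.vote A i u (rev G.inv i.val W) = s u)
    (fun W => G.vote A i' (G.nb u j) (pfShift (i.val + 1) W) = s (G.nb u j))
    (fun W W' h hW => by
      rw [← G.vote_congr A i u (rev G.inv i.val W) (rev G.inv i.val W') ?_]
      · exact hW
      · intro x hx
        simp only [rev, if_pos hx]
        rw [h]
        rw [pfIx_val (by omega)]
        omega)
    (fun W W' h hW => by
      rw [← G.vote_congr A i' (G.nb u j) (pfShift (i.val + 1) W) (pfShift (i.val + 1) W') ?_]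
      · exact hW
      · intro x hx
        simp only [pfShift]
        apply h
        rw [pfIx_val (by omega)]
        omega)
  rw [hind]
  congr 1
  · rw [cnt]
    refine Finset.card_nbij' (fun W => rev G.inv i.val W) (fun W => rev G.inv i.val W) ?_ ?_ ?_ ?_
    · intro W h
      simpa using h
    · intro W h
      simp only [coe_filter, mem_univ, true_and, Set.mem_ofPred_eq] at h ⊢
      rw [rev_rev G.inv_inv (by omega)]
      exact h
    · intro W _
      exact rev_rev G.inv_inv (by omega) W
    · intro W _
      exact rev_rev G.inv_inv (by omega) W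
  · rw [cnt]
    refine Finset.card_nbij' (fun W => pfShift (i.val + 1) W)
      (fun W => pfShift (2 * t + 2 - (i.val + 1)) W) ?_ ?_ ?_ ?_
    · intro W h
      simpa using h
    · intro W h
      simp only [coe_filter, mem_univ, true_and, Set.mem_ofPred_eq] at h ⊢
      rw [pfShift_shift _ _ (by omega)]
      exact h
    · intro W _
      exact pfShift_shift _ _ (by omega) W
    · intro W _
      exact pfShift_shift _ _ (by omega) W

end PG

end Pool.Agent.PCP
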