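import Pool.Agent.PCP.Pow

/-! # Reversed walks (package P1), and the power -/

set_option autoImplicit false

namespace Pool.Agent.PCP

open Finset

variable {V J S : Type} {t : ℕ}

private lemma ix_val' {j : ℕ} (hj : j < 2 * t + 2) : (ix (t := t) j).val = j :=
  Nat.mod_eq_of_lt hj

private lemma ix_self' (i : Fin (2 * t + 2)) : ix i.val = i :=
  Fin.ext (ix_val' i.2)

private lemma rev_apply' (inv : J → J) {k : ℕ} (W : Wd J t) {j : ℕ} (hj : j < k)
    (hk : k ≤ 2 * t + 2) : rev inv k W (ix j) = inv (W (ix (k - 1 - j))) := by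
  unfold rev
  rw [ix_val' (by omega), if_pos hj]

theorem rev_rev {inv : J → J} (h : ∀ j, inv (inv j) = j) {k : ℕ} (hk : k ≤ 2 * t + 2)
    (W : Wd J t) : rev inv k (rev inv k W) = W := by
  funext i
  by_cases hi : i.val < k
  · have h1 : rev inv k (rev inv k W) i = inv (rev inv k W (ix (k - 1 - i.val))) := by
      conv_lhs => unfold rev
      rw [if_pos hi]
      rfl
    rw [h1, rev_apply' inv W (by omega) hk, h]
    have h2 : k - 1 - (k - 1 - i.val) = i.val := by omega
    rw [h2, ix_self']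
  · unfold rev
    rw [if_neg hi, if_neg hi]

theorem mask_mask [Inhabited J] {k l : ℕ} (h : k ≤ l) (W : Wd J t) :
    mask k (mask l W) = mask k W := by
  funext i
  unfold mask
  split_ifs with h1 h2
  · rfl
  · omega
  · rfl

namespace PG

theorem walk_congr (G : PG V J S) (z : V) (W W' : Wd J t) (k : ℕ) (hk : k ≤ 2 * t + 2)
    (h : ∀ i : Fin (2 * t + 2), i.val < k → W i = W' i) : G.walk z W k = G.walk z W' k := by
  induction k with
  | zero => rfl
  | succ k ih =>
    change G.nb (G.walk z W k) (W (ix k)) = G.nb (G.walk z W' k) (W' (ix k))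
    rw [ih (by omega) fun i hi => h i (by omega), h (ix k) (by rw [ix_val' (by omega)]; omega)]

theorem walk_mask [Inhabited J] (G : PG V J S) (z : V) (W : Wd J t) (k : ℕ)
    (hk : k ≤ 2 * t + 2) : G.walk z (mask k W) k = G.walk z W k := by
  refine G.walk_congr z _ _ k hk fun i hi => ?_
  unfold mask
  rw [if_pos hi]

/-- Walking back. -/
theorem walk_rev (G : PG V J S) (z : V) (W : Wd J t) {k i : ℕ} (hk : k ≤ 2 * t + 2) (hi : i ≤ k) :
    G.walk (G.walk z W k) (rev G.inv k W) i = G.walk z W (k - i) := by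
  induction i with
  | zero => rfl
  | succ i ih =>
    change G.nb (G.walk (G.walk z W k) (rev G.inv k W) i) (rev G.inv k W (ix i)) = _
    rw [ih (by omega), rev_apply' G.inv W (by omega) hk]
    have h1 : k - i = (k - (i + 1)) + 1 := by omega
    have h2 : k - 1 - i = k - (i + 1) := by omega
    rw [h1, h2]
    exact G.nb_inv _ _

/-- The constraints of the power are symmetric. -/
theorem pow_rel_symm [Inhabited J] (G : PG V J S) (z : V) (p : J1 J t) (a b : X1 J S t)
    (h : ∀ i i' : Fin (t + 1), i.val + i'.val = p.2.val →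
      G.rel (G.walk z p.1 i.val) (p.1 (ix i.val)) (a i (mask i.val p.1))
        (b i' (mask i'.val (rev G.inv (p.2.val + 1) p.1)))) :
    ∀ i i' : Fin (t + 1), i.val + i'.val = p.2.val →
      G.rel (G.walk (G.walk z p.1 (p.2.val + 1)) (rev G.inv (p.2.val + 1) p.1) i.val)
        (rev G.inv (p.2.val + 1) p.1 (ix i.val))
        (b i (mask i.val (rev G.inv (p.2.val + 1) p.1)))
        (a i' (mask i'.val (rev G.inv (p.2.val + 1) (rev G.inv (p.2.val + 1) p.1)))) := by
  intro i i' hii
  have hl : p.2.val + 1 ≤ 2 * t + 2 := p.2.2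
  rw [rev_rev G.inv_inv hl, G.walk_rev z p.1 hl (by omega), rev_apply' G.inv p.1 (by omega) hl]
  have h1 : p.2.val + 1 - i.val = i'.val + 1 := by omega
  have h2 : p.2.val + 1 - 1 - i.val = i'.val := by omega
  rw [h1, h2]
  exact G.rel_symm _ _ _ _ (h i' i (by omega))

/-- The power of a ported constraint graph.  On the path `v₀, …, v_{ℓ+1}` all steps `v_i → v_{i+1}`
with `i ≤ t` and `ℓ - i ≤ t` are checked, with the opinion of `v₀` on `v_i` and that of `v_{ℓ+1}`
on `v_{i+1}`. -/
def Pow [Inhabited J] (G : PG V J S) (t : ℕ) : PG V (J1 J t) (X1 J S t) where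
  nb z p := G.walk z p.1 (p.2.val + 1)
  inv p := (rev G.inv (p.2.val + 1) p.1, p.2)
  nb_inv z p := by
    have := G.walk_rev z p.1 (k := p.2.val + 1) (i := p.2.val + 1) p.2.2 le_rfl
    simpa [walk] using this
  inv_inv p := by
    have := rev_rev (t := t) G.inv_inv (k := p.2.val + 1) p.2.2 p.1
    simp [this]
  rel z p a b := ∀ i i' : Fin (t + 1), i.val + i'.val = p.2.val →
    G.rel (G.walk z p.1 i.val) (p.1 (ix i.val)) (a i (mask i.val p.1))
      (b i' (mask i'.val (rev G.inv (p.2.val + 1) p.1)))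
  rel_symm z p a b h := G.pow_rel_symm z p a b h

/-- Completeness of powering: the opinions are the symbols of an assignment. -/
theorem pow_sat [Inhabited J] (G : PG V J S) (t : ℕ) (h : G.Sat) : (G.Pow t).Sat := by
  obtain ⟨σ, hσ⟩ := h
  refine ⟨fun z i W => σ (G.walk z W i.val), fun z p => ?_⟩
  intro i i' hii
  have hl : p.2.val + 1 ≤ 2 * t + 2 := p.2.2
  have h1 : G.walk z (mask i.val p.1) i.val = G.walk z p.1 i.val :=
    G.walk_mask z p.1 i.val (by omega)
  have h2 : G.walk (G.walk z p.1 (p.2.val + 1)) (mask i'.val (rev G.inv (p.2.val + 1) p.1))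
      i'.val = G.nb (G.walk z p.1 i.val) (p.1 (ix i.val)) := by
    rw [G.walk_mask _ _ _ (by omega), G.walk_rev z p.1 hl (by omega)]
    have h3 : p.2.val + 1 - i'.val = i.val + 1 := by omega
    rw [h3]
    rfl
  change G.rel (G.walk z p.1 i.val) (p.1 (ix i.val)) (σ (G.walk z (mask i.val p.1) i.val))
    (σ (G.walk (G.walk z p.1 (p.2.val + 1)) (mask i'.val (rev G.inv (p.2.val + 1) p.1)) i'.val))
  rw [h1, h2]
  exact hσ _ _

end PG

end Pool.Agent.PCP
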