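import Pool.Agent.PCP.PowRev

/-! # Soundness of powering, second moment (package P3) -/

set_option autoImplicit false

namespace Pool.Agent.PCP

open Finset

variable {V J S : Type} {t : ℕ}

open Classical in
/-- Indicator function of a set of ports. -/
private noncomputable def sInd (F : Finset (V × J)) (p : V × J) : ℝ := if p ∈ F then 1 else 0

private theorem sInd_nonneg (F : Finset (V × J)) (p : V × J) : 0 ≤ sInd F p := by
  unfold sInd; split_ifs <;> norm_num

private theorem sInd_le (F : Finset (V × J)) (p : V × J) : sInd F p ≤ 1 := by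
  unfold sInd; split_ifs <;> norm_num

private theorem sInd_sum [Fintype V] [Fintype J] (F : Finset (V × J)) :
    ∑ j, ∑ u, sInd F (u, j) = F.card := by
  classical
  rw [Finset.sum_comm, ← Fintype.sum_prod_type' (f := fun u j => sInd F (u, j))]
  unfold sInd
  simp

/-- Averaging over one letter. -/
private theorem sMarg [Fintype J] (c : Fin (2 * t + 2)) (Φ : Wd J t → J → ℝ)
    (h : ∀ W j j', Φ (Function.update W c j') j = Φ W j) :
    (Fintype.card J : ℝ) * ∑ W, Φ W (W c) = ∑ W, ∑ j, Φ W j := by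
  let e : Wd J t × J ≃ Wd J t × J :=
    { toFun := fun p => (Function.update p.1 c p.2, p.1 c)
      invFun := fun p => (Function.update p.1 c p.2, p.1 c)
      left_inv := by rintro ⟨W, j⟩; simp
      right_inv := by rintro ⟨W, j⟩; simp }
  have h1 : ∑ p : Wd J t × J, Φ p.1 p.2 = ∑ p : Wd J t × J, Φ p.1 (p.1 c) := by
    rw [← Equiv.sum_comp e]
    refine Finset.sum_congr rfl fun p _ => ?_
    exact h p.1 (p.1 c) p.2
  rw [Fintype.sum_prod_type, Fintype.sum_prod_type] at h1
  rw [h1, Finset.mul_sum]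
  refine Finset.sum_congr rfl fun W _ => ?_
  simp

private theorem ix_val {m : ℕ} (hm : m < 2 * t + 2) : (ix m : Fin (2 * t + 2)).val = m :=
  Nat.mod_eq_of_lt hm

private theorem ix_ne {i m : ℕ} (him : i < m) (hm : m < 2 * t + 2) :
    (ix i : Fin (2 * t + 2)) ≠ ix m := by
  intro h
  have := congrArg Fin.val h
  rw [ix_val hm, ix_val (him.trans hm)] at this
  omega

namespace PG

private theorem walk_update (G : PG V J S) (z : V) (W : Wd J t) {l m : ℕ} (hl : l ≤ m)
    (hm : m < 2 * t + 2) (j : J) :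
    G.walk z (Function.update W (ix m) j) l = G.walk z W l := by
  apply G.walk_congr _ _ _ _ (by omega)
  intro i hi
  rw [Function.update_of_ne]
  intro h
  have := congrArg Fin.val h
  rw [ix_val hm] at this
  omega

private theorem walk_bij (G : PG V J S) (W : Wd J t) (i : ℕ) :
    Function.Bijective (fun z => G.walk z W i) := by
  induction i with
  | zero => exact Function.bijective_id
  | succ i ih => exact (G.perm (W (ix i))).bijective.comp ih

private theorem sum_walk [Fintype V] (G : PG V J S) (W : Wd J t) (i : ℕ) (f : V → ℝ) :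
    ∑ z, f (G.walk z W i) = ∑ u, f u :=
  (G.walk_bij W i).sum_comp f

/-- The adjacency operator. -/
private noncomputable def sOp [Fintype J] (G : PG V J S) (f : V → ℝ) : V → ℝ :=
  fun v => ∑ j, f (G.nb v j)

/-- The weighted sum over the paths whose `i`-th step is in `F`. -/
private noncomputable def sS [Fintype V] [Fintype J] (G : PG V J S) (t : ℕ) (F : Finset (V × J))
    (i m : ℕ) (h : V → ℝ) : ℝ :=
  ∑ W : Wd J t, ∑ z, sInd F (G.walk z W i, W (ix i)) * h (G.walk z W m)

private theorem sS_step [Fintype V] [Fintype J] (G : PG V J S) (F : Finset (V × J)) {i m : ℕ}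
    (him : i < m) (hm : m < 2 * t + 2) (h : V → ℝ) :
    (Fintype.card J : ℝ) * G.sS t F i (m + 1) h = G.sS t F i m (G.sOp h) := by
  have h1 := sMarg (t := t) (ix m) (fun W j =>
    ∑ z, sInd F (G.walk z W i, W (ix i)) * h (G.nb (G.walk z W m) j)) (by
      intro W j j'
      refine Finset.sum_congr rfl fun z _ => ?_
      rw [G.walk_update z W him.le hm, G.walk_update z W le_rfl hm,
        Function.update_of_ne (ix_ne him hm)])
  unfold sS
  have h2 : ∀ (z : V) (W : Wd J t), G.walk z W (m + 1) = G.nb (G.walk z W m) (W (ix m)) :=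
    fun z W => rfl
  simp only [h2]
  rw [h1]
  refine Finset.sum_congr rfl fun W _ => ?_
  rw [Finset.sum_comm]
  refine Finset.sum_congr rfl fun z _ => ?_
  rw [← Finset.mul_sum]
  rfl

private theorem sS_first [Fintype V] [Fintype J] (G : PG V J S) (F : Finset (V × J)) {i : ℕ}
    (h : V → ℝ) :
    (Fintype.card J : ℝ) * G.sS t F i (i + 1) h =
      Fintype.card (Wd J t) * ∑ j, ∑ u, sInd F (u, j) * h (G.nb u j) := by
  have h1 := sMarg (t := t) (ix i) (fun _ j => ∑ u, sInd F (u, j) * h (G.nb u j)) (by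
    intro W j j'
    rfl)
  have h3 : G.sS t F i (i + 1) h = ∑ W : Wd J t, ∑ u, sInd F (u, W (ix i)) *
      h (G.nb u (W (ix i))) := by
    unfold sS
    refine Finset.sum_congr rfl fun W _ => ?_
    exact G.sum_walk W i (fun u => sInd F (u, W (ix i)) * h (G.nb u (W (ix i))))
  rw [h3, h1]
  simp

open Classical in
/-- Every step of a random path is a uniformly random port. -/
theorem step_count [Fintype V] [Fintype J] (G : PG V J S) (F : Finset (V × J)) {i : ℕ}
    (hi : i < 2 * t + 2) :
    Fintype.card J * (univ.filter fun p : V × Wd J t =>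
      (G.walk p.1 p.2 i, p.2 (ix i)) ∈ F).card = Fintype.card (Wd J t) * F.card := by
  have h0 : (((univ.filter fun p : V × Wd J t =>
      (G.walk p.1 p.2 i, p.2 (ix i)) ∈ F).card : ℕ) : ℝ) = G.sS t F i (i + 1) (fun _ => 1) := by
    unfold sS sInd
    rw [Finset.sum_comm, ← Fintype.sum_prod_type'
      (f := fun (z : V) (W : Wd J t) => (if (G.walk z W i, W (ix i)) ∈ F then (1 : ℝ) else 0) * 1)]
    simp
  have h1 := G.sS_first (t := t) F (i := i) (fun _ => 1)
  rw [← h0] at h1
  simp only [mul_one] at h1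
  rw [sInd_sum] at h1
  exact_mod_cast h1

private theorem sS_count [Fintype V] [Fintype J] (G : PG V J S) (F : Finset (V × J)) {i k : ℕ}
    (hik : i < k) (hk : k < 2 * t + 2) :
    (Fintype.card J : ℝ) * ∑ W : Wd J t, ∑ z, sInd F (G.walk z W i, W (ix i)) *
      sInd F (G.walk z W k, W (ix k)) = G.sS t F i k (fun v => ∑ j, sInd F (v, j)) := by
  have h1 := sMarg (t := t) (ix k) (fun W j =>
    ∑ z, sInd F (G.walk z W i, W (ix i)) * sInd F (G.walk z W k, j)) (by
      intro W j j'
      refine Finset.sum_congr rfl fun z _ => ?_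
      rw [G.walk_update z W hik.le hk, G.walk_update z W le_rfl hk,
        Function.update_of_ne (ix_ne hik hk)])
  rw [h1]
  unfold sS
  refine Finset.sum_congr rfl fun W _ => ?_
  rw [Finset.sum_comm]
  refine Finset.sum_congr rfl fun z _ => ?_
  rw [← Finset.mul_sum]

private theorem sS_iter [Fintype V] [Fintype J] (G : PG V J S) (F : Finset (V × J)) {i : ℕ}
    (m : ℕ) (hm : i + 1 + m < 2 * t + 2) (h : V → ℝ) :
    (Fintype.card J : ℝ) ^ m * G.sS t F i (i + 1 + m) h = G.sS t F i (i + 1) (G.sOp^[m] h) := by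
  induction m generalizing h with
  | zero => simp
  | succ m ih =>
    rw [pow_succ, mul_assoc, ← add_assoc, G.sS_step F (by omega) (by omega), ih (by omega),
      Function.iterate_succ_apply]

/-- The number of `F`-ports leading to a vertex. -/
private noncomputable def sA [Fintype J] (G : PG V J S) (F : Finset (V × J)) (v : V) : ℝ :=
  ∑ j, sInd F ((G.perm j).symm v, j)

private theorem sA_sum_mul [Fintype V] [Fintype J] (G : PG V J S) (F : Finset (V × J))
    (h : V → ℝ) : ∑ j, ∑ u, sInd F (u, j) * h (G.nb u j) = ∑ v, G.sA F v * h v := by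
  unfold sA
  simp only [Finset.sum_mul]
  rw [Finset.sum_comm (s := (univ : Finset V))]
  refine Finset.sum_congr rfl fun j _ => ?_
  have h1 := Equiv.sum_comp (G.perm j) (fun v => sInd F ((G.perm j).symm v, j) * h v)
  rw [← h1]
  refine Finset.sum_congr rfl fun u _ => ?_
  rw [Equiv.symm_apply_apply, perm_apply]

private theorem sA_sum [Fintype V] [Fintype J] (G : PG V J S) (F : Finset (V × J)) :
    ∑ v, G.sA F v = F.card := by
  have h := G.sA_sum_mul F (fun _ => 1)
  simp only [mul_one] at h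
  rw [← h, sInd_sum]

private theorem sum_sq_le {ι : Type} [Fintype ι] (a : ι → ℝ) (c : ℝ) (h0 : ∀ v, 0 ≤ a v)
    (h1 : ∀ v, a v ≤ c) : ∑ v, a v ^ 2 ≤ c * ∑ v, a v := by
  rw [Finset.mul_sum]
  refine Finset.sum_le_sum fun v _ => ?_
  nlinarith [h0 v, h1 v]

private theorem sA_sq [Fintype V] [Fintype J] (G : PG V J S) (F : Finset (V × J)) :
    ∑ v, G.sA F v ^ 2 ≤ Fintype.card J * F.card := by
  rw [← G.sA_sum F]
  apply sum_sq_le
  · intro v
    exact Finset.sum_nonneg fun j _ => sInd_nonneg _ _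
  · intro v
    have : ∑ j : J, sInd F ((G.perm j).symm v, j) ≤ ∑ _j : J, (1 : ℝ) :=
      Finset.sum_le_sum fun j _ => sInd_le _ _
    simpa [sA] using this

private theorem sB_sq [Fintype V] [Fintype J] (F : Finset (V × J)) :
    ∑ v, (∑ j, sInd F (v, j)) ^ 2 ≤ Fintype.card J * F.card := by
  rw [← sInd_sum F, Finset.sum_comm (s := (univ : Finset J))]
  apply sum_sq_le
  · intro v
    exact Finset.sum_nonneg fun j _ => sInd_nonneg _ _
  · intro v
    have : ∑ j : J, sInd F (v, j) ≤ ∑ _j : J, (1 : ℝ) :=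
      Finset.sum_le_sum fun j _ => sInd_le _ _
    simpa using this

private theorem sOp_sum [Fintype V] [Fintype J] (G : PG V J S) (f : V → ℝ) :
    ∑ v, G.sOp f v = Fintype.card J * ∑ v, f v := by
  unfold sOp
  rw [Finset.sum_comm]
  have : ∀ j : J, ∑ v, f (G.nb v j) = ∑ v, f v := fun j => Equiv.sum_comp (G.perm j) f
  simp [this]

private theorem sOp_iter_sum [Fintype V] [Fintype J] (G : PG V J S) {f : V → ℝ}
    (hf : ∑ v, f v = 0) (m : ℕ) : ∑ v, G.sOp^[m] f v = 0 := by
  induction m with
  | zero => simpa using hf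
  | succ m ih => rw [Function.iterate_succ_apply', G.sOp_sum, ih, mul_zero]

private theorem sOp_iter_sq [Fintype V] [Fintype J] (G : PG V J S) {r : ℝ} (hE : G.Expander r)
    {f : V → ℝ} (hf : ∑ v, f v = 0) (m : ℕ) :
    ∑ v, G.sOp^[m] f v ^ 2 ≤ ((r * Fintype.card J) ^ m) ^ 2 * ∑ v, f v ^ 2 := by
  induction m with
  | zero => simp
  | succ m ih =>
    rw [Function.iterate_succ_apply']
    refine (hE _ (G.sOp_iter_sum hf m)).trans ?_
    have h1 := mul_le_mul_of_nonneg_left ih (sq_nonneg (r * (Fintype.card J : ℝ)))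
    refine h1.trans (le_of_eq ?_)
    ring

private theorem sOp_iter_add [Fintype J] (G : PG V J S) (β : ℝ) (g : V → ℝ) (m : ℕ) (v : V) :
    G.sOp^[m] (fun v => β + g v) v = β * (Fintype.card J : ℝ) ^ m + G.sOp^[m] g v := by
  induction m generalizing v with
  | zero => simp
  | succ m ih =>
    rw [Function.iterate_succ_apply', Function.iterate_succ_apply']
    show ∑ j, G.sOp^[m] (fun v => β + g v) (G.nb v j) = _
    simp only [ih]
    rw [Finset.sum_add_distrib]
    simp only [Finset.sum_const, Finset.card_univ, nsmul_eq_mul]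
    unfold sOp
    ring

open Classical in
/-- Proof sketch.  Re-centre at `u = walk z W i` (bijection for fixed `W`); the count is
`|J|^(n-(k-i+1)) ⟨a, P^(k-i-1) b⟩`, where `n = 2t+2`, `b v = #{j | (v,j) ∈ F}`,
`a v = #{(u,j) ∈ F | nb u j = v}`, `(P f) v = ∑ j, f (nb v j)`.  Write `b = |F|/|V| + g`, `∑ g = 0`;
`P` of a constant is `|J|` times it, `P` preserves sum zero (all ports are permutations), so by
`Expander` `‖P^m g‖ ≤ (r |J|)^m ‖g‖`, and `‖a‖², ‖b‖² ≤ |J| |F|` (both are `≤ |J|` pointwise),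
`∑ a = |F|`. -/
theorem second_count [Fintype V] [Fintype J] (G : PG V J S) {r : ℝ} (hr : 0 ≤ r)
    (hE : G.Expander r) (F : Finset (V × J)) {i k : ℕ} (hik : i < k) (hk : k < 2 * t + 2) :
    (Fintype.card V : ℝ) * (Fintype.card J) ^ 2 *
      ((univ.filter fun p : V × Wd J t => (G.walk p.1 p.2 i, p.2 (ix i)) ∈ F ∧
        (G.walk p.1 p.2 k, p.2 (ix k)) ∈ F).card : ℝ) ≤
      Fintype.card (Wd J t) *
        ((F.card : ℝ) ^ 2 + r ^ (k - i - 1) * (Fintype.card V * Fintype.card J * F.card)) := by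
  set c : ℝ := ((univ.filter fun p : V × Wd J t => (G.walk p.1 p.2 i, p.2 (ix i)) ∈ F ∧
        (G.walk p.1 p.2 k, p.2 (ix k)) ∈ F).card : ℝ) with hc
  have hc' : c = ∑ W : Wd J t, ∑ z, sInd F (G.walk z W i, W (ix i)) *
      sInd F (G.walk z W k, W (ix k)) := by
    unfold sInd
    rw [Finset.sum_comm, ← Fintype.sum_prod_type'
      (f := fun (z : V) (W : Wd J t) => (if (G.walk z W i, W (ix i)) ∈ F then (1 : ℝ) else 0) *
        (if (G.walk z W k, W (ix k)) ∈ F then (1 : ℝ) else 0))]
    rw [hc, Finset.card_filter]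
    push_cast
    refine Finset.sum_congr rfl fun p _ => ?_
    by_cases h1 : (G.walk p.1 p.2 i, p.2 (ix i)) ∈ F <;>
      by_cases h2 : (G.walk p.1 p.2 k, p.2 (ix k)) ∈ F <;> simp [h1, h2]
  rcases Nat.eq_zero_or_pos (Fintype.card J) with hJ | hJ
  · have h1 : (Fintype.card J : ℝ) = 0 := by exact_mod_cast hJ
    rw [h1]
    have : (0 : ℝ) ≤ Fintype.card (Wd J t) *
        ((F.card : ℝ) ^ 2 + r ^ (k - i - 1) * (Fintype.card V * 0 * F.card)) := by positivity
    simpa using this
  rcases Nat.eq_zero_or_pos (Fintype.card V) with hV | hV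
  · have h1 : (Fintype.card V : ℝ) = 0 := by exact_mod_cast hV
    rw [h1]
    have : (0 : ℝ) ≤ Fintype.card (Wd J t) *
        ((F.card : ℝ) ^ 2 + r ^ (k - i - 1) * (0 * Fintype.card J * F.card)) := by positivity
    simpa using this
  have hJ' : (0 : ℝ) < Fintype.card J := by exact_mod_cast hJ
  have hV' : (0 : ℝ) < Fintype.card V := by exact_mod_cast hV
  obtain ⟨m, rfl⟩ : ∃ m, k = i + 1 + m := ⟨k - (i + 1), by omega⟩
  have hm : i + 1 + m - i - 1 = m := by omega
  rw [hm]
  -- the identity for the count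
  set b : V → ℝ := fun v => ∑ j, sInd F (v, j) with hb
  have e1 : (Fintype.card J : ℝ) ^ (m + 2) * c =
      Fintype.card (Wd J t) * ∑ v, G.sA F v * G.sOp^[m] b v := by
    have h1 := G.sS_count (t := t) F hik hk
    rw [← hc'] at h1
    have h2 := G.sS_iter (t := t) F (i := i) m hk b
    have h3 := G.sS_first (t := t) F (i := i) (G.sOp^[m] b)
    rw [G.sA_sum_mul] at h3
    rw [← h3, ← h2, ← h1]
    ring
  -- splitting off the constant part
  set β : ℝ := (F.card : ℝ) / Fintype.card V with hβ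
  set g : V → ℝ := fun v => b v - β with hg
  have hbsum : ∑ v, b v = F.card := by
    rw [← sInd_sum F, Finset.sum_comm (s := (univ : Finset J))]
  have hgsum : ∑ v, g v = 0 := by
    rw [hg, Finset.sum_sub_distrib, hbsum]
    simp only [Finset.sum_const, Finset.card_univ, nsmul_eq_mul]
    rw [hβ]
    field_simp
    ring
  have hbg : b = fun v => β + g v := by
    funext v
    rw [hg]
    ring
  have hgsq : ∑ v, g v ^ 2 ≤ Fintype.card J * F.card := by
    refine le_trans ?_ (sB_sq F)
    have h1 : ∑ v, b v ^ 2 = ∑ v, g v ^ 2 + Fintype.card V * β ^ 2 := by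
      have h2 : ∀ v, b v ^ 2 = g v ^ 2 + 2 * β * g v + β ^ 2 := by
        intro v
        rw [hg]
        ring
      simp only [h2]
      rw [Finset.sum_add_distrib, Finset.sum_add_distrib, ← Finset.mul_sum, hgsum]
      simp
    rw [h1]
    have : 0 ≤ (Fintype.card V : ℝ) * β ^ 2 := by positivity
    linarith
  have e2 : ∑ v, G.sA F v * G.sOp^[m] b v =
      (F.card : ℝ) * (β * (Fintype.card J : ℝ) ^ m) + ∑ v, G.sA F v * G.sOp^[m] g v := by
    rw [hbg]
    simp only [G.sOp_iter_add, mul_add]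
    rw [Finset.sum_add_distrib, ← Finset.sum_mul, G.sA_sum]
  have e3 : ∑ v, G.sA F v * G.sOp^[m] g v ≤
      (r * Fintype.card J) ^ m * (Fintype.card J * F.card) := by
    have h1 : (∑ v, G.sA F v * G.sOp^[m] g v) ^ 2 ≤
        (∑ v, G.sA F v ^ 2) * ∑ v, G.sOp^[m] g v ^ 2 :=
      Finset.sum_mul_sq_le_sq_mul_sq _ _ _
    have h2 := G.sOp_iter_sq hE hgsum m
    have h3 := G.sA_sq F
    have h4 : (∑ v, G.sA F v * G.sOp^[m] g v) ^ 2 ≤
        ((r * Fintype.card J) ^ m * (Fintype.card J * F.card)) ^ 2 := by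
      refine h1.trans ?_
      have h5 : 0 ≤ ∑ v, G.sOp^[m] g v ^ 2 := Finset.sum_nonneg fun v _ => sq_nonneg _
      have h6 : (0 : ℝ) ≤ (Fintype.card J : ℝ) * F.card := by positivity
      calc (∑ v, G.sA F v ^ 2) * ∑ v, G.sOp^[m] g v ^ 2
          ≤ ((Fintype.card J : ℝ) * F.card) *
            (((r * Fintype.card J) ^ m) ^ 2 * ((Fintype.card J : ℝ) * F.card)) := by
            apply mul_le_mul h3 _ h5 h6
            exact h2.trans (mul_le_mul_of_nonneg_left hgsq (sq_nonneg _))
        _ = ((r * Fintype.card J) ^ m * (Fintype.card J * F.card)) ^ 2 := by ring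
    exact (le_abs_self _).trans (abs_le_of_sq_le_sq h4 (by positivity))
  -- conclusion
  have e4 : (Fintype.card J : ℝ) ^ m * ((Fintype.card V : ℝ) * (Fintype.card J) ^ 2 * c) ≤
      (Fintype.card J : ℝ) ^ m * (Fintype.card (Wd J t) *
        ((F.card : ℝ) ^ 2 + r ^ m * (Fintype.card V * Fintype.card J * F.card))) := by
    have h1 : (Fintype.card J : ℝ) ^ m * ((Fintype.card V : ℝ) * (Fintype.card J) ^ 2 * c) =
        Fintype.card V * ((Fintype.card J : ℝ) ^ (m + 2) * c) := by ring
    rw [h1, e1, e2]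
    have h2 : (Fintype.card V : ℝ) * β = F.card := by
      rw [hβ]
      field_simp
    have h3 : (Fintype.card V : ℝ) * (Fintype.card (Wd J t) *
        ((F.card : ℝ) * (β * (Fintype.card J : ℝ) ^ m) + ∑ v, G.sA F v * G.sOp^[m] g v)) =
        Fintype.card (Wd J t) * ((Fintype.card V * β) * F.card * (Fintype.card J : ℝ) ^ m +
          Fintype.card V * ∑ v, G.sA F v * G.sOp^[m] g v) := by ring
    rw [h3, h2]
    have h4 : (Fintype.card J : ℝ) ^ m * (Fintype.card (Wd J t) *
        ((F.card : ℝ) ^ 2 + r ^ m * (Fintype.card V * Fintype.card J * F.card))) =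
        Fintype.card (Wd J t) * (F.card * F.card * (Fintype.card J : ℝ) ^ m +
          Fintype.card V * ((r * Fintype.card J) ^ m * (Fintype.card J * F.card))) := by
      rw [mul_pow]
      ring
    rw [h4]
    apply mul_le_mul_of_nonneg_left _ (Nat.cast_nonneg _)
    have h5 := mul_le_mul_of_nonneg_left e3 hV'.le
    linarith
  exact le_of_mul_le_mul_left e4 (by positivity)

end PG

end Pool.Agent.PCP
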