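import Pool.Agent.PCP.PowFirst
import Pool.Agent.PCP.PowSecond

/-! # Soundness of powering (package P4) -/

set_option autoImplicit false

namespace Pool.Agent.PCP

open Finset

variable {V J S : Type}

namespace PG

/-- The checked step `i` is violated and both opinions agree with `s`. -/
private def psndQ [Inhabited J] {t : ℕ} (G : PG V J S) (A : V → X1 J S t) (s : V → S)
    (F : Finset (V × J)) (i i' : Fin (t + 1)) (p : V × Wd J t) : Prop :=
  (G.walk p.1 p.2 i.val, p.2 (ix i.val)) ∈ F ∧
    A p.1 i (mask i.val p.2) = s (G.walk p.1 p.2 i.val) ∧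
    A (G.walk p.1 p.2 (i.val + i'.val + 1)) i'
      (mask i'.val (rev G.inv (i.val + i'.val + 1) p.2)) =
      s (G.walk p.1 p.2 (i.val + 1))

private theorem psnd_geom {r : ℝ} (hr : 0 ≤ r) (hr1 : r < 1) (i n : ℕ) :
    ∑ k ∈ range n, (if i < k then r ^ (k - i - 1) else 0) ≤ 1 / (1 - r) := by
  have h1 : ∑ k ∈ range n, (if i < k then r ^ (k - i - 1) else 0) =
      ∑ m ∈ range (n - (i + 1)), r ^ m := by
    rw [← Finset.sum_filter]
    have : (range n).filter (fun k => i < k) = Ico (i + 1) n := by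
      ext k; simp only [mem_filter, mem_range, mem_Ico]; omega
    rw [this, Finset.sum_Ico_eq_sum_range]
    refine Finset.sum_congr rfl fun m _ => ?_
    congr 1; omega
  rw [h1, le_div_iff₀ (by linarith), mul_comm, mul_neg_geom_sum]
  have := pow_nonneg hr (n - (i + 1))
  linarith

private theorem psnd_geom' {r : ℝ} (hr : 0 ≤ r) (hr1 : r < 1) (i n : ℕ) :
    ∑ k ∈ range n, (if k < i then r ^ (i - k - 1) else 0) ≤ 1 / (1 - r) := by
  have h0 : ∑ k ∈ range n, (if k < i then r ^ (i - k - 1) else 0) ≤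
      ∑ k ∈ range i, r ^ (i - 1 - k) := by
    rw [← Finset.sum_filter]
    refine (Finset.sum_le_sum_of_subset_of_nonneg (t := range i) ?_ ?_).trans (le_of_eq ?_)
    · intro k hk
      exact mem_range.2 (mem_filter.1 hk).2
    · intro k _ _; exact pow_nonneg hr _
    · refine Finset.sum_congr rfl fun m _ => ?_
      congr 1; omega
  refine h0.trans ?_
  rw [Finset.sum_range_reflect (fun m => r ^ m) i, le_div_iff₀ (by linarith), mul_comm,
    mul_neg_geom_sum]
  have := pow_nonneg hr i
  linarith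

private theorem psnd_alg {v j w σ f T c φ γ B SN SM : ℝ} (hvpos : 0 < v) (hj : 0 < j)
    (hw : 0 < w) (hσ : 0 < σ) (hf0 : 0 ≤ f) (hTpos : 0 < T) (hcpos : 0 < c)
    (hfφ : f = φ * (v * j)) (hγφ : γ ≤ φ) (hφ0 : 0 ≤ φ) (hB0 : 0 ≤ B)
    (hfirst : f * T ^ 2 * w ≤ σ ^ 2 * j * SN) (hsecond : j * SM ≤ w * f * T * (1 + T * φ + c))
    (hCS : SN ^ 2 ≤ B * (2 * T * SM)) :
    min 1 (T * γ) / (4 * (2 + c) * σ ^ 4) * (v * (w * (2 * T))) ≤ B := by
  -- algebra
  have hmain : f * T ^ 2 * w ≤ B * (2 * σ ^ 4 * j * (1 + T * φ + c)) := by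
    rcases hf0.eq_or_lt with h0 | hfpos
    · rw [← h0]
      simp only [zero_mul]
      positivity
    have k1 : (f * T ^ 2 * w) ^ 2 ≤ (σ ^ 2 * j * SN) ^ 2 :=
      pow_le_pow_left₀ (by positivity) hfirst 2
    have k2 : (σ ^ 2 * j * SN) ^ 2 ≤ σ ^ 4 * j * (B * (2 * T *
        (w * f * T * (1 + T * φ + c)))) := by
      calc (σ ^ 2 * j * SN) ^ 2 = σ ^ 4 * j ^ 2 * (SN) ^ 2 := by ring
        _ ≤ σ ^ 4 * j ^ 2 * (B * (2 * T * SM)) :=
          mul_le_mul_of_nonneg_left hCS (by positivity)
        _ = σ ^ 4 * j * (B * (2 * T * (j * SM))) := by ring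
        _ ≤ _ := by
          refine mul_le_mul_of_nonneg_left ?_ (by positivity)
          refine mul_le_mul_of_nonneg_left ?_ hB0
          exact mul_le_mul_of_nonneg_left hsecond (by positivity)
    have k3 : (f * T ^ 2 * w) * (f * T ^ 2 * w) ≤
        (f * T ^ 2 * w) * (B * (2 * σ ^ 4 * j * (1 + T * φ + c))) := by
      calc (f * T ^ 2 * w) * (f * T ^ 2 * w) = (f * T ^ 2 * w) ^ 2 := by ring
        _ ≤ _ := k1.trans k2
        _ = _ := by ring
    exact le_of_mul_le_mul_left k3 (by positivity)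
  -- conclusion
  have hfin : min 1 (T * γ) * (1 + T * φ + c) ≤ (T * φ) * (2 + c) := by
    have hm : min 1 (T * γ) ≤ min 1 (T * φ) :=
      min_le_min le_rfl (mul_le_mul_of_nonneg_left hγφ hTpos.le)
    have hpos : 0 ≤ 1 + T * φ + c := by positivity
    refine (mul_le_mul_of_nonneg_right hm hpos).trans ?_
    rcases le_total 1 (T * φ) with h | h
    · rw [min_eq_left h]; nlinarith
    · rw [min_eq_right h]
      exact mul_le_mul_of_nonneg_left (by linarith) (by positivity)
  rw [div_mul_eq_mul_div, div_le_iff₀ (by positivity)]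
  have hpos : 0 < 1 + T * φ + c := by positivity
  have key : (1 + T * φ + c) * (min 1 (T * γ) * (v * (w * (2 * T)))) ≤
      (1 + T * φ + c) * (B * (4 * (2 + c) * σ ^ 4)) := by
    calc (1 + T * φ + c) * (min 1 (T * γ) * (v * (w * (2 * T))))
        = (min 1 (T * γ) * (1 + T * φ + c)) * (v * (w * (2 * T))) := by ring
      _ ≤ ((T * φ) * (2 + c)) * (v * (w * (2 * T))) :=
        mul_le_mul_of_nonneg_right hfin (by positivity)
      _ = (2 * (2 + c) / j) * (f * T ^ 2 * w) := by
        rw [hfφ]; field_simp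
      _ ≤ (2 * (2 + c) / j) * (B * (2 * σ ^ 4 * j * (1 + T * φ + c))) :=
        mul_le_mul_of_nonneg_left hmain (by positivity)
      _ = _ := by field_simp; ring
  exact le_of_mul_le_mul_left key hpos

/-- Proof sketch.  Let `A` be an assignment of the power, `s` from `exists_plurality`,
`F = G.viol s`, `φ = |F| / (|V| |J|) ≥ γ`, `T = t + 1`.  If `φ = 0` then `γ = 0`, trivial.  For a port
`(z, (W, ℓ))` of the power let `N` be the number of pairs `(i, i')`, `i + i' = ℓ`, whose step
`(walk z W i, W_i)` is in `F` and both opinions agree with `s`; if `N > 0` the port is violated.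
`first_count` summed over `i, i'` and `exists_plurality` give
`∑ N ≥ |V| |Wd| φ T² / |S|²`.  With `N' ≥ N` = number of `i` (`i ≤ t`, `ℓ - i ≤ t`) with step in `F`,
`step_count`, `second_count`: for each `ℓ`,
`∑_{z,W} N'² ≤ |V| |Wd| φ T (1 + T φ + 2/(1-r))`.  Cauchy-Schwarz:
`#viol ≥ (∑ N)² / ∑ N'² ≥ |V| |Wd| 2T · T φ / (4 |S|⁴ (1 + T φ + 2/(1-r)))`, and
`1 + T φ + 2/(1-r) ≤ (2 + 2/(1-r)) max (1, T φ)`; finally `φ ≥ γ` and monotonicity.
The number of ports of the power is `|V| |Wd| 2T`. -/
theorem pow_gap [Inhabited J] [Fintype V] [Fintype J] [Fintype S] [Nonempty S] (G : PG V J S)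
    (t : ℕ) {r γ : ℝ} (hr : 0 ≤ r) (hr1 : r < 1) (hE : G.Expander r) (hγ : 0 ≤ γ)
    (hG : G.Gap γ) :
    (G.Pow t).Gap (min 1 ((t + 1) * γ) / (4 * (2 + 2 / (1 - r)) * (Fintype.card S : ℝ) ^ 4)) := by
  classical
  intro A
  obtain ⟨s, hs⟩ := G.exists_plurality A
  set F := G.viol s with hF
  have hGs := hG s
  -- basic constants
  have hj : (0 : ℝ) < Fintype.card J := by exact_mod_cast Fintype.card_pos
  have hσ : (0 : ℝ) < Fintype.card S := by exact_mod_cast Fintype.card_pos
  have hw : (0 : ℝ) < Fintype.card (Wd J t) := by exact_mod_cast Fintype.card_pos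
  set v : ℝ := (Fintype.card V : ℝ) with hv
  set j : ℝ := (Fintype.card J : ℝ) with hjdef
  set w : ℝ := (Fintype.card (Wd J t) : ℝ) with hwdef
  set σ : ℝ := (Fintype.card S : ℝ) with hσdef
  set f : ℝ := (F.card : ℝ) with hf
  set T : ℝ := (t : ℝ) + 1 with hT
  have hTpos : 0 < T := by positivity
  have hcard : (Fintype.card (J1 J t) : ℝ) = w * (2 * T) := by
    rw [Fintype.card_prod, Fintype.card_fin]
    push_cast
    rw [hwdef, hT]; ring
  rw [hcard]
  rcases Nat.eq_zero_or_pos (Fintype.card V) with hV0 | hVpos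
  · have : v = 0 := by rw [hv, hV0]; simp
    rw [this]
    simp
  have hvpos : 0 < v := by rw [hv]; exact_mod_cast hVpos
  have hc : 0 < 1 - r := by linarith
  set c : ℝ := 2 / (1 - r) with hcdef
  have hcpos : 0 < c := by positivity
  set φ : ℝ := f / (v * j) with hφ
  have hf0 : 0 ≤ f := by positivity
  have hφ0 : 0 ≤ φ := by positivity
  have hγφ : γ ≤ φ := by
    rw [hφ, le_div_iff₀ (by positivity)]; exact hGs
  have hfφ : f = φ * (v * j) := by rw [hφ]; field_simp
  clear_value v j w σ f T c φ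
  -- the counts
  set N : V × J1 J t → ℝ := fun p => ∑ i : Fin (t + 1), ∑ i' : Fin (t + 1),
    if i.val + i'.val = p.2.2.val ∧ psndQ G A s F i i' (p.1, p.2.1) then 1 else 0 with hN
  set M : V × Wd J t → ℝ := fun q => ∑ i : Fin (t + 1),
    if (G.walk q.1 q.2 i.val, q.2 (ix i.val)) ∈ F then 1 else 0 with hM
  have hN0 : ∀ p, 0 ≤ N p := fun p => Finset.sum_nonneg fun i _ => Finset.sum_nonneg fun i' _ => by
    split_ifs <;> norm_num
  -- comparison
  have hNM : ∀ p, N p ≤ M (p.1, p.2.1) := by
    intro p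
    refine Finset.sum_le_sum fun i _ => ?_
    by_cases h : (G.walk p.1 p.2.1 i.val, p.2.1 (ix i.val)) ∈ F
    · rw [if_pos h]
      rw [Finset.sum_boole]
      have : (univ.filter fun i' : Fin (t + 1) =>
          i.val + i'.val = p.2.2.val ∧ psndQ G A s F i i' (p.1, p.2.1)).card ≤ 1 := by
        rw [Finset.card_le_one]
        intro a ha b hb
        have h1 := (mem_filter.1 ha).2.1
        have h2 := (mem_filter.1 hb).2.1
        ext; omega
      exact_mod_cast this
    · rw [if_neg h]
      refine (Finset.sum_eq_zero fun i' _ => ?_).le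
      rw [if_neg]
      rintro ⟨_, hQ⟩
      exact h hQ.1
  -- violated ports
  have hviol : ∀ p, N p ≠ 0 → p ∈ (G.Pow t).viol A := by
    intro p hp
    rw [hN] at hp
    obtain ⟨i, _, hi⟩ := Finset.exists_ne_zero_of_sum_ne_zero hp
    obtain ⟨i', _, hi'⟩ := Finset.exists_ne_zero_of_sum_ne_zero hi
    have hcond : i.val + i'.val = p.2.2.val ∧ psndQ G A s F i i' (p.1, p.2.1) := by
      by_contra h
      exact hi' (if_neg h)
    obtain ⟨hsum, hQ1, hQ2, hQ3⟩ := hcond
    simp only [viol, mem_filter, mem_univ, true_and]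
    intro hrel
    have h3 := hrel i i' hsum
    have h4 : (G.walk p.1 p.2.1 i.val, p.2.1 (ix i.val)) ∈ G.viol s := hQ1
    simp only [viol, mem_filter, mem_univ, true_and] at h4
    apply h4
    have h5 : G.nb (G.walk p.1 p.2.1 i.val) (p.2.1 (ix i.val)) =
        G.walk p.1 p.2.1 (i.val + 1) := rfl
    rw [h5, ← hQ2, ← hQ3]
    have h6 : (G.Pow t).nb p.1 p.2 = G.walk p.1 p.2.1 (i.val + i'.val + 1) := by
      rw [hsum]; rfl
    rw [h6] at h3
    have h7 : p.2.2.val + 1 = i.val + i'.val + 1 := by rw [hsum]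
    rw [h7] at h3
    exact h3
  -- first moment
  have hfirst : f * T ^ 2 * w ≤ σ ^ 2 * j * ∑ p, N p := by
    have h1 : ∑ p, N p = ∑ i : Fin (t + 1), ∑ i' : Fin (t + 1),
        ((univ.filter fun q : V × Wd J t => psndQ G A s F i i' q).card : ℝ) := by
      rw [hN, Finset.sum_comm]
      refine Finset.sum_congr rfl fun i _ => ?_
      rw [Finset.sum_comm]
      refine Finset.sum_congr rfl fun i' _ => ?_
      rw [← Finset.sum_boole]
      rw [Fintype.sum_prod_type, Fintype.sum_prod_type]
      refine Finset.sum_congr rfl fun z _ => ?_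
      rw [Fintype.sum_prod_type]
      refine Finset.sum_congr rfl fun W _ => ?_
      simp only
      have hlt : i.val + i'.val < 2 * t + 2 := by
        have := i.2; have := i'.2; omega
      rw [Finset.sum_eq_single (⟨i.val + i'.val, hlt⟩ : Fin (2 * t + 2))]
      · simp
      · intro b _ hb
        rw [if_neg]
        rintro ⟨h, _⟩
        apply hb
        ext; exact h.symm
      · intro h; exact absurd (mem_univ _) h
    have h2 : ∀ i i' : Fin (t + 1), j * w *
        ((univ.filter fun q : V × Wd J t => psndQ G A s F i i' q).card : ℝ) =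
        ∑ q ∈ F, (G.cnt A s i q.1 : ℝ) * G.cnt A s i' (G.nb q.1 q.2) := by
      intro i i'
      have h3 := congrArg (Nat.cast : ℕ → ℝ) (G.first_count A s i i' F)
      push_cast at h3
      have h4 : (univ.filter fun q : V × Wd J t => psndQ G A s F i i' q) =
        (univ.filter fun p : V × Wd J t =>
        (G.walk p.1 p.2 i.val, p.2 (ix i.val)) ∈ F ∧
        A p.1 i (mask i.val p.2) = s (G.walk p.1 p.2 i.val) ∧
        A (G.walk p.1 p.2 (i.val + i'.val + 1)) i'
          (mask i'.val (rev G.inv (i.val + i'.val + 1) p.2)) =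
          s (G.walk p.1 p.2 (i.val + 1))) := by
        ext q; simp only [mem_filter, psndQ]
      rw [h4, hjdef, hwdef]
      rw [← h3]
    have h5 : j * w * ∑ p, N p = ∑ q ∈ F, (∑ i, (G.cnt A s i q.1 : ℝ)) *
        ∑ i', (G.cnt A s i' (G.nb q.1 q.2) : ℝ) := by
      rw [h1, Finset.mul_sum]
      calc ∑ i : Fin (t + 1), j * w * ∑ i' : Fin (t + 1),
            ((univ.filter fun q : V × Wd J t => psndQ G A s F i i' q).card : ℝ)
          = ∑ i : Fin (t + 1), ∑ i' : Fin (t + 1), ∑ q ∈ F,
            (G.cnt A s i q.1 : ℝ) * G.cnt A s i' (G.nb q.1 q.2) := by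
            refine Finset.sum_congr rfl fun i _ => ?_
            rw [Finset.mul_sum]
            exact Finset.sum_congr rfl fun i' _ => h2 i i'
        _ = ∑ i : Fin (t + 1), ∑ q ∈ F, ∑ i' : Fin (t + 1),
            (G.cnt A s i q.1 : ℝ) * G.cnt A s i' (G.nb q.1 q.2) :=
            Finset.sum_congr rfl fun i _ => Finset.sum_comm
        _ = ∑ q ∈ F, ∑ i : Fin (t + 1), ∑ i' : Fin (t + 1),
            (G.cnt A s i q.1 : ℝ) * G.cnt A s i' (G.nb q.1 q.2) := Finset.sum_comm
        _ = _ := Finset.sum_congr rfl fun q _ => by rw [Finset.sum_mul_sum]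
    have h6 : ∀ u, T * w ≤ σ * ∑ i, (G.cnt A s i u : ℝ) := by
      intro u
      have := hs u
      rw [hT, hwdef, hσdef]
      exact_mod_cast this
    have h7 : ∀ u, 0 ≤ ∑ i, (G.cnt A s i u : ℝ) := fun u => by positivity
    have h8 : f * (T * w) ^ 2 ≤ σ ^ 2 * (j * w * ∑ p, N p) := by
      rw [h5, Finset.mul_sum, hf, ← nsmul_eq_mul]
      refine Finset.card_nsmul_le_sum _ _ _ fun q _ => ?_
      calc (T * w) ^ 2 = (T * w) * (T * w) := by ring
        _ ≤ (σ * ∑ i, (G.cnt A s i q.1 : ℝ)) *
            (σ * ∑ i, (G.cnt A s i (G.nb q.1 q.2) : ℝ)) :=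
            mul_le_mul (h6 _) (h6 _) (by positivity) (mul_nonneg hσ.le (h7 _))
        _ = _ := by ring
    have h9 : w * (f * T ^ 2 * w) ≤ w * (σ ^ 2 * j * ∑ p, N p) := by
      calc w * (f * T ^ 2 * w) = f * (T * w) ^ 2 := by ring
        _ ≤ σ ^ 2 * (j * w * ∑ p, N p) := h8
        _ = _ := by ring
    exact le_of_mul_le_mul_left h9 hw
  -- second moment
  have hsecond : j * ∑ q, M q ^ 2 ≤ w * f * T * (1 + T * φ + c) := by
    set C : Fin (t + 1) → Fin (t + 1) → ℝ := fun i k =>
      ((univ.filter fun q : V × Wd J t => (G.walk q.1 q.2 i.val, q.2 (ix i.val)) ∈ F ∧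
        (G.walk q.1 q.2 k.val, q.2 (ix k.val)) ∈ F).card : ℝ) with hC
    have h1 : ∑ q, M q ^ 2 = ∑ i, ∑ k, C i k := by
      rw [hM]
      simp_rw [pow_two, Finset.sum_mul_sum]
      rw [Finset.sum_comm]
      refine Finset.sum_congr rfl fun i _ => ?_
      rw [Finset.sum_comm]
      refine Finset.sum_congr rfl fun k _ => ?_
      rw [hC]
      simp only
      rw [← Finset.sum_boole]
      refine Finset.sum_congr rfl fun q _ => ?_
      by_cases ha : (G.walk q.1 q.2 i.val, q.2 (ix i.val)) ∈ F <;>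
      by_cases hb : (G.walk q.1 q.2 k.val, q.2 (ix k.val)) ∈ F <;> simp [ha, hb]
    have hlt : ∀ i k : Fin (t + 1), i.val < k.val →
        j * C i k ≤ w * f * (φ + r ^ (k.val - i.val - 1)) := by
      intro i k hik
      have hk : k.val < 2 * t + 2 := by have := k.2; omega
      have h2 := G.second_count hr hE F hik hk
      have h3 : v * j ^ 2 * C i k ≤ w * (f ^ 2 + r ^ (k.val - i.val - 1) * (v * j * f)) := by
        rw [hC, hv, hjdef, hwdef, hf]
        simp only
        refine le_trans (le_of_eq ?_) h2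
        norm_num
      have h4 : v * j * (j * C i k) ≤ v * j * (w * f * (φ + r ^ (k.val - i.val - 1))) := by
        calc v * j * (j * C i k) = v * j ^ 2 * C i k := by ring
          _ ≤ w * (f ^ 2 + r ^ (k.val - i.val - 1) * (v * j * f)) := h3
          _ = _ := by rw [pow_two f]; nth_rewrite 2 [hfφ]; ring
      exact le_of_mul_le_mul_left h4 (by positivity)
    have hsymm : ∀ i k, C i k = C k i := by
      intro i k
      rw [hC]
      simp only
      congr 2
      ext q; simp only [mem_filter, mem_univ, true_and]; exact and_comm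
    have hdiag : ∀ i, j * C i i = w * f := by
      intro i
      have hi : i.val < 2 * t + 2 := by have := i.2; omega
      have h2 := congrArg (Nat.cast : ℕ → ℝ) (G.step_count F hi)
      push_cast at h2
      rw [hC, hjdef, hwdef, hf, ← h2]
      simp only
      congr 3
      ext q; simp only [mem_filter, mem_univ, true_and]; exact and_self_iff
    have hall : ∀ i k : Fin (t + 1), j * C i k ≤ w * f * (φ + (if i = k then 1 else 0) +
        (if i.val < k.val then r ^ (k.val - i.val - 1) else 0) +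
        (if k.val < i.val then r ^ (i.val - k.val - 1) else 0)) := by
      intro i k
      have hwf : 0 ≤ w * f := by positivity
      rcases lt_trichotomy i.val k.val with h | h | h
      · have h1 : ¬ i = k := fun he => by rw [he] at h; exact lt_irrefl _ h
        rw [if_neg h1, if_pos h, if_neg (by omega)]
        simpa using hlt i k h
      · have h1 : i = k := Fin.ext h
        subst h1
        rw [hdiag, if_pos rfl, if_neg (lt_irrefl _)]
        nlinarith
      · have h1 : ¬ i = k := fun he => by rw [he] at h; exact lt_irrefl _ h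
        rw [if_neg h1, if_neg (by omega), if_pos h, hsymm]
        simpa using hlt k i h
    have hrow : ∀ i : Fin (t + 1), ∑ k, j * C i k ≤ w * f * (1 + T * φ + c) := by
      intro i
      refine (Finset.sum_le_sum fun k _ => hall i k).trans ?_
      rw [← Finset.mul_sum]
      refine mul_le_mul_of_nonneg_left ?_ (by positivity)
      rw [Finset.sum_add_distrib, Finset.sum_add_distrib, Finset.sum_add_distrib]
      have e1 : ∑ _k : Fin (t + 1), φ = T * φ := by
        rw [Finset.sum_const, card_univ, Fintype.card_fin, nsmul_eq_mul, hT]; push_cast; rfl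
      have e2 : ∑ k : Fin (t + 1), (if i = k then (1 : ℝ) else 0) = 1 := by simp
      have e3 : ∑ k : Fin (t + 1), (if i.val < k.val then r ^ (k.val - i.val - 1) else 0) ≤
          1 / (1 - r) := by
        rw [Fin.sum_univ_eq_sum_range
          (fun k => if i.val < k then r ^ (k - i.val - 1) else 0) (t + 1)]
        exact psnd_geom hr hr1 _ _
      have e4 : ∑ k : Fin (t + 1), (if k.val < i.val then r ^ (i.val - k.val - 1) else 0) ≤
          1 / (1 - r) := by
        rw [Fin.sum_univ_eq_sum_range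
          (fun k => if k < i.val then r ^ (i.val - k - 1) else 0) (t + 1)]
        exact psnd_geom' hr hr1 _ _
      have e5 : c = 1 / (1 - r) + 1 / (1 - r) := by rw [hcdef]; ring
      rw [e1, e2, e5]
      linarith
    rw [h1, Finset.mul_sum]
    simp_rw [Finset.mul_sum]
    refine (Finset.sum_le_sum fun i _ => hrow i).trans (le_of_eq ?_)
    rw [Finset.sum_const, card_univ, Fintype.card_fin, nsmul_eq_mul]
    push_cast
    rw [hT]; ring
  -- Cauchy-Schwarz
  set B : ℝ := (((G.Pow t).viol A).card : ℝ) with hB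
  have hB0 : 0 ≤ B := Nat.cast_nonneg _
  have hCS : (∑ p, N p) ^ 2 ≤ B * (2 * T * ∑ q, M q ^ 2) := by
    have h1 : ∑ p, N p = ∑ p ∈ (G.Pow t).viol A, N p := by
      symm
      refine Finset.sum_subset (subset_univ _) fun p _ hp => ?_
      by_contra h
      exact hp (hviol p h)
    have h2 : ∑ p : V × J1 J t, M (p.1, p.2.1) ^ 2 = 2 * T * ∑ q, M q ^ 2 := by
      have e : ∑ p : V × J1 J t, M (p.1, p.2.1) ^ 2 =
          ∑ z : V, ∑ W : Wd J t, ∑ _l : Fin (2 * t + 2), M (z, W) ^ 2 := by
        rw [Fintype.sum_prod_type]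
        refine Finset.sum_congr rfl fun z _ => ?_
        rw [Fintype.sum_prod_type]
      rw [e, Fintype.sum_prod_type, Finset.mul_sum]
      refine Finset.sum_congr rfl fun z _ => ?_
      rw [Finset.mul_sum]
      refine Finset.sum_congr rfl fun W _ => ?_
      rw [Finset.sum_const, card_univ, Fintype.card_fin, nsmul_eq_mul]
      push_cast
      rw [hT]; ring
    rw [h1, ← h2]
    refine sq_sum_le_card_mul_sum_sq.trans ?_
    refine mul_le_mul_of_nonneg_left ?_ hB0
    refine (Finset.sum_le_sum_of_subset_of_nonneg (subset_univ _)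
      fun p _ _ => sq_nonneg _).trans ?_
    exact Finset.sum_le_sum fun p _ => pow_le_pow_left₀ (hN0 p) (hNM p) 2
  have hSN : 0 ≤ ∑ p, N p := Finset.sum_nonneg fun p _ => hN0 p
  have hSM : 0 ≤ ∑ q, M q ^ 2 := Finset.sum_nonneg fun q _ => sq_nonneg _
  exact psnd_alg hvpos hj hw hσ hf0 hTpos hcpos hfφ hγφ hφ0 hB0 hfirst hsecond hCS

end PG

end Pool.Agent.PCP
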