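import Pool.Agent.Book19.Letter
import Pool.Agent.B7219d.PTIter

/-!
# Finite-valued functions of words (package W1)

`UD f`: every fibre of `f` is in the class `UP`.
-/

set_option autoImplicit false

namespace Pool.Agent.PCP

open Pool.Agent.PT Pool.Agent.Book19

variable {Γ T T' : Type}

/-- Every fibre of `f` is in the class `UP`. -/
def UD (f : List Γ → (ℕ → ℕ) → T) : Prop := ∀ a : T, UP fun x e => f x e = a

theorem UD.congr {f g : List Γ → (ℕ → ℕ) → T} (hf : UD f) (h : ∀ x e, f x e = g x e) : UD g :=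
  fun a => (hf a).congr fun x e => by rw [h x e]

theorem UD.const (a : T) : UD (Γ := Γ) (fun _ _ => a) := fun _ => UP.const _

/-- Apply a function. -/
theorem UD.map [Finite T] {f : List Γ → (ℕ → ℕ) → T} (hf : UD f) (g : T → T') :
    UD fun x e => g (f x e) := by
  intro b
  have := Fintype.ofFinite T
  refine (UP.fex (ι := T) (fun a => (hf a).and (UP.const (g a = b)))).congr fun x e => ?_
  constructor
  · rintro ⟨a, h1, h2⟩
    change g (f x e) = b
    rw [h1]
    exact h2
  · intro h
    exact ⟨f x e, rfl, h⟩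

theorem UD.pair [Finite T] [Finite T'] {f : List Γ → (ℕ → ℕ) → T}
    {g : List Γ → (ℕ → ℕ) → T'} (hf : UD f) (hg : UD g) : UD fun x e => (f x e, g x e) := by
  rintro ⟨a, b⟩
  refine ((hf a).and (hg b)).congr fun x e => ?_
  rw [Prod.mk.injEq]

theorem UD.pi {I : Type} [Finite I] {A : I → Type} {f : List Γ → (ℕ → ℕ) → ∀ i, A i}
    (hf : ∀ i, UD fun x e => f x e i) : UD f := by
  intro a
  have := Fintype.ofFinite I
  exact (UP.fall (ι := I) (fun i => hf i (a i))).congr fun x e => funext_iff.symm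

theorem UP.toUD {P : List Γ → (ℕ → ℕ) → Prop} (hP : UP P) : UD P := by
  intro a
  by_cases ha : a
  · refine hP.congr fun x e => ?_
    simp [ha]
  · refine hP.not.congr fun x e => ?_
    simp [ha]

theorem UD.toUP {P : List Γ → (ℕ → ℕ) → Prop} (hP : UD P) : UP P :=
  (hP True).congr fun x e => by simp

/-- A property of the value. -/
theorem UD.pred [Finite T] {f : List Γ → (ℕ → ℕ) → T} (hf : UD f) (P : T → Prop) :
    UP fun x e => P (f x e) :=
  (hf.map P).toUP

/-- Case distinction for numbers. -/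
theorem UF.case [Finite T] {f : List Γ → (ℕ → ℕ) → T} (hf : UD f)
    {F : T → List Γ → (ℕ → ℕ) → ℕ} (hF : ∀ a, UF (F a)) : UF fun x e => F (f x e) x e := by
  classical
  have := Fintype.ofFinite T
  refine (UF.fsum (Finset.univ : Finset T) (F := fun a x e => if f x e = a then F a x e else 0)
    (fun a _ => UF.ite (inst := fun _ _ => _) (hf a) (hF a) (UF.const 0))).congr fun x e => ?_
  rw [Finset.sum_ite_eq]
  simp

/-- Case distinction for predicates. -/
theorem UP.case [Finite T] {f : List Γ → (ℕ → ℕ) → T} (hf : UD f)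
    {F : T → List Γ → (ℕ → ℕ) → Prop} (hF : ∀ a, UP (F a)) : UP fun x e => F (f x e) x e := by
  have := Fintype.ofFinite T
  refine (UP.fex (ι := T) (fun a => (hf a).and (hF a))).congr fun x e => ?_
  constructor
  · rintro ⟨a, h1, h2⟩
    rw [h1]
    exact h2
  · intro h
    exact ⟨f x e, rfl, h⟩

/-- Case distinction for finite-valued functions. -/
theorem UD.case [Finite T] {f : List Γ → (ℕ → ℕ) → T} (hf : UD f)
    {F : T → List Γ → (ℕ → ℕ) → T'} (hF : ∀ a, UD (F a)) : UD fun x e => F (f x e) x e :=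
  fun b => UP.case hf (F := fun a x e => F a x e = b) (fun a => hF a b)

theorem UD.ite {P : List Γ → (ℕ → ℕ) → Prop} {f g : List Γ → (ℕ → ℕ) → T}
    {inst : ∀ x e, Decidable (P x e)} (hP : UP P) (hf : UD f) (hg : UD g) :
    UD (fun x e => @ite T (P x e) (inst x e) (f x e) (g x e)) := by
  intro a
  refine ((hP.and (hf a)).or (hP.not.and (hg a))).congr fun x e => ?_
  by_cases h : P x e <;> simp [h]

/-- Substitution. -/
theorem UD.subst {f : List Γ → (ℕ → ℕ) → T} (hf : UD f) (G : ℕ → List Γ → (ℕ → ℕ) → ℕ)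
    (hG : ∀ i, UF (G i)) : UD fun x e => f x (fun i => G i x e) :=
  fun a => UF.subst (hf a) G hG

theorem UD.comp₁ {f : List Γ → ℕ → T} (hf : UD fun x e => f x (e 0))
    {g : List Γ → (ℕ → ℕ) → ℕ} (hg : UF g) : UD fun x e => f x (g x e) :=
  UD.subst hf (fun _ => g) (fun _ => hg)

/-- Residues. -/
theorem UF.toFin {f : List Γ → (ℕ → ℕ) → ℕ} (hf : UF f) (K : ℕ) (hK : 0 < K) :
    UD fun x e => (⟨f x e % K, Nat.mod_lt _ hK⟩ : Fin K) := by
  intro a
  refine (UP.eq (hf.mod (UF.const K)) (UF.const a.1)).congr fun x e => ?_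
  rw [Fin.ext_iff]

/-- Letters. -/
theorem UD.get [Finite Γ] {f : List Γ → (ℕ → ℕ) → ℕ} (hf : UF f) :
    UD fun x e => x[f x e]? := by
  intro a
  cases a with
  | none =>
    refine (UP.le UF.len hf).congr fun x e => ?_
    rw [List.getElem?_eq_none_iff]
  | some a => exact UP.sym a hf

/-- Square roots. -/
theorem UF.sqrt {f : List Γ → (ℕ → ℕ) → ℕ} (hf : UF f) : UF fun x e => Nat.sqrt (f x e) := by
  classical
  have h1 : UP (fun x (e : ℕ → ℕ) => (e 0 + 1) * (e 0 + 1) ≤ f x (fun i => e (i + 1))) :=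
    UP.le (((UF.var 0).add (UF.const 1)).mul ((UF.var 0).add (UF.const 1)))
      (UF.ren (fun i => i + 1) hf)
  refine (UF.sum (f := fun x e i => if (i + 1) * (i + 1) ≤ f x e then 1 else 0) hf
    (UF.congr h1 fun x e => by simp)).congr fun x e => ?_
  rw [Finset.sum_boole]
  simp only [Nat.cast_id]
  have h2 : (Finset.range (f x e)).filter (fun i => (i + 1) * (i + 1) ≤ f x e) =
      Finset.range (Nat.sqrt (f x e)) := by
    ext i
    simp only [Finset.mem_filter, Finset.mem_range]
    rw [← Nat.le_sqrt]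
    constructor
    · rintro ⟨_, h3⟩
      omega
    · intro h3
      have := Nat.sqrt_le_self (f x e)
      omega
  rw [h2, Finset.card_range]

/-- Values of functions in the class `UF` are polynomially bounded in the input. -/
theorem UF.bound {n : List Γ → ℕ} (hn : UF fun x _ => n x) :
    ∃ B : ℕ → ℕ, PB B ∧ ∀ x, n x ≤ B x.length := by
  obtain ⟨t, ht⟩ := hn
  obtain ⟨T, hT⟩ := exists_spec (some : Γ → Option Γ) (Option.some_injective Γ) none t
  refine ⟨T, hT.pb, fun x => ?_⟩
  have h := hT.val x.length x (fun _ => 0) le_rfl (fun _ => Nat.zero_le _)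
  rwa [ht] at h

end Pool.Agent.PCP
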