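import Pool.Agent.PCP.Step
import Pool.Agent.PCP.UD

/-!
# Raw graphs: arithmetic versions of ported constraint graphs, and their words (package W2)
-/

set_option autoImplicit false

namespace Pool.Agent.PCP

open Pool.Agent.PT Pool.Agent.Book19
open scoped Classical

variable {Γ J S : Type}

/-- Raw graphs. -/
@[ext] structure Raw (J S : Type) where
  N : ℕ
  nb : ℕ → J → ℕ
  rel : ℕ → J → S → S → Prop

/-- The raw graph of a ported graph on `Fin N`. -/
def PG.raw {N : ℕ} (G : PG (Fin N) J S) : Raw J S where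
  N := N
  nb u j := if h : u < N then (G.nb ⟨u, h⟩ j).val else 0
  rel u j a b := ∀ h : u < N, G.rel ⟨u, h⟩ j a b

/-- Normalised raw graphs. -/
structure Raw.Good (r : Raw J S) : Prop where
  lt : ∀ u j, u < r.N → r.nb u j < r.N
  nb_ge : ∀ u j, r.N ≤ u → r.nb u j = 0
  rel_ge : ∀ u j a b, r.N ≤ u → r.rel u j a b

theorem PG.raw_good {N : ℕ} (G : PG (Fin N) J S) : G.raw.Good := by
  refine ⟨fun u j h => ?_, fun u j h => ?_, fun u j a b h h' => ?_⟩
  · have h' : u < N := h
    simp only [PG.raw, dif_pos h']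
    exact (G.nb ⟨u, h'⟩ j).2
  · have h' : ¬ u < N := not_lt.2 h
    simp only [PG.raw, dif_neg h']
  · exact absurd h' (not_lt.2 h)

/-- Definable families of raw graphs. -/
structure Dfn (r : List Γ → Raw J S) : Prop where
  N : UF fun x _ => (r x).N
  nb : ∀ j, UF fun x e => (r x).nb (e 0) j
  rel : ∀ j, UD fun x e => (r x).rel (e 0) j

/-- The letters: for each port a flag, for each port a table, and a mark. -/
abbrev Lt : Type := (J0 → Prop) × (J0 → S0 → S0 → Prop) × Prop

instance instFiniteS : Finite (S0 → S0 → Prop) := inferInstance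

instance instFiniteT : Finite (J0 → S0 → S0 → Prop) := inferInstance

instance instFiniteLt : Finite Lt := inferInstance

noncomputable instance instFintypeLt : Fintype Lt := Fintype.ofFinite _

/-- The letter at position `p = u * N + v`. -/
def Raw.letter (r : Raw J0 S0) (c p : ℕ) : Lt :=
  (fun j => r.nb (p / r.N) j = p % r.N, fun j => r.rel (p / r.N) j, p = c)

/-- The word of a raw graph and a counter. -/
def Raw.enc (r : Raw J0 S0) (c : ℕ) : List Lt := (List.range (r.N * r.N)).map (r.letter c)

/-- The raw graph of a word. -/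
noncomputable def decRaw (x : List Lt) : Raw J0 S0 where
  N := Nat.sqrt x.length
  nb u j := ∑ v ∈ Finset.range (Nat.sqrt x.length),
    if ∃ l, x[u * Nat.sqrt x.length + v]? = some l ∧ l.1 j then v else 0
  rel u j a b := ∀ l, x[u * Nat.sqrt x.length]? = some l → l.2.1 j a b

/-- The counter of a word. -/
noncomputable def decC (x : List Lt) : ℕ :=
  ∑ p ∈ Finset.range x.length, if ∃ l, x[p]? = some l ∧ l.2.2 then p else 0

private theorem praw_length (r : Raw J0 S0) (c : ℕ) : (r.enc c).length = r.N * r.N := by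
  simp [Raw.enc]

private theorem praw_get (r : Raw J0 S0) (c p : ℕ) (l : Lt) :
    (r.enc c)[p]? = some l ↔ p < r.N * r.N ∧ l = r.letter c p := by
  unfold Raw.enc
  rw [List.getElem?_map, Option.map_eq_some_iff]
  constructor
  · rintro ⟨q, h1, h2⟩
    rw [List.getElem?_eq_some_iff] at h1
    obtain ⟨h3, h4⟩ := h1
    rw [List.length_range] at h3
    rw [List.getElem_range] at h4
    subst h4
    exact ⟨h3, h2.symm⟩
  · rintro ⟨h1, h2⟩
    refine ⟨p, ?_, h2.symm⟩
    rw [List.getElem?_eq_some_iff]
    exact ⟨by rwa [List.length_range], by rw [List.getElem_range]⟩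

theorem decRaw_enc (r : Raw J0 S0) (hr : r.Good) (c : ℕ) : decRaw (r.enc c) = r := by
  have hs : Nat.sqrt (r.enc c).length = r.N := by rw [praw_length, Nat.sqrt_eq]
  have h1 : ∀ u v, u < r.N → v < r.N → u * r.N + v < r.N * r.N := by
    intro u v hu hv
    calc u * r.N + v < u * r.N + r.N := by omega
      _ = (u + 1) * r.N := by ring
      _ ≤ r.N * r.N := Nat.mul_le_mul_right _ hu
  have h2 : ∀ u v, v < r.N → (u * r.N + v) / r.N = u := by
    intro u v hv
    rw [mul_comm, Nat.mul_add_div (by omega), Nat.div_eq_of_lt hv, add_zero]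
  have h3 : ∀ u v, v < r.N → (u * r.N + v) % r.N = v := by
    intro u v hv
    rw [mul_comm, Nat.mul_add_mod, Nat.mod_eq_of_lt hv]
  have h4 : ∀ u, r.N ≤ u → r.N * r.N ≤ u * r.N := fun u hu => Nat.mul_le_mul_right _ hu
  ext1
  · exact hs
  · funext u j
    change (∑ v ∈ Finset.range (Nat.sqrt (r.enc c).length),
      if ∃ l, (r.enc c)[u * Nat.sqrt (r.enc c).length + v]? = some l ∧ l.1 j then v else 0) = _
    rw [hs]
    by_cases hu : u < r.N
    · have h5 : ∀ v ∈ Finset.range r.N,
          (if ∃ l, (r.enc c)[u * r.N + v]? = some l ∧ l.1 j then v else 0) =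
            if v = r.nb u j then v else 0 := by
        intro v hv
        rw [Finset.mem_range] at hv
        refine if_congr ?_ rfl rfl
        constructor
        · rintro ⟨l, h6, h7⟩
          rw [praw_get] at h6
          rw [h6.2] at h7
          change r.nb ((u * r.N + v) / r.N) j = (u * r.N + v) % r.N at h7
          rw [h2 u v hv, h3 u v hv] at h7
          exact h7.symm
        · intro h6
          refine ⟨r.letter c (u * r.N + v), (praw_get _ _ _ _).2 ⟨h1 u v hu hv, rfl⟩, ?_⟩
          change r.nb ((u * r.N + v) / r.N) j = (u * r.N + v) % r.N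
          rw [h2 u v hv, h3 u v hv]
          exact h6.symm
      rw [Finset.sum_congr rfl h5, Finset.sum_ite_eq', if_pos]
      exact Finset.mem_range.2 (hr.lt u j hu)
    · rw [hr.nb_ge u j (not_lt.1 hu)]
      refine Finset.sum_eq_zero fun v _ => if_neg ?_
      rintro ⟨l, h6, _⟩
      rw [praw_get] at h6
      have := h4 u (not_lt.1 hu)
      omega
  · funext u j a b
    change (∀ l, (r.enc c)[u * Nat.sqrt (r.enc c).length]? = some l → l.2.1 j a b) = _
    rw [hs]
    by_cases hu : u < r.N
    · have h5 : u * r.N < r.N * r.N := by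
        have := h1 u 0 hu (by omega)
        omega
      have h6 : u * r.N / r.N = u := Nat.mul_div_cancel _ (by omega)
      refine propext ⟨fun h => ?_, fun h l hl => ?_⟩
      · have h7 := h _ ((praw_get _ _ _ _).2 ⟨h5, rfl⟩)
        change r.rel (u * r.N / r.N) j a b at h7
        rwa [h6] at h7
      · rw [praw_get] at hl
        rw [hl.2]
        change r.rel (u * r.N / r.N) j a b
        rwa [h6]
    · refine propext ⟨fun _ => hr.rel_ge u j a b (not_lt.1 hu), fun _ l hl => ?_⟩
      rw [praw_get] at hl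
      exact absurd hl.1 (not_lt.2 (h4 u (not_lt.1 hu)))

theorem decC_enc (r : Raw J0 S0) (c : ℕ) (hc : c < r.N * r.N) : decC (r.enc c) = c := by
  unfold decC
  rw [praw_length]
  have h5 : ∀ p ∈ Finset.range (r.N * r.N),
      (if ∃ l, (r.enc c)[p]? = some l ∧ l.2.2 then p else 0) = if p = c then p else 0 := by
    intro p hp
    rw [Finset.mem_range] at hp
    refine if_congr ?_ rfl rfl
    constructor
    · rintro ⟨l, h6, h7⟩
      rw [praw_get] at h6
      rw [h6.2] at h7
      exact h7
    · intro h6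
      exact ⟨r.letter c p, (praw_get _ _ _ _).2 ⟨hp, rfl⟩, h6⟩
  rw [Finset.sum_congr rfl h5, Finset.sum_ite_eq', if_pos (Finset.mem_range.2 hc)]

theorem dfn_decRaw : Dfn decRaw := by
  have hs : ∀ k : ℕ, UF (Γ := Lt) fun x (_ : ℕ → ℕ) => Nat.sqrt x.length := fun _ => UF.sqrt UF.len
  refine ⟨hs 0, fun j => ?_, fun j => UD.pi fun a => UD.pi fun b => UP.toUD ?_⟩
  · refine UF.sum (b := fun x _ => Nat.sqrt x.length) (f := fun x e v =>
      if ∃ l, x[e 0 * Nat.sqrt x.length + v]? = some l ∧ l.1 j then v else 0) (hs 0) ?_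
    refine UF.ite (UP.fex fun l => ?_) (UF.var 0) (UF.const 0)
    exact (UP.sym l (((UF.var 1).mul (hs 0)).add (UF.var 0))).and (UP.const (l.1 j))
  · refine UP.fall fun l => ?_
    exact (UP.sym l ((UF.var 0).mul (hs 0))).imp (UP.const (l.2.1 j a b))

theorem uf_decC : UF fun x _ => decC x := by
  refine UF.sum (b := fun (x : List Lt) _ => x.length) (f := fun x _ p =>
    if ∃ l, x[p]? = some l ∧ l.2.2 then p else 0) UF.len ?_
  refine UF.ite (UP.fex fun l => ?_) (UF.var 0) (UF.const 0)
  exact (UP.sym l (UF.var 0)).and (UP.const l.2.2)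

theorem ud_letter {r : List Γ → Raw J0 S0} (hr : Dfn r) {c : List Γ → ℕ}
    (hc : UF fun x _ => c x) : UD fun x e => (r x).letter (c x) (e 0) := by
  have hq : UF fun x (e : ℕ → ℕ) => e 0 / (r x).N := (UF.var 0).div hr.N
  refine UD.pair (UD.pi fun j => UP.toUD ?_) (UD.pair (UD.pi fun j => ?_) (UP.toUD ?_))
  · exact UP.eq (UF.subst (hr.nb j) (fun _ x e => e 0 / (r x).N) (fun _ => hq))
      ((UF.var 0).mod hr.N)
  · exact UD.comp₁ (f := fun x n => (r x).rel n j) (hr.rel j) hq
  · exact UP.eq (UF.var 0) hc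

end Pool.Agent.PCP
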