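import Pool.Agent.PCP.RawMg

/-!
# Alphabet reduction of raw graphs: definitions
-/

set_option autoImplicit false

namespace Pool.Agent.PCP

open Pool.Agent.PT Pool.Agent.Book19
open scoped Classical

variable {Γ J X : Type}

section

variable [Fintype J] [Fintype X]

/-- The new vertex over an old one. -/
noncomputable def wof (J X : Type) [Fintype J] [Fintype X] (u : ℕ) : W1 J X :=
  (en J X).symm ⟨u % (cs J X * cs J X), Nat.mod_lt _ (Nat.mul_pos (cs_pos J X) (cs_pos J X))⟩

namespace Raw

/-- The other end of a constraint. -/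
noncomputable def mt (r : Raw J X) (inv : J → J) (z : ℕ) (u : U0 J X) : ℕ × U0 J X :=
  if isA u.2.2.1.1 u.2.2.2 then
    (if u.2.2.1.1 = 3 then (z, (!u.1, u.2)) else (r.nb z u.2.1, (!u.1, inv u.2.1, u.2.2)))
  else (z, (!u.1, u.2.1, twist (r.rel z u.2.1) u.2.2.1 u.2.2.2, u.2.2.2))

/-- The matching port. -/
noncomputable def mport (r : Raw J X) (inv : J → J) (u : ℕ) : ℕ :=
  if h : ∃ v : U0 J X, wof J X u = Sum.inl (emb J X v) then
    (r.mt inv (u / (cs J X * cs J X)) h.choose).1 * (cs J X * cs J X) +
      (en J X (Sum.inl (emb J X (r.mt inv (u / (cs J X * cs J X)) h.choose).2))).val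
  else u

/-- The alphabet reduction of a raw graph. -/
noncomputable def AR (r : Raw J X) (inv : J → J) : Raw J0 S0 where
  N := r.N * (cs J X * cs J X)
  nb u j := if u < r.N * (cs J X * cs J X) then
    (match j with
      | Sum.inl j => u / (cs J X * cs J X) * (cs J X * cs J X) + (en J X (cport j (wof J X u))).val
      | Sum.inr (Sum.inl _) => r.mport inv u
      | Sum.inr (Sum.inr j) => mgR (Nat.sqrt r.N * cs J X) j u) else 0
  rel u j a b := u < r.N * (cs J X * cs J X) →
    (match j with
      | Sum.inl _ => ∀ w, wof J X u = Sum.inl w → a = b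
      | Sum.inr (Sum.inl _) => mportRel (wof J X u) a b
      | Sum.inr (Sum.inr _) => True)

end Raw

/-- The inverse ports of the reduced graphs. -/
def inv0 : J0 → J0 := fun j =>
  match j with
    | Sum.inl j => Sum.inl (mgInv j)
    | Sum.inr (Sum.inl _) => Sum.inr (Sum.inl ())
    | Sum.inr (Sum.inr j) => Sum.inr (Sum.inr (mgInv j))

theorem ARF_inv {M : ℕ} [NeZero M] (G : PG (Fin (M * M)) J X) : (ARF G).inv = inv0 := rfl

end

end Pool.Agent.PCP
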