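import Pool.Agent.PCP.RawAR

/-!
# Alphabet reduction preserves definability (package W6)
-/

set_option autoImplicit false

namespace Pool.Agent.PCP

open Pool.Agent.PT Pool.Agent.Book19
open scoped Classical

variable {Γ J X : Type}

/-- the residue which gives the new vertex -/
private theorem ardfn_res (J X : Type) [Fintype J] [Fintype X] :
    UD (Γ := Γ) fun _ e => (⟨e 0 % (cs J X * cs J X),
      Nat.mod_lt _ (Nat.mul_pos (cs_pos J X) (cs_pos J X))⟩ : Fin (cs J X * cs J X)) :=
  UF.toFin (UF.var 0) _ (Nat.mul_pos (cs_pos J X) (cs_pos J X))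

private theorem ardfn_wofF [Fintype J] [Fintype X] (F : W1 J X → List Γ → (ℕ → ℕ) → ℕ)
    (hF : ∀ w, UF (F w)) : UF fun x e => F (wof J X (e 0)) x e :=
  UF.case (ardfn_res J X) (F := fun a x e => F ((en J X).symm a) x e) fun a => hF _

private theorem ardfn_wofP [Fintype J] [Fintype X] (P : W1 J X → Prop) :
    UP (Γ := Γ) fun _ e => P (wof J X (e 0)) :=
  UD.pred (ardfn_res J X) fun a => P ((en J X).symm a)

private theorem ardfn_div [Fintype J] [Fintype X] :
    UF (Γ := Γ) fun _ e => e 0 / (cs J X * cs J X) :=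
  (UF.var 0).div (UF.const _)

/-- the first component of `mt` -/
private theorem ardfn_mt_fst [Fintype J] [Fintype X] {r : List Γ → Raw J X} (hr : Dfn r)
    (inv : J → J) (u : U0 J X) :
    UF fun x e => ((r x).mt inv (e 0 / (cs J X * cs J X)) u).1 := by
  by_cases h1 : isA u.2.2.1.1 u.2.2.2
  · by_cases h2 : u.2.2.1.1 = 3
    · refine (ardfn_div (J := J) (X := X)).congr fun x e => ?_
      unfold Raw.mt
      rw [if_pos h1, if_pos h2]
    · refine (UF.comp₁ (f := fun x z => (r x).nb z u.2.1) (hr.nb u.2.1)
        (ardfn_div (J := J) (X := X))).congr fun x e => ?_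
      unfold Raw.mt
      rw [if_pos h1, if_neg h2]
  · refine (ardfn_div (J := J) (X := X)).congr fun x e => ?_
    unfold Raw.mt
    rw [if_neg h1]

/-- the second component of `mt` -/
private theorem ardfn_mt_snd [Fintype J] [Fintype X] {r : List Γ → Raw J X} (hr : Dfn r)
    (inv : J → J) (u : U0 J X) :
    UD fun x e => ((r x).mt inv (e 0 / (cs J X * cs J X)) u).2 := by
  by_cases h1 : isA u.2.2.1.1 u.2.2.2
  · by_cases h2 : u.2.2.1.1 = 3
    · refine (UD.const (!u.1, u.2)).congr fun x e => ?_
      unfold Raw.mt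
      rw [if_pos h1, if_pos h2]
    · refine (UD.const (!u.1, inv u.2.1, u.2.2)).congr fun x e => ?_
      unfold Raw.mt
      rw [if_pos h1, if_neg h2]
  · refine ((UD.comp₁ (f := fun x z => (r x).rel z u.2.1) (hr.rel u.2.1)
      (ardfn_div (J := J) (X := X))).map fun R =>
      (!u.1, u.2.1, twist R u.2.2.1 u.2.2.2, u.2.2.2)).congr fun x e => ?_
    unfold Raw.mt
    rw [if_neg h1]

/-- the matching port -/
private theorem ardfn_mport [Fintype J] [Fintype X] {r : List Γ → Raw J X} (hr : Dfn r)
    (inv : J → J) : UF fun x e => (r x).mport inv (e 0) := by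
  refine (ardfn_wofF (fun w x e => if h : ∃ v : U0 J X, w = Sum.inl (emb J X v) then
      ((r x).mt inv (e 0 / (cs J X * cs J X)) h.choose).1 * (cs J X * cs J X) +
        (en J X (Sum.inl (emb J X ((r x).mt inv (e 0 / (cs J X * cs J X)) h.choose).2))).val
    else e 0) fun w => ?_).congr fun x e => rfl
  by_cases h : ∃ v : U0 J X, w = Sum.inl (emb J X v)
  · refine UF.congr (((ardfn_mt_fst hr inv h.choose).mul (UF.const (cs J X * cs J X))).add
      (UF.case (ardfn_mt_snd hr inv h.choose)
        (F := fun v _ _ => (en J X (Sum.inl (emb J X v))).val) fun v => UF.const _))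
      fun x e => ?_
    rw [dif_pos h]
  · refine (UF.var 0).congr fun x e => ?_
    rw [dif_neg h]

/-- Proof sketch: `wof J X (e 0)` is a fixed function of the residue of `e 0`
(`UF.toFin`), so do a case distinction (`UF.case`, `UD.case`); then the port and the end are fixed,
and `mt` is a case distinction over the table `r.rel z j`. -/
theorem Dfn.AR [Fintype J] [Fintype X] {r : List Γ → Raw J X} (hr : Dfn r) (inv : J → J) :
    Dfn fun x => (r x).AR inv := by
  have hN : UF fun x (_ : ℕ → ℕ) => (r x).N * (cs J X * cs J X) := hr.N.mul (UF.const _)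
  have hlt : UP fun x (e : ℕ → ℕ) => e 0 < (r x).N * (cs J X * cs J X) := UP.lt (UF.var 0) hN
  refine ⟨hN, fun j => ?_, fun j => ?_⟩
  · refine UF.ite (inst := fun _ _ => _) hlt ?_ (UF.const 0)
    rcases j with j | j | j
    · exact ((ardfn_div (J := J) (X := X)).mul (UF.const (cs J X * cs J X))).add
        (ardfn_wofF (fun w _ _ => (en J X (cport j w)).val) fun w => UF.const _)
    · exact ardfn_mport hr inv
    · exact uf_mgR j ((UF.sqrt hr.N).mul (UF.const (cs J X))) (UF.var 0)
  · refine UD.pi fun a => UD.pi fun b => UP.toUD (hlt.imp ?_)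
    rcases j with j | j | j
    · exact ardfn_wofP fun w => ∀ w', w = Sum.inl w' → a = b
    · exact ardfn_wofP fun w => mportRel w a b
    · exact UP.true

end Pool.Agent.PCP
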