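import Pool.Agent.PCP.RawAR

/-!
# Alphabet reduction of raw graphs is alphabet reduction (package W5)
-/

set_option autoImplicit false

namespace Pool.Agent.PCP

open Pool.Agent.PT Pool.Agent.Book19
open scoped Classical

variable {Γ J X : Type}

section

variable [Fintype J] [Fintype X] {M : ℕ}

private theorem rae_N (J X : Type) [Fintype J] [Fintype X] (M : ℕ) :
    M * cs J X * (M * cs J X) = M * M * (cs J X * cs J X) := by ring

private theorem rae_z (J X : Type) [Fintype J] [Fintype X] {M u : ℕ}
    (h : u < M * cs J X * (M * cs J X)) : u / (cs J X * cs J X) < M * M := by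
  rw [rae_N] at h
  refine Nat.div_lt_of_lt_mul ?_
  rwa [mul_comm] at h

private theorem rae_symm {u : ℕ} (h : u < M * cs J X * (M * cs J X)) :
    (num J X M).symm ⟨u, h⟩ = (⟨u / (cs J X * cs J X), rae_z J X h⟩, wof J X u) := by
  rw [Equiv.symm_apply_eq]
  apply Fin.ext
  rw [num_val]
  simp only [wof, Equiv.apply_symm_apply]
  exact (Nat.div_add_mod' _ _).symm

omit [Fintype J] [Fintype X] in
private theorem rae_mt (G : PG (Fin (M * M)) J X) (z : Fin (M * M)) (v : U0 J X) :
    G.raw.mt G.inv z.val v = ((G.mt (z, v)).1.val, (G.mt (z, v)).2) := by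
  have h1 : ∀ j, G.raw.nb z.val j = (G.nb z j).val := by
    intro j
    have hz : z.val < M * M := z.2
    simp only [PG.raw, dif_pos hz]
  have h2 : ∀ j, G.raw.rel z.val j = G.rel z j := by
    intro j
    funext a b
    apply propext
    constructor
    · intro h
      exact h z.2
    · intro h _
      exact h
  unfold Raw.mt PG.mt
  simp only [h1, h2]
  split_ifs <;> rfl

private theorem rae_mport (G : PG (Fin (M * M)) J X) {u : ℕ}
    (h : u < M * cs J X * (M * cs J X)) :
    (num J X M (G.mport (⟨u / (cs J X * cs J X), rae_z J X h⟩, wof J X u))).val =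
      G.raw.mport G.inv u := by
  by_cases hv : ∃ v : U0 J X, wof J X u = Sum.inl (emb J X v)
  · have hspec := hv.choose_spec
    unfold Raw.mport
    rw [dif_pos hv]
    have h3 : (⟨u / (cs J X * cs J X), rae_z J X h⟩, wof J X u) =
        ((⟨u / (cs J X * cs J X), rae_z J X h⟩ : Fin (M * M)),
          (Sum.inl (emb J X hv.choose) : W1 J X)) := by
      rw [← hspec]
    rw [h3, PG.mport_emb, num_val]
    have h4 := rae_mt G ⟨u / (cs J X * cs J X), rae_z J X h⟩ hv.choose
    simp only at h4
    rw [h4]
  · unfold Raw.mport
    rw [dif_neg hv, PG.mport_other _ _ hv, ← rae_symm h, Equiv.apply_symm_apply]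

end

/-- Proof sketch: `num_val`, `Nat.div`, `Nat.mod` of `z * cs² + en w`, `PG.mport_emb`,
`mgR_eq`. -/
theorem raw_AR [Fintype J] [Fintype X] {M : ℕ} [NeZero M] (G : PG (Fin (M * M)) J X) :
    (ARF G).raw = G.raw.AR G.inv := by
  have hN := rae_N J X M
  refine Raw.ext hN ?_ ?_
  · funext u j
    by_cases h : u < M * cs J X * (M * cs J X)
    · have h' : u < G.raw.N * (cs J X * cs J X) := by
        have : G.raw.N = M * M := rfl
        rw [this, ← hN]
        exact h
      have e1 : (ARF G).raw.nb u j = ((ARF G).nb ⟨u, h⟩ j).val := by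
        simp only [PG.raw, dif_pos h]
      have e2 : (ARF G).nb ⟨u, h⟩ j = num J X M ((G.AR ((num J X M).trans
          (tor (M * cs J X)))).nb ((num J X M).symm ⟨u, h⟩) j) := rfl
      rw [e1, e2]
      rcases j with j | _ | j
      · have e3 : (G.raw.AR G.inv).nb u (Sum.inl j) = u / (cs J X * cs J X) * (cs J X * cs J X) +
            (en J X (cport j (wof J X u))).val := by
          simp only [Raw.AR, if_pos h']
        rw [e3, rae_symm h]
        exact num_val J X M _ _
      · have e3 : (G.raw.AR G.inv).nb u (Sum.inr (Sum.inl ())) = G.raw.mport G.inv u := by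
          simp only [Raw.AR, if_pos h']
        rw [e3, rae_symm h]
        exact rae_mport G h
      · have e3 : (G.raw.AR G.inv).nb u (Sum.inr (Sum.inr j)) =
            mgR (Nat.sqrt (M * M) * cs J X) j u := by
          simp only [Raw.AR, if_pos h']
          rfl
        rw [e3, Nat.sqrt_eq]
        have e4 := mgR_eq (M * cs J X) j ⟨u, h⟩
        refine Eq.trans ?_ e4.symm
        simp only [PG.AR, Equiv.symm_trans_apply, Equiv.trans_apply, Equiv.apply_symm_apply]
    · have h' : ¬ u < G.raw.N * (cs J X * cs J X) := by
        have : G.raw.N = M * M := rfl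
        rw [this, ← hN]
        exact h
      simp only [PG.raw, dif_neg h, Raw.AR]
      exact (if_neg h').symm
  · funext u j a b
    apply propext
    by_cases h : u < M * cs J X * (M * cs J X)
    · have h' : u < G.raw.N * (cs J X * cs J X) := by
        have : G.raw.N = M * M := rfl
        rw [this, ← hN]
        exact h
      have e1 : (ARF G).raw.rel u j a b ↔ (G.AR ((num J X M).trans
          (tor (M * cs J X)))).rel ((num J X M).symm ⟨u, h⟩) j a b :=
        ⟨fun k => k h, fun k _ => k⟩
      rw [e1, rae_symm h]
      rcases j with j | _ | j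
      · exact ⟨fun k _ => k, fun k => k h'⟩
      · exact ⟨fun k _ => k, fun k => k h'⟩
      · exact ⟨fun k _ => k, fun k => k h'⟩
    · have h' : ¬ u < G.raw.N * (cs J X * cs J X) := by
        have : G.raw.N = M * M := rfl
        rw [this, ← hN]
        exact h
      exact ⟨fun _ k => absurd k h', fun _ k => absurd k h⟩

end Pool.Agent.PCP
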