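import Pool.Agent.PCP.Raw

/-!
# The Margulis-Gabber-Galil maps on numbers (package W4)
-/

set_option autoImplicit false

namespace Pool.Agent.PCP

open Pool.Agent.PT Pool.Agent.Book19
open scoped Classical

variable {Γ J X : Type}

/-- The Margulis-Gabber-Galil maps on numbers below `K * K`. -/
def mgR (K : ℕ) : J8 → ℕ → ℕ
  | (true, s, true), u => (u / K + 2 * (u % K) + (if s then 1 else 0)) % K * K + u % K
  | (true, s, false), u => (u / K + 3 * K - (if s then 1 else 0) - 2 * (u % K)) % K * K + u % K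
  | (false, s, true), u => u / K * K + (u % K + 2 * (u / K) + (if s then 1 else 0)) % K
  | (false, s, false), u => u / K * K + (u % K + 3 * K - (if s then 1 else 0) - 2 * (u / K)) % K

private theorem rawMg_add (K : ℕ) [NeZero K] (s : Bool) (a b : ℕ) :
    ((a : ZMod K) + 2 * (b : ZMod K) + sh s).val = (a + 2 * b + (if s then 1 else 0)) % K := by
  rw [← ZMod.val_natCast]
  congr 1
  cases s <;> simp [sh]

private theorem rawMg_sub (K : ℕ) [NeZero K] (s : Bool) (a b : ℕ) (hb : b < K) :
    ((a : ZMod K) - sh s - 2 * (b : ZMod K)).val =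
      (a + 3 * K - (if s then 1 else 0) - 2 * b) % K := by
  rw [← ZMod.val_natCast]
  congr 1
  have h1 : (if s then 1 else 0 : ℕ) ≤ 1 := by cases s <;> simp
  rw [Nat.cast_sub (by omega), Nat.cast_sub (by omega)]
  cases s <;> simp [sh]

theorem mgR_eq (K : ℕ) [NeZero K] (j : J8) (u : Fin (K * K)) :
    mgR K j u.val = ((tor K).symm (mg j (tor K u))).val := by
  have hK : 0 < K := Nat.pos_of_ne_zero (NeZero.ne K)
  have h1 : u.val / K < K := Nat.div_lt_of_lt_mul u.2
  have h2 : u.val % K < K := Nat.mod_lt _ hK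
  have h3 : ∀ z : ZMod K × ZMod K, ((tor K).symm z).val = z.1.val * K + z.2.val := fun z => rfl
  have h4 : tor K u = (((u.val / K : ℕ) : ZMod K), ((u.val % K : ℕ) : ZMod K)) := rfl
  rw [h3, h4]
  have h5 : (((u.val / K : ℕ) : ZMod K)).val = u.val / K := by
    rw [ZMod.val_natCast, Nat.mod_eq_of_lt h1]
  have h6 : (((u.val % K : ℕ) : ZMod K)).val = u.val % K := by
    rw [ZMod.val_natCast, Nat.mod_mod]
  obtain ⟨a, s, d⟩ := j
  cases a <;> cases d
  · simp only [mg, mgR]
    rw [h5, rawMg_sub K s _ _ h1]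
  · simp only [mg, mgR]
    rw [h5, rawMg_add K s]
  · simp only [mg, mgR]
    rw [h6, rawMg_sub K s _ _ h2]
  · simp only [mg, mgR]
    rw [h6, rawMg_add K s]

theorem uf_mgR (j : J8) {k f : List Γ → (ℕ → ℕ) → ℕ} (hk : UF k) (hf : UF f) :
    UF fun x e => mgR (k x e) j (f x e) := by
  obtain ⟨a, s, d⟩ := j
  have hd : UF fun x e => f x e / k x e := UF.div hf hk
  have hm : UF fun x e => f x e % k x e := UF.mod hf hk
  cases a <;> cases d
  · exact ((hd.mul hk).add (((((hm.add ((UF.const 3).mul hk)).sub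
      (UF.const (if s then 1 else 0))).sub ((UF.const 2).mul hd))).mod hk)).congr fun x e => rfl
  · exact ((hd.mul hk).add (((hm.add ((UF.const 2).mul hd)).add
      (UF.const (if s then 1 else 0))).mod hk)).congr fun x e => rfl
  · exact ((((((hd.add ((UF.const 3).mul hk)).sub (UF.const (if s then 1 else 0))).sub
      ((UF.const 2).mul hm)).mod hk).mul hk).add hm).congr fun x e => rfl
  · exact (((((hd.add ((UF.const 2).mul hm)).add (UF.const (if s then 1 else 0))).mod hk).mul
      hk).add hm).congr fun x e => rfl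

end Pool.Agent.PCP
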