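import Pool.Agent.PCP.Raw

/-!
# Powering of raw graphs (package W3)
-/

set_option autoImplicit false

namespace Pool.Agent.PCP

open Pool.Agent.PT Pool.Agent.Book19
open scoped Classical

variable {Γ J S : Type} {t : ℕ}

namespace Raw

/-- The vertex after `k` steps. -/
def walk (r : Raw J S) (z : ℕ) (W : Wd J t) : ℕ → ℕ
  | 0 => z
  | k + 1 => r.nb (r.walk z W k) (W (ix k))

/-- The power of a raw graph. -/
noncomputable def Pow [Inhabited J] (r : Raw J S) (inv : J → J) (t : ℕ) :
    Raw (J1 J t) (X1 J S t) where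
  N := r.N
  nb z p := if z < r.N then r.walk z p.1 (p.2.val + 1) else 0
  rel z p a b := z < r.N → ∀ i i' : Fin (t + 1), i.val + i'.val = p.2.val →
    r.rel (r.walk z p.1 i.val) (p.1 (ix i.val)) (a i (mask i.val p.1))
      (b i' (mask i'.val (rev inv (p.2.val + 1) p.1)))

end Raw

private theorem walk_raw {N : ℕ} (G : PG (Fin N) J S) (z : Fin N) (W : Wd J t) (k : ℕ) :
    G.raw.walk z.val W k = (G.walk z W k).val := by
  induction k with
  | zero => rfl
  | succ k ih =>
    change G.raw.nb (G.raw.walk z.val W k) (W (ix k)) = (G.nb (G.walk z W k) (W (ix k))).val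
    rw [ih]
    simp only [PG.raw, dif_pos (G.walk z W k).2]

/-- Walks from `z < N` stay below `N` and agree. -/
theorem raw_pow [Inhabited J] {N : ℕ} (G : PG (Fin N) J S) (t : ℕ) :
    (G.Pow t).raw = G.raw.Pow G.inv t := by
  refine Raw.ext rfl ?_ ?_
  · funext z p
    change (if h : z < N then ((G.Pow t).nb ⟨z, h⟩ p).val else 0) =
      if z < N then G.raw.walk z p.1 (p.2.val + 1) else 0
    by_cases h : z < N
    · rw [dif_pos h, if_pos h]
      exact (walk_raw G ⟨z, h⟩ p.1 (p.2.val + 1)).symm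
    · rw [dif_neg h, if_neg h]
  · funext z p a b
    refine propext ⟨fun H h i i' hii h' => ?_, fun H h i i' hii => ?_⟩
    · have h1 := walk_raw G ⟨z, h⟩ p.1 i.val
      have h2 := H h i i' hii
      have h3 : (⟨G.raw.walk z p.1 i.val, h'⟩ : Fin N) = G.walk ⟨z, h⟩ p.1 i.val := Fin.ext h1
      rw [h3]
      exact h2
    · have h1 := walk_raw G ⟨z, h⟩ p.1 i.val
      have h' : G.raw.walk z p.1 i.val < N := by
        have h4 := (G.walk ⟨z, h⟩ p.1 i.val).2
        exact lt_of_eq_of_lt h1 h4
      have h2 := H h i i' hii h'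
      have h3 : (⟨G.raw.walk z p.1 i.val, h'⟩ : Fin N) = G.walk ⟨z, h⟩ p.1 i.val := Fin.ext h1
      rw [h3] at h2
      exact h2

private theorem uf_walk {r : List Γ → Raw J S} (hr : Dfn r) (W : Wd J t) (k : ℕ) :
    UF fun x e => (r x).walk (e 0) W k := by
  induction k with
  | zero => exact UF.var 0
  | succ k ih => exact UF.comp₁ (f := fun x u => (r x).nb u (W (ix k))) (hr.nb (W (ix k))) ih

/-- `walk` with a fixed word and a fixed number of steps is in `UF` by induction; the relation is a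
fixed function of the finitely many tables `r.rel (walk z p.1 i) (p.1 (ix i))`, `i ≤ t`. -/
theorem Dfn.pow [Inhabited J] [Finite J] [Finite S] {r : List Γ → Raw J S} (hr : Dfn r)
    (inv : J → J) (t : ℕ) : Dfn fun x => (r x).Pow inv t := by
  refine ⟨hr.N, fun p => ?_, fun p => ?_⟩
  · exact UF.ite (inst := fun x e => Nat.decLt (e 0) (r x).N) (P := fun x e => e 0 < (r x).N)
      (UP.lt (UF.var 0) hr.N) (uf_walk hr p.1 (p.2.val + 1)) (UF.const 0)
  · have h1 : UD fun (x : List Γ) (e : ℕ → ℕ) =>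
        (e 0 < (r x).N, fun i : Fin (t + 1) =>
          (r x).rel ((r x).walk (e 0) p.1 i.val) (p.1 (ix i.val))) := by
      refine UD.pair (UP.toUD (UP.lt (UF.var 0) hr.N)) (UD.pi fun i => ?_)
      exact UD.comp₁ (f := fun x u => (r x).rel u (p.1 (ix i.val))) (hr.rel (p.1 (ix i.val)))
        (uf_walk hr p.1 i.val)
    exact h1.map (fun c : Prop × (Fin (t + 1) → S → S → Prop) =>
      fun (a b : X1 J S t) => c.1 → ∀ i i' : Fin (t + 1), i.val + i'.val = p.2.val →
        c.2 i (a i (mask i.val p.1)) (b i' (mask i'.val (rev inv (p.2.val + 1) p.1))))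

end Pool.Agent.PCP
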