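import Pool.Agent.PCP.RawAR
import Pool.Agent.PCP.Base

/-!
# The sequence of amplified graphs (package W10)
-/

set_option autoImplicit false

namespace Pool.Agent.PCP

open Pool.Agent.PT Pool.Agent.Book19

/-- A stage of the amplification. -/
structure St where
  M : ℕ
  pos : NeZero M
  G : PG (Fin (M * M)) J0 S0
  inv : G.inv = inv0

attribute [instance] St.pos

/-- One round. -/
noncomputable def St.next (t : ℕ) (s : St) : St :=
  ⟨s.M * cs (J1 J0 t) (X1 J0 S0 t), inferInstance, stepT t s.G, rfl⟩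

/-- The initial stage. -/
noncomputable def St.init (n : ℕ) (lit : ℕ → ℕ → ℕ) : St :=
  ⟨(n + 2) * cs (Fin 3) (Fin 3 → Bool), inferInstance, ARF (base n lit), rfl⟩

theorem PG.Gap.mono {V J S : Type} [Fintype V] [Fintype J] {G : PG V J S} {γ δ : ℝ}
    (h : G.Gap γ) (hd : δ ≤ γ) : G.Gap δ := fun σ =>
  (mul_le_mul_of_nonneg_right hd (by positivity)).trans (h σ)

theorem St.init_sat {n : ℕ} {lit : ℕ → ℕ → ℕ} (h : CSat n lit) : (St.init n lit).G.Sat :=
  ARF_sat _ ((base_sat n lit).2 h)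

theorem St.init_expander (n : ℕ) (lit : ℕ → ℕ → ℕ) :
    (St.init n lit).G.Expander (16.3 / 17) :=
  ARF_expander _

theorem St.init_gap {n : ℕ} {lit : ℕ → ℕ → ℕ} (h : ¬ CSat n lit) :
    (St.init n lit).G.Gap (1 / (3 * ((n : ℝ) + 2) ^ 2) / 1000000) :=
  ARF_gap (base n lit) (by positivity) (base_gap n lit h)

theorem St.iter_sat (t : ℕ) {s : St} (h : s.G.Sat) (i : ℕ) : ((St.next t)^[i] s).G.Sat := by
  induction i with
  | zero => exact h
  | succ i ih =>
    rw [Function.iterate_succ_apply']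
    exact stepT_sat t _ ih

theorem St.iter_gap (t : ℕ) (ht : 2 ≤ (t : ℝ) * εc) {s : St} {γ : ℝ} (hγ : 0 ≤ γ)
    (he : s.G.Expander (16.3 / 17)) (h : s.G.Gap γ) (i : ℕ) :
    ((St.next t)^[i] s).G.Expander (16.3 / 17) ∧
      ((St.next t)^[i] s).G.Gap (min εc (2 ^ i * γ)) := by
  induction i with
  | zero =>
    refine ⟨he, h.mono ?_⟩
    rw [pow_zero, one_mul]
    exact min_le_right _ _
  | succ i ih =>
    rw [Function.iterate_succ_apply']
    refine ⟨stepT_expander t _, ?_⟩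
    have h1 := stepT_gap' t ht ((St.next t)^[i] s).G
      (le_min εc_pos.le (mul_nonneg (by positivity) hγ)) ih.1 ih.2
    refine h1.mono ?_
    have hε := εc_pos
    refine le_min (min_le_left _ _) ?_
    rcases le_total εc (2 ^ i * γ) with h2 | h2
    · rw [min_eq_left h2]
      exact (min_le_left _ _).trans (by linarith)
    · rw [min_eq_right h2]
      exact (min_le_right _ _).trans (le_of_eq (by ring))

theorem St.iter_M (t : ℕ) (s : St) (i : ℕ) :
    ((St.next t)^[i] s).M = s.M * cs (J1 J0 t) (X1 J0 S0 t) ^ i := by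
  induction i with
  | zero => simp
  | succ i ih =>
    rw [Function.iterate_succ_apply', pow_succ, ← mul_assoc, ← ih]
    rfl

/-- Enough rounds.  Proof sketch: `i = Nat.size ((n + 2) * (n + 2))`, `2 ^ i > (n + 2)²`,
`(n + 2)² / (3 (n + 2)²) / 10⁶ ≥ εc`. -/
theorem St.final_gap (t : ℕ) (ht : 2 ≤ (t : ℝ) * εc) {n : ℕ} {lit : ℕ → ℕ → ℕ}
    (h : ¬ CSat n lit) :
    ((St.next t)^[Nat.size ((n + 2) * (n + 2))] (St.init n lit)).G.Gap εc := by
  have h1 := (St.iter_gap t ht (by positivity) (St.init_expander n lit) (St.init_gap h)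
    (Nat.size ((n + 2) * (n + 2)))).2
  refine h1.mono (le_min le_rfl ?_)
  have h2 : (((n + 2) * (n + 2) : ℕ) : ℝ) ≤ 2 ^ Nat.size ((n + 2) * (n + 2)) := by
    exact_mod_cast (Nat.lt_size_self ((n + 2) * (n + 2))).le
  have h3 : (0 : ℝ) < (n : ℝ) + 2 := by positivity
  calc εc ≤ 1 / 3 / 1000000 := by unfold εc; norm_num
    _ = (((n + 2) * (n + 2) : ℕ) : ℝ) * (1 / (3 * ((n : ℝ) + 2) ^ 2) / 1000000) := by
        push_cast
        field_simp
    _ ≤ 2 ^ Nat.size ((n + 2) * (n + 2)) * (1 / (3 * ((n : ℝ) + 2) ^ 2) / 1000000) :=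
        mul_le_mul_of_nonneg_right h2 (by positivity)

end Pool.Agent.PCP
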