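import Pool.Agent.PCP.HypPow
import Pool.Agent.PCP.HypDfn
import Pool.Agent.PCP.Fgl
import Pool.Agent.PCP.WFComp
import Pool.Agent.PCP.Seq
import Pool.Agent.MMD.Inst

/-!
# The set cover instances (package F1)
-/

set_option autoImplicit false

namespace Pool.Agent.PCP

open Pool.Agent.PT Pool.Agent.Book19 Pool.Agent.MMD
open scoped Classical

/-- The hypergraph of a stage: the `L`-th power of the hypergraph of its graph. -/
noncomputable def scH (L : ℕ) (r : Raw J0 S0) : Hyp :=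
  Hyp.pw (r.N * K0) (r.N * K0 * (r.N * K0)) (fel r) L

theorem scH_used (L : ℕ) (s : St) (i : ℕ) (hi : i < (scH L s.G.raw).n) :
    ∃ e < (scH L s.G.raw).m, (scH L s.G.raw).inc e i :=
  Hyp.pw_used (fel_used s.G) L i hi

theorem scH_ne (L : ℕ) (s : St) : (scH L s.G.raw).Ne := by
  have hN : 0 < s.M * s.M := Nat.mul_pos (Nat.pos_of_ne_zero (NeZero.ne _))
    (Nat.pos_of_ne_zero (NeZero.ne _))
  exact Hyp.pw_ne (fun i hi b => fel_lt hN s.G i hi b) L

private theorem sc_pw_m_pos {n m : ℕ} (el : ℕ → Bool → ℕ) (hm : 0 < m) (L : ℕ) :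
    0 < (Hyp.pw n m el L).m := by
  induction L with
  | zero => exact Nat.one_pos
  | succ L ih => exact Nat.mul_pos hm (Nat.mul_pos ih ih)

private theorem sc_MM_pos (s : St) : 0 < s.M * s.M :=
  Nat.mul_pos (Nat.pos_of_ne_zero (NeZero.ne _)) (Nat.pos_of_ne_zero (NeZero.ne _))

theorem scH_pos (L : ℕ) (s : St) : 0 < (scH L s.G.raw).m := by
  have h : 0 < s.M * s.M * K0 := Nat.mul_pos (sc_MM_pos s) K0_pos
  exact sc_pw_m_pos _ (Nat.mul_pos h h) L

/-- The set cover instance: the elements to be covered are the edges of the hypergraph, the sets are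
its elements. -/
noncomputable def scI (L : ℕ) (s : St) : SetCover where
  u := (scH L s.G.raw).m
  m := (scH L s.G.raw).n
  inc i e := (scH L s.G.raw).inc e.val i.val
  k := ((K0 - 17) * (s.M * s.M)) ^ L
  pos := scH_pos L s
  nonempty i := by
    obtain ⟨e, he, h⟩ := scH_used L s i.val i.2
    exact ⟨⟨e, he⟩, h⟩
  covered e := by
    obtain ⟨i, hi, h⟩ := scH_ne L s e.val e.2
    exact ⟨⟨i, hi⟩, h⟩

theorem scI_k_pos (L : ℕ) (s : St) : 1 ≤ (scI L s).k := by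
  have h1 : 0 < K0 - 17 := by rw [K0_eq]; norm_num
  exact Nat.pos_of_ne_zero (pow_ne_zero L (Nat.mul_pos h1 (sc_MM_pos s)).ne')

/-- Completeness. -/
theorem scI_complete (L : ℕ) (s : St) (h : s.G.Sat) : (scI L s).tau ≤ (scI L s).k := by
  obtain ⟨T, hT, hTc⟩ := fgl_complete (sc_MM_pos s) s.G h
  obtain ⟨U, hU, hUc⟩ := Hyp.pw_hits hT L
  let C : Finset (Fin (scI L s).m) := Finset.univ.filter fun i => i.val ∈ U
  have hC : (scI L s).IsCover C := by
    intro e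
    obtain ⟨j, hj, hje⟩ := hU.2 e.val e.2
    exact ⟨⟨j, hU.1 j hj⟩, Finset.mem_filter.2 ⟨Finset.mem_univ _, hj⟩, hje⟩
  have h1 : (scI L s).tau ≤ C.card := Nat.sInf_le ⟨C, hC, rfl⟩
  have h2 : C.card ≤ U.card :=
    Finset.card_le_card_of_injOn Fin.val (fun i hi => (Finset.mem_filter.1 hi).2)
      (fun i _ j _ hij => Fin.ext hij)
  exact h1.trans (h2.trans (hUc.trans (Nat.pow_le_pow_left hTc L)))

/-- Soundness. -/
theorem scI_sound (L : ℕ) (s : St) (h : s.G.Gap εc) :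
    (((K0 : ℝ) - 17 + 17 * εc) * (s.M * s.M : ℕ)) ^ L ≤ (scI L s).tau := by
  have hne : {n | ∃ C : Finset (Fin (scI L s).m), (scI L s).IsCover C ∧ C.card = n}.Nonempty :=
    ⟨_, Finset.univ, fun e => by
      obtain ⟨i, hi⟩ := (scI L s).covered e
      exact ⟨i, Finset.mem_univ _, hi⟩, rfl⟩
  obtain ⟨C, hC, hCc⟩ := Nat.sInf_mem hne
  have hCc' : C.card = (scI L s).tau := hCc
  rw [← hCc']
  let U : Finset ℕ := C.map Fin.valEmbedding
  have hU : (scH L s.G.raw).Hits U := by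
    refine ⟨fun j hj => ?_, fun e he => ?_⟩
    · obtain ⟨i, _, rfl⟩ := Finset.mem_map.1 hj
      exact i.2
    · obtain ⟨i, hi, hie⟩ := hC ⟨e, he⟩
      exact ⟨i.val, Finset.mem_map.2 ⟨i, hi, rfl⟩, hie⟩
  have hUc : U.card = C.card := Finset.card_map _
  rw [← hUc]
  have hK : (0 : ℝ) ≤ (K0 : ℝ) - 17 + 17 * εc := by
    have h1 := εc_pos
    have h2 : (K0 : ℝ) = 17 * 256 := by rw [K0_eq]; norm_num
    rw [h2]
    linarith
  exact Hyp.pw_ge (fun i hi b => fel_lt (sc_MM_pos s) s.G i hi b)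
    (mul_nonneg hK (Nat.cast_nonneg _))
    (fun T hT => fgl_sound (sc_MM_pos s) s.G εc_pos.le h hT) L hU

/-- The gap is arbitrarily large.  Proof sketch: `scI_sound` and
`((K0 - 17 + 17 εc) / (K0 - 17)) ^ L → ∞`. -/
theorem exists_L (c : ℝ) : ∃ L : ℕ, 1 ≤ L ∧ ∀ s : St, s.G.Gap εc →
    4 * c * (scI L s).k < (scI L s).tau := by
  have h1 := εc_pos
  have h2 : (K0 : ℝ) = 17 * 256 := by rw [K0_eq]; norm_num
  have hd : (1 : ℝ) < 1 + 17 * εc / ((K0 : ℝ) - 17) := by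
    rw [h2]
    have : (0 : ℝ) < 17 * εc / (17 * 256 - 17) := by positivity
    linarith
  obtain ⟨L, hL⟩ := pow_unbounded_of_one_lt (4 * c) hd
  refine ⟨L + 1, Nat.le_add_left 1 L, fun s hs => ?_⟩
  refine lt_of_lt_of_le ?_ (scI_sound (L + 1) s hs)
  have hk : ((scI (L + 1) s).k : ℝ) = (((K0 : ℝ) - 17) * (s.M * s.M : ℕ)) ^ (L + 1) := by
    change ((((K0 - 17) * (s.M * s.M)) ^ (L + 1) : ℕ) : ℝ) = _
    have h3 : 17 ≤ K0 := by rw [K0_eq]; norm_num
    rw [Nat.cast_pow, Nat.cast_mul, Nat.cast_sub h3]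
    norm_num
  have hpos : (0 : ℝ) < ((scI (L + 1) s).k : ℝ) := by
    exact_mod_cast scI_k_pos (L + 1) s
  have h4 : (((K0 : ℝ) - 17 + 17 * εc) * (s.M * s.M : ℕ)) ^ (L + 1) =
      (1 + 17 * εc / ((K0 : ℝ) - 17)) ^ (L + 1) * ((scI (L + 1) s).k : ℝ) := by
    rw [hk, ← mul_pow]
    congr 1
    have h5 : (K0 : ℝ) - 17 ≠ 0 := by rw [h2]; norm_num
    field_simp
  rw [h4]
  refine mul_lt_mul_of_pos_right ?_ hpos
  refine lt_of_lt_of_le hL ?_
  exact pow_le_pow_right₀ hd.le (Nat.le_succ L)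

end Pool.Agent.PCP
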