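import Pool.Agent.PCP.ARExp
import Pool.Agent.PCP.ARSound
import Pool.Agent.PCP.PowSound

/-!
# One round of gap amplification

All graphs have the vertex set `Fin (M * M)`.  `ARF` is the alphabet reduction of a graph on
`Fin (M * M)`, on the vertex set `Fin (M' * M')` with `M' = M * cs J X`.
-/

set_option autoImplicit false

namespace Pool.Agent.PCP

open Finset
open scoped Classical

section

variable (J X : Type) [Fintype J] [Fintype X]

/-- A fixed numbering of the new vertices over one old vertex. -/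
noncomputable def en : W1 J X ≃ Fin (cs J X * cs J X) :=
  Fintype.equivFinOfCardEq (by rw [card_W1, pow_two])

/-- Numbers of the new vertices: `(z, w) ↦ z * cs² + en w`. -/
noncomputable def num (M : ℕ) :
    Fin (M * M) × W1 J X ≃ Fin ((M * cs J X) * (M * cs J X)) :=
  ((Equiv.refl _).prodCongr (en J X)).trans
    (finProdFinEquiv.trans (finCongr (by ring)))

theorem num_val (M : ℕ) (z : Fin (M * M)) (w : W1 J X) :
    (num J X M (z, w)).val = z.val * (cs J X * cs J X) + (en J X w).val := by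
  simp [num, finProdFinEquiv]
  ring

end

/-- `Fin (K * K)` as a torus: `u ↦ (u / K, u % K)`. -/
def tor (K : ℕ) [NeZero K] : Fin (K * K) ≃ ZMod K × ZMod K where
  toFun u := ((u.val / K : ℕ), (u.val % K : ℕ))
  invFun z := ⟨z.1.val * K + z.2.val, by
    have h1 := ZMod.val_lt z.1
    have h2 := ZMod.val_lt z.2
    calc z.1.val * K + z.2.val < z.1.val * K + K := by omega
      _ = (z.1.val + 1) * K := by ring
      _ ≤ K * K := Nat.mul_le_mul_right _ h1⟩
  left_inv u := by
    ext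
    have hK : 0 < K := Nat.pos_of_ne_zero (NeZero.ne K)
    have h1 : u.val / K < K := Nat.div_lt_of_lt_mul u.2
    have h2 : u.val % K < K := Nat.mod_lt _ hK
    simp only [ZMod.val_natCast, Nat.mod_eq_of_lt h1, Nat.mod_mod]
    exact Nat.div_add_mod' _ _
  right_inv z := by
    have hK : 0 < K := Nat.pos_of_ne_zero (NeZero.ne K)
    have h1 := ZMod.val_lt z.1
    have h2 := ZMod.val_lt z.2
    have e1 : (z.1.val * K + z.2.val) / K = z.1.val := by
      rw [mul_comm, Nat.mul_add_div hK, Nat.div_eq_of_lt h2, add_zero]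
    have e2 : (z.1.val * K + z.2.val) % K = z.2.val := by
      rw [mul_comm, Nat.mul_add_mod, Nat.mod_eq_of_lt h2]
    ext
    · simp only [e1, ZMod.natCast_zmod_val]
    · simp only [e2, ZMod.natCast_zmod_val]

variable {J X : Type} [Fintype J] [Fintype X] {M : ℕ}

instance instNeZeroMul [NeZero M] : NeZero (M * cs J X) :=
  ⟨Nat.mul_ne_zero (NeZero.ne M) (cs_pos J X).ne'⟩

/-- Alphabet reduction on `Fin (M * M)`. -/
noncomputable def ARF [NeZero M] (G : PG (Fin (M * M)) J X) :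
    PG (Fin ((M * cs J X) * (M * cs J X))) J0 S0 :=
  (G.AR ((num J X M).trans (tor (M * cs J X)))).map (num J X M)

theorem ARF_sat [NeZero M] (G : PG (Fin (M * M)) J X) (h : G.Sat) : (ARF G).Sat :=
  (PG.map_sat _ _).2 (AR_sat G _ h)

theorem ARF_expander [NeZero M] (G : PG (Fin (M * M)) J X) : (ARF G).Expander (16.3 / 17) :=
  PG.map_expander _ _ (AR_expander G _)

theorem ARF_gap [NeZero M] [Nonempty J] [Nonempty X] (G : PG (Fin (M * M)) J X) {γ : ℝ}
    (hγ : 0 ≤ γ) (hG : G.Gap γ) : (ARF G).Gap (γ / 1000000) :=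
  PG.map_gap _ _ (AR_gap G _ hγ hG)

instance : Inhabited J0 := ⟨Sum.inr (Sum.inl ())⟩

/-- The gap produced by one round. -/
noncomputable def εc : ℝ := 1 / (4 * (2 + 2 / (1 - 16.3 / 17)) * (16 : ℝ) ^ 4) / 1000000

theorem εc_pos : 0 < εc := by unfold εc; norm_num

theorem card_S0 : Fintype.card S0 = 16 := by
  simp [ZMod.card]

/-- One round of amplification, with the exponent `t`. -/
noncomputable def stepT (t : ℕ) [NeZero M] (G : PG (Fin (M * M)) J0 S0) :
    PG (Fin ((M * cs (J1 J0 t) (X1 J0 S0 t)) * (M * cs (J1 J0 t) (X1 J0 S0 t)))) J0 S0 :=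
  ARF (G.Pow t)

theorem stepT_sat (t : ℕ) [NeZero M] (G : PG (Fin (M * M)) J0 S0) (h : G.Sat) :
    (stepT t G).Sat :=
  ARF_sat _ (G.pow_sat t h)

theorem stepT_expander (t : ℕ) [NeZero M] (G : PG (Fin (M * M)) J0 S0) :
    (stepT t G).Expander (16.3 / 17) :=
  ARF_expander _

theorem stepT_gap (t : ℕ) [NeZero M] (G : PG (Fin (M * M)) J0 S0) {γ : ℝ} (hγ : 0 ≤ γ)
    (hE : G.Expander (16.3 / 17)) (hG : G.Gap γ) :
    (stepT t G).Gap (min 1 (((t : ℝ) + 1) * γ) * εc) := by
  have h1 := G.pow_gap t (r := 16.3 / 17) (by norm_num) (by norm_num) hE hγ hG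
  have hb : 0 < 4 * (2 + 2 / (1 - 16.3 / 17)) * (Fintype.card S0 : ℝ) ^ 4 := by
    rw [card_S0]; norm_num
  have h2 : 0 ≤ min 1 (((t : ℝ) + 1) * γ) /
      (4 * (2 + 2 / (1 - 16.3 / 17)) * (Fintype.card S0 : ℝ) ^ 4) :=
    div_nonneg (le_min zero_le_one (by positivity)) hb.le
  have h3 := ARF_gap (G.Pow t) h2 h1
  have h4 : min 1 (((t : ℝ) + 1) * γ) /
      (4 * (2 + 2 / (1 - 16.3 / 17)) * (Fintype.card S0 : ℝ) ^ 4) / 1000000 =
      min 1 (((t : ℝ) + 1) * γ) * εc := by
    rw [card_S0]; unfold εc; push_cast; ring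
  rw [h4] at h3
  exact h3

/-- The exponent of the powering. -/
theorem exists_tt : ∃ t : ℕ, 2 ≤ (t : ℝ) * εc := by
  refine ⟨⌈2 / εc⌉₊, ?_⟩
  have h5 : 2 / εc ≤ (⌈2 / εc⌉₊ : ℝ) := Nat.le_ceil _
  rwa [div_le_iff₀ εc_pos] at h5

/-- **Gap amplification.** -/
theorem stepT_gap' (t : ℕ) (ht : 2 ≤ (t : ℝ) * εc) [NeZero M] (G : PG (Fin (M * M)) J0 S0)
    {γ : ℝ} (hγ : 0 ≤ γ) (hE : G.Expander (16.3 / 17)) (hG : G.Gap γ) :
    (stepT t G).Gap (min εc (2 * γ)) := by
  intro σ
  refine le_trans (mul_le_mul_of_nonneg_right ?_ (by positivity)) (stepT_gap t G hγ hE hG σ)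
  rcases le_total 1 (((t : ℝ) + 1) * γ) with h | h
  · rw [min_eq_left h, one_mul]
    exact min_le_left _ _
  · rw [min_eq_right h]
    refine (min_le_right _ _).trans ?_
    nlinarith [mul_nonneg hγ εc_pos.le]

end Pool.Agent.PCP
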