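import Pool.Agent.PCP.Defs

/-!
# The long code test: definitions

For a constraint `R` between two symbols of `X` a table `B` on the functions `X × X → F₂` (supposedly
`h ↦ h (a, b)`) and tables `A₁`, `A₂` on the functions `X → F₂` (supposedly `f ↦ f a`, `f ↦ f b`) are
tested with four queries.  The randomness is `ω = (κ, (h₁, h₂, h₃), f)`:

* `κ = 0`: `B h₁ + B h₂ + B (h₁ + h₂) = 0`
* `κ = 1`: `B h₁ * B h₂ = B h₃ + B (h₃ + h₁ h₂)`
* `κ = 2`: `B h₁ + B (h₁ + 1_R) = 1`
* `κ = 3`: `A₁ f + B h₁ + B (h₁ + f ∘ fst) = 0`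
* `κ = 4`: `A₂ f + B h₁ + B (h₁ + f ∘ snd) = 0`
-/

set_option autoImplicit false

namespace Pool.Agent.PCP

open Finset

/-- Functions on the symbols. -/
abbrev FX (X : Type) : Type := X → ZMod 2

/-- Functions on the pairs of symbols. -/
abbrev FY (X : Type) : Type := X × X → ZMod 2

/-- The randomness of the test. -/
abbrev Om (X : Type) : Type := Fin 5 × (FY X × FY X × FY X) × FX X

variable {X : Type}

/-- The acceptance predicate on the four answers. -/
def acc (κ : Fin 5) (s : S0) : Prop :=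
  if κ = 1 then s 0 * s 1 = s 2 + s 3 else if κ = 2 then s 0 + s 1 = 1 else s 0 + s 1 + s 2 = 0

/-- The queries to the tables `A₁`, `A₂`. -/
def isA (κ : Fin 5) (i : Fin 4) : Prop := i = 0 ∧ 3 ≤ κ.val

instance (κ : Fin 5) (i : Fin 4) : Decidable (isA κ i) := by unfold isA; infer_instance

open Classical in
/-- The indicator of a relation. -/
noncomputable def ind (R : X → X → Prop) : FY X := fun y => if R y.1 y.2 then 1 else 0

/-- The main coordinate of query `i`: the point at which `B` is read after `twist`. -/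
def coord (ω : Om X) (i : Fin 4) : FY X :=
  if (ω.1 = 0 ∨ ω.1 = 1) ∧ i = 1 then ω.2.1.2.1
  else if ω.1 = 1 ∧ 2 ≤ i.val then ω.2.1.2.2
  else ω.2.1.1

/-- Change the main coordinate of the randomness to the point that is read (an involution). -/
noncomputable def twist (R : X → X → Prop) (ω : Om X) (i : Fin 4) : Om X :=
  if ω.1 = 0 ∧ i = 2 then (ω.1, (ω.2.1.1 + ω.2.1.2.1, ω.2.1.2), ω.2.2)
  else if ω.1 = 1 ∧ i = 3 then (ω.1, (ω.2.1.1, ω.2.1.2.1, ω.2.1.2.2 + ω.2.1.1 * ω.2.1.2.1), ω.2.2)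
  else if ω.1 = 2 ∧ i = 1 then (ω.1, (ω.2.1.1 + ind R, ω.2.1.2), ω.2.2)
  else if ω.1 = 3 ∧ i = 2 then (ω.1, (ω.2.1.1 + fun y => ω.2.2 y.1, ω.2.1.2), ω.2.2)
  else if ω.1 = 4 ∧ i = 2 then (ω.1, (ω.2.1.1 + fun y => ω.2.2 y.2, ω.2.1.2), ω.2.2)
  else ω

/-- The answer to query `i`. -/
noncomputable def ans (R : X → X → Prop) (B : FY X → ZMod 2) (A₁ A₂ : FX X → ZMod 2) (ω : Om X)
    (i : Fin 4) : ZMod 2 :=
  if isA ω.1 i then (if ω.1 = 3 then A₁ ω.2.2 else A₂ ω.2.2) else B (coord (twist R ω i) i)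

open Classical in
/-- Decoding a table: the symbol whose long code agrees with it on more than three quarters. -/
noncomputable def dec [Fintype X] [Nonempty X] (A : FX X → ZMod 2) : X :=
  if h : ∃ a : X, 4 * (univ.filter fun f : FX X => A f ≠ f a).card < Fintype.card (FX X) then
    h.choose else Classical.arbitrary X

end Pool.Agent.PCP
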