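import Pool.Agent.PCP.Test
import Pool.Agent.PCP.Lin

/-! # The long code test (package L2) -/

set_option autoImplicit false

namespace Pool.Agent.PCP

open Finset

variable {X : Type}

theorem twist_fst (R : X → X → Prop) (ω : Om X) (i : Fin 4) : (twist R ω i).1 = ω.1 := by
  unfold twist; split_ifs <;> rfl

theorem twist_f (R : X → X → Prop) (ω : Om X) (i : Fin 4) : (twist R ω i).2.2 = ω.2.2 := by
  unfold twist; split_ifs <;> rfl

private theorem add2 {Y : Type} (x y : Y → ZMod 2) : x + y + y = x := by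
  funext t
  simp only [Pi.add_apply]
  rw [add_assoc, CharTwo.add_self_eq_zero, add_zero]

theorem twist_twist (R : X → X → Prop) (ω : Om X) (i : Fin 4) :
    twist R (twist R ω i) i = ω := by
  obtain ⟨κ, ⟨h₁, h₂, h₃⟩, f⟩ := ω
  by_cases c0 : κ = 0 ∧ i = 2
  · simp [twist, c0, add2]
  by_cases c1 : κ = 1 ∧ i = 3
  · simp [twist, c1, add2]
  by_cases c2 : κ = 2 ∧ i = 1
  · simp [twist, c2, add2]
  by_cases c3 : κ = 3 ∧ i = 2
  · simp [twist, c3, add2]
  by_cases c4 : κ = 4 ∧ i = 2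
  · simp [twist, c4, add2]
  simp [twist, c0, c1, c2, c3, c4]

open Classical in
private theorem half [Fintype X] {a a' : X} (h : a ≠ a') :
    Fintype.card (FX X) ≤ 2 * (univ.filter fun f : FX X => f a ≠ f a').card := by
  have h1 : (univ.filter fun f : FX X => ¬ f a ≠ f a').card ≤
      (univ.filter fun f : FX X => f a ≠ f a').card := by
    refine Finset.card_le_card_of_injOn (fun f => f + Pi.single a 1) ?_ ?_
    · intro f hf
      simp only [coe_filter, mem_univ, true_and, Set.mem_ofPred_eq, not_not] at hf ⊢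
      simp only [Pi.add_apply, Pi.single_eq_same, Pi.single_eq_of_ne h.symm, add_zero, hf]
      intro h2
      exact one_ne_zero (add_eq_left.1 h2)
    · intro f _ g _ hfg
      exact add_right_cancel hfg
  have h2 := Finset.card_filter_add_card_filter_not (s := (univ : Finset (FX X)))
    (fun f : FX X => f a ≠ f a')
  rw [Finset.card_univ] at h2
  omega

open Classical in
private theorem two_codes [Fintype X] {A : FX X → ZMod 2} {a a' : X}
    (h : 4 * (univ.filter fun f : FX X => A f ≠ f a).card < Fintype.card (FX X))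
    (h' : 4 * (univ.filter fun f : FX X => A f ≠ f a').card < Fintype.card (FX X)) : a = a' := by
  by_contra hne
  have h1 := half hne
  have h2 : (univ.filter fun f : FX X => f a ≠ f a') ⊆
      (univ.filter fun f : FX X => A f ≠ f a) ∪ (univ.filter fun f : FX X => A f ≠ f a') := by
    intro f hf
    simp only [mem_union, mem_filter, mem_univ, true_and] at hf ⊢
    by_contra h3
    push Not at h3
    exact hf (h3.1.symm.trans h3.2)
  have h3 := (Finset.card_le_card h2).trans (Finset.card_union_le _ _)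
  omega

open Classical in
private theorem dec_eq [Fintype X] [Nonempty X] {A : FX X → ZMod 2} {a : X}
    (h : 4 * (univ.filter fun f : FX X => A f ≠ f a).card < Fintype.card (FX X)) :
    dec A = a := by
  have he : ∃ a : X, 4 * (univ.filter fun f : FX X => A f ≠ f a).card < Fintype.card (FX X) :=
    ⟨a, h⟩
  unfold dec
  rw [dif_pos he]
  exact two_codes he.choose_spec h

theorem dec_long [Fintype X] [Nonempty X] (a : X) : dec (fun f : FX X => f a) = a := by
  classical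
  apply dec_eq
  simp

private theorem acc0 (R : X → X → Prop) (B : FY X → ZMod 2) (A₁ A₂ : FX X → ZMod 2)
    (h₁ h₂ h₃ : FY X) (f : FX X) :
    acc (0 : Fin 5) (fun i => ans R B A₁ A₂ (0, (h₁, h₂, h₃), f) i) ↔
      B h₁ + B h₂ + B (h₁ + h₂) = 0 := by
  simp [acc, ans, isA, twist, coord]

private theorem acc1 (R : X → X → Prop) (B : FY X → ZMod 2) (A₁ A₂ : FX X → ZMod 2)
    (h₁ h₂ h₃ : FY X) (f : FX X) :
    acc (1 : Fin 5) (fun i => ans R B A₁ A₂ (1, (h₁, h₂, h₃), f) i) ↔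
      B h₁ * B h₂ = B h₃ + B (h₃ + h₁ * h₂) := by
  simp [acc, ans, isA, twist, coord]

private theorem acc2 (R : X → X → Prop) (B : FY X → ZMod 2) (A₁ A₂ : FX X → ZMod 2)
    (h₁ h₂ h₃ : FY X) (f : FX X) :
    acc (2 : Fin 5) (fun i => ans R B A₁ A₂ (2, (h₁, h₂, h₃), f) i) ↔
      B h₁ + B (h₁ + ind R) = 1 := by
  simp [acc, ans, isA, twist, coord]

private theorem acc3 (R : X → X → Prop) (B : FY X → ZMod 2) (A₁ A₂ : FX X → ZMod 2)
    (h₁ h₂ h₃ : FY X) (f : FX X) :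
    acc (3 : Fin 5) (fun i => ans R B A₁ A₂ (3, (h₁, h₂, h₃), f) i) ↔
      A₁ f + B h₁ + B (h₁ + fun y => f y.1) = 0 := by
  simp [acc, ans, isA, twist, coord]

private theorem acc4 (R : X → X → Prop) (B : FY X → ZMod 2) (A₁ A₂ : FX X → ZMod 2)
    (h₁ h₂ h₃ : FY X) (f : FX X) :
    acc (4 : Fin 5) (fun i => ans R B A₁ A₂ (4, (h₁, h₂, h₃), f) i) ↔
      A₂ f + B h₁ + B (h₁ + fun y => f y.2) = 0 := by
  simp [acc, ans, isA, twist, coord]

/-- Completeness: correct tables are accepted. -/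
theorem test_complete (R : X → X → Prop) {a b : X} (h : R a b) (ω : Om X) :
    acc ω.1 (fun i => ans R (fun h => h (a, b)) (fun f => f a) (fun f => f b) ω i) := by
  obtain ⟨κ, ⟨h₁, h₂, h₃⟩, f⟩ := ω
  have e : ∀ x y : ZMod 2, x + y + (x + y) = 0 := fun x y => CharTwo.add_self_eq_zero _
  fin_cases κ
  · refine (acc0 R _ _ _ h₁ h₂ h₃ f).2 ?_
    exact e _ _
  · refine (acc1 R _ _ _ h₁ h₂ h₃ f).2 ?_
    simp only [Pi.add_apply, Pi.mul_apply]
    rw [← add_assoc, CharTwo.add_self_eq_zero, zero_add]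
  · refine (acc2 R _ _ _ h₁ h₂ h₃ f).2 ?_
    simp only [Pi.add_apply, ind]
    rw [← add_assoc, CharTwo.add_self_eq_zero, zero_add, if_pos h]
  · refine (acc3 R _ _ _ h₁ h₂ h₃ f).2 ?_
    simp only [Pi.add_apply]
    rw [add_comm (f a)]
    exact e _ _
  · refine (acc4 R _ _ _ h₁ h₂ h₃ f).2 ?_
    simp only [Pi.add_apply]
    rw [add_comm (f b)]
    exact e _ _

/-- the number of elements with a property -/
private noncomputable def cnt {α : Type} (P : α → Prop) : ℕ := Nat.card {a // P a}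

private theorem cnt_eq {α : Type} [Fintype α] (P : α → Prop) [DecidablePred P] :
    (univ.filter P).card = cnt P := by
  rw [cnt, Nat.card_eq_fintype_card, Fintype.card_subtype]

private theorem cnt_inj {α β : Type} [Finite β] (P : α → Prop) (Q : β → Prop) (e : α → β)
    (he : Function.Injective e) (h : ∀ a, P a → Q (e a)) : cnt P ≤ cnt Q := by
  refine Nat.card_le_card_of_injective (fun a : {a // P a} => (⟨e a.1, h a.1 a.2⟩ : {b // Q b})) ?_
  intro a a' haa
  exact Subtype.ext (he (Subtype.ext_iff.1 haa))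

private theorem cnt_or {α : Type} [Finite α] {P Q R : α → Prop} (h : ∀ a, P a → Q a ∨ R a) :
    cnt P ≤ cnt Q + cnt R := by
  classical
  have := Fintype.ofFinite α
  rw [← cnt_eq, ← cnt_eq, ← cnt_eq]
  refine le_trans (Finset.card_le_card ?_) (Finset.card_union_le _ _)
  intro a ha
  simp only [mem_union, mem_filter, mem_univ, true_and] at ha ⊢
  exact h a ha

private theorem cnt_all {α : Type} : cnt (fun _ : α => True) = Nat.card α :=
  Nat.card_congr (Equiv.subtypeUnivEquiv fun _ => trivial)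

private theorem cnt_prod {β γ : Type} (P : β → Prop) :
    cnt (fun q : β × γ => P q.1) = cnt P * Nat.card γ := by
  unfold cnt
  rw [← Nat.card_prod]
  refine Nat.card_congr ⟨fun q => (⟨q.1.1, q.2⟩, q.1.2), fun q => ⟨(q.1.1, q.2), q.1.2⟩, ?_, ?_⟩
  · intro q; rfl
  · intro q; rfl

private theorem card_le {α β γ : Type} [Finite β] [Finite γ] (P : β → Prop)
    (e : α → β × γ) (he : Function.Injective e) :
    cnt (fun a => P (e a).1) ≤ cnt P * Nat.card γ := by
  rw [← cnt_prod]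
  exact cnt_inj _ _ e he fun a ha => ha

private theorem le_card {α β γ : Type} [Finite α] (P : β → Prop)
    (Q : α → Prop) (e : β × γ → α) (he : Function.Injective e)
    (h : ∀ b c, P b → Q (e (b, c))) : cnt P * Nat.card γ ≤ cnt Q := by
  rw [← cnt_prod]
  exact cnt_inj _ _ e he fun a ha => h a.1 a.2 ha

open Classical in
private theorem kind [Fintype X] (R : X → X → Prop) (B : FY X → ZMod 2)
    (A₁ A₂ : FX X → ZMod 2)
    (h : 100 * (univ.filter fun ω : Om X => ¬ acc ω.1 (fun i => ans R B A₁ A₂ ω i)).card <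
      Fintype.card (Om X)) {β γ : Type} (κ : Fin 5) (P : β → Prop)
    (e : β × γ → (FY X × FY X × FY X) × FX X) (he : Function.Injective e)
    (hP : ∀ b c, P b → ¬ acc κ (fun i => ans R B A₁ A₂ (κ, e (b, c)) i)) :
    20 * (cnt P * Nat.card γ) < Nat.card (FY X) ^ 3 * Nat.card (FX X) := by
  have h1 := le_card P (fun ω : Om X => ¬ acc ω.1 (fun i => ans R B A₁ A₂ ω i))
    (fun q => (κ, e q)) (fun q q' hq => he (Prod.ext_iff.1 hq).2) hP
  have h2 : Nat.card (Om X) = 5 * (Nat.card (FY X) ^ 3 * Nat.card (FX X)) := by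
    have h5 : Nat.card (Fin 5) = 5 := by simp
    simp only [Om, Nat.card_prod, h5]
    ring
  rw [cnt_eq, ← Nat.card_eq_fintype_card] at h
  omega

/-- kinds 3 and 4 -/
private theorem kindA [Fintype X] [Nonempty X] (B : FY X → ZMod 2) (A : FX X → ZMod 2)
    (t : X × X) (p : X × X → X)
    (hbad : 20 * cnt (fun h : FY X => B h ≠ h t) ≤ Nat.card (FY X))
    (hrej : 20 * cnt (fun q : FY X × FX X =>
      ¬ A q.2 + B q.1 + B (q.1 + fun y => q.2 (p y)) = 0) <
      Nat.card (FY X) * Nat.card (FX X)) : dec A = p t := by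
  classical
  apply dec_eq
  have h1 : cnt (fun q : FX X × FY X => A q.1 ≠ q.1 (p t)) ≤
      cnt (fun q : FX X × FY X => ¬ A q.1 + B q.2 + B (q.2 + fun y => q.1 (p y)) = 0) +
      cnt (fun q : FX X × FY X => B q.2 ≠ q.2 t ∨
        B (q.2 + fun y => q.1 (p y)) ≠ (q.2 + fun y => q.1 (p y)) t) := by
    apply cnt_or
    rintro ⟨f, h⟩ hq
    by_contra hc
    push Not at hc
    obtain ⟨c1, c2, c3⟩ := hc
    apply hq
    rw [c2, c3, Pi.add_apply] at c1
    have : A f + (h t + h t) + f (p t) = 0 := by rw [← c1]; ring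
    rw [CharTwo.add_self_eq_zero, add_zero] at this
    exact CharTwo.add_eq_zero.1 this
  have h1' : cnt (fun q : FX X × FY X => B q.2 ≠ q.2 t ∨
        B (q.2 + fun y => q.1 (p y)) ≠ (q.2 + fun y => q.1 (p y)) t) ≤
      cnt (fun q : FX X × FY X => B q.2 ≠ q.2 t) + cnt (fun q : FX X × FY X =>
        B (q.2 + fun y => q.1 (p y)) ≠ (q.2 + fun y => q.1 (p y)) t) := cnt_or fun a ha => ha
  have h2 : cnt (fun q : FX X × FY X =>
      ¬ A q.1 + B q.2 + B (q.2 + fun y => q.1 (p y)) = 0) ≤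
      cnt (fun q : FY X × FX X => ¬ A q.2 + B q.1 + B (q.1 + fun y => q.2 (p y)) = 0) :=
    cnt_inj _ _ Prod.swap Prod.swap_injective fun a ha => ha
  have h3 : cnt (fun q : FX X × FY X => B q.2 ≠ q.2 t) ≤
      cnt (fun h : FY X => B h ≠ h t) * Nat.card (FX X) :=
    card_le (fun h : FY X => B h ≠ h t) (fun q : FX X × FY X => (q.2, q.1))
    (fun q q' hq => by
      obtain ⟨e1, e2⟩ := Prod.ext_iff.1 hq
      exact Prod.ext e2 e1)
  have h4 : cnt (fun q : FX X × FY X =>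
      B (q.2 + fun y => q.1 (p y)) ≠ (q.2 + fun y => q.1 (p y)) t) ≤
      cnt (fun h : FY X => B h ≠ h t) * Nat.card (FX X) :=
    card_le (fun h : FY X => B h ≠ h t)
    (fun q : FX X × FY X => (q.2 + fun y => q.1 (p y), q.1))
    (fun q q' hq => by
      obtain ⟨e1, e2⟩ := Prod.ext_iff.1 hq
      simp only at e1 e2
      rw [e2] at e1
      exact Prod.ext e2 (add_right_cancel e1))
  have h5 : cnt (fun f : FX X => A f ≠ f (p t)) * Nat.card (FY X) ≤
      cnt (fun q : FX X × FY X => A q.1 ≠ q.1 (p t)) :=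
    le_card (fun f : FX X => A f ≠ f (p t))
    (fun q : FX X × FY X => A q.1 ≠ q.1 (p t)) (fun q => q) (fun q q' hq => hq)
    (fun b c hb => hb)
  have hN : 0 < Nat.card (FY X) := Nat.card_pos
  rw [cnt_eq, ← Nat.card_eq_fintype_card]
  have h6 : 4 * cnt (fun f : FX X => A f ≠ f (p t)) * Nat.card (FY X) <
      Nat.card (FX X) * Nat.card (FY X) := by
    have h7 := Nat.mul_le_mul_right (Nat.card (FX X)) hbad
    nlinarith
  exact Nat.lt_of_mul_lt_mul_right h6

open Classical in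
private theorem blr' {Y : Type} [Fintype Y] (B : (Y → ZMod 2) → ZMod 2)
    (h : 20 * cnt (fun p : (Y → ZMod 2) × (Y → ZMod 2) => B p.1 + B p.2 + B (p.1 + p.2) ≠ 0) ≤
      Nat.card (Y → ZMod 2) ^ 2) :
    ∃ T : Finset Y, 20 * cnt (fun x : Y → ZMod 2 => B x ≠ ∑ y ∈ T, x y) ≤
      Nat.card (Y → ZMod 2) := by
  obtain ⟨T, hT⟩ := blr B (1 / 20) (by
    rw [cnt_eq, ← Nat.card_eq_fintype_card]
    have : ((20 * cnt (fun p : (Y → ZMod 2) × (Y → ZMod 2) =>
        B p.1 + B p.2 + B (p.1 + p.2) ≠ 0) : ℕ) : ℝ) ≤ ((Nat.card (Y → ZMod 2) ^ 2 : ℕ) : ℝ) :=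
      Nat.cast_le.2 h
    push_cast at this
    linarith)
  refine ⟨T, ?_⟩
  rw [cnt_eq, ← Nat.card_eq_fintype_card] at hT
  have : ((20 * cnt (fun x : Y → ZMod 2 => B x ≠ ∑ y ∈ T, x y) : ℕ) : ℝ) ≤
      (Nat.card (Y → ZMod 2) : ℝ) := by
    push_cast
    linarith
  exact_mod_cast this

open Classical in
private theorem product_test' {Y : Type} [Fintype Y] (T : Finset Y) (hT : 2 ≤ T.card) :
    Nat.card (Y → ZMod 2) ^ 2 ≤ 4 * cnt (fun p : (Y → ZMod 2) × (Y → ZMod 2) =>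
      (∑ y ∈ T, p.1 y) * (∑ y ∈ T, p.2 y) ≠ ∑ y ∈ T, p.1 y * p.2 y) := by
  have h := product_test T hT
  rw [cnt_eq, ← Nat.card_eq_fintype_card] at h
  exact h

open Classical in
/-- Soundness.  Proof sketch: every kind `κ` rejects with probability `< 1/20` (each kind has
probability `1/5`).  `blr`: `B` agrees with `∑_T` up to `η < 1/20`.  Kind 1: replacing `B` by `∑_T` at
the four uniformly distributed points, `product_test` gives `|T| ≤ 1`.  Kind 2: `∑_T 1_R = 1`, so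
`T = {(a, b)}` with `R a b`.  Kinds 3, 4: `A₁ f ≠ f a` for less than `3/20` of the `f`, so `dec A₁ = a`
(two different long codes differ at exactly half of the points), `dec A₂ = b`. -/
theorem test_sound [Fintype X] [Nonempty X] (R : X → X → Prop) (B : FY X → ZMod 2)
    (A₁ A₂ : FX X → ZMod 2)
    (h : 100 * (univ.filter fun ω : Om X => ¬ acc ω.1 (fun i => ans R B A₁ A₂ ω i)).card <
      Fintype.card (Om X)) : R (dec A₁) (dec A₂) := by
  have hN : 0 < Nat.card (FY X) := Nat.card_pos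
  have hM : 0 < Nat.card (FX X) := Nat.card_pos
  -- kind 0
  have k0 := kind R B A₁ A₂ h (0 : Fin 5)
    (fun p : FY X × FY X => B p.1 + B p.2 + B (p.1 + p.2) ≠ 0)
    (fun q : (FY X × FY X) × (FY X × FX X) => ((q.1.1, q.1.2, q.2.1), q.2.2))
    (fun q q' hq => by
      simp only [Prod.mk.injEq] at hq
      obtain ⟨⟨e1, e2, e3⟩, e4⟩ := hq
      exact Prod.ext (Prod.ext e1 e2) (Prod.ext e3 e4))
    (fun b c hb => fun hc => hb ((acc0 R B A₁ A₂ _ _ _ _).1 hc))
  -- kind 1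
  have k1 := kind R B A₁ A₂ h (1 : Fin 5)
    (fun p : (FY X × FY X) × FY X => ¬ B p.1.1 * B p.1.2 = B p.2 + B (p.2 + p.1.1 * p.1.2))
    (fun q : ((FY X × FY X) × FY X) × FX X => ((q.1.1.1, q.1.1.2, q.1.2), q.2))
    (fun q q' hq => by
      simp only [Prod.mk.injEq] at hq
      obtain ⟨⟨e1, e2, e3⟩, e4⟩ := hq
      exact Prod.ext (Prod.ext (Prod.ext e1 e2) e3) e4)
    (fun b c hb => fun hc => hb ((acc1 R B A₁ A₂ _ _ _ _).1 hc))
  -- kind 2
  have k2 := kind R B A₁ A₂ h (2 : Fin 5)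
    (fun p : FY X => ¬ B p + B (p + ind R) = 1)
    (fun q : FY X × (FY X × FY X × FX X) => ((q.1, q.2.1, q.2.2.1), q.2.2.2))
    (fun q q' hq => by
      simp only [Prod.mk.injEq] at hq
      obtain ⟨⟨e1, e2, e3⟩, e4⟩ := hq
      exact Prod.ext e1 (Prod.ext e2 (Prod.ext e3 e4)))
    (fun b c hb => fun hc => hb ((acc2 R B A₁ A₂ _ _ _ _).1 hc))
  -- kinds 3, 4
  have k3 := kind R B A₁ A₂ h (3 : Fin 5)
    (fun q : FY X × FX X => ¬ A₁ q.2 + B q.1 + B (q.1 + fun y => q.2 y.1) = 0)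
    (fun q : (FY X × FX X) × (FY X × FY X) => ((q.1.1, q.2.1, q.2.2), q.1.2))
    (fun q q' hq => by
      simp only [Prod.mk.injEq] at hq
      obtain ⟨⟨e1, e2, e3⟩, e4⟩ := hq
      exact Prod.ext (Prod.ext e1 e4) (Prod.ext e2 e3))
    (fun b c hb => fun hc => hb ((acc3 R B A₁ A₂ _ _ _ _).1 hc))
  have k4 := kind R B A₁ A₂ h (4 : Fin 5)
    (fun q : FY X × FX X => ¬ A₂ q.2 + B q.1 + B (q.1 + fun y => q.2 y.2) = 0)
    (fun q : (FY X × FX X) × (FY X × FY X) => ((q.1.1, q.2.1, q.2.2), q.1.2))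
    (fun q q' hq => by
      simp only [Prod.mk.injEq] at hq
      obtain ⟨⟨e1, e2, e3⟩, e4⟩ := hq
      exact Prod.ext (Prod.ext e1 e4) (Prod.ext e2 e3))
    (fun b c hb => fun hc => hb ((acc4 R B A₁ A₂ _ _ _ _).1 hc))
  simp only [Nat.card_prod] at k0 k1 k2 k3 k4
  have k0' : 20 * cnt (fun p : FY X × FY X => B p.1 + B p.2 + B (p.1 + p.2) ≠ 0) ≤
      Nat.card (FY X) ^ 2 := by
    refine le_of_lt (Nat.lt_of_mul_lt_mul_right
      (a := Nat.card (FY X) * Nat.card (FX X)) ?_)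
    generalize cnt (fun p : FY X × FY X => B p.1 + B p.2 + B (p.1 + p.2) ≠ 0) = c at k0 ⊢
    nlinarith
  obtain ⟨T, hbad⟩ := blr' B k0'
  -- kind 1 : T has at most one element
  have hT1 : T.card ≤ 1 := by
    by_contra hc
    have hp := product_test' T (by omega)
    have h1 : cnt (fun q : (FY X × FY X) × FY X =>
        (∑ y ∈ T, q.1.1 y) * (∑ y ∈ T, q.1.2 y) ≠ ∑ y ∈ T, q.1.1 y * q.1.2 y) ≤
        cnt (fun q : (FY X × FY X) × FY X =>
          ¬ B q.1.1 * B q.1.2 = B q.2 + B (q.2 + q.1.1 * q.1.2)) +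
        cnt (fun q : (FY X × FY X) × FY X =>
          (B q.1.1 ≠ ∑ y ∈ T, q.1.1 y ∨ B q.1.2 ≠ ∑ y ∈ T, q.1.2 y) ∨
          (B q.2 ≠ ∑ y ∈ T, q.2 y ∨
            B (q.2 + q.1.1 * q.1.2) ≠ ∑ y ∈ T, (q.2 + q.1.1 * q.1.2) y)) := by
      apply cnt_or
      rintro ⟨⟨h₁, h₂⟩, h₃⟩ hq
      by_contra hc
      push Not at hc
      obtain ⟨c0, ⟨c1, c2⟩, c3, c4⟩ := hc
      apply hq
      rw [c1, c2, c3, c4] at c0
      simp only [Pi.add_apply, Pi.mul_apply, Finset.sum_add_distrib] at c0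
      rw [← add_assoc, CharTwo.add_self_eq_zero, zero_add] at c0
      exact c0
    have h2 := cnt_or (P := fun q : (FY X × FY X) × FY X =>
          (B q.1.1 ≠ ∑ y ∈ T, q.1.1 y ∨ B q.1.2 ≠ ∑ y ∈ T, q.1.2 y) ∨
          (B q.2 ≠ ∑ y ∈ T, q.2 y ∨
            B (q.2 + q.1.1 * q.1.2) ≠ ∑ y ∈ T, (q.2 + q.1.1 * q.1.2) y))
      (Q := fun q => B q.1.1 ≠ ∑ y ∈ T, q.1.1 y ∨ B q.1.2 ≠ ∑ y ∈ T, q.1.2 y)
      (R := fun q => B q.2 ≠ ∑ y ∈ T, q.2 y ∨
            B (q.2 + q.1.1 * q.1.2) ≠ ∑ y ∈ T, (q.2 + q.1.1 * q.1.2) y) fun a ha => ha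
    have h3 := cnt_or (P := fun q : (FY X × FY X) × FY X =>
          B q.1.1 ≠ ∑ y ∈ T, q.1.1 y ∨ B q.1.2 ≠ ∑ y ∈ T, q.1.2 y)
      (Q := fun q => B q.1.1 ≠ ∑ y ∈ T, q.1.1 y)
      (R := fun q => B q.1.2 ≠ ∑ y ∈ T, q.1.2 y) fun a ha => ha
    have h4 := cnt_or (P := fun q : (FY X × FY X) × FY X => B q.2 ≠ ∑ y ∈ T, q.2 y ∨
            B (q.2 + q.1.1 * q.1.2) ≠ ∑ y ∈ T, (q.2 + q.1.1 * q.1.2) y)
      (Q := fun q => B q.2 ≠ ∑ y ∈ T, q.2 y)
      (R := fun q => B (q.2 + q.1.1 * q.1.2) ≠ ∑ y ∈ T, (q.2 + q.1.1 * q.1.2) y) fun a ha => ha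
    have e1 : cnt (fun q : (FY X × FY X) × FY X => B q.1.1 ≠ ∑ y ∈ T, q.1.1 y) ≤
        cnt (fun h : FY X => B h ≠ ∑ y ∈ T, h y) * (Nat.card (FY X) * Nat.card (FY X)) := by
      rw [← Nat.card_prod]
      exact card_le (fun h : FY X => B h ≠ ∑ y ∈ T, h y)
        (fun q : (FY X × FY X) × FY X => (q.1.1, (q.1.2, q.2)))
        (fun q q' hq => by
          simp only [Prod.mk.injEq] at hq
          exact Prod.ext (Prod.ext hq.1 hq.2.1) hq.2.2)
    have e2 : cnt (fun q : (FY X × FY X) × FY X => B q.1.2 ≠ ∑ y ∈ T, q.1.2 y) ≤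
        cnt (fun h : FY X => B h ≠ ∑ y ∈ T, h y) * (Nat.card (FY X) * Nat.card (FY X)) := by
      rw [← Nat.card_prod]
      exact card_le (fun h : FY X => B h ≠ ∑ y ∈ T, h y)
        (fun q : (FY X × FY X) × FY X => (q.1.2, (q.1.1, q.2)))
        (fun q q' hq => by
          simp only [Prod.mk.injEq] at hq
          exact Prod.ext (Prod.ext hq.2.1 hq.1) hq.2.2)
    have e3 : cnt (fun q : (FY X × FY X) × FY X => B q.2 ≠ ∑ y ∈ T, q.2 y) ≤
        cnt (fun h : FY X => B h ≠ ∑ y ∈ T, h y) * (Nat.card (FY X) * Nat.card (FY X)) := by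
      rw [← Nat.card_prod]
      exact card_le (fun h : FY X => B h ≠ ∑ y ∈ T, h y)
        (fun q : (FY X × FY X) × FY X => (q.2, (q.1.1, q.1.2)))
        (fun q q' hq => by
          simp only [Prod.mk.injEq] at hq
          exact Prod.ext (Prod.ext hq.2.1 hq.2.2) hq.1)
    have e4 : cnt (fun q : (FY X × FY X) × FY X =>
        B (q.2 + q.1.1 * q.1.2) ≠ ∑ y ∈ T, (q.2 + q.1.1 * q.1.2) y) ≤
        cnt (fun h : FY X => B h ≠ ∑ y ∈ T, h y) * (Nat.card (FY X) * Nat.card (FY X)) := by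
      rw [← Nat.card_prod]
      exact card_le (fun h : FY X => B h ≠ ∑ y ∈ T, h y)
        (fun q : (FY X × FY X) × FY X => (q.2 + q.1.1 * q.1.2, (q.1.1, q.1.2)))
        (fun q q' hq => by
          simp only [Prod.mk.injEq] at hq
          obtain ⟨a1, a2, a3⟩ := hq
          rw [a2, a3] at a1
          exact Prod.ext (Prod.ext a2 a3) (add_right_cancel a1))
    have e5 : cnt (fun p : FY X × FY X =>
        (∑ y ∈ T, p.1 y) * (∑ y ∈ T, p.2 y) ≠ ∑ y ∈ T, p.1 y * p.2 y) * Nat.card (FY X) ≤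
        cnt (fun q : (FY X × FY X) × FY X =>
        (∑ y ∈ T, q.1.1 y) * (∑ y ∈ T, q.1.2 y) ≠ ∑ y ∈ T, q.1.1 y * q.1.2 y) :=
      le_card (fun p : FY X × FY X =>
        (∑ y ∈ T, p.1 y) * (∑ y ∈ T, p.2 y) ≠ ∑ y ∈ T, p.1 y * p.2 y)
      (fun q : (FY X × FY X) × FY X =>
        (∑ y ∈ T, q.1.1 y) * (∑ y ∈ T, q.1.2 y) ≠ ∑ y ∈ T, q.1.1 y * q.1.2 y)
      (fun q => q) (fun q q' hq => hq) (fun b c hb => hb)
    have k1' : 20 * cnt (fun p : (FY X × FY X) × FY X =>
        ¬ B p.1.1 * B p.1.2 = B p.2 + B (p.2 + p.1.1 * p.1.2)) < Nat.card (FY X) ^ 3 := by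
      refine Nat.lt_of_mul_lt_mul_right (a := Nat.card (FX X)) ?_
      rw [mul_assoc]
      exact k1
    have h5 := Nat.mul_le_mul_right (Nat.card (FY X) * Nat.card (FY X)) hbad
    have h6 := Nat.mul_le_mul_right (Nat.card (FY X)) hp
    nlinarith
  -- kind 2
  have hT2 : ∑ y ∈ T, ind R y = 1 := by
    by_contra hc
    have h1 : cnt (fun _ : FY X => True) ≤ cnt (fun p : FY X => ¬ B p + B (p + ind R) = 1) +
        cnt (fun p : FY X => B p ≠ ∑ y ∈ T, p y ∨
          B (p + ind R) ≠ ∑ y ∈ T, (p + ind R) y) := by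
      apply cnt_or
      intro p _
      by_contra hq
      push Not at hq
      obtain ⟨c0, c1, c2⟩ := hq
      apply hc
      rw [c1, c2] at c0
      simp only [Pi.add_apply, Finset.sum_add_distrib] at c0
      rw [← add_assoc, CharTwo.add_self_eq_zero, zero_add] at c0
      exact c0
    rw [cnt_all] at h1
    have h2 := cnt_or (P := fun p : FY X => B p ≠ ∑ y ∈ T, p y ∨
          B (p + ind R) ≠ ∑ y ∈ T, (p + ind R) y) (Q := fun p => B p ≠ ∑ y ∈ T, p y)
      (R := fun p => B (p + ind R) ≠ ∑ y ∈ T, (p + ind R) y) fun a ha => ha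
    have h3 : cnt (fun p : FY X => B (p + ind R) ≠ ∑ y ∈ T, (p + ind R) y) ≤
        cnt (fun p : FY X => B p ≠ ∑ y ∈ T, p y) :=
      cnt_inj _ _ (fun p => p + ind R) (fun p p' hp => add_right_cancel hp) fun a ha => ha
    have k2' : 20 * cnt (fun p : FY X => ¬ B p + B (p + ind R) = 1) < Nat.card (FY X) := by
      refine Nat.lt_of_mul_lt_mul_right
        (a := Nat.card (FY X) * (Nat.card (FY X) * Nat.card (FX X))) ?_
      generalize cnt (fun p : FY X => ¬ B p + B (p + ind R) = 1) = c at k2 ⊢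
      calc 20 * c * (Nat.card (FY X) * (Nat.card (FY X) * Nat.card (FX X)))
          = 20 * (c * (Nat.card (FY X) * (Nat.card (FY X) * Nat.card (FX X)))) := by ring
        _ < Nat.card (FY X) ^ 3 * Nat.card (FX X) := k2
        _ = _ := by ring
    have hbad' : 20 * cnt (fun p : FY X => B p ≠ ∑ y ∈ T, p y) ≤ Nat.card (FY X) := hbad
    omega
  have hT3 : ∃ t, T = {t} := by
    apply Finset.card_eq_one.1
    have : T.card ≠ 0 := by
      intro h0
      rw [Finset.card_eq_zero.1 h0] at hT2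
      simp at hT2
    omega
  obtain ⟨t, rfl⟩ := hT3
  rw [Finset.sum_singleton] at hT2
  have hR : R t.1 t.2 := by
    by_contra hc
    unfold ind at hT2
    rw [if_neg hc] at hT2
    exact zero_ne_one hT2
  simp only [Finset.sum_singleton] at hbad
  have r1 : dec A₁ = t.1 := by
    apply kindA B A₁ t (fun y => y.1) hbad
    refine Nat.lt_of_mul_lt_mul_right (a := Nat.card (FY X) * Nat.card (FY X)) ?_
    generalize cnt (fun q : FY X × FX X =>
        ¬ A₁ q.2 + B q.1 + B (q.1 + fun y => q.2 y.1) = 0) = c at k3 ⊢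
    calc 20 * c * (Nat.card (FY X) * Nat.card (FY X))
        = 20 * (c * (Nat.card (FY X) * Nat.card (FY X))) := by ring
      _ < Nat.card (FY X) ^ 3 * Nat.card (FX X) := k3
      _ = _ := by ring
  have r2 : dec A₂ = t.2 := by
    apply kindA B A₂ t (fun y => y.2) hbad
    refine Nat.lt_of_mul_lt_mul_right (a := Nat.card (FY X) * Nat.card (FY X)) ?_
    generalize cnt (fun q : FY X × FX X =>
        ¬ A₂ q.2 + B q.1 + B (q.1 + fun y => q.2 y.2) = 0) = c at k4 ⊢
    calc 20 * c * (Nat.card (FY X) * Nat.card (FY X))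
        = 20 * (c * (Nat.card (FY X) * Nat.card (FY X))) := by ring
      _ < Nat.card (FY X) ^ 3 * Nat.card (FX X) := k4
      _ = _ := by ring
  rw [r1, r2]
  exact hR

end Pool.Agent.PCP
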