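import Pool.Agent.PCP.Seq
import Pool.Agent.PCP.RawPow
import Pool.Agent.PCP.RawAREq
import Pool.Agent.PCP.RawARDfn
import Pool.Agent.PCP.BaseDfn

/-!
# One round on words (package W11)
-/

set_option autoImplicit false

namespace Pool.Agent.PCP

open Pool.Agent.PT Pool.Agent.Book19

variable {Γ : Type}

/-- The inverse ports of the power. -/
def pinv (t : ℕ) (p : J1 J0 t) : J1 J0 t := (rev inv0 (p.2.val + 1) p.1, p.2)

/-- The raw graph of the next stage. -/
noncomputable def nextR (t : ℕ) (r : Raw J0 S0) : Raw J0 S0 := (r.Pow inv0 t).AR (pinv t)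

theorem nextR_raw (t : ℕ) (s : St) : nextR t s.G.raw = (s.next t).G.raw := by
  have h1 := raw_AR (s.G.Pow t)
  have h2 := raw_pow s.G t
  have h3 : (s.G.Pow t).inv = pinv t := by
    funext p
    change (rev s.G.inv (p.2.val + 1) p.1, p.2) = _
    rw [s.inv]
    rfl
  change nextR t s.G.raw = (ARF (s.G.Pow t)).raw
  rw [h1, h2, h3, s.inv]
  rfl

/-- One round on words. -/
noncomputable def F1 (t : ℕ) (y : List Lt) : List Lt := (nextR t (decRaw y)).enc (decC y / 2)

theorem F1_enc (t : ℕ) (s : St) {c : ℕ} (hc : c < s.M * s.M * (s.M * s.M)) :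
    F1 t (s.G.raw.enc c) = (s.next t).G.raw.enc (c / 2) := by
  unfold F1
  rw [decRaw_enc _ (PG.raw_good _), decC_enc _ _ hc, nextR_raw]

/-- The initial raw graph. -/
noncomputable def initR (n : ℕ) (lit : ℕ → ℕ → ℕ) : Raw J0 S0 := (base n lit).raw.AR invB

theorem initR_raw (n : ℕ) (lit : ℕ → ℕ → ℕ) : initR n lit = (St.init n lit).G.raw := by
  have h1 := raw_AR (base n lit)
  change (base n lit).raw.AR invB = (ARF (base n lit)).raw
  rw [h1, base_inv]

theorem dfn_nextR (t : ℕ) : Dfn fun y => nextR t (decRaw y) := by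
  exact (dfn_decRaw.pow inv0 t).AR (pinv t)

theorem dfn_initR {n : List Γ → ℕ} {lit : List Γ → ℕ → ℕ → ℕ} (hn : UF fun x _ => n x)
    (hlit : UF fun x e => lit x (e 0) (e 1)) : Dfn fun x => initR (n x) (lit x) := by
  exact (dfn_base hn hlit).AR invB

/-- The words of the stages: after `i` rounds the counter is `c / 2 ^ i`. -/
theorem F1_iter (t : ℕ) (s : St) {c : ℕ} (hc : c < s.M * s.M * (s.M * s.M)) (i : ℕ) :
    (F1 t)^[i] (s.G.raw.enc c) = ((St.next t)^[i] s).G.raw.enc (c / 2 ^ i) := by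
  induction i with
  | zero => simp
  | succ i ih =>
    rw [Function.iterate_succ_apply', Function.iterate_succ_apply', ih, F1_enc,
      Nat.div_div_eq_div_mul, ← pow_succ]
    rw [St.iter_M]
    have h0 : 0 < cs (J1 J0 t) (X1 J0 S0 t) := cs_pos _ _
    have h1 : s.M ≤ s.M * cs (J1 J0 t) (X1 J0 S0 t) ^ i :=
      Nat.le_mul_of_pos_right _ (Nat.pow_pos h0)
    exact lt_of_le_of_lt (Nat.div_le_self _ _) (lt_of_lt_of_le hc
      (Nat.mul_le_mul (Nat.mul_le_mul h1 h1) (Nat.mul_le_mul h1 h1)))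

end Pool.Agent.PCP
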